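import Pool.Agent.Lib.MP_2da099_lc.R2.Defs
import Mathlib.Algebra.MvPolynomial.PDeriv
import Mathlib.Algebra.MvPolynomial.Degrees
import Mathlib.RingTheory.MvPolynomial.Basic
import Mathlib.LinearAlgebra.Matrix.ToLin
import Mathlib.Data.Matrix.Mul
import Mathlib.Data.Nat.Log

/-!
# Word problems of metabelian groups, uniform exponent: definitions
-/

set_option autoImplicit false

namespace Pool.Agent.WPU

open Pool.Agent.Lib.PolyTime Pool.Agent.WPM Pool.Agent.WPR

/-! ### Time -/

/-- The predicate `Z` on lists is decided in time `O(B n)`. -/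
def Dec (B : ℕ → ℕ) {ι : Type} [Enc ι] (Z : List ι → Prop) : Prop :=
  ∃ (f : List ι → Bool) (T : List ι → ℕ) (C : ℕ), CT f T ∧ (∀ w, f w = true ↔ Z w) ∧
    ∀ w, T w ≤ C * B w.length

/-- The logarithm. -/
def lg (n : ℕ) : ℕ := Nat.log 2 (n + 1) + 1

/-- The time bound `n ^ 4 log ^ 2 n`. -/
def TB (n : ℕ) : ℕ := (n + 1) ^ 4 * lg n ^ 2

instance fact22 : Fact (2 ≤ 2) := ⟨le_rfl⟩

/-- A vector of integers as a list. -/
def zl {N : ℕ} (x : Fin N → ℤ) : List (ZB 2) := List.ofFn (fun i => (ZB.mk (x i) : ZB 2))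

/-! ### Words in the group ring -/

/-- The group ring of `ℤ ^ r`. -/
abbrev LamZ (r : ℕ) : Type := AddMonoidAlgebra ℤ (Fin r → ℤ)

/-- The monomials. -/
noncomputable def monZ {r : ℕ} (v : Fin r → ℤ) : LamZ r := AddMonoidAlgebra.single v 1

/-- The vector of a word. -/
noncomputable def vecW {r : ℕ} (w : List (Letter r)) : Letter r → LamZ r :=
  ((posl 0 w).map (fun x => (Pi.single x.2 (monZ x.1) : Letter r → LamZ r))).sum

/-! ### Exponential polynomials in a field -/

/-- The product of the powers of the `η i` with exponents `c i`. -/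
def mexp {K : Type} [Field K] {r : ℕ} (η : Fin r → Kˣ) (c : Fin r → ℤ) : K :=
  ∏ i, ((η i ^ c i : Kˣ) : K)

/-- The value at `c` of the polynomial with the coefficients `κ`. -/
def pval {K : Type} [CommRing K] {r k : ℕ} (κ : (Fin r → Fin k) → K) (c : Fin r → ℤ) : K :=
  ∑ γ : Fin r → Fin k, κ γ * ∏ i, (c i : K) ^ (γ i : ℕ)

/-- The sum over the path of a word. -/
def esum {K : Type} [Field K] {r k : ℕ} (η : Fin r → Kˣ) (κ : Letter r → (Fin r → Fin k) → K)
    (w : List (Letter r)) : K :=
  ((posl 0 w).map (fun x => pval (κ x.2) x.1 * mexp η x.1)).sum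

/-! ### Holonomic data -/

/-- The move of a letter, or no move. -/
def mvo {r : ℕ} : Option (Letter r) → (Fin r → ℤ)
  | none => 0
  | some l => sz (sgl l)

/-- The norm of an exponent. -/
def nrm {r : ℕ} (c : Fin r → ℤ) : ℕ := ∑ i, (c i).natAbs

/-- Polynomials with integer coefficients in `t` variables. -/
abbrev SP (t : ℕ) : Type := MvPolynomial (Fin t) ℤ

/-- Vectors `Psi k c` of polynomials (`nrm c ≤ k`), with recurrences in `c` and with linear differential
equations, the coefficients are affine in `k` and `c`. -/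
structure Hol (r : ℕ) where
  /-- number of variables -/
  t : ℕ
  /-- length of the vectors -/
  d : ℕ
  /-- common denominator -/
  g : SP t
  /-- matrices of the moves -/
  Xi : Option (Letter r) → Matrix (Fin d) (Fin d) (SP t)
  /-- constant part of the differential equations -/
  Om0 : Fin t → Matrix (Fin d) (Fin d) (SP t)
  /-- linear part of the differential equations -/
  Om : Fin t → Fin r → Matrix (Fin d) (Fin d) (SP t)
  /-- the vectors -/
  Psi : ℕ → (Fin r → ℤ) → Fin d → SP t
  stay : ∀ k c, nrm c ≤ k → Psi (k + 1) c = g • Psi k c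
  move : ∀ k c o, nrm c ≤ k → Psi (k + 1) (c + mvo o) = (Xi o).mulVec (Psi k c)
  deriv : ∀ k c i κ, nrm c ≤ k → g * MvPolynomial.pderiv i (Psi k c κ) =
    k • (MvPolynomial.pderiv i g * Psi k c κ) + (Om0 i).mulVec (Psi k c) κ +
      ∑ j, c j • (Om i j).mulVec (Psi k c) κ

/-- The polynomial matrix `Σ c ^ γ Th γ`. -/
noncomputable def thv {r t d K : ℕ} (Th : (Fin r → Fin K) → Matrix (Fin d) (Fin d) (SP t))
    (c : Fin r → ℤ) : Matrix (Fin d) (Fin d) (SP t) :=
  ∑ γ : Fin r → Fin K, (∏ i, c i ^ (γ i : ℕ)) • Th γ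

/-- The sum over the path of a word, in the module of vectors. -/
noncomputable def hsum {r K : ℕ} (H : Hol r)
    (Th : Letter r → (Fin r → Fin K) → Matrix (Fin H.d) (Fin H.d) (SP H.t)) (w : List (Letter r)) :
    Fin H.d → SP H.t :=
  ((posl 0 w).map (fun x => (thv (Th x.2) x.1).mulVec (H.Psi (2 * w.length) x.1))).sum

/-! ### The functionals -/

/-- The moments of the weight `exp (- y ^ (2 D) / (2 D))`, the part with residue `2 b` modulo `2 D`. -/
def lam (D b a : ℕ) : ℤ :=
  if a % (2 * D) = 2 * b then ∏ j ∈ Finset.range (a / (2 * D)), ((2 * b + 1 + 2 * D * j : ℕ) : ℤ)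
  else 0

/-- The functionals. -/
noncomputable def Lf (D : ℕ) {t : ℕ} (β : Fin t → Fin D) : SP t →ₗ[ℤ] ℤ :=
  (MvPolynomial.basisMonomials (Fin t) ℤ).constr ℤ (fun α => ∏ i, lam D (β i) (α i))

/-- The bilinear forms in the vectors of level `2 k`. -/
noncomputable def bilf {r : ℕ} (H : Hol r) (D : ℕ) (β : Fin H.t → Fin D)
    (q : Matrix (Fin H.d) (Fin H.d) (SP H.t)) (k : ℕ) (v w : Fin r → ℤ) : ℤ :=
  Lf D β (∑ κ, ∑ κ', q κ κ' * H.Psi (2 * k) v κ * H.Psi (2 * k) w κ')

/-- The names of the parameters `1`, `k`, `v j`, `w j`. -/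
abbrev Par (r : ℕ) : Type := Option (Option (Fin r ⊕ Fin r))

/-- The values of the parameters. -/
def par {r : ℕ} (k : ℕ) (v w : Fin r → ℤ) : Par r → ℤ
  | none => 1
  | some none => k
  | some (some (Sum.inl j)) => v j
  | some (some (Sum.inr j)) => w j

/-- The names of the monomials `k`, `v ^ γ w ^ γ'`. -/
abbrev PI (r K : ℕ) : Type := Option ((Fin r → Fin K) × (Fin r → Fin K))

/-- The values of the monomials. -/
def pmv {r K : ℕ} (k : ℕ) (v w : Fin r → ℤ) : PI r K → ℤ
  | none => k
  | some γ => (∏ i, v i ^ (γ.1 i : ℕ)) * ∏ i, w i ^ (γ.2 i : ℕ)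

/-- The form `q` of level `k + 1` is a combination of forms of level `k` and of degree at most `D1`, with
coefficients which are affine in the parameters. -/
def RecOK {r : ℕ} (H : Hol r) (D D1 : ℕ) (β : Fin H.t → Fin D) (o o' : Option (Letter r))
    (q : Matrix (Fin H.d) (Fin H.d) (SP H.t)) : Prop :=
  ∃ qa : Par r → Matrix (Fin H.d) (Fin H.d) (SP H.t),
    (∀ a κ κ', (qa a κ κ').totalDegree ≤ D1) ∧
    ∀ (k : ℕ) (v w : Fin r → ℤ), nrm v ≤ k → nrm w ≤ k →
      bilf H D β q (k + 1) (v + mvo o) (w + mvo o') =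
        ∑ a, par k v w a * bilf H D β (qa a) k v w

/-! ### Bilinear machines -/

/-- Machines with a vector of parameters, transformed linearly, and a vector transformed by matrices which
are linear in the parameters. -/
structure BM (ι : Type) where
  /-- number of parameters -/
  N1 : ℕ
  /-- length of the vector -/
  N2 : ℕ
  /-- change of the parameters -/
  A : ι → Matrix (Fin N1) (Fin N1) ℤ
  /-- change of the vector -/
  B : ι → Fin N1 → Matrix (Fin N2) (Fin N2) ℤ
  /-- initial parameters -/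
  p0 : Fin N1 → ℤ
  /-- initial vector -/
  m0 : Fin N2 → ℤ

/-- One step. -/
def BM.step {ι : Type} (M : BM ι) (x : (Fin M.N1 → ℤ) × (Fin M.N2 → ℤ)) (i : ι) :
    (Fin M.N1 → ℤ) × (Fin M.N2 → ℤ) :=
  ((M.A i).mulVec x.1, ∑ a, x.1 a • (M.B i a).mulVec x.2)

/-- The state after a list of instructions. -/
def BM.run {ι : Type} (M : BM ι) (u : List ι) : (Fin M.N1 → ℤ) × (Fin M.N2 → ℤ) :=
  u.foldl M.step (M.p0, M.m0)

/-- The output. -/
def BM.out {ι : Type} (M : BM ι) (c : Fin M.N1 → Fin M.N2 → ℤ)
    (x : (Fin M.N1 → ℤ) × (Fin M.N2 → ℤ)) : ℤ := ∑ a, ∑ j, c a j * (x.1 a * x.2 j)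

/-- The parameters grow polynomially. -/
def BM.Tame {ι : Type} (M : BM ι) : Prop :=
  ∃ C : ℕ, ∀ (u : List ι) (a : Fin M.N1), ((M.run u).1 a).natAbs ≤ C * (u.length + 1) ^ C

/-- The reversed prefixes before the letters of a list. -/
def pre {α : Type} : List α → List α → List (List α × α)
  | _, [] => []
  | s, l :: w => (s, l) :: pre (l :: s) w

/-- The reversed prefixes before the letters of a word, padded to the length of the word. -/
def paths {r : ℕ} (w : List (Letter r)) : List (List (Option (Letter r)) × Letter r) :=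
  (pre [] w).map (fun x => (padTo w.length none (x.1.map some), x.2))

/-- A bound for the number and the lengths of the elements of a list of prefixes. -/
def pmx {r : ℕ} (ps : List (List (Option (Letter r)) × Letter r)) : ℕ :=
  mxl (ps.map Prod.fst) + ps.length

/-- The position after some moves. -/
def vpos {r : ℕ} (u : List (Option (Letter r))) : Fin r → ℤ := (u.map mvo).sum

/-- The double sum of the outputs over the pairs of prefixes. -/
def BM.psum {r : ℕ} (M : BM (Option (Letter r) × Option (Letter r)))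
    (c : Letter r → Letter r → Fin M.N1 → Fin M.N2 → ℤ) (w : List (Letter r)) : ℤ :=
  ((paths w).map (fun x => ((paths w).map
    (fun y => M.out (c x.2 y.2) (M.run (x.1.zip y.1)))).sum)).sum

end Pool.Agent.WPU
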