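import Pool.Agent.Lib.MP_2da099_lc.UE.PDefs
import Mathlib.FieldTheory.SeparablyGenerated
import Mathlib.FieldTheory.PrimitiveElement
import Mathlib.FieldTheory.PurelyInseparable.Basic
import Mathlib.FieldTheory.PurelyInseparable.PerfectClosure
import Mathlib.FieldTheory.Perfect
import Mathlib.FieldTheory.Finite.Polynomial
import Mathlib.RingTheory.MvPolynomial.Tower
import Mathlib.RingTheory.PowerBasis
import Mathlib.Algebra.Algebra.ZMod

/-!
# B3a: separating transcendence bases

HINTS.  `K` is a `ZMod p`-algebra (`ZMod.algebra K p`), `ZMod p` is perfect, `K` is essentially of finite type over `ZMod p`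
(`IntermediateField.fg_top` / adjoin of the finite set `S`; `Subfield.closure S` is `IntermediateField.adjoin (ZMod p) S`).
`exists_isTranscendenceBasis_and_isSeparable_of_perfectField` gives a finite separating transcendence basis `y`.  Over
`F0 = ZMod p (y)` (`IntermediateField.adjoin`) `K` is finite (algebraic and finitely generated) and separable: primitive element `θ`
(`Field.exists_primitive_element`), `g = minpoly F0 θ` mapped to `K`, basis `1, θ, .., θ ^ (n - 1)` (`IntermediateField.powerBasis...`).
Polynomials over `ℤ` which vanish at `y` are divisible by `p` (algebraic independence over `ZMod p`; the kernel of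
`MvPolynomial.map (Int.castRingHom (ZMod p))` is `p` times everything).  Last claim: `K` is separable over `F0` and generated
over it by `S`, so also by the `p ^ M`-th powers of `S`
(`IntermediateField.adjoin_eq_adjoin_pow_expChar_pow_of_isSeparable` and similar names in
`Mathlib.FieldTheory.PurelyInseparable`).
-/

set_option autoImplicit false

namespace Pool.Agent.WPU

open Pool.Agent.WPM Pool.Agent.WPR

section

variable (p : ℕ) [Fact p.Prime] (K : Type) [Field K] [Algebra (ZMod p) K]

theorem B3a_alg_mem (L : Subfield K) (a : ZMod p) : algebraMap (ZMod p) K a ∈ L := by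
  have h1 : ((a.val : ℕ) : ZMod p) = a := ZMod.natCast_zmod_val a
  rw [← h1, map_natCast]
  exact natCast_mem L _

theorem B3a_closure (T : Set K) :
    (IntermediateField.adjoin (ZMod p) T).toSubfield = Subfield.closure T := by
  rw [IntermediateField.adjoin_toSubfield]
  refine le_antisymm (Subfield.closure_le.2 ?_) (Subfield.closure_mono Set.subset_union_right)
  rintro x (⟨a, rfl⟩ | hx)
  · exact B3a_alg_mem p K _ a
  · exact Subfield.subset_closure hx

theorem B3a_ess (S : Set K) (hS : S.Finite) (hgen : Subfield.closure S = ⊤) :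
    Algebra.EssFiniteType (ZMod p) K := by
  rw [← IntermediateField.fg_top_iff]
  refine ⟨hS.toFinset, ?_⟩
  rw [Set.Finite.coe_toFinset, ← IntermediateField.toSubfield_inj, B3a_closure, hgen]
  rfl

end

theorem B3a_intpoly (p : ℕ) [Fact p.Prime] (K : Type) [Field K] [Algebra (ZMod p) K] {t : ℕ}
    (y : Fin t → K) (hy : AlgebraicIndependent (ZMod p) y) (q : SP t)
    (hq : MvPolynomial.aeval y q = 0) : ∃ q' : SP t, q = p * q' := by
  have h1 : MvPolynomial.aeval y (MvPolynomial.map (algebraMap ℤ (ZMod p)) q) = 0 := by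
    rw [MvPolynomial.aeval_map_algebraMap, hq]
  have h2 : MvPolynomial.map (algebraMap ℤ (ZMod p)) q = 0 := by
    apply hy
    rw [h1, map_zero]
  have h3 : MvPolynomial.C ((p : ℕ) : ℤ) ∣ q := (MvPolynomial.C_dvd_iff_zmod p q).2 h2
  obtain ⟨q', hq'⟩ := h3
  refine ⟨q', ?_⟩
  rw [hq', map_natCast]

theorem exists_sepbasis (p : ℕ) [Fact p.Prime] (K : Type) [Field K] [CharP K p] (S : Set K)
    (hS : S.Finite) (hgen : Subfield.closure S = ⊤) :
    ∃ (t : ℕ) (y : Fin t → K) (θ : K) (g : Polynomial K),
      (∀ q : SP t, MvPolynomial.aeval y q = 0 → ∃ q' : SP t, q = p * q') ∧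
      g.Monic ∧ (∀ i, g.coeff i ∈ Subfield.closure (Set.range y)) ∧
      g.eval θ = 0 ∧ g.derivative.eval θ ≠ 0 ∧
      (∀ c : Fin g.natDegree → K, (∀ i, c i ∈ Subfield.closure (Set.range y)) →
        ∑ i, c i * θ ^ (i : ℕ) = 0 → ∀ i, c i = 0) ∧
      (∀ z : K, ∃ c : Fin g.natDegree → K, (∀ i, c i ∈ Subfield.closure (Set.range y)) ∧
        z = ∑ i, c i * θ ^ (i : ℕ)) ∧
      ∀ (S' : Set K), Subfield.closure S' = ⊤ → ∀ M : ℕ,
        Subfield.closure (Set.range y ∪ (fun x => x ^ p ^ M) '' S') = ⊤ := by
  classical
  let _ : Algebra (ZMod p) K := ZMod.algebra K p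
  have hess : Algebra.EssFiniteType (ZMod p) K := B3a_ess p K S hS hgen
  obtain ⟨s, hs, hsep⟩ :=
    exists_isTranscendenceBasis_and_isSeparable_of_perfectField (ZMod p) K
  set F0 := IntermediateField.adjoin (ZMod p) (s : Set K) with hF0
  let e : Fin s.card ≃ s := s.equivFin.symm
  let y : Fin s.card → K := fun i => (e i : K)
  have hrange : Set.range y = (s : Set K) := by
    ext x
    constructor
    · rintro ⟨i, rfl⟩
      exact (e i).2
    · intro hx
      exact ⟨e.symm ⟨x, hx⟩, by simp [y]⟩
  have hmem : ∀ x : K, x ∈ Subfield.closure (Set.range y) ↔ x ∈ F0 := by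
    intro x
    rw [hrange, ← B3a_closure p K]
    rfl
  have hyind : AlgebraicIndependent (ZMod p) y :=
    hs.1.comp e e.injective
  -- finiteness
  have hess0 : Algebra.EssFiniteType F0 K := Algebra.EssFiniteType.of_comp (ZMod p) F0 K
  have halg : Algebra.IsAlgebraic F0 K := Algebra.IsSeparable.isAlgebraic F0 K
  have hfin : Module.Finite F0 K := Algebra.finite_of_essFiniteType_of_isAlgebraic
  obtain ⟨θ, hθ⟩ := Field.exists_primitive_element F0 K
  have hint : IsIntegral F0 θ := Algebra.IsIntegral.isIntegral θ
  set m := minpoly F0 θ with hm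
  set g : Polynomial K := m.map (algebraMap F0 K) with hg
  have hmonic : m.Monic := minpoly.monic hint
  have hdeg : g.natDegree = m.natDegree := hmonic.natDegree_map (algebraMap F0 K)
  have hsepm : m.Separable := Algebra.IsSeparable.isSeparable F0 θ
  have haev : Polynomial.aeval θ m = 0 := minpoly.aeval F0 θ
  have hspan : ∀ z : K, ∃ q : Polynomial F0, q.natDegree < m.natDegree ∧ Polynomial.aeval θ q = z := by
    intro z
    have h1 : z ∈ Algebra.adjoin F0 {θ} := by
      rw [← IntermediateField.adjoin_simple_toSubalgebra_of_isAlgebraic hint.isAlgebraic, hθ]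
      trivial
    rw [Algebra.adjoin_singleton_eq_range_aeval] at h1
    obtain ⟨q, hq⟩ := h1
    have hpos : 0 < m.natDegree := minpoly.natDegree_pos hint
    refine ⟨q %ₘ m, Polynomial.natDegree_modByMonic_lt q hmonic ?_, ?_⟩
    · intro h
      rw [h, Polynomial.natDegree_one] at hpos
      exact lt_irrefl _ hpos
    · rw [hm, minpoly.aeval_modByMonic_minpoly]
      exact hq
  refine ⟨s.card, y, θ, g, B3a_intpoly p K y hyind, hmonic.map _, ?_, ?_, ?_, ?_, ?_, ?_⟩
  · intro i
    rw [hmem, hg, Polynomial.coeff_map]
    exact (m.coeff i).2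
  · rw [hg, Polynomial.eval_map_algebraMap, haev]
  · rw [hg, Polynomial.derivative_map, Polynomial.eval_map]
    exact hsepm.eval₂_derivative_ne_zero _ (by
      rw [← Polynomial.aeval_def]; exact haev)
  · intro c hc h0
    have hli := linearIndependent_pow (K := F0) θ
    rw [Fintype.linearIndependent_iff] at hli
    have h1 := hli (fun i => ⟨c (Fin.cast hdeg.symm i), (hmem _).1 (hc _)⟩) (by
      rw [← h0]
      refine Fintype.sum_equiv (finCongr hdeg.symm) _ _ fun i => ?_
      rw [Algebra.smul_def]
      rfl)
    intro i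
    have h2 := h1 (Fin.cast hdeg i)
    have h3 := congrArg (fun z : F0 => (z : K)) h2
    simpa using h3
  · intro z
    obtain ⟨q, hq1, hq2⟩ := hspan z
    refine ⟨fun i => (q.coeff (i : ℕ) : K), fun i => (hmem _).2 (q.coeff (i : ℕ)).2, ?_⟩
    rw [← hq2, Polynomial.aeval_eq_sum_range' (n := g.natDegree) (by rw [hdeg]; exact hq1) θ,
      Finset.sum_range]
    refine Finset.sum_congr rfl fun i _ => ?_
    rw [Algebra.smul_def]
    rfl
  · intro S' hS' M
    have hexp : ExpChar F0 p :=
      expChar_of_injective_algebraMap (algebraMap (ZMod p) F0).injective p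
    have h1 : IntermediateField.adjoin F0 S' = ⊤ := by
      rw [← IntermediateField.toSubfield_inj]
      refine top_le_iff.1 ?_
      rw [← hS', IntermediateField.adjoin_toSubfield]
      exact Subfield.closure_mono Set.subset_union_right
    rw [IntermediateField.adjoin_eq_adjoin_pow_expChar_pow_of_isSeparable' F0 K S' p M] at h1
    have h2 := congrArg IntermediateField.toSubfield h1
    rw [IntermediateField.adjoin_toSubfield] at h2
    refine top_le_iff.1 ?_
    have h3 : (⊤ : Subfield K) ≤ Subfield.closure
        (Set.range (algebraMap F0 K) ∪ (fun x => x ^ p ^ M) '' S') := by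
      rw [h2]; exact le_rfl
    refine h3.trans (Subfield.closure_le.2 ?_)
    rintro x (⟨a, rfl⟩ | hx)
    · have h4 : (algebraMap F0 K a) ∈ Subfield.closure (Set.range y) := (hmem _).2 a.2
      exact Subfield.closure_mono Set.subset_union_left h4
    · exact Subfield.subset_closure (Or.inr hx)

end Pool.Agent.WPU
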