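import Pool.Agent.Lib.MP_2da099_lc.UE.Defs

/-!
# L1: integration by parts for the functionals

HINTS.  `Lf_monomial`: `Basis.constr_basis`, `monomial α c = c • monomial α 1`.  `lam_shift`: if `a = 0`: `(2 D - 1) % (2 D) = 2 D - 1` is odd, so
it is not `2 b` (for `D ≥ 1`), value `0`.  If `a = a' + 1`: `a + (2 D - 1) = a' + 2 D`; `(a' + 2 D) % (2 D) = a' % (2 D)`,
`(a' + 2 D) / (2 D) = a' / (2 D) + 1`, the new factor is `2 b + 1 + 2 D (a' / (2 D)) = a' + 1` if `a' % (2 D) = 2 b`.
`Lf_ibp`: both sides are linear in `q` (`MvPolynomial.induction_on'` or `LinearMap.ext` on `basisMonomials`); on a monomial: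
`pderiv_monomial`, `monomial_mul`, product over `Fin t` split at `i` (`Finset.mul_prod_erase`), `lam_shift`.
-/

set_option autoImplicit false

namespace Pool.Agent.WPU

open Pool.Agent.Lib.PolyTime Pool.Agent.WPM Pool.Agent.WPR

theorem Lf_monomial (D : ℕ) {t : ℕ} (β : Fin t → Fin D) (α : Fin t →₀ ℕ) (c : ℤ) :
    Lf D β (MvPolynomial.monomial α c) = c * ∏ i, lam D (β i) (α i) := by
  have h1 : Lf D β (MvPolynomial.monomial α 1) = ∏ i, lam D (β i) (α i) := by
    have h2 := (MvPolynomial.basisMonomials (Fin t) ℤ).constr_basis ℤ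
      (fun α : Fin t →₀ ℕ => ∏ i, lam D (β i) (α i)) α
    rw [MvPolynomial.coe_basisMonomials] at h2
    exact h2
  have h2 : MvPolynomial.monomial α c = c • (MvPolynomial.monomial α (1 : ℤ)) := by
    rw [MvPolynomial.smul_monomial, smul_eq_mul, mul_one]
  rw [h2, map_smul, h1, smul_eq_mul]

theorem lam_shift (D b a : ℕ) (hb : b < D) :
    lam D b (a + (2 * D - 1)) = a * lam D b (a - 1) := by
  have hD : 0 < 2 * D := by omega
  rcases a with _ | a
  · have h1 : (0 + (2 * D - 1)) % (2 * D) = 2 * D - 1 := by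
      rw [zero_add]
      exact Nat.mod_eq_of_lt (by omega)
    unfold lam
    rw [h1, if_neg (by omega)]
    push_cast
    ring
  · have h1 : a + 1 + (2 * D - 1) = a + 2 * D := by omega
    rw [h1, Nat.add_sub_cancel]
    unfold lam
    rw [Nat.add_mod_right, Nat.add_div_right _ hD]
    by_cases h : a % (2 * D) = 2 * b
    · rw [if_pos h, if_pos h, Finset.prod_range_succ, mul_comm]
      congr 1
      have h2 := Nat.div_add_mod a (2 * D)
      have h3 : 2 * b + 1 + 2 * D * (a / (2 * D)) = a + 1 := by omega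
      rw [h3]
    · rw [if_neg h, if_neg h, mul_zero]

theorem Lf_ibp (D : ℕ) {t : ℕ} (β : Fin t → Fin D) (i : Fin t) (q : SP t) :
    Lf D β (MvPolynomial.X i ^ (2 * D - 1) * q) = Lf D β (MvPolynomial.pderiv i q) := by
  induction q using MvPolynomial.induction_on' with
  | monomial α c =>
    rw [MvPolynomial.X_pow_eq_monomial, MvPolynomial.monomial_mul, MvPolynomial.pderiv_monomial,
      Lf_monomial, Lf_monomial, one_mul]
    have h1 : ∏ j, lam D (β j) ((Finsupp.single i (2 * D - 1) + α : Fin t →₀ ℕ) j) =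
        lam D (β i) (α i + (2 * D - 1)) * ∏ j ∈ Finset.univ.erase i, lam D (β j) (α j) := by
      rw [← Finset.mul_prod_erase Finset.univ _ (Finset.mem_univ i)]
      congr 1
      · rw [Finsupp.add_apply, Finsupp.single_eq_same, add_comm]
      · refine Finset.prod_congr rfl fun j hj => ?_
        rw [Finsupp.add_apply, Finsupp.single_eq_of_ne (Finset.ne_of_mem_erase hj), zero_add]
    have h2 : ∏ j, lam D (β j) ((α - Finsupp.single i 1 : Fin t →₀ ℕ) j) =
        lam D (β i) (α i - 1) * ∏ j ∈ Finset.univ.erase i, lam D (β j) (α j) := by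
      rw [← Finset.mul_prod_erase Finset.univ _ (Finset.mem_univ i)]
      congr 1
      · rw [Finsupp.tsub_apply, Finsupp.single_eq_same]
      · refine Finset.prod_congr rfl fun j hj => ?_
        rw [Finsupp.tsub_apply, Finsupp.single_eq_of_ne (Finset.ne_of_mem_erase hj), tsub_zero]
    rw [h1, h2, lam_shift D (β i) (α i) (β i).isLt]
    ring
  | add p q hp hq => rw [mul_add, map_add, map_add, map_add, hp, hq]

end Pool.Agent.WPU
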