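import Pool.Agent.Lib.MP_2da099_lc.UE.Defs
import Mathlib.MeasureTheory.Integral.Gamma
import Mathlib.MeasureTheory.Integral.IntegralEqImproper
import Mathlib.MeasureTheory.Constructions.Pi
import Mathlib.Analysis.SpecialFunctions.Gaussian.GaussianIntegral

/-!
# L2: moments of one variable
-/

set_option autoImplicit false

namespace Pool.Agent.WPU

open Pool.Agent.WPM Pool.Agent.WPR

open MeasureTheory in
private theorem momL2_int (D : ℕ) (hD : 0 < D) (a : ℕ) :
    MeasureTheory.Integrable (fun y : ℝ => y ^ a * Real.exp (-(y ^ (2 * D)) / (2 * D))) := by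
  have hD' : (0 : ℝ) < D := by exact_mod_cast hD
  have h0 : IntegrableOn (fun x : ℝ => x ^ a * Real.exp (-(x ^ (2 * D)) / (2 * D))) (Set.Ioi 0) := by
    have h := integrableOn_rpow_mul_exp_neg_mul_rpow (p := ((2 * D : ℕ) : ℝ)) (s := (a : ℝ))
      (b := 1 / (2 * D : ℝ)) (by have : (0 : ℝ) ≤ a := Nat.cast_nonneg a; linarith)
      (by have : 0 < 2 * D := by omega
          exact_mod_cast this) (by positivity)
    refine h.congr_fun (fun x hx => ?_) measurableSet_Ioi
    simp only [Real.rpow_natCast]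
    congr 2
    ring
  rw [← integrableOn_univ, ← @Set.Iio_union_Ici _ _ (0 : ℝ), integrableOn_union,
    integrableOn_Ici_iff_integrableOn_Ioi]
  refine ⟨?_, h0⟩
  rw [← (Measure.measurePreserving_neg (volume : Measure ℝ)).integrableOn_comp_preimage
      (Homeomorph.neg ℝ).measurableEmbedding]
  have h1 : (Neg.neg ⁻¹' Set.Iio (0 : ℝ)) = Set.Ioi 0 := by
    ext x
    simp
  rw [h1]
  have h2 : ((fun y : ℝ => y ^ a * Real.exp (-(y ^ (2 * D)) / (2 * D))) ∘ Neg.neg) =
      fun y : ℝ => (-1) ^ a * (y ^ a * Real.exp (-(y ^ (2 * D)) / (2 * D))) := by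
    funext y
    simp only [Function.comp]
    rw [neg_pow y a, Even.neg_pow (by simp : Even (2 * D)) y, mul_assoc]
  rw [h2]
  exact h0.const_mul _

private theorem momL2_odd (D a : ℕ) (ha : Odd a) :
    ∫ y : ℝ, y ^ a * Real.exp (-(y ^ (2 * D)) / (2 * D)) = 0 := by
  have h := MeasureTheory.integral_neg_eq_self
    (fun y : ℝ => y ^ a * Real.exp (-(y ^ (2 * D)) / (2 * D))) MeasureTheory.volume
  have h2 : (fun y : ℝ => (-y) ^ a * Real.exp (-((-y) ^ (2 * D)) / (2 * D))) =
      fun y : ℝ => -(y ^ a * Real.exp (-(y ^ (2 * D)) / (2 * D))) := by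
    funext y
    rw [ha.neg_pow y, Even.neg_pow (by simp : Even (2 * D)) y]
    ring
  rw [h2, MeasureTheory.integral_neg] at h
  linarith

private theorem momL2_rec (D : ℕ) (hD : 0 < D) (a : ℕ) :
    ∫ y : ℝ, y ^ (a + 2 * D) * Real.exp (-(y ^ (2 * D)) / (2 * D)) =
      ((a : ℝ) + 1) * ∫ y : ℝ, y ^ a * Real.exp (-(y ^ (2 * D)) / (2 * D)) := by
  have hD' : (0 : ℝ) < D := by exact_mod_cast hD
  have hi1 := momL2_int D hD a
  have hi2 := momL2_int D hD (a + 2 * D)
  have hi3 := momL2_int D hD (a + 1)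
  have key := MeasureTheory.integral_eq_zero_of_hasDerivAt_of_integrable
    (f := fun y : ℝ => y ^ (a + 1) * Real.exp (-(y ^ (2 * D)) / (2 * D)))
    (f' := fun y : ℝ => ((a : ℝ) + 1) * (y ^ a * Real.exp (-(y ^ (2 * D)) / (2 * D))) -
      y ^ (a + 2 * D) * Real.exp (-(y ^ (2 * D)) / (2 * D))) ?_ ((hi1.const_mul _).sub hi2) hi3
  · rw [MeasureTheory.integral_sub (hi1.const_mul _) hi2, MeasureTheory.integral_const_mul] at key
    linarith
  · intro x
    have h1 : HasDerivAt (fun y : ℝ => y ^ (a + 1)) (((a + 1 : ℕ) : ℝ) * x ^ a) x := by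
      simpa using hasDerivAt_pow (a + 1) x
    have h2 : HasDerivAt (fun y : ℝ => -(y ^ (2 * D)) / (2 * D : ℝ))
        (-(((2 * D : ℕ) : ℝ) * x ^ (2 * D - 1)) / (2 * D : ℝ)) x :=
      ((hasDerivAt_pow (2 * D) x).neg).div_const _
    have h3 := h1.mul h2.exp
    refine h3.congr_deriv ?_
    have e1 : x ^ (a + 2 * D) = x ^ (a + 1) * x ^ (2 * D - 1) := by
      rw [← pow_add]
      congr 1
      omega
    rw [e1]
    push_cast
    field_simp
    ring

private theorem momL2_prod (D : ℕ) (hD : 0 < D) (r q : ℕ) :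
    ∫ y : ℝ, y ^ (2 * D * q + r) * Real.exp (-(y ^ (2 * D)) / (2 * D)) =
      (∏ j ∈ Finset.range q, ((r + 1 + 2 * D * j : ℕ) : ℝ)) *
        ∫ y : ℝ, y ^ r * Real.exp (-(y ^ (2 * D)) / (2 * D)) := by
  induction q with
  | zero => simp
  | succ q ih =>
    have e : 2 * D * (q + 1) + r = (2 * D * q + r) + 2 * D := by ring
    rw [e, momL2_rec D hD, ih, Finset.prod_range_succ]
    push_cast
    ring

theorem moments (D : ℕ) (hD : 0 < D) : ∃ m : Fin D → ℝ, (∀ b, 0 < m b) ∧ ∀ a : ℕ,
    MeasureTheory.Integrable (fun y : ℝ => y ^ a * Real.exp (-(y ^ (2 * D)) / (2 * D))) ∧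
    ∫ y : ℝ, y ^ a * Real.exp (-(y ^ (2 * D)) / (2 * D)) = ∑ b, m b * (lam D b a : ℝ) := by
  refine ⟨fun b => ∫ y : ℝ, y ^ (2 * (b : ℕ)) * Real.exp (-(y ^ (2 * D)) / (2 * D)), ?_, ?_⟩
  · intro b
    refine MeasureTheory.integral_pos_of_integrable_nonneg_nonzero (x := 1) (by fun_prop)
      (momL2_int D hD _) ?_ ?_
    · intro y
      have : 0 ≤ y ^ (2 * (b : ℕ)) := by
        rw [pow_mul]
        positivity
      exact mul_nonneg this (Real.exp_pos _).le
    · simp only [one_pow, one_mul]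
      exact (Real.exp_pos _).ne'
  · intro a
    refine ⟨momL2_int D hD a, ?_⟩
    have hmod : a % (2 * D) % 2 = a % 2 := Nat.mod_mod_of_dvd a (Dvd.intro D rfl)
    rcases Nat.even_or_odd a with hev | hod
    · obtain ⟨c, hc⟩ : ∃ c, a % (2 * D) = 2 * c := by
        have : a % (2 * D) % 2 = 0 := by rw [hmod]; exact Nat.even_iff.mp hev
        exact ⟨a % (2 * D) / 2, by omega⟩
      have hcD : c < D := by
        have := Nat.mod_lt a (show 0 < 2 * D by omega)
        omega
      have hdiv : a = 2 * D * (a / (2 * D)) + 2 * c := by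
        have := Nat.div_add_mod a (2 * D)
        omega
      rw [Finset.sum_eq_single (⟨c, hcD⟩ : Fin D)]
      · have hl : (lam D ((⟨c, hcD⟩ : Fin D) : ℕ) a : ℝ) =
            ∏ j ∈ Finset.range (a / (2 * D)), ((2 * c + 1 + 2 * D * j : ℕ) : ℝ) := by
          simp only [lam]
          rw [if_pos hc]
          push_cast
          rfl
        rw [hl]
        have := momL2_prod D hD (2 * c) (a / (2 * D))
        rw [← hdiv] at this
        rw [this, mul_comm]
      · intro b _ hb
        have : ¬ (a % (2 * D) = 2 * (b : ℕ)) := by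
          intro h
          apply hb
          apply Fin.ext
          simp only
          omega
        simp only [lam, if_neg this, Int.cast_zero, mul_zero]
      · intro h
        exact absurd (Finset.mem_univ _) h
    · rw [momL2_odd D a hod]
      symm
      apply Finset.sum_eq_zero
      intro b _
      have : ¬ (a % (2 * D) = 2 * (b : ℕ)) := by
        intro h
        have h1 := Nat.odd_iff.mp hod
        omega
      simp only [lam, if_neg this, Int.cast_zero, mul_zero]

end Pool.Agent.WPU
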