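import Pool.Agent.Lib.MP_2da099_lc.UE.Defs
import Pool.Agent.Lib.MP_2da099_lc.UE.L1
import Pool.Agent.Lib.MP_2da099_lc.UE.L2
import Mathlib.MeasureTheory.Integral.Pi
import Mathlib.MeasureTheory.Measure.OpenPos
import Mathlib.Algebra.MvPolynomial.Funext
import Mathlib.Topology.Algebra.MvPolynomial

/-!
# L3: positivity of the functionals
-/

set_option autoImplicit false

namespace Pool.Agent.WPU

open Pool.Agent.WPM Pool.Agent.WPR MeasureTheory

/-- the value of a polynomial with integer coefficients at a real point -/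
private noncomputable def l3v {t : ℕ} (q : SP t) (x : Fin t → ℝ) : ℝ :=
  MvPolynomial.eval x (MvPolynomial.map (Int.castRingHom ℝ) q)

/-- the weight -/
private noncomputable def l3W (D : ℕ) {t : ℕ} (x : Fin t → ℝ) : ℝ :=
  ∏ i, Real.exp (-(x i ^ (2 * D)) / (2 * D))

private theorem l3W_pos (D : ℕ) {t : ℕ} (x : Fin t → ℝ) : 0 < l3W D x :=
  Finset.prod_pos fun _ _ => Real.exp_pos _

private theorem l3W_cont (D : ℕ) {t : ℕ} : Continuous (l3W D : (Fin t → ℝ) → ℝ) := by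
  unfold l3W
  fun_prop

private theorem l3v_cont {t : ℕ} (q : SP t) : Continuous (l3v q) := by
  unfold l3v
  exact MvPolynomial.continuous_eval _

private theorem l3v_monomial {t : ℕ} (α : Fin t →₀ ℕ) (c : ℤ) (x : Fin t → ℝ) :
    l3v (MvPolynomial.monomial α c) x = c * ∏ i, x i ^ α i := by
  unfold l3v
  rw [MvPolynomial.map_monomial, MvPolynomial.eval_monomial, Finsupp.prod_fintype _ _ (by simp)]
  simp

private theorem l3v_add {t : ℕ} (p q : SP t) (x : Fin t → ℝ) :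
    l3v (p + q) x = l3v p x + l3v q x := by
  unfold l3v
  rw [map_add, map_add]

private theorem l3v_mul {t : ℕ} (p q : SP t) (x : Fin t → ℝ) :
    l3v (p * q) x = l3v p x * l3v q x := by
  unfold l3v
  rw [map_mul, map_mul]

private theorem l3_mono (D : ℕ) (m : Fin D → ℝ)
    (hm : ∀ a : ℕ, Integrable (fun y : ℝ => y ^ a * Real.exp (-(y ^ (2 * D)) / (2 * D))) ∧
      ∫ y : ℝ, y ^ a * Real.exp (-(y ^ (2 * D)) / (2 * D)) = ∑ b, m b * (lam D b a : ℝ))
    {t : ℕ} (α : Fin t →₀ ℕ) (c : ℤ) :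
    Integrable (fun x : Fin t → ℝ => l3v (MvPolynomial.monomial α c) x * l3W D x) ∧
      ∫ x : Fin t → ℝ, l3v (MvPolynomial.monomial α c) x * l3W D x =
        ∑ β : Fin t → Fin D, (∏ i, m (β i)) * ((Lf D β (MvPolynomial.monomial α c) : ℤ) : ℝ) := by
  have h1 : (fun x : Fin t → ℝ => l3v (MvPolynomial.monomial α c) x * l3W D x) =
      fun x => (c : ℝ) * ∏ i, (fun (i : Fin t) (y : ℝ) => y ^ α i * Real.exp (-(y ^ (2 * D)) / (2 * D))) i (x i) := by
    funext x
    rw [l3v_monomial, l3W, mul_assoc, ← Finset.prod_mul_distrib]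
  have h2 : Integrable (fun x : Fin t → ℝ =>
      ∏ i, (fun (i : Fin t) (y : ℝ) => y ^ α i * Real.exp (-(y ^ (2 * D)) / (2 * D))) i (x i)) := by
    have := Integrable.fintype_prod (ι := Fin t) (E := ℝ) (𝕜 := ℝ) (μ := fun _ => volume)
      (f := fun (i : Fin t) (y : ℝ) => y ^ α i * Real.exp (-(y ^ (2 * D)) / (2 * D))) (fun i => (hm (α i)).1)
    exact this
  rw [h1]
  refine ⟨h2.const_mul _, ?_⟩
  have h4 : ∫ x : Fin t → ℝ, ∏ i, (fun (i : Fin t) (y : ℝ) => y ^ α i * Real.exp (-(y ^ (2 * D)) / (2 * D))) i (x i) =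
      ∏ i : Fin t, ∫ y : ℝ, y ^ α i * Real.exp (-(y ^ (2 * D)) / (2 * D)) :=
    integral_fintype_prod_volume_eq_prod (ι := Fin t) (𝕜 := ℝ) (E := fun _ => ℝ)
      (fun (i : Fin t) (y : ℝ) => y ^ α i * Real.exp (-(y ^ (2 * D)) / (2 * D)))
  rw [integral_const_mul, h4]
  have h3 : ∏ i : Fin t, ∫ y : ℝ, y ^ α i * Real.exp (-(y ^ (2 * D)) / (2 * D)) =
      ∏ i : Fin t, ∑ b, m b * (lam D b (α i) : ℝ) := Finset.prod_congr rfl fun i _ => (hm (α i)).2
  rw [h3, Finset.prod_univ_sum, Finset.mul_sum, Fintype.piFinset_univ]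
  refine Finset.sum_congr rfl fun β _ => ?_
  rw [Lf_monomial, Finset.prod_mul_distrib]
  push_cast
  ring

private theorem l3_gen (D : ℕ) (m : Fin D → ℝ)
    (hm : ∀ a : ℕ, Integrable (fun y : ℝ => y ^ a * Real.exp (-(y ^ (2 * D)) / (2 * D))) ∧
      ∫ y : ℝ, y ^ a * Real.exp (-(y ^ (2 * D)) / (2 * D)) = ∑ b, m b * (lam D b a : ℝ))
    {t : ℕ} (q : SP t) :
    Integrable (fun x : Fin t → ℝ => l3v q x * l3W D x) ∧
      ∫ x : Fin t → ℝ, l3v q x * l3W D x =
        ∑ β : Fin t → Fin D, (∏ i, m (β i)) * ((Lf D β q : ℤ) : ℝ) := by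
  induction q using MvPolynomial.induction_on' with
  | monomial α c => exact l3_mono D m hm α c
  | add p q hp hq =>
    have h1 : (fun x : Fin t → ℝ => l3v (p + q) x * l3W D x) =
        fun x => l3v p x * l3W D x + l3v q x * l3W D x := by
      funext x
      rw [l3v_add, add_mul]
    rw [h1]
    refine ⟨hp.1.add hq.1, ?_⟩
    rw [integral_add hp.1 hq.1, hp.2, hq.2, ← Finset.sum_add_distrib]
    refine Finset.sum_congr rfl fun β _ => ?_
    rw [map_add]
    push_cast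
    ring

private theorem l3_zero {t : ℕ} (q : SP t) (h : ∀ x : Fin t → ℝ, l3v q x = 0) : q = 0 := by
  have h1 : MvPolynomial.map (Int.castRingHom ℝ) q = 0 := by
    refine MvPolynomial.funext fun x => ?_
    rw [map_zero]
    exact h x
  exact MvPolynomial.map_injective (Int.castRingHom ℝ) Int.cast_injective (by rw [h1, map_zero])

theorem Lf_pos (D : ℕ) (hD : 0 < D) {t : ℕ} {ι : Type} [Fintype ι] (q : ι → SP t)
    (h : ∀ β : Fin t → Fin D, ∑ i, Lf D β (q i * q i) = 0) : ∀ i, q i = 0 := by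
  obtain ⟨m, -, hm⟩ := moments D hD
  have h1 : ∑ i, ∫ x : Fin t → ℝ, l3v (q i * q i) x * l3W D x = 0 := by
    have h2 : ∀ i, ∫ x : Fin t → ℝ, l3v (q i * q i) x * l3W D x =
        ∑ β : Fin t → Fin D, (∏ i, m (β i)) * ((Lf D β (q i * q i) : ℤ) : ℝ) := fun i =>
      (l3_gen D m hm (q i * q i)).2
    rw [Finset.sum_congr rfl fun i _ => h2 i, Finset.sum_comm]
    refine Finset.sum_eq_zero fun β _ => ?_
    rw [← Finset.mul_sum, ← Int.cast_sum, h β, Int.cast_zero, mul_zero]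
  have hnn : ∀ (i : ι) (x : Fin t → ℝ), 0 ≤ l3v (q i * q i) x * l3W D x := fun i x => by
    rw [l3v_mul]
    exact mul_nonneg (mul_self_nonneg _) (l3W_pos D x).le
  intro i
  have h3 : ∫ x : Fin t → ℝ, l3v (q i * q i) x * l3W D x = 0 := by
    have h4 := (Finset.sum_eq_zero_iff_of_nonneg (fun i _ => integral_nonneg (hnn i))).1 h1
    exact h4 i (Finset.mem_univ _)
  rw [integral_eq_zero_iff_of_nonneg (hnn i) (l3_gen D m hm (q i * q i)).1] at h3
  have h5 : (fun x : Fin t → ℝ => l3v (q i * q i) x * l3W D x) = 0 := by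
    refine (Continuous.ae_eq_iff_eq volume ?_ continuous_zero).1 h3
    exact (l3v_cont _).mul (l3W_cont D)
  refine l3_zero (q i) fun x => ?_
  have h6 := congrFun h5 x
  simp only [Pi.zero_apply] at h6
  rw [l3v_mul] at h6
  have h7 : l3v (q i) x * l3v (q i) x = 0 := (mul_eq_zero.1 h6).resolve_right (l3W_pos D x).ne'
  exact mul_self_eq_zero.1 h7

end Pool.Agent.WPU
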