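import Pool.Agent.Lib.MP_2da099_lc.UE.Defs

/-!
# R1: combinations of forms

HINTS.  `bilf` is linear in `q`.  `RecOK` is closed under sums and integer multiples: add the families `qa`
(`MvPolynomial.totalDegree_add`, `totalDegree_smul_le`, `totalDegree_finset_sum`).  `rec_of_monomials`: `q` is the sum over
`κ, κ'` and over `α ∈ (q κ κ').support` of `coeff α • Matrix.single κ κ' (monomial α 1)`; the degree of `α` is at most the total
degree (`MvPolynomial.le_totalDegree`).
-/

set_option autoImplicit false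

namespace Pool.Agent.WPU

open Pool.Agent.Lib.PolyTime Pool.Agent.WPM Pool.Agent.WPR

theorem bilf_add {r : ℕ} (H : Hol r) (D : ℕ) (β : Fin H.t → Fin D)
    (q q' : Matrix (Fin H.d) (Fin H.d) (SP H.t)) (k : ℕ) (v w : Fin r → ℤ) :
    bilf H D β (q + q') k v w = bilf H D β q k v w + bilf H D β q' k v w := by
  unfold bilf
  rw [← map_add, ← Finset.sum_add_distrib]
  congr 1
  refine Finset.sum_congr rfl fun κ _ => ?_
  rw [← Finset.sum_add_distrib]
  refine Finset.sum_congr rfl fun κ' _ => ?_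
  rw [Matrix.add_apply]
  ring

theorem bilf_smul {r : ℕ} (H : Hol r) (D : ℕ) (β : Fin H.t → Fin D) (z : ℤ)
    (q : Matrix (Fin H.d) (Fin H.d) (SP H.t)) (k : ℕ) (v w : Fin r → ℤ) :
    bilf H D β (z • q) k v w = z * bilf H D β q k v w := by
  unfold bilf
  have h : z * Lf D β (∑ κ, ∑ κ', q κ κ' * H.Psi (2 * k) v κ * H.Psi (2 * k) w κ') =
      Lf D β (z • (∑ κ, ∑ κ', q κ κ' * H.Psi (2 * k) v κ * H.Psi (2 * k) w κ')) := by
    rw [map_smul, smul_eq_mul]
  rw [h, Finset.smul_sum]
  congr 1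
  refine Finset.sum_congr rfl fun κ _ => ?_
  rw [Finset.smul_sum]
  refine Finset.sum_congr rfl fun κ' _ => ?_
  rw [Matrix.smul_apply, smul_mul_assoc, smul_mul_assoc]

private theorem r1_bilf_zero {r : ℕ} (H : Hol r) (D : ℕ) (β : Fin H.t → Fin D)
    (k : ℕ) (v w : Fin r → ℤ) : bilf H D β 0 k v w = 0 := by
  have h := bilf_smul H D β 0 0 k v w
  rw [zero_smul, zero_mul] at h
  exact h

theorem bilf_sum {r : ℕ} (H : Hol r) (D : ℕ) (β : Fin H.t → Fin D) {ι : Type} (s : Finset ι)
    (q : ι → Matrix (Fin H.d) (Fin H.d) (SP H.t)) (k : ℕ) (v w : Fin r → ℤ) :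
    bilf H D β (∑ i ∈ s, q i) k v w = ∑ i ∈ s, bilf H D β (q i) k v w := by
  classical
  induction s using Finset.induction_on with
  | empty => rw [Finset.sum_empty, Finset.sum_empty]; exact r1_bilf_zero H D β k v w
  | insert a s ha ih => rw [Finset.sum_insert ha, Finset.sum_insert ha, bilf_add, ih]

theorem RecOK.add {r : ℕ} {H : Hol r} {D D1 : ℕ} {β : Fin H.t → Fin D} {o o' : Option (Letter r)}
    {q q' : Matrix (Fin H.d) (Fin H.d) (SP H.t)} (h : RecOK H D D1 β o o' q)
    (h' : RecOK H D D1 β o o' q') : RecOK H D D1 β o o' (q + q') := by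
  obtain ⟨qa, hd, he⟩ := h
  obtain ⟨qa', hd', he'⟩ := h'
  refine ⟨fun a => qa a + qa' a, fun a κ κ' => ?_, fun k v w hv hw => ?_⟩
  · exact (MvPolynomial.totalDegree_add (qa a κ κ') (qa' a κ κ')).trans
      (max_le (hd a κ κ') (hd' a κ κ'))
  · rw [bilf_add, he k v w hv hw, he' k v w hv hw, ← Finset.sum_add_distrib]
    refine Finset.sum_congr rfl fun a _ => ?_
    rw [bilf_add, mul_add]

theorem RecOK.smul {r : ℕ} {H : Hol r} {D D1 : ℕ} {β : Fin H.t → Fin D} {o o' : Option (Letter r)}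
    {q : Matrix (Fin H.d) (Fin H.d) (SP H.t)} (h : RecOK H D D1 β o o' q) (z : ℤ) :
    RecOK H D D1 β o o' (z • q) := by
  obtain ⟨qa, hd, he⟩ := h
  refine ⟨fun a => z • qa a, fun a κ κ' => ?_, fun k v w hv hw => ?_⟩
  · exact (MvPolynomial.totalDegree_smul_le z (qa a κ κ')).trans (hd a κ κ')
  · rw [bilf_smul, he k v w hv hw, Finset.mul_sum]
    refine Finset.sum_congr rfl fun a _ => ?_
    rw [bilf_smul]
    ring

private theorem r1_zero {r : ℕ} {H : Hol r} {D D1 : ℕ} {β : Fin H.t → Fin D}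
    {o o' : Option (Letter r)} : RecOK H D D1 β o o' 0 := by
  refine ⟨fun _ => 0, fun a κ κ' => ?_, fun k v w _ _ => ?_⟩
  · show MvPolynomial.totalDegree (0 : SP H.t) ≤ D1
    rw [MvPolynomial.totalDegree_zero]
    exact Nat.zero_le _
  · rw [r1_bilf_zero]
    refine (Finset.sum_eq_zero fun a _ => ?_).symm
    rw [r1_bilf_zero, mul_zero]

private theorem r1_sum {r : ℕ} {H : Hol r} {D D1 : ℕ} {β : Fin H.t → Fin D}
    {o o' : Option (Letter r)} {ι : Type} (s : Finset ι)
    (q : ι → Matrix (Fin H.d) (Fin H.d) (SP H.t)) (h : ∀ i ∈ s, RecOK H D D1 β o o' (q i)) :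
    RecOK H D D1 β o o' (∑ i ∈ s, q i) := by
  classical
  induction s using Finset.induction_on with
  | empty => rw [Finset.sum_empty]; exact r1_zero
  | insert a s ha ih =>
    rw [Finset.sum_insert ha]
    exact (h a (Finset.mem_insert_self a s)).add
      (ih fun i hi => h i (Finset.mem_insert_of_mem hi))

private theorem r1_single {d t : ℕ} (κ κ' : Fin d) (p : SP t) :
    Matrix.single κ κ' p = ∑ α ∈ p.support,
      MvPolynomial.coeff α p • Matrix.single κ κ' (MvPolynomial.monomial α (1 : ℤ)) := by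
  have h : ∀ α ∈ p.support, MvPolynomial.coeff α p •
      Matrix.single κ κ' (MvPolynomial.monomial α (1 : ℤ)) =
      Matrix.single κ κ' (MvPolynomial.monomial α (MvPolynomial.coeff α p)) := by
    intro α _
    rw [Matrix.smul_single, MvPolynomial.smul_monomial, smul_eq_mul, mul_one]
  rw [Finset.sum_congr rfl h]
  have h2 : ∀ s : Finset (Fin t →₀ ℕ), ∑ α ∈ s,
      Matrix.single κ κ' (MvPolynomial.monomial α (MvPolynomial.coeff α p)) =
      Matrix.single κ κ' (∑ α ∈ s, MvPolynomial.monomial α (MvPolynomial.coeff α p)) := by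
    classical
    intro s
    induction s using Finset.induction_on with
    | empty => rw [Finset.sum_empty, Finset.sum_empty, Matrix.single_zero]
    | insert a s ha ih =>
      rw [Finset.sum_insert ha, Finset.sum_insert ha, ih, Matrix.single_add]
  rw [h2, ← MvPolynomial.as_sum p]

theorem rec_of_monomials {r : ℕ} {H : Hol r} {D D1 : ℕ} {β : Fin H.t → Fin D}
    {o o' : Option (Letter r)} (m : ℕ)
    (h : ∀ (α : Fin H.t →₀ ℕ) (κ κ' : Fin H.d), ∑ i, α i ≤ m →
      RecOK H D D1 β o o' (Matrix.single κ κ' (MvPolynomial.monomial α 1)))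
    (q : Matrix (Fin H.d) (Fin H.d) (SP H.t)) (hq : ∀ κ κ', (q κ κ').totalDegree ≤ m) :
    RecOK H D D1 β o o' q := by
  have hq1 : q = ∑ κ, ∑ κ', ∑ α ∈ (q κ κ').support,
      MvPolynomial.coeff α (q κ κ') • Matrix.single κ κ' (MvPolynomial.monomial α (1 : ℤ)) := by
    conv_lhs => rw [Matrix.matrix_eq_sum_single q]
    refine Finset.sum_congr rfl fun κ _ => Finset.sum_congr rfl fun κ' _ => ?_
    exact r1_single κ κ' (q κ κ')
  rw [hq1]
  refine r1_sum _ _ fun κ _ => r1_sum _ _ fun κ' _ => r1_sum _ _ fun α hα => ?_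
  refine (h α κ κ' ?_).smul _
  refine le_trans ?_ (hq κ κ')
  have h1 := MvPolynomial.le_totalDegree hα
  rwa [Finsupp.sum_fintype _ _ (fun _ => rfl)] at h1

end Pool.Agent.WPU
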