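import Pool.Agent.Lib.MP_2da099_lc.UE.Defs
import Pool.Agent.Lib.MP_2da099_lc.UE.R1

/-!
# R2: the step for forms of small degree

HINTS.  `Psi (2 (k + 1)) (v + mvo o) = g • Psi (2 k + 1) (v + mvo o) = g • (Xi o *ᵥ Psi (2 k) v)` (`H.stay` with
`nrm (v + mvo o) ≤ k + 1 ≤ 2 k + 1`, `H.move` with `nrm v ≤ 2 k`).  Prove this as `psi_step`.  Then `bilf q (k + 1) (..) (..)`
is `bilf q' k v w` with `q' = Σ q κ κ' (g Xi o κ μ) (g Xi o' κ' μ')`, i.e. `q' = (g • Xi o)ᵀ * q * (g • Xi o')`; `qa none = q'`, all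
other `qa` are `0`.  `E` = `2 * (deg g + max of the degrees of the entries of all Xi o)`; `totalDegree_mul`, sums.
-/

set_option autoImplicit false

namespace Pool.Agent.WPU

open Pool.Agent.Lib.PolyTime Pool.Agent.WPM Pool.Agent.WPR

theorem nrm_mvo {r : ℕ} (v : Fin r → ℤ) (o : Option (Letter r)) : nrm (v + mvo o) ≤ nrm v + 1 := by
  cases o with
  | none =>
    have h1 : v + mvo (r := r) none = v := add_zero v
    rw [h1]
    exact Nat.le_succ _
  | some l =>
    have h1 : ∀ i, (mvo (some l) i).natAbs = if i = l.1 then 1 else 0 := by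
      intro i
      show ((sgl l i : SignType) : ℤ).natAbs = _
      by_cases h : i = l.1
      · rw [if_pos h]
        subst h
        unfold sgl
        rcases l with ⟨a, b⟩
        cases b <;> simp
      · rw [if_neg h]
        unfold sgl
        simp [h]
    have h2 : ∀ i, ((v + mvo (some l)) i).natAbs ≤ (v i).natAbs + if i = l.1 then 1 else 0 := by
      intro i
      rw [← h1 i]
      exact Int.natAbs_add_le _ _
    calc nrm (v + mvo (some l)) ≤ ∑ i, ((v i).natAbs + if i = l.1 then 1 else 0) :=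
          Finset.sum_le_sum fun i _ => h2 i
      _ = nrm v + 1 := by
        rw [Finset.sum_add_distrib, Finset.sum_ite_eq' Finset.univ l.1 (fun _ => 1),
          if_pos (Finset.mem_univ _)]
        rfl

theorem psi_odd {r : ℕ} (H : Hol r) (k : ℕ) (v : Fin r → ℤ) (o : Option (Letter r)) (h : nrm v ≤ k) :
    H.Psi (2 * k + 1) (v + mvo o) = (H.Xi o).mulVec (H.Psi (2 * k) v) :=
  H.move (2 * k) v o (by omega)

theorem psi_step {r : ℕ} (H : Hol r) (k : ℕ) (v : Fin r → ℤ) (o : Option (Letter r))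
    (h : nrm v ≤ k) :
    H.Psi (2 * (k + 1)) (v + mvo o) = H.g • (H.Xi o).mulVec (H.Psi (2 * k) v) := by
  have h1 := nrm_mvo v o
  have h2 := H.stay (2 * k + 1) (v + mvo o) (by omega)
  rw [psi_odd H k v o h] at h2
  exact h2

/-- a bound of the degrees of the entries -/
private theorem r2_deg {r : ℕ} (H : Hol r) : ∃ e : ℕ, ∀ (o : Option (Letter r)) (κ κ' : Fin H.d),
    ((H.g • H.Xi o) κ κ').totalDegree ≤ e := by
  refine ⟨∑ o : Option (Letter r), ∑ κ : Fin H.d, ∑ κ' : Fin H.d,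
    ((H.g • H.Xi o) κ κ').totalDegree, fun o κ κ' => ?_⟩
  have h1 : ((H.g • H.Xi o) κ κ').totalDegree ≤
      ∑ κ' : Fin H.d, ((H.g • H.Xi o) κ κ').totalDegree :=
    Finset.single_le_sum (f := fun κ' => ((H.g • H.Xi o) κ κ').totalDegree)
      (fun _ _ => Nat.zero_le _) (Finset.mem_univ κ')
  have h2 : ∑ κ' : Fin H.d, ((H.g • H.Xi o) κ κ').totalDegree ≤
      ∑ κ : Fin H.d, ∑ κ' : Fin H.d, ((H.g • H.Xi o) κ κ').totalDegree :=
    Finset.single_le_sum (f := fun κ => ∑ κ' : Fin H.d, ((H.g • H.Xi o) κ κ').totalDegree)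
      (fun _ _ => Nat.zero_le _) (Finset.mem_univ κ)
  have h3 : ∑ κ : Fin H.d, ∑ κ' : Fin H.d, ((H.g • H.Xi o) κ κ').totalDegree ≤
      ∑ o : Option (Letter r), ∑ κ : Fin H.d, ∑ κ' : Fin H.d,
        ((H.g • H.Xi o) κ κ').totalDegree :=
    Finset.single_le_sum (f := fun o => ∑ κ : Fin H.d, ∑ κ' : Fin H.d,
        ((H.g • H.Xi o) κ κ').totalDegree)
      (fun _ _ => Nat.zero_le _) (Finset.mem_univ o)
  exact h1.trans (h2.trans h3)

private theorem r2_mul {t d : ℕ} (A B : Matrix (Fin d) (Fin d) (SP t)) (m n : ℕ)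
    (hA : ∀ i j, (A i j).totalDegree ≤ m) (hB : ∀ i j, (B i j).totalDegree ≤ n) (i j : Fin d) :
    ((A * B) i j).totalDegree ≤ m + n := by
  rw [Matrix.mul_apply]
  refine MvPolynomial.totalDegree_finsetSum_le fun l _ => ?_
  exact (MvPolynomial.totalDegree_mul _ _).trans (Nat.add_le_add (hA i l) (hB l j))

private theorem r2_form {t d : ℕ} (q : Matrix (Fin d) (Fin d) (SP t)) (a b : Fin d → SP t) :
    ∑ κ, ∑ κ', q κ κ' * a κ * b κ' = a ⬝ᵥ (q.mulVec b) := by
  simp only [dotProduct, Matrix.mulVec, Finset.mul_sum]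
  refine Finset.sum_congr rfl fun κ _ => Finset.sum_congr rfl fun κ' _ => ?_
  ring

theorem rec_small {r : ℕ} (H : Hol r) : ∃ E : ℕ, ∀ (D D1 : ℕ) (β : Fin H.t → Fin D)
    (o o' : Option (Letter r)) (m : ℕ) (q : Matrix (Fin H.d) (Fin H.d) (SP H.t)),
    (∀ κ κ', (q κ κ').totalDegree ≤ m) → m + E ≤ D1 → RecOK H D D1 β o o' q := by
  classical
  obtain ⟨e, he⟩ := r2_deg H
  refine ⟨2 * e, fun D D1 β o o' m q hq hm => ?_⟩
  set q' : Matrix (Fin H.d) (Fin H.d) (SP H.t) :=
    (H.g • H.Xi o).transpose * q * (H.g • H.Xi o') with hq'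
  obtain ⟨Q, hQ0, hQ1⟩ : ∃ Q : Par r → Matrix (Fin H.d) (Fin H.d) (SP H.t),
      Q none = q' ∧ ∀ a, a ≠ none → Q a = 0 :=
    ⟨fun a => if a = none then q' else 0, if_pos rfl, fun a ha => if_neg ha⟩
  refine ⟨Q, fun a κ κ' => ?_, fun k v w hv hw => ?_⟩
  · by_cases h : a = none
    · rw [h, hQ0, hq']
      refine (r2_mul _ _ (e + m) e (r2_mul _ _ e m (fun i j => ?_) hq) (he o') κ κ').trans (by omega)
      rw [Matrix.transpose_apply]
      exact he o j i
    · rw [hQ1 a h, Matrix.zero_apply, MvPolynomial.totalDegree_zero]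
      exact Nat.zero_le _
  · have h0 : bilf H D β 0 k v w = 0 := by
      rw [bilf]
      simp only [Matrix.zero_apply, zero_mul, Finset.sum_const_zero, map_zero]
    have h1 : bilf H D β q (k + 1) (v + mvo o) (w + mvo o') = bilf H D β q' k v w := by
      rw [bilf, bilf, r2_form, r2_form, psi_step H k v o hv, psi_step H k w o' hw, hq',
        ← Matrix.smul_mulVec, ← Matrix.smul_mulVec, ← Matrix.mulVec_mulVec,
        ← Matrix.mulVec_mulVec, Matrix.dotProduct_mulVec (H.Psi (2 * k) v),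
        Matrix.vecMul_transpose]
    rw [h1, Finset.sum_eq_single none]
    · rw [hQ0]
      show _ = 1 * _
      rw [one_mul]
    · intro a _ ha
      rw [hQ1 a ha, h0, mul_zero]
    · intro h
      exact absurd (Finset.mem_univ _) h

end Pool.Agent.WPU
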