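import Pool.Agent.Lib.MP_2da099_lc.UE.Defs
import Pool.Agent.Lib.MP_2da099_lc.UE.R2
import Pool.Agent.Lib.MP_2da099_lc.UE.L1

/-!
# R3: the step by integration by parts

HINTS.  `bilf (single κ κ' (X i ^ (2 D - 1) * monomial α 1)) (k + 1) v' w' = Lf (X i ^ (2 D - 1) * (y^α P Q))`,
`P = Psi (2 (k + 1)) v' κ`, `Q = Psi (2 (k + 1)) w' κ'`, `v' = v + mvo o`, `w' = w + mvo o'`; by `Lf_ibp` and the product rule this is
`Lf (∂ y^α P Q) + Lf (y^α ∂P Q) + Lf (y^α P ∂Q)`.  The first term is `bilf (single κ κ' (pderiv i (monomial α 1))) (k + 1) v' w'`: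
hypothesis `h`.  `P = g * Psi (2 k + 1) v' κ` (`H.stay`), so `∂P = ∂g Psi + g ∂Psi =` (by `H.deriv` at the level `2 k + 1`)
`(2 k + 2) ∂g Psi (2k+1) v' κ + (Om0 i *ᵥ Psi (2k+1) v') κ + ∑ j, v' j (Om i j *ᵥ Psi (2k+1) v') κ`, and
`Psi (2 k + 1) v' = Xi o *ᵥ Psi (2 k) v` (`psi_odd`), `v' j = v j + mvo o j`; `Q = g (Xi o' *ᵥ Psi (2 k) w) κ'` (`psi_step`).  So the
second term is the sum over the parameters `1, k, v j` of `par a k v w * bilf (qa a) k v w` with entries
`y^α * (polynomial of bounded degree)`: for example for `a = v j`: `y^α * (Om i j * Xi o) κ μ * (g * Xi o' κ' μ')`.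
The third one is symmetric (parameters `1, k, w j`).  `E` = a bound of the degrees of all these products (finitely many
matrices), independent of `D`.
-/

set_option autoImplicit false

namespace Pool.Agent.WPU

open Pool.Agent.Lib.PolyTime Pool.Agent.WPM Pool.Agent.WPR

/-- the parameters of one side -/
private def r3p {r : ℕ} (k : ℕ) (v : Fin r → ℤ) : Option (Option (Fin r)) → ℤ
  | none => 1
  | some none => k
  | some (some j) => v j

/-- the matrices of the derivative of the step -/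
private noncomputable def r3F {r : ℕ} (H : Hol r) (i : Fin H.t) (o : Option (Letter r)) :
    Option (Option (Fin r)) → Matrix (Fin H.d) (Fin H.d) (SP H.t)
  | none => (2 * MvPolynomial.pderiv i H.g) • H.Xi o + H.Om0 i * H.Xi o +
      ∑ j, mvo o j • (H.Om i j * H.Xi o)
  | some none => (2 * MvPolynomial.pderiv i H.g) • H.Xi o
  | some (some j) => H.Om i j * H.Xi o

/-- the form of two rows -/
private noncomputable def r3w {r : ℕ} (H : Hol r) (y : SP H.t)
    (A B : Matrix (Fin H.d) (Fin H.d) (SP H.t)) (κ κ' : Fin H.d) :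
    Matrix (Fin H.d) (Fin H.d) (SP H.t) := fun μ μ' => y * A κ μ * B κ' μ'

private theorem r3_bilf_row {r : ℕ} (H : Hol r) (D : ℕ) (β : Fin H.t → Fin D) (y : SP H.t)
    (A B : Matrix (Fin H.d) (Fin H.d) (SP H.t)) (κ κ' : Fin H.d) (k : ℕ) (v w : Fin r → ℤ) :
    bilf H D β (r3w H y A B κ κ') k v w =
      Lf D β (y * A.mulVec (H.Psi (2 * k) v) κ * B.mulVec (H.Psi (2 * k) w) κ') := by
  unfold bilf r3w
  congr 1
  simp only [Matrix.mulVec, dotProduct]
  rw [mul_assoc, Finset.sum_mul_sum, Finset.mul_sum]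
  refine Finset.sum_congr rfl fun μ _ => ?_
  rw [Finset.mul_sum]
  refine Finset.sum_congr rfl fun μ' _ => ?_
  ring

private theorem r3_bilf_single {r : ℕ} (H : Hol r) (D : ℕ) (β : Fin H.t → Fin D) (y : SP H.t)
    (κ κ' : Fin H.d) (k : ℕ) (v w : Fin r → ℤ) :
    bilf H D β (Matrix.single κ κ' y) k v w =
      Lf D β (y * H.Psi (2 * k) v κ * H.Psi (2 * k) w κ') := by
  unfold bilf
  congr 1
  rw [Finset.sum_eq_single κ, Finset.sum_eq_single κ']
  · rw [Matrix.single_apply_same]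
  · intro μ' _ hne
    rw [Matrix.single_apply_of_ne, zero_mul, zero_mul]
    exact fun h => hne h.2.symm
  · intro h
    exact absurd (Finset.mem_univ _) h
  · intro μ _ hne
    refine Finset.sum_eq_zero fun μ' _ => ?_
    rw [Matrix.single_apply_of_ne, zero_mul, zero_mul]
    exact fun h => hne h.1.symm
  · intro h
    exact absurd (Finset.mem_univ _) h

private theorem r3_bilf_zero {r : ℕ} (H : Hol r) (D : ℕ) (β : Fin H.t → Fin D) (k : ℕ)
    (v w : Fin r → ℤ) : bilf H D β 0 k v w = 0 := by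
  unfold bilf
  simp

private theorem r3_dpsi {r : ℕ} (H : Hol r) (i : Fin H.t) (k : ℕ) (v : Fin r → ℤ)
    (o : Option (Letter r)) (hv : nrm v ≤ k) (κ : Fin H.d) :
    MvPolynomial.pderiv i (H.Psi (2 * (k + 1)) (v + mvo o) κ) =
      ∑ a, r3p k v a • (r3F H i o a).mulVec (H.Psi (2 * k) v) κ := by
  have hn : nrm (v + mvo o) ≤ 2 * k + 1 := (nrm_mvo v o).trans (by omega)
  have h1 : H.Psi (2 * (k + 1)) (v + mvo o) = H.g • H.Psi (2 * k + 1) (v + mvo o) :=
    H.stay (2 * k + 1) (v + mvo o) hn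
  have h2 := H.deriv (2 * k + 1) (v + mvo o) i κ hn
  rw [h1, Pi.smul_apply, smul_eq_mul, Derivation.leibniz, smul_eq_mul, smul_eq_mul, h2,
    psi_odd H k v o hv]
  rw [Fintype.sum_option, Fintype.sum_option]
  simp only [r3p, r3F, Matrix.add_mulVec, Matrix.sum_mulVec, Matrix.smul_mulVec, Pi.add_apply,
    Pi.smul_apply, Finset.sum_apply, smul_eq_mul, Matrix.mulVec_mulVec, add_smul,
    Finset.sum_add_distrib]
  simp only [nsmul_eq_mul, zsmul_eq_mul]
  push_cast
  ring

private theorem r3_second {r : ℕ} (H : Hol r) (D : ℕ) (β : Fin H.t → Fin D) (y : SP H.t)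
    (i : Fin H.t) (o : Option (Letter r)) (B : Matrix (Fin H.d) (Fin H.d) (SP H.t)) (κ κ' : Fin H.d)
    (k : ℕ) (v w : Fin r → ℤ) :
    Lf D β (y * (∑ a, r3p k v a • (r3F H i o a).mulVec (H.Psi (2 * k) v) κ) *
      B.mulVec (H.Psi (2 * k) w) κ') =
      ∑ a, r3p k v a * bilf H D β (r3w H y (r3F H i o a) B κ κ') k v w := by
  rw [Finset.mul_sum, Finset.sum_mul, map_sum]
  refine Finset.sum_congr rfl fun a _ => ?_
  rw [r3_bilf_row, mul_smul_comm, smul_mul_assoc, map_smul, smul_eq_mul]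

private theorem r3_third {r : ℕ} (H : Hol r) (D : ℕ) (β : Fin H.t → Fin D) (y : SP H.t)
    (i : Fin H.t) (o : Option (Letter r)) (B : Matrix (Fin H.d) (Fin H.d) (SP H.t)) (κ κ' : Fin H.d)
    (k : ℕ) (v w : Fin r → ℤ) :
    Lf D β (y * B.mulVec (H.Psi (2 * k) v) κ *
      (∑ a, r3p k w a • (r3F H i o a).mulVec (H.Psi (2 * k) w) κ')) =
      ∑ a, r3p k w a * bilf H D β (r3w H y B (r3F H i o a) κ κ') k v w := by
  rw [Finset.mul_sum, map_sum]
  refine Finset.sum_congr rfl fun a _ => ?_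
  rw [r3_bilf_row, mul_smul_comm, map_smul, smul_eq_mul]

/-- extension by zero of the left parameters -/
private def r3L {r : ℕ} {X : Type} [Zero X] (q : Option (Option (Fin r)) → X) : Par r → X
  | none => q none
  | some none => q (some none)
  | some (some (Sum.inl j)) => q (some (some j))
  | some (some (Sum.inr _)) => 0

private def r3R {r : ℕ} {X : Type} [Zero X] (q : Option (Option (Fin r)) → X) : Par r → X
  | none => q none
  | some none => q (some none)
  | some (some (Sum.inl _)) => 0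
  | some (some (Sum.inr j)) => q (some (some j))

private theorem r3_sumL {r : ℕ} (H : Hol r) (D : ℕ) (β : Fin H.t → Fin D)
    (q : Option (Option (Fin r)) → Matrix (Fin H.d) (Fin H.d) (SP H.t)) (k : ℕ) (v w : Fin r → ℤ) :
    ∑ a : Par r, par k v w a * bilf H D β (r3L q a) k v w =
      ∑ a, r3p k v a * bilf H D β (q a) k v w := by
  simp only [Fintype.sum_option, Fintype.sum_sum_type, par, r3p, r3L, r3_bilf_zero, mul_zero,
    Finset.sum_const_zero, add_zero]

private theorem r3_sumR {r : ℕ} (H : Hol r) (D : ℕ) (β : Fin H.t → Fin D)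
    (q : Option (Option (Fin r)) → Matrix (Fin H.d) (Fin H.d) (SP H.t)) (k : ℕ) (v w : Fin r → ℤ) :
    ∑ a : Par r, par k v w a * bilf H D β (r3R q a) k v w =
      ∑ a, r3p k w a * bilf H D β (q a) k v w := by
  simp only [Fintype.sum_option, Fintype.sum_sum_type, par, r3p, r3R, r3_bilf_zero, mul_zero,
    Finset.sum_const_zero, zero_add]

private theorem r3_degL {r d t : ℕ} {D1 : ℕ}
    {q : Option (Option (Fin r)) → Matrix (Fin d) (Fin d) (SP t)}
    (h : ∀ a κ κ', (q a κ κ').totalDegree ≤ D1) (a : Par r) (κ κ' : Fin d) :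
    (r3L q a κ κ').totalDegree ≤ D1 := by
  rcases a with _ | _ | (j | j)
  · exact h _ _ _
  · exact h _ _ _
  · exact h _ _ _
  · show (0 : SP t).totalDegree ≤ D1
    rw [MvPolynomial.totalDegree_zero]
    exact Nat.zero_le _

private theorem r3_degR {r d t : ℕ} {D1 : ℕ}
    {q : Option (Option (Fin r)) → Matrix (Fin d) (Fin d) (SP t)}
    (h : ∀ a κ κ', (q a κ κ').totalDegree ≤ D1) (a : Par r) (κ κ' : Fin d) :
    (r3R q a κ κ').totalDegree ≤ D1 := by
  rcases a with _ | _ | (j | j)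
  · exact h _ _ _
  · exact h _ _ _
  · show (0 : SP t).totalDegree ≤ D1
    rw [MvPolynomial.totalDegree_zero]
    exact Nat.zero_le _
  · exact h _ _ _

private theorem r3_bound {X : Type} [Finite X] (f : X → ℕ) : ∃ e, ∀ x, f x ≤ e := by
  obtain ⟨e, he⟩ := (Set.finite_range f).bddAbove
  exact ⟨e, fun x => he ⟨x, rfl⟩⟩

theorem rec_ibp {r : ℕ} (H : Hol r) : ∃ E : ℕ, ∀ (D D1 : ℕ) (β : Fin H.t → Fin D)
    (o o' : Option (Letter r)) (i : Fin H.t) (α : Fin H.t →₀ ℕ) (κ κ' : Fin H.d),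
    (∑ i, α i) + E ≤ D1 →
    RecOK H D D1 β o o' (Matrix.single κ κ'
      (MvPolynomial.pderiv i (MvPolynomial.monomial α 1 : SP H.t))) →
    RecOK H D D1 β o o' (Matrix.single κ κ'
      (MvPolynomial.X i ^ (2 * D - 1) * (MvPolynomial.monomial α 1 : SP H.t))) := by
  obtain ⟨e1, he1⟩ := r3_bound (fun x : Fin H.t × Option (Letter r) × Option (Option (Fin r)) ×
    Fin H.d × Fin H.d => (r3F H x.1 x.2.1 x.2.2.1 x.2.2.2.1 x.2.2.2.2).totalDegree)
  obtain ⟨e2, he2⟩ := r3_bound (fun x : Option (Letter r) × Fin H.d × Fin H.d =>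
    ((H.g • H.Xi x.1) x.2.1 x.2.2).totalDegree)
  refine ⟨e1 + e2, ?_⟩
  intro D D1 β o o' i α κ κ' hE h
  obtain ⟨y, hy⟩ : ∃ y : SP H.t, y = MvPolynomial.monomial α 1 := ⟨_, rfl⟩
  have hyd : y.totalDegree ≤ ∑ i, α i := by
    rw [hy, MvPolynomial.totalDegree_monomial α one_ne_zero, Finsupp.sum_fintype _ _ fun _ => rfl]
  rw [← hy] at h ⊢
  obtain ⟨qa, hqa, hq⟩ := h
  have hd1 : ∀ a μ μ', (r3w H y (r3F H i o a) (H.g • H.Xi o') κ κ' μ μ').totalDegree ≤ D1 := by
    intro a μ μ'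
    have h1 := he1 (i, o, a, κ, μ)
    have h2 := he2 (o', κ', μ')
    have h3 := MvPolynomial.totalDegree_mul (y * r3F H i o a κ μ) ((H.g • H.Xi o') κ' μ')
    have h4 := MvPolynomial.totalDegree_mul y (r3F H i o a κ μ)
    simp only at h1 h2
    show (y * r3F H i o a κ μ * (H.g • H.Xi o') κ' μ').totalDegree ≤ D1
    omega
  have hd2 : ∀ a μ μ', (r3w H y (H.g • H.Xi o) (r3F H i o' a) κ κ' μ μ').totalDegree ≤ D1 := by
    intro a μ μ'
    have h1 := he1 (i, o', a, κ', μ')
    have h2 := he2 (o, κ, μ)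
    have h3 := MvPolynomial.totalDegree_mul (y * (H.g • H.Xi o) κ μ) (r3F H i o' a κ' μ')
    have h4 := MvPolynomial.totalDegree_mul y ((H.g • H.Xi o) κ μ)
    simp only at h1 h2
    show (y * (H.g • H.Xi o) κ μ * r3F H i o' a κ' μ').totalDegree ≤ D1
    omega
  refine ⟨fun a => qa a + r3L (fun a => r3w H y (r3F H i o a) (H.g • H.Xi o') κ κ') a +
    r3R (fun a => r3w H y (H.g • H.Xi o) (r3F H i o' a) κ κ') a, fun a μ μ' => ?_, ?_⟩
  · have h1 := hqa a μ μ'
    have h2 := r3_degL hd1 a μ μ'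
    have h3 := r3_degR hd2 a μ μ'
    refine (MvPolynomial.totalDegree_add _ _).trans (max_le ?_ h3)
    exact (MvPolynomial.totalDegree_add _ _).trans (max_le h1 h2)
  · intro k v w hv hw
    simp only [bilf_add, mul_add, Finset.sum_add_distrib]
    rw [r3_sumL, r3_sumR, ← hq k v w hv hw, r3_bilf_single, r3_bilf_single]
    have hP : ∀ (u : Fin r → ℤ) (p : Option (Letter r)), nrm u ≤ k →
        H.Psi (2 * (k + 1)) (u + mvo p) = (H.g • H.Xi p).mulVec (H.Psi (2 * k) u) := by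
      intro u p hu
      rw [psi_step H k u p hu, Matrix.smul_mulVec]
    rw [← r3_second, ← r3_third, ← r3_dpsi H i k v o hv κ, ← r3_dpsi H i k w o' hw κ',
      ← hP v o hv, ← hP w o' hw, mul_assoc, mul_assoc, Lf_ibp, ← map_add, ← map_add]
    congr 1
    simp only [Derivation.leibniz, smul_eq_mul]
    ring

end Pool.Agent.WPU
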