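import Pool.Agent.Lib.MP_2da099_lc.UE.Defs
import Pool.Agent.Lib.MP_2da099_lc.UE.R3

/-!
# R4: the recurrence

HINTS.  `E` = the maximum of the two constants of `rec_small` and `rec_ibp`.  `D = E + 1`, so `2 D - 1 ≥ E`.  For `D1 ≥ H.t * (2 D - 2) + E`:
by `rec_of_monomials` (with `m = D1`) it suffices to treat `single κ κ' (monomial α 1)` with `|α| ≤ D1`, by strong induction on `|α|`.
If all `α i ≤ 2 D - 2`: the degree is at most `H.t (2 D - 2)`, `rec_small`.  Otherwise some `α i ≥ 2 D - 1`,
`α = (2 D - 1) e_i + α'` and `monomial α 1 = X i ^ (2 D - 1) * monomial α' 1`, `|α'| + E ≤ D1 - (2 D - 1) + E ≤ D1`, and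
`pderiv i (monomial α' 1) = α' i • monomial (α' - e_i) 1` is `RecOK` by the induction hypothesis (`RecOK.smul`) or it is zero:
`rec_ibp`.
-/

set_option autoImplicit false

namespace Pool.Agent.WPU

open Pool.Agent.Lib.PolyTime Pool.Agent.WPM Pool.Agent.WPR

private theorem r4_single_deg {t d : ℕ} (κ κ' μ μ' : Fin d) (α : Fin t →₀ ℕ) (m : ℕ)
    (h : ∑ i, α i ≤ m) :
    ((Matrix.single κ κ' (MvPolynomial.monomial α 1 : SP t)) μ μ').totalDegree ≤ m := by
  classical
  rw [Matrix.single_apply]
  split_ifs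
  · rw [MvPolynomial.totalDegree_monomial _ one_ne_zero, Finsupp.sum_fintype _ _ (fun _ => rfl)]
    exact h
  · rw [MvPolynomial.totalDegree_zero]
    exact Nat.zero_le _

theorem exists_rec {r : ℕ} (H : Hol r) : ∃ D : ℕ, 0 < D ∧ ∃ m : ℕ, ∀ D1, m ≤ D1 →
    ∀ (β : Fin H.t → Fin D) (o o' : Option (Letter r)) (q : Matrix (Fin H.d) (Fin H.d) (SP H.t)),
    (∀ κ κ', (q κ κ').totalDegree ≤ D1) → RecOK H D D1 β o o' q := by
  obtain ⟨E1, hE1⟩ := rec_small H
  obtain ⟨E2, hE2⟩ := rec_ibp H
  refine ⟨E1 + E2 + 1, Nat.succ_pos _, H.t * (2 * (E1 + E2)) + (E1 + E2),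
    fun D1 hD1 β o o' q hq => ?_⟩
  refine rec_of_monomials D1 ?_ q hq
  have key : ∀ N : ℕ, ∀ (α : Fin H.t →₀ ℕ) (κ κ' : Fin H.d), ∑ i, α i = N → N ≤ D1 →
      RecOK H (E1 + E2 + 1) D1 β o o' (Matrix.single κ κ' (MvPolynomial.monomial α 1)) := by
    intro N
    induction N using Nat.strong_induction_on with
    | _ N ih =>
      intro α κ κ' hN hND
      by_cases hc : ∀ i, α i ≤ 2 * (E1 + E2)
      · refine hE1 _ _ β o o' (H.t * (2 * (E1 + E2))) _ (fun μ μ' => ?_) (by omega)
        refine r4_single_deg κ κ' μ μ' α _ ?_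
        calc ∑ i, α i ≤ ∑ _i : Fin H.t, 2 * (E1 + E2) := Finset.sum_le_sum fun i _ => hc i
          _ = H.t * (2 * (E1 + E2)) := by
            rw [Finset.sum_const, Finset.card_univ, Fintype.card_fin, smul_eq_mul]
      · push Not at hc
        obtain ⟨i, hi⟩ := hc
        set α' : Fin H.t →₀ ℕ := α - Finsupp.single i (2 * (E1 + E2 + 1) - 1) with hα'
        have hle : Finsupp.single i (2 * (E1 + E2 + 1) - 1) ≤ α := by
          rw [Finsupp.single_le_iff]
          omega
        have hadd : Finsupp.single i (2 * (E1 + E2 + 1) - 1) + α' = α := by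
          rw [hα', add_tsub_cancel_of_le hle]
        have hsum : (2 * (E1 + E2 + 1) - 1) + ∑ j, α' j = N := by
          rw [← hN, ← hadd]
          simp only [Finsupp.add_apply, Finset.sum_add_distrib]
          congr 1
          rw [Finset.sum_eq_single i]
          · rw [Finsupp.single_eq_same]
          · intro j _ hj
            rw [Finsupp.single_apply, if_neg (fun h => hj h.symm)]
          · intro h
            exact absurd (Finset.mem_univ _) h
        have hmon : (MvPolynomial.monomial α 1 : SP H.t) =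
            MvPolynomial.X i ^ (2 * (E1 + E2 + 1) - 1) * MvPolynomial.monomial α' 1 := by
          rw [MvPolynomial.X_pow_eq_monomial, MvPolynomial.monomial_mul, one_mul, hadd]
        rw [hmon]
        refine hE2 _ _ β o o' i α' κ κ' (by omega) ?_
        have hpd : MvPolynomial.pderiv i (MvPolynomial.monomial α' 1 : SP H.t) =
            ((α' i : ℕ) : ℤ) • MvPolynomial.monomial (α' - Finsupp.single i 1) 1 := by
          rw [MvPolynomial.pderiv_monomial, MvPolynomial.smul_monomial, one_mul, smul_eq_mul,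
            mul_one]
        rw [hpd, ← Matrix.smul_single]
        refine RecOK.smul ?_ _
        have hlt : ∑ j, (α' - Finsupp.single i 1 : Fin H.t →₀ ℕ) j ≤ ∑ j, α' j := by
          refine Finset.sum_le_sum fun j _ => ?_
          rw [Finsupp.tsub_apply]
          exact Nat.sub_le _ _
        exact ih _ (by omega) _ κ κ' rfl (by omega)
  intro α κ κ' hα
  exact key _ α κ κ' rfl hα

end Pool.Agent.WPU
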