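import Pool.Agent.Lib.MP_2da099_lc.UE.Defs

/-!
# T1: the monomials of the parameters

HINTS.  `pmv_step`: for `none`: `k + 1 = k + 1 * pmv (some (0, 0))` (needs `1 ≤ K`, the exponents `0`).  For `some (γ, γ')`:
`(v i + δ i) ^ (γ i) = Σ_{e ≤ γ i} binom(γ i, e) v i ^ e δ i ^ (γ i - e)` (`add_pow`), product over `i` (`Finset.prod_univ_sum` or
`Fintype.piFinset`); the exponents `e ≤ γ i < K`.  A convenient form: `(x + δ) ^ (g : ℕ) = Σ e : Fin K, c g e δ * x ^ (e : ℕ)` with
`c g e δ = binom(g, e) δ ^ (g - e)` (zero for `e > g`), then `Π_i Σ_e = Σ_{e : Fin r → Fin K} Π_i` (`Finset.prod_univ_sum`,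
`Fintype.piFinset_univ`).  `pmv_bound`: `|v i| ≤ nrm v ≤ k`, so `|pmv| ≤ (k + 1) ^ (2 r K) `.  `par_pmv`: the parameter `v j` is the monomial
with `γ = e_j`, `γ' = 0` (`2 ≤ K`).
-/

set_option autoImplicit false

namespace Pool.Agent.WPU

open Pool.Agent.Lib.PolyTime Pool.Agent.WPM Pool.Agent.WPR

private lemma t1_pow {K : ℕ} (g : Fin K) (x δ : ℤ) :
    (x + δ) ^ (g : ℕ) = ∑ e : Fin K, ((g : ℕ).choose (e : ℕ) * δ ^ ((g : ℕ) - (e : ℕ))) * x ^ (e : ℕ) := by
  rw [add_pow, Fin.sum_univ_eq_sum_range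
    (fun e => (((g : ℕ).choose e : ℕ) * δ ^ ((g : ℕ) - e)) * x ^ e) K]
  rw [← Finset.sum_subset (Finset.range_subset_range.mpr (Nat.succ_le_of_lt g.2))]
  · refine Finset.sum_congr rfl fun e _ => ?_
    ring
  · intro e _ he
    rw [Finset.mem_range, not_lt] at he
    rw [Nat.choose_eq_zero_of_lt (by omega)]
    simp

private lemma t1_prod {r K : ℕ} (γ : Fin r → Fin K) (v δ : Fin r → ℤ) :
    ∏ i, (v + δ) i ^ (γ i : ℕ) = ∑ e : Fin r → Fin K,
      (∏ i, (((γ i : ℕ).choose (e i : ℕ) : ℕ) * δ i ^ ((γ i : ℕ) - (e i : ℕ)))) *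
        ∏ i, v i ^ (e i : ℕ) := by
  have h := Finset.prod_univ_sum (fun _ : Fin r => (Finset.univ : Finset (Fin K)))
    (fun i e => ((((γ i : ℕ).choose (e : ℕ) : ℕ) : ℤ) * δ i ^ ((γ i : ℕ) - (e : ℕ))) * v i ^ (e : ℕ))
  rw [Fintype.piFinset_univ] at h
  calc ∏ i, (v + δ) i ^ (γ i : ℕ)
      = ∏ i, ∑ e : Fin K, ((((γ i : ℕ).choose (e : ℕ) : ℕ) : ℤ) *
          δ i ^ ((γ i : ℕ) - (e : ℕ))) * v i ^ (e : ℕ) :=
        Finset.prod_congr rfl fun i _ => t1_pow (γ i) (v i) (δ i)
    _ = _ := h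
    _ = _ := Finset.sum_congr rfl fun e _ => Finset.prod_mul_distrib

theorem pmv_step {r K : ℕ} (hK : 1 ≤ K) (o o' : Option (Letter r)) :
    ∃ A : PI r K → PI r K → ℤ, ∀ (k : ℕ) (v w : Fin r → ℤ) (i : PI r K),
      pmv (k + 1) (v + mvo o) (w + mvo o') i = ∑ j, A i j * pmv k v w j := by
  classical
  let z : (Fin r → Fin K) × (Fin r → Fin K) := (fun _ => ⟨0, hK⟩, fun _ => ⟨0, hK⟩)
  let A : PI r K → PI r K → ℤ := fun i j =>
    match i, j with
    | none, none => 1
    | none, some e => if e = z then 1 else 0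
    | some _, none => 0
    | some γ, some e =>
      (∏ i, ((((γ.1 i : ℕ).choose (e.1 i : ℕ) : ℕ) : ℤ) * mvo o i ^ ((γ.1 i : ℕ) - (e.1 i : ℕ)))) *
      ∏ i, ((((γ.2 i : ℕ).choose (e.2 i : ℕ) : ℕ) : ℤ) * mvo o' i ^ ((γ.2 i : ℕ) - (e.2 i : ℕ)))
  refine ⟨A, fun k v w i => ?_⟩
  rcases i with _ | γ
  · rw [Fintype.sum_option]
    have h1 : ∑ e : (Fin r → Fin K) × (Fin r → Fin K), A none (some e) * pmv k v w (some e) =
        pmv k v w (some z) := by
      rw [Finset.sum_eq_single z]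
      · simp [A]
      · intro e _ he
        simp [A, he]
      · intro h
        exact absurd (Finset.mem_univ _) h
    rw [h1]
    simp [A, pmv, z]
  · rw [Fintype.sum_option]
    have h0 : A (some γ) none * pmv k v w (none : PI r K) = 0 := by simp [A]
    rw [h0, zero_add, Fintype.sum_prod_type]
    change (∏ i, (v + mvo o) i ^ (γ.1 i : ℕ)) * ∏ i, (w + mvo o') i ^ (γ.2 i : ℕ) = _
    rw [t1_prod, t1_prod, Finset.sum_mul_sum]
    refine Finset.sum_congr rfl fun e _ => Finset.sum_congr rfl fun e' _ => ?_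
    change _ = ((∏ i, ((((γ.1 i : ℕ).choose (e i : ℕ) : ℕ) : ℤ) *
        mvo o i ^ ((γ.1 i : ℕ) - (e i : ℕ)))) *
      ∏ i, ((((γ.2 i : ℕ).choose (e' i : ℕ) : ℕ) : ℤ) *
        mvo o' i ^ ((γ.2 i : ℕ) - (e' i : ℕ)))) *
      ((∏ i, v i ^ (e i : ℕ)) * ∏ i, w i ^ (e' i : ℕ))
    ring

private lemma t1_natAbs_prod {ι : Type} (s : Finset ι) (f : ι → ℤ) :
    (∏ i ∈ s, f i).natAbs = ∏ i ∈ s, (f i).natAbs := by
  classical
  induction s using Finset.induction_on with
  | empty => simp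
  | insert a s ha ih => rw [Finset.prod_insert ha, Finset.prod_insert ha, Int.natAbs_mul, ih]

private lemma t1_bound {r K k : ℕ} (v : Fin r → ℤ) (hv : nrm v ≤ k) (γ : Fin r → Fin K) :
    (∏ i, v i ^ (γ i : ℕ)).natAbs ≤ (k + 1) ^ (K * r) := by
  have h1 : ∀ i, (v i).natAbs ≤ k + 1 := by
    intro i
    have h := Finset.single_le_sum (f := fun i => (v i).natAbs) (fun _ _ => Nat.zero_le _)
      (Finset.mem_univ i)
    unfold nrm at hv
    exact (h.trans hv).trans (Nat.le_succ k)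
  have e : (∏ i, v i ^ (γ i : ℕ)).natAbs = ∏ i, (v i).natAbs ^ (γ i : ℕ) := by
    rw [t1_natAbs_prod]
    refine Finset.prod_congr rfl fun i _ => ?_
    exact Int.natAbs_pow _ _
  rw [e]
  calc ∏ i, (v i).natAbs ^ (γ i : ℕ) ≤ ∏ _i : Fin r, (k + 1) ^ K := by
        refine Finset.prod_le_prod' fun i _ => ?_
        exact (Nat.pow_le_pow_left (h1 i) _).trans
          (Nat.pow_le_pow_right (Nat.succ_pos k) (γ i).2.le)
    _ = (k + 1) ^ (K * r) := by
        rw [Finset.prod_const, Finset.card_univ, Fintype.card_fin, ← pow_mul]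

theorem pmv_bound (r K : ℕ) : ∃ C : ℕ, ∀ (k : ℕ) (v w : Fin r → ℤ) (i : PI r K),
    nrm v ≤ k → nrm w ≤ k → (pmv k v w i).natAbs ≤ C * (k + 1) ^ C := by
  refine ⟨K * r + K * r + 1, fun k v w i hv hw => ?_⟩
  have hk : 1 ≤ k + 1 := Nat.succ_pos k
  have hbig : (k + 1) ^ (K * r + K * r + 1) ≤
      (K * r + K * r + 1) * (k + 1) ^ (K * r + K * r + 1) :=
    Nat.le_mul_of_pos_left _ (Nat.succ_pos _)
  rcases i with _ | γ
  · have h1 : (pmv k v w (none : PI r K)).natAbs = k := by simp [pmv]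
    rw [h1]
    calc k ≤ k + 1 := Nat.le_succ k
      _ = (k + 1) ^ 1 := (pow_one _).symm
      _ ≤ (k + 1) ^ (K * r + K * r + 1) := Nat.pow_le_pow_right hk (by omega)
      _ ≤ _ := hbig
  · have h1 : (pmv k v w (some γ)).natAbs =
        (∏ i, v i ^ (γ.1 i : ℕ)).natAbs * (∏ i, w i ^ (γ.2 i : ℕ)).natAbs := Int.natAbs_mul _ _
    rw [h1]
    calc _ ≤ (k + 1) ^ (K * r) * (k + 1) ^ (K * r) :=
          Nat.mul_le_mul (t1_bound v hv γ.1) (t1_bound w hw γ.2)
      _ = (k + 1) ^ (K * r + K * r) := (pow_add _ _ _).symm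
      _ ≤ (k + 1) ^ (K * r + K * r + 1) := Nat.pow_le_pow_right hk (by omega)
      _ ≤ _ := hbig

theorem par_pmv {r K : ℕ} (hK : 2 ≤ K) : ∃ e : Par r → PI r K, Function.Injective e ∧
    ∀ (k : ℕ) (v w : Fin r → ℤ) (a : Par r), pmv k v w (e a) = par k v w a := by
  classical
  let z : Fin r → Fin K := fun _ => ⟨0, by omega⟩
  let u : Fin r → Fin r → Fin K := fun j i => if i = j then ⟨1, by omega⟩ else ⟨0, by omega⟩
  have hu : ∀ j (v : Fin r → ℤ), ∏ i, v i ^ (u j i : ℕ) = v j := by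
    intro j v
    rw [Finset.prod_eq_single j]
    · simp [u]
    · intro i _ hi
      simp [u, hi]
    · intro h
      exact absurd (Finset.mem_univ _) h
  have hz : ∀ v : Fin r → ℤ, ∏ i, v i ^ (z i : ℕ) = 1 := by
    intro v
    simp [z]
  have huz : ∀ j, u j ≠ z := by
    intro j h
    have := congrArg Fin.val (congrFun h j)
    simp [u, z] at this
  have huu : ∀ j j', u j = u j' → j = j' := by
    intro j j' h
    by_contra hne
    have := congrArg Fin.val (congrFun h j)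
    simp [u, hne] at this
  let e : Par r → PI r K := fun a =>
    match a with
    | none => some (z, z)
    | some none => none
    | some (some (Sum.inl j)) => some (u j, z)
    | some (some (Sum.inr j)) => some (z, u j)
  refine ⟨e, ?_, ?_⟩
  · intro a b hab
    rcases a with _ | _ | j | j <;> rcases b with _ | _ | j' | j'
    · rfl
    · exact absurd hab (by simp [e])
    · have := congrArg Prod.fst (Option.some.inj hab)
      exact absurd this.symm (huz j')
    · have := congrArg Prod.snd (Option.some.inj hab)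
      exact absurd this.symm (huz j')
    · exact absurd hab (by simp [e])
    · rfl
    · exact absurd hab (by simp [e])
    · exact absurd hab (by simp [e])
    · have := congrArg Prod.fst (Option.some.inj hab)
      exact absurd this (huz j)
    · exact absurd hab (by simp [e])
    · have := congrArg Prod.fst (Option.some.inj hab)
      rw [huu j j' this]
    · have := congrArg Prod.fst (Option.some.inj hab)
      exact absurd this (huz j)
    · have := congrArg Prod.snd (Option.some.inj hab)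
      exact absurd this (huz j)
    · exact absurd hab (by simp [e])
    · have := congrArg Prod.fst (Option.some.inj hab)
      exact absurd this.symm (huz j')
    · have := congrArg Prod.snd (Option.some.inj hab)
      rw [huu j j' this]
  · intro k v w a
    rcases a with _ | _ | j | j
    · change (∏ i, v i ^ (z i : ℕ)) * ∏ i, w i ^ (z i : ℕ) = 1
      rw [hz, hz, one_mul]
    · rfl
    · change (∏ i, v i ^ (u j i : ℕ)) * ∏ i, w i ^ (z i : ℕ) = v j
      rw [hu, hz, mul_one]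
    · change (∏ i, v i ^ (z i : ℕ)) * ∏ i, w i ^ (u j i : ℕ) = w j
      rw [hu, hz, one_mul]

end Pool.Agent.WPU
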