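import Pool.Agent.Lib.MP_2da099_lc.UE.Defs
import Pool.Agent.Lib.MP_2da099_lc.UE.R1

/-!
# T2: a finite basis of the forms

HINTS.  `I = {a : Fin t → Fin (D1 + 1) // ∑ i, (a i : ℕ) ≤ D1} × Fin d × Fin d`, a finite type; `J = Fintype.card I`,
`b (a, κ, κ') = Matrix.single κ κ' (monomial a 1)`.  `coe q (a, κ, κ')` = the coefficient of the monomial `a` in `q κ κ'`.  Every `q` of
degree at most `D1` is the combination (the support of `q κ κ'` consists of `α` with `∑ α i ≤ D1`,
`MvPolynomial.le_totalDegree`, `MvPolynomial.as_sum`).  `bilf` is linear (`bilf_sum`, `bilf_smul`).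
-/

set_option autoImplicit false

namespace Pool.Agent.WPU

open Pool.Agent.Lib.PolyTime Pool.Agent.WPM Pool.Agent.WPR

theorem exists_basis (t d D1 : ℕ) : ∃ (J : ℕ) (b : Fin J → Matrix (Fin d) (Fin d) (SP t)),
    (∀ j κ κ', (b j κ κ').totalDegree ≤ D1) ∧
    ∀ q : Matrix (Fin d) (Fin d) (SP t), (∀ κ κ', (q κ κ').totalDegree ≤ D1) →
      ∃ c : Fin J → ℤ, q = ∑ j, c j • b j := by
  classical
  let S : Finset (Fin t →₀ ℕ) :=
    ((Finset.univ : Finset (Fin t → Fin (D1 + 1))).image
      (fun a => Finsupp.equivFunOnFinite.symm (fun i => (a i : ℕ)))).filter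
        (fun α => (α.sum fun _ e => e) ≤ D1)
  have hS : ∀ α : Fin t →₀ ℕ, (α.sum fun _ e => e) ≤ D1 → α ∈ S := by
    intro α hα
    refine Finset.mem_filter.2 ⟨Finset.mem_image.2 ⟨fun i => ⟨α i, ?_⟩, Finset.mem_univ _, ?_⟩, hα⟩
    · by_cases hi : α i = 0
      · omega
      · have h1 : α i ≤ α.sum fun _ e => e := by
          rw [Finsupp.sum]
          exact Finset.single_le_sum (f := fun i => α i) (fun _ _ => Nat.zero_le _)
            (Finsupp.mem_support_iff.2 hi)
        omega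
    · ext i
      simp
  have hS' : ∀ α ∈ S, (α.sum fun _ e => e) ≤ D1 := fun α hα => (Finset.mem_filter.1 hα).2
  let e := Fintype.equivFin (↥S × Fin d × Fin d)
  refine ⟨Fintype.card (↥S × Fin d × Fin d),
    fun j => Matrix.single (e.symm j).2.1 (e.symm j).2.2
      (MvPolynomial.monomial ((e.symm j).1 : Fin t →₀ ℕ) (1 : ℤ)), ?_, ?_⟩
  · intro j κ κ'
    beta_reduce
    rw [Matrix.single_apply]
    split_ifs
    · exact (MvPolynomial.totalDegree_monomial_le _ _).trans (hS' _ (e.symm j).1.2)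
    · rw [MvPolynomial.totalDegree_zero]
      exact Nat.zero_le _
  · intro q hq
    refine ⟨fun j => MvPolynomial.coeff ((e.symm j).1 : Fin t →₀ ℕ)
      (q (e.symm j).2.1 (e.symm j).2.2), ?_⟩
    have h1 := Fintype.sum_equiv e.symm
      (fun j => MvPolynomial.coeff ((e.symm j).1 : Fin t →₀ ℕ)
        (q (e.symm j).2.1 (e.symm j).2.2) • Matrix.single (e.symm j).2.1 (e.symm j).2.2
        (MvPolynomial.monomial ((e.symm j).1 : Fin t →₀ ℕ) (1 : ℤ)))
      (fun p : ↥S × Fin d × Fin d => MvPolynomial.coeff (p.1 : Fin t →₀ ℕ)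
        (q p.2.1 p.2.2) • Matrix.single p.2.1 p.2.2
        (MvPolynomial.monomial (p.1 : Fin t →₀ ℕ) (1 : ℤ))) (fun j => rfl)
    rw [h1, Fintype.sum_prod_type]
    refine Matrix.ext fun i j => ?_
    rw [Matrix.sum_apply]
    have h2 : ∀ α : ↥S, (∑ y : Fin d × Fin d, MvPolynomial.coeff (α : Fin t →₀ ℕ) (q y.1 y.2) •
        Matrix.single y.1 y.2 (MvPolynomial.monomial (α : Fin t →₀ ℕ) (1 : ℤ))) i j =
        MvPolynomial.monomial (α : Fin t →₀ ℕ) (MvPolynomial.coeff (α : Fin t →₀ ℕ) (q i j)) := by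
      intro α
      rw [Matrix.sum_apply, Finset.sum_eq_single (i, j)]
      · rw [Matrix.smul_apply, Matrix.single_apply, if_pos ⟨rfl, rfl⟩,
          MvPolynomial.smul_monomial, smul_eq_mul, mul_one]
      · rintro ⟨y, z⟩ _ hne
        rw [Matrix.smul_apply, Matrix.single_apply, if_neg, smul_zero]
        rintro ⟨h3, h4⟩
        exact hne (by rw [← h3, ← h4])
      · intro h
        exact absurd (Finset.mem_univ _) h
    rw [Finset.sum_congr rfl fun α _ => h2 α]
    have h3 : ∑ α : ↥S, MvPolynomial.monomial (α : Fin t →₀ ℕ)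
        (MvPolynomial.coeff (α : Fin t →₀ ℕ) (q i j)) =
        ∑ α ∈ S, MvPolynomial.monomial α (MvPolynomial.coeff α (q i j)) :=
      Finset.sum_coe_sort S (fun α => MvPolynomial.monomial α (MvPolynomial.coeff α (q i j)))
    rw [h3]
    have h4 : (q i j).support ⊆ S := by
      intro α hα
      exact hS α ((MvPolynomial.le_totalDegree hα).trans (hq i j))
    rw [← Finset.sum_subset h4, MvPolynomial.support_sum_monomial_coeff]
    intro α _ hα
    rw [MvPolynomial.notMem_support_iff.1 hα, MvPolynomial.monomial_zero]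

end Pool.Agent.WPU
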