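import Pool.Agent.Lib.MP_2da099_lc.UE.Defs
import Pool.Agent.Lib.MP_2da099_lc.UE.T1
import Pool.Agent.Lib.MP_2da099_lc.UE.T2
import Pool.Agent.Lib.MP_2da099_lc.UE.R4

/-!
# T3: the machine of the moments

HINTS.  `N1 = Fintype.card (PI r K)`, `N2 = Fintype.card ((Fin t → Fin D) × Fin J)` with `exists_basis` for `D1`.  The state after
`u` is `pmv |u| v w` and `bilf β (b j) |u| v w`, `v = vpos (u.map fst)`, `w = vpos (u.map snd)`; initial state: the values at
`k = 0, v = w = 0`.  Matrix `A (o, o')` from `pmv_step`.  For `(o, o')`, `β`, `j`: `hrec` gives `qa`; each `qa a` is a combination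
of the `b j'` (`exists_basis`); `B (o, o')` at the parameter `e a` (`par_pmv`, injective; zero at the other parameters) has the entry
`(β, j), (β, j')` = the coefficient.  Induction on `u` from the right: `nrm (vpos u) ≤ |u|` (`nrm_mvo`),
`vpos (u ++ [o]) = vpos u + mvo o`.  `Tame`: `pmv_bound`.  The last claim: `q = Σ c j • b j`, `bilf_sum`, `bilf_smul`.
-/

set_option autoImplicit false

namespace Pool.Agent.WPU

open Pool.Agent.Lib.PolyTime Pool.Agent.WPM Pool.Agent.WPR

theorem vpos_append {r : ℕ} (u : List (Option (Letter r))) (o : Option (Letter r)) :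
    vpos (u ++ [o]) = vpos u + mvo o := by
  simp [vpos]

private theorem t3_nrm_add {r : ℕ} (a b : Fin r → ℤ) : nrm (a + b) ≤ nrm a + nrm b := by
  unfold nrm
  rw [← Finset.sum_add_distrib]
  refine Finset.sum_le_sum fun i _ => ?_
  rw [Pi.add_apply]
  exact Int.natAbs_add_le _ _

private theorem t3_nrm_mvo {r : ℕ} (o : Option (Letter r)) : nrm (mvo o) ≤ 1 := by
  cases o with
  | none => simp [nrm, mvo]
  | some l =>
    unfold nrm
    rw [Finset.sum_eq_single l.1]
    · simp only [mvo, sz, sgl]
      rcases l with ⟨l1, l2⟩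
      cases l2 <;> simp
    · intro i _ hi
      simp [mvo, sz, sgl, hi]
    · intro h
      exact absurd (Finset.mem_univ _) h

theorem nrm_vpos {r : ℕ} (u : List (Option (Letter r))) : nrm (vpos u) ≤ u.length := by
  induction u using List.reverseRecOn with
  | nil => simp [nrm, vpos]
  | append_singleton u o ih =>
    rw [vpos_append, List.length_append]
    have h1 := t3_nrm_add (vpos u) (mvo o)
    have h2 := t3_nrm_mvo o
    simp only [List.length_cons, List.length_nil]
    omega

private theorem t3_coef {r : ℕ} (H : Hol r) (D D1 : ℕ) {J : ℕ}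
    {b : Fin J → Matrix (Fin H.d) (Fin H.d) (SP H.t)}
    (hb : ∀ j κ κ', (b j κ κ').totalDegree ≤ D1)
    (hbq : ∀ q : Matrix (Fin H.d) (Fin H.d) (SP H.t), (∀ κ κ', (q κ κ').totalDegree ≤ D1) →
      ∃ c : Fin J → ℤ, q = ∑ j, c j • b j)
    (hrec : ∀ (β : Fin H.t → Fin D) (o o' : Option (Letter r))
      (q : Matrix (Fin H.d) (Fin H.d) (SP H.t)),
      (∀ κ κ', (q κ κ').totalDegree ≤ D1) → RecOK H D D1 β o o' q)
    (β : Fin H.t → Fin D) (i : Option (Letter r) × Option (Letter r)) (j : Fin J) :
    ∃ Cf : Par r → Fin J → ℤ, ∀ (k : ℕ) (v w : Fin r → ℤ), nrm v ≤ k → nrm w ≤ k →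
      bilf H D β (b j) (k + 1) (v + mvo i.1) (w + mvo i.2) =
        ∑ a, par k v w a * ∑ j', Cf a j' * bilf H D β (b j') k v w := by
  obtain ⟨qa, h1, h2⟩ := hrec β i.1 i.2 (b j) (hb j)
  have h3 : ∀ a, ∃ c : Fin J → ℤ, qa a = ∑ j, c j • b j := fun a => hbq (qa a) (h1 a)
  choose Cf hCf using h3
  refine ⟨Cf, fun k v w hv hw => ?_⟩
  rw [h2 k v w hv hw]
  refine Finset.sum_congr rfl fun a _ => ?_
  rw [hCf a, bilf_sum]
  congr 1
  refine Finset.sum_congr rfl fun j' _ => ?_
  rw [bilf_smul]

private theorem t3_sum {β J P : Type} [Fintype β] [Fintype J] [Fintype P] [DecidableEq β]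
    {Q : Type} [Fintype Q] [DecidableEq Q] (ep : P → Q) (x : Q → ℤ) (m : β × J → ℤ) (b : β)
    (C : P → J → ℤ) :
    ∑ q, x q * ∑ y : β × J, (if b = y.1 then (∑ a : P, if ep a = q then C a y.2 else 0) else 0) *
      m y = ∑ a, x (ep a) * ∑ j, C a j * m (b, j) := by
  have h1 : ∀ q, ∑ y : β × J, (if b = y.1 then (∑ a : P, if ep a = q then C a y.2 else 0) else 0) *
      m y = ∑ j, (∑ a : P, if ep a = q then C a j else 0) * m (b, j) := by
    intro q
    rw [Fintype.sum_prod_type, Finset.sum_eq_single b]
    · simp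
    · intro b' _ hb'
      refine Finset.sum_eq_zero fun j _ => ?_
      simp [Ne.symm hb']
    · intro h
      exact absurd (Finset.mem_univ _) h
  simp only [h1]
  have h2 : ∀ q, x q * ∑ j, (∑ a : P, if ep a = q then C a j else 0) * m (b, j) =
      ∑ a : P, if ep a = q then x (ep a) * ∑ j, C a j * m (b, j) else 0 := by
    intro q
    simp only [Finset.sum_mul]
    rw [Finset.sum_comm, Finset.mul_sum]
    refine Finset.sum_congr rfl fun a _ => ?_
    split_ifs with h
    · rw [h]
    · simp
  simp only [h2]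
  rw [Finset.sum_comm]
  refine Finset.sum_congr rfl fun a _ => ?_
  simp

theorem exists_machine {r : ℕ} (H : Hol r) (K : ℕ) (hK : 2 ≤ K) (D D1 : ℕ)
    (hrec : ∀ (β : Fin H.t → Fin D) (o o' : Option (Letter r))
      (q : Matrix (Fin H.d) (Fin H.d) (SP H.t)),
      (∀ κ κ', (q κ κ').totalDegree ≤ D1) → RecOK H D D1 β o o' q) :
    ∃ (M : BM (Option (Letter r) × Option (Letter r))) (e : PI r K → Fin M.N1), M.Tame ∧
      (∀ u i, (M.run u).1 (e i) =
        pmv u.length (vpos (u.map Prod.fst)) (vpos (u.map Prod.snd)) i) ∧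
      ∀ (β : Fin H.t → Fin D) (q : Matrix (Fin H.d) (Fin H.d) (SP H.t)),
        (∀ κ κ', (q κ κ').totalDegree ≤ D1) → ∃ c : Fin M.N2 → ℤ, ∀ u,
          ∑ j, c j * (M.run u).2 j =
            bilf H D β q u.length (vpos (u.map Prod.fst)) (vpos (u.map Prod.snd)) := by
  classical
  obtain ⟨J, b, hb, hbq⟩ := exists_basis H.t H.d D1
  choose Cf hCf using t3_coef H D D1 hb hbq hrec
  obtain ⟨ep, -, hep⟩ := par_pmv (r := r) hK
  have hA := fun i : Option (Letter r) × Option (Letter r) => pmv_step (by omega : 1 ≤ K) i.1 i.2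
  choose A0 hA0 using hA
  obtain ⟨Cb, hCb⟩ := pmv_bound r K
  let eN : PI r K ≃ Fin (Fintype.card (PI r K)) := Fintype.equivFin _
  let fN : ((Fin H.t → Fin D) × Fin J) ≃ Fin (Fintype.card ((Fin H.t → Fin D) × Fin J)) :=
    Fintype.equivFin _
  let M : BM (Option (Letter r) × Option (Letter r)) :=
    { N1 := Fintype.card (PI r K)
      N2 := Fintype.card ((Fin H.t → Fin D) × Fin J)
      A := fun i p p' => A0 i (eN.symm p) (eN.symm p')
      B := fun i p x y => if (fN.symm x).1 = (fN.symm y).1 then
        ∑ a : Par r, (if ep a = eN.symm p then Cf (fN.symm x).1 i (fN.symm x).2 a (fN.symm y).2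
          else 0) else 0
      p0 := fun p => pmv 0 0 0 (eN.symm p)
      m0 := fun x => bilf H D (fN.symm x).1 (b (fN.symm x).2) 0 0 0 }
  have hrun : ∀ u : List (Option (Letter r) × Option (Letter r)),
      (∀ p, (M.run u).1 p =
        pmv u.length (vpos (u.map Prod.fst)) (vpos (u.map Prod.snd)) (eN.symm p)) ∧
      ∀ x, (M.run u).2 x = bilf H D (fN.symm x).1 (b (fN.symm x).2) u.length
        (vpos (u.map Prod.fst)) (vpos (u.map Prod.snd)) := by
    intro u
    induction u using List.reverseRecOn with
    | nil => exact ⟨fun p => rfl, fun x => rfl⟩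
    | append_singleton u i ih =>
      obtain ⟨ih1, ih2⟩ := ih
      have hr : M.run (u ++ [i]) = M.step (M.run u) i := by
        unfold BM.run
        rw [List.foldl_append]
        rfl
      have hl : (u ++ [i]).length = u.length + 1 := by simp
      have hv : vpos ((u ++ [i]).map Prod.fst) = vpos (u.map Prod.fst) + mvo i.1 := by
        rw [List.map_append]
        exact vpos_append _ _
      have hw : vpos ((u ++ [i]).map Prod.snd) = vpos (u.map Prod.snd) + mvo i.2 := by
        rw [List.map_append]
        exact vpos_append _ _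
      have hnv : nrm (vpos (u.map Prod.fst)) ≤ u.length := by
        have := nrm_vpos (u.map Prod.fst)
        rwa [List.length_map] at this
      have hnw : nrm (vpos (u.map Prod.snd)) ≤ u.length := by
        have := nrm_vpos (u.map Prod.snd)
        rwa [List.length_map] at this
      rw [hr, hl, hv, hw]
      constructor
      · intro p
        rw [hA0 i]
        change ∑ p', A0 i (eN.symm p) (eN.symm p') * (M.run u).1 p' = _
        rw [← Equiv.sum_comp eN.symm (fun j => A0 i (eN.symm p) j *
          pmv u.length (vpos (u.map Prod.fst)) (vpos (u.map Prod.snd)) j)]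
        exact Finset.sum_congr rfl fun p' _ => by rw [ih1]
      · intro x
        rw [hCf (fN.symm x).1 i (fN.symm x).2 _ _ _ hnv hnw]
        change (∑ p, (M.run u).1 p • (M.B i p).mulVec (M.run u).2) x = _
        rw [Finset.sum_apply]
        have h1 : ∀ p, ((M.run u).1 p • (M.B i p).mulVec (M.run u).2) x =
            pmv u.length (vpos (u.map Prod.fst)) (vpos (u.map Prod.snd)) (eN.symm p) *
              ∑ y : (Fin H.t → Fin D) × Fin J, (if (fN.symm x).1 = y.1 then
                ∑ a : Par r, (if ep a = eN.symm p then Cf (fN.symm x).1 i (fN.symm x).2 a y.2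
                  else 0) else 0) * bilf H D y.1 (b y.2) u.length
                    (vpos (u.map Prod.fst)) (vpos (u.map Prod.snd)) := by
          intro p
          rw [Pi.smul_apply, smul_eq_mul, ih1]
          congr 1
          rw [← Equiv.sum_comp fN.symm]
          change ∑ y, M.B i p x y * (M.run u).2 y = _
          refine Finset.sum_congr rfl fun y _ => ?_
          rw [ih2]
        rw [Finset.sum_congr rfl fun p _ => h1 p]
        rw [Equiv.sum_comp eN.symm (fun q => pmv u.length (vpos (u.map Prod.fst))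
          (vpos (u.map Prod.snd)) q * ∑ y : (Fin H.t → Fin D) × Fin J,
            (if (fN.symm x).1 = y.1 then
                ∑ a : Par r, (if ep a = q then Cf (fN.symm x).1 i (fN.symm x).2 a y.2
                  else 0) else 0) * bilf H D y.1 (b y.2) u.length
                    (vpos (u.map Prod.fst)) (vpos (u.map Prod.snd)))]
        rw [t3_sum ep (pmv u.length (vpos (u.map Prod.fst)) (vpos (u.map Prod.snd)))
          (fun y => bilf H D y.1 (b y.2) u.length
                    (vpos (u.map Prod.fst)) (vpos (u.map Prod.snd))) (fN.symm x).1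
          (Cf (fN.symm x).1 i (fN.symm x).2)]
        refine Finset.sum_congr rfl fun a _ => ?_
        rw [hep]
  refine ⟨M, eN, ⟨Cb, fun u a => ?_⟩, fun u i => ?_, fun β q hq => ?_⟩
  · rw [(hrun u).1]
    apply hCb
    · have := nrm_vpos (u.map Prod.fst)
      rwa [List.length_map] at this
    · have := nrm_vpos (u.map Prod.snd)
      rwa [List.length_map] at this
  · rw [(hrun u).1, Equiv.symm_apply_apply]
  · obtain ⟨c, hc⟩ := hbq q hq
    refine ⟨fun x => if (fN.symm x).1 = β then c (fN.symm x).2 else 0, fun u => ?_⟩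
    rw [hc, bilf_sum]
    let F : (Fin H.t → Fin D) × Fin J → ℤ := fun y => (if y.1 = β then c y.2 else 0) *
      bilf H D y.1 (b y.2) u.length (vpos (u.map Prod.fst)) (vpos (u.map Prod.snd))
    have h1 : ∑ x, (if (fN.symm x).1 = β then c (fN.symm x).2 else 0) * (M.run u).2 x =
        ∑ x, F (fN.symm x) :=
      Finset.sum_congr rfl fun x _ => by rw [(hrun u).2]
    refine h1.trans ((Equiv.sum_comp fN.symm F).trans ?_)
    rw [Fintype.sum_prod_type, Finset.sum_eq_single β]
    · refine Finset.sum_congr rfl fun j _ => ?_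
      simp only [F]
      rw [bilf_smul, if_pos trivial]
    · intro β' _ hβ'
      refine Finset.sum_eq_zero fun j _ => ?_
      simp [F, hβ']
    · intro h
      exact absurd (Finset.mem_univ _) h

end Pool.Agent.WPU
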