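import Pool.Agent.Lib.MP_2da099_lc.UE.Defs
import Pool.Agent.Lib.MP_2da099_lc.R2.N01
import Pool.Agent.Lib.MP_2da099_lc.R2.Z01

/-!
# Q3a: bounds for the run of a tame bilinear machine

HINTS.  `run_bound`: by induction (`List.reverseRecOn`; `BM.run` of `u ++ [i]` is `BM.step` of the run of `u`,
`List.foldl_append`): if `|p a| ≤ C (n + 1) ^ C` then all entries of `∑ a, p a • (B i a *ᵥ m)` are at most
`N1 * N2 * b * C (n + 1) ^ C * max |m|` (`b` bounds all entries of all the matrices, `ι` is finite), so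
`|m| ≤ (c (n + 1)) ^ (c' (n + 1))`, and `n + 1 ≤ 2 ^ lg n`.  `size_run`: `size_zblist_le` with `2 ^ k`, the lengths are the constants
`N1`, `N2`.
-/

set_option autoImplicit false

namespace Pool.Agent.WPU

open Pool.Agent.Lib.PolyTime Pool.Agent.WPM Pool.Agent.WPR

theorem lg_mono {a b : ℕ} (h : a ≤ b) : lg a ≤ lg b := by
  unfold lg
  have := Nat.log_mono_right (b := 2) (Nat.add_le_add_right h 1)
  omega

theorem lt_two_pow_lg (n : ℕ) : n + 1 ≤ 2 ^ lg n :=
  (Nat.lt_pow_succ_log_self Nat.one_lt_two (n + 1)).le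

theorem run_append {ι : Type} (M : BM ι) (u : List ι) (i : ι) :
    M.run (u ++ [i]) = M.step (M.run u) i := by
  simp [BM.run, List.foldl_append]

private theorem q3a_one_le_lg (n : ℕ) : 1 ≤ lg n := Nat.succ_le_succ (Nat.zero_le _)

private theorem q3a_step {ι : Type} (M : BM ι) (i : ι) (x : (Fin M.N1 → ℤ) × (Fin M.N2 → ℤ))
    (b P Q : ℕ) (hb : ∀ a j j', (M.B i a j j').natAbs ≤ b) (hP : ∀ a, (x.1 a).natAbs ≤ P)
    (hQ : ∀ j, (x.2 j).natAbs ≤ Q) (j : Fin M.N2) :
    ((M.step x i).2 j).natAbs ≤ M.N1 * (P * (M.N2 * (b * Q))) := by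
  have e : (M.step x i).2 j = ∑ a, x.1 a * ∑ j', M.B i a j j' * x.2 j' := by
    simp only [BM.step, Finset.sum_apply, Pi.smul_apply, smul_eq_mul]
    rfl
  rw [e]
  refine (Int.natAbs_sum_le _ _).trans ?_
  have h1 : ∀ a ∈ (Finset.univ : Finset (Fin M.N1)),
      (x.1 a * ∑ j', M.B i a j j' * x.2 j').natAbs ≤ P * (M.N2 * (b * Q)) := by
    intro a _
    rw [Int.natAbs_mul]
    refine Nat.mul_le_mul (hP a) ?_
    refine (Int.natAbs_sum_le _ _).trans ?_
    have h2 : ∀ j' ∈ (Finset.univ : Finset (Fin M.N2)),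
        (M.B i a j j' * x.2 j').natAbs ≤ b * Q := by
      intro j' _
      rw [Int.natAbs_mul]
      exact Nat.mul_le_mul (hb a j j') (hQ j')
    refine (Finset.sum_le_sum h2).trans ?_
    rw [Finset.sum_const, Finset.card_univ, Fintype.card_fin, smul_eq_mul]
  refine (Finset.sum_le_sum h1).trans ?_
  rw [Finset.sum_const, Finset.card_univ, Fintype.card_fin, smul_eq_mul]

theorem run_bound {ι : Type} [Finite ι] (M : BM ι) (hM : M.Tame) : ∃ C : ℕ, ∀ u : List ι,
    (∀ a, ((M.run u).1 a).natAbs ≤ 2 ^ (C * lg u.length)) ∧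
    ∀ j, ((M.run u).2 j).natAbs ≤ 2 ^ (C * ((u.length + 1) * lg u.length)) := by
  obtain ⟨C, hC⟩ := hM
  obtain ⟨b, hb⟩ := Finite.exists_le
    (fun q : ι × Fin M.N1 × Fin M.N2 × Fin M.N2 => (M.B q.1 q.2.1 q.2.2.1 q.2.2.2).natAbs)
  obtain ⟨m, hm⟩ := Finite.exists_le (fun j => (M.m0 j).natAbs)
  set S : ℕ := M.N1 * (M.N2 * b) with hS
  have hpar : ∀ (u : List ι) (a), ((M.run u).1 a).natAbs ≤ 2 ^ (2 * C * lg u.length) := by
    intro u a
    refine (hC u a).trans ?_
    have h1 : C ≤ 2 ^ (C * lg u.length) := by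
      refine Nat.lt_two_pow_self.le.trans (Nat.pow_le_pow_right Nat.two_pos ?_)
      exact Nat.le_mul_of_pos_right _ (q3a_one_le_lg _)
    have h2 : (u.length + 1) ^ C ≤ 2 ^ (C * lg u.length) := by
      refine (Nat.pow_le_pow_left (lt_two_pow_lg _) C).trans ?_
      rw [← pow_mul, mul_comm]
    refine (Nat.mul_le_mul h1 h2).trans ?_
    rw [← pow_add]
    exact le_of_eq (by ring)
  refine ⟨S + 2 * C + m, fun u => ⟨fun a => (hpar u a).trans ?_, ?_⟩⟩
  · refine Nat.pow_le_pow_right Nat.two_pos (Nat.mul_le_mul_right _ ?_)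
    omega
  · induction u using List.reverseRecOn with
    | nil =>
      intro j
      refine (hm j).trans (Nat.lt_two_pow_self.le.trans (Nat.pow_le_pow_right Nat.two_pos ?_))
      have h1 := q3a_one_le_lg ([] : List ι).length
      have h2 : m ≤ (S + 2 * C + m) * 1 := by omega
      refine h2.trans (Nat.mul_le_mul_left _ ?_)
      simpa using h1
    | append_singleton u i ih =>
      intro j
      rw [run_append]
      refine (q3a_step M i (M.run u) b _ _ (fun a j j' => hb (i, a, j, j')) (hpar u) ih j).trans ?_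
      have h1 : S ≤ 2 ^ S := Nat.lt_two_pow_self.le
      have h2 : M.N1 * (2 ^ (2 * C * lg u.length) *
          (M.N2 * (b * 2 ^ ((S + 2 * C + m) * ((u.length + 1) * lg u.length))))) =
          S * (2 ^ (2 * C * lg u.length) *
            2 ^ ((S + 2 * C + m) * ((u.length + 1) * lg u.length))) := by
        rw [hS]; ring
      rw [h2]
      refine (Nat.mul_le_mul_right _ h1).trans ?_
      rw [← pow_add, ← pow_add]
      refine Nat.pow_le_pow_right Nat.two_pos ?_
      have h3 : lg u.length ≤ lg (u ++ [i]).length := lg_mono (by simp)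
      have h4 := q3a_one_le_lg u.length
      have h5 : (u ++ [i]).length = u.length + 1 := by simp
      rw [h5] at h3 ⊢
      set g := lg u.length
      set g' := lg (u.length + 1)
      set n := u.length
      have h6 : (S + 2 * C + m) * ((n + 1 + 1) * g) ≤ (S + 2 * C + m) * ((n + 1 + 1) * g') :=
        Nat.mul_le_mul_left _ (Nat.mul_le_mul_left _ h3)
      refine le_trans ?_ h6
      have h7 : S ≤ S * g := Nat.le_mul_of_pos_right _ h4
      have h8 : (S + 2 * C + m) * ((n + 1 + 1) * g) =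
          S * g + (2 * C * g + (S + 2 * C + m) * ((n + 1) * g)) + m * g := by ring
      rw [h8]
      omega

theorem size_run {ι : Type} [Finite ι] (M : BM ι) (hM : M.Tame) : ∃ C : ℕ, ∀ u : List ι,
    size (zl (M.run u).1) ≤ C * lg u.length ∧
    size (zl (M.run u).2) ≤ C * ((u.length + 1) * lg u.length) := by
  obtain ⟨C, hC⟩ := run_bound M hM
  obtain ⟨D, hD⟩ := size_zblist_le 2
  have hl : ∀ {N : ℕ} (x : Fin N → ℤ), (zl x).length = N := fun x => by simp [zl]
  refine ⟨D * (M.N1 + 1) * (C + 1) + D * (M.N2 + 1) * (C + 1), fun u => ⟨?_, ?_⟩⟩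
  · have h1 := hD (zl (M.run u).1) (C * lg u.length) (by
      intro x hx
      obtain ⟨a, rfl⟩ := (z01_mem (M.run u).1 x).1 hx
      exact (hC u).1 a)
    rw [hl] at h1
    have h2 := q3a_one_le_lg u.length
    have h3 : C * lg u.length + 1 ≤ (C + 1) * lg u.length := by
      rw [add_mul]; omega
    refine h1.trans ((Nat.mul_le_mul_left _ h3).trans ?_)
    rw [← mul_assoc]
    exact Nat.mul_le_mul_right _ (Nat.le_add_right _ _)
  · have h1 := hD (zl (M.run u).2) (C * ((u.length + 1) * lg u.length)) (by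
      intro x hx
      obtain ⟨a, rfl⟩ := (z01_mem (M.run u).2 x).1 hx
      exact (hC u).2 a)
    rw [hl] at h1
    have h2 : 1 ≤ (u.length + 1) * lg u.length :=
      Nat.mul_pos (Nat.succ_pos _) (q3a_one_le_lg u.length)
    have h3 : C * ((u.length + 1) * lg u.length) + 1 ≤
        (C + 1) * ((u.length + 1) * lg u.length) := by
      have e : (C + 1) * ((u.length + 1) * lg u.length) =
        C * ((u.length + 1) * lg u.length) + (u.length + 1) * lg u.length := by ring
      rw [e]
      exact Nat.add_le_add_left h2 _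
    refine h1.trans ((Nat.mul_le_mul_left _ h3).trans ?_)
    rw [← mul_assoc]
    exact Nat.mul_le_mul_right _ (Nat.le_add_left _ _)

end Pool.Agent.WPU
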