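import Pool.Agent.Lib.MP_2da099_lc.UE.Defs
import Pool.Agent.Lib.MP_2da099_lc.R2.N03
import Pool.Agent.Lib.MP_2da099_lc.R2.N04
import Pool.Agent.Lib.MP_2da099_lc.R2.N05
import Pool.Agent.Lib.MP_2da099_lc.C10
import Pool.Agent.Lib.MP_2da099_lc.C08

/-!
# Q1: multiplication of integers

HINTS.  School multiplication.  `n03_zdig : n03_LT (fun x : ZB β => zdig β x.val)` gives sign and digits (least
significant digit first) of `x.1` in linear time.  `CT.foldlEnv` over the reversed list of digits (or `CT.foldr`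
after making pairs), environment `y = x.2`, state `s : ZB 2`, step `s ↦ 2 * s + d * y`, i.e. `ct_zblin`/`ct_zbsmul` and a
case distinction `d = 0` or `d = 1` (`ct_fincase` or `CT.bcase`, or `ct_zblin 1` after `ct_zblin`).  The result for the
digits of `n` (`x.1 = n` or `x.1 = -(n + 1)`) is `n * y`; in the second case take `-(n * y) - y` (`ct_zblin (-1)`,
`ct_zbsmul (-1)`).  The state is always at most `|x.1| * |y|` in absolute value, so its size is at most
`C * (size x.1 + size y + 1)` (`size_zb_le`; `|x| ≤ 2 ^ size x`, see `n02_abs`: `|x| ≤ 2 ^ (number of digits)`, and the number of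
digits is at most the size).  There are at most `size x.1` steps: `foldCost_le` or a direct induction.
-/

set_option autoImplicit false

namespace Pool.Agent.WPU

open Pool.Agent.Lib.PolyTime Pool.Agent.WPM Pool.Agent.WPR

/-- one step of the multiplication -/
private def q1_step (y : (Fin 2 × ZB 2) × ZB 2) : ZB 2 :=
  if decide (y.1.1 = 1) then y.1.2 + (2 : ℤ) • y.2 else (2 : ℤ) • y.2

private theorem q1_step_lt : n03_LT q1_step := by
  have h0 : n03_LT (fun x : ZB 2 × ZB 2 => x.1 + (2 : ℤ) • x.2) :=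
    n03_of 1 (ct_zblin 2 2) (fun x => by rw [size_prod]; omega)
  have h1 : n03_LT (fun y : (Fin 2 × ZB 2) × ZB 2 => y.1.2) :=
    n03_comp (g := fun x : Fin 2 × ZB 2 => x.2) n03_snd n03_fst
  have hf : n03_LT (fun y : (Fin 2 × ZB 2) × ZB 2 => y.1.2 + (2 : ℤ) • y.2) :=
    n03_comp2 (h := fun x : ZB 2 × ZB 2 => x.1 + (2 : ℤ) • x.2) h0 h1 n03_snd
  have hg : n03_LT (fun y : (Fin 2 × ZB 2) × ZB 2 => (2 : ℤ) • y.2) :=
    n03_comp (g := fun x : ZB 2 => (2 : ℤ) • x) (ct_zbsmul 2 2) n03_snd
  have h2 : n03_LT (fun y : (Fin 2 × ZB 2) × ZB 2 => y.1.1) :=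
    n03_comp (g := fun x : Fin 2 × ZB 2 => x.1) n03_fst n03_fst
  have hc : n03_LT (fun y : (Fin 2 × ZB 2) × ZB 2 => decide (y.1.1 = 1)) :=
    n03_comp (g := fun d : Fin 2 => decide (d = 1)) (n03_fin _) h2
  exact n03_ite hc hf hg

private theorem q1_step_val (d : Fin 2) (b s : ZB 2) :
    (q1_step ((d, b), s)).val = (d : ℤ) * b.val + 2 * s.val := by
  have hd : d = 0 ∨ d = 1 := by
    rcases d with ⟨d, hd⟩
    have : d = 0 ∨ d = 1 := by omega
    rcases this with h | h
    · left; exact Fin.ext h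
    · right; exact Fin.ext h
  rcases hd with rfl | rfl
  · show ((2 : ℤ) • (s.val : ℤ) : ℤ) = _
    rw [smul_eq_mul]
    simp
  · show ((b.val : ℤ) + (2 : ℤ) • (s.val : ℤ) : ℤ) = _
    rw [smul_eq_mul]
    simp

private theorem q1_fold_val (b : ZB 2) (l : List (Fin 2)) :
    (l.reverse.foldl (fun s d => q1_step ((d, b), s)) (0 : ZB 2)).val = dval 2 l * b.val := by
  rw [List.foldl_reverse]
  induction l with
  | nil =>
    rw [n02_dval_nil, zero_mul]
    rfl
  | cons d l ih =>
    rw [List.foldr_cons, q1_step_val, ih, n02_dval_cons]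
    push_cast
    ring

/-- the last step -/
private def q1_last (y : ZB 2 × (Bool × ZB 2)) : ZB 2 :=
  if y.2.1 then (-1 : ℤ) • y.1 + (-1 : ℤ) • y.2.2 else y.1

private theorem q1_last_lt : n03_LT q1_last := by
  have h0 : n03_LT (fun x : ZB 2 × ZB 2 => x.1 + (-1 : ℤ) • x.2) :=
    n03_of 1 (ct_zblin 2 (-1)) (fun x => by rw [size_prod]; omega)
  have h1 : n03_LT (fun y : ZB 2 × (Bool × ZB 2) => y.2.2) :=
    n03_comp (g := fun x : Bool × ZB 2 => x.2) n03_snd n03_snd
  have h2 : n03_LT (fun y : ZB 2 × (Bool × ZB 2) => y.2.1) :=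
    n03_comp (g := fun x : Bool × ZB 2 => x.1) n03_fst n03_snd
  have h3 : n03_LT (fun y : ZB 2 × (Bool × ZB 2) => (-1 : ℤ) • y.1) :=
    n03_comp (g := fun x : ZB 2 => (-1 : ℤ) • x) (ct_zbsmul 2 (-1)) n03_fst
  have h4 : n03_LT (fun y : ZB 2 × (Bool × ZB 2) => (-1 : ℤ) • y.1 + (-1 : ℤ) • y.2.2) :=
    n03_comp2 (h := fun x : ZB 2 × ZB 2 => x.1 + (-1 : ℤ) • x.2) h0 h3 h1
  exact n03_ite h2 h4 n03_fst

/-- the input of the fold -/
private def q1_in (x : ZB 2 × ZB 2) : List (Fin 2) × (ZB 2 × ZB 2) :=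
  ((zdig 2 x.1.val).2.reverse, (x.2, 0))

private theorem q1_in_lt : n03_LT q1_in := by
  have h1 : n03_LT (fun x : ZB 2 × ZB 2 => (zdig 2 x.1.val).2) :=
    n03_comp (g := fun x : ZB 2 => (zdig 2 x.val).2) (n04_LT_zdig2 2) n03_fst
  have h2 : n03_LT (fun x : ZB 2 × ZB 2 => (zdig 2 x.1.val).2.reverse) :=
    n03_comp (g := fun l : List (Fin 2) => l.reverse) n03_reverse h1
  have h3 : n03_LT (fun x : ZB 2 × ZB 2 => (x.2, (0 : ZB 2))) :=
    n03_pair n03_snd (n03_const _)
  exact n03_pair h2 h3

/-- the fold -/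
private def q1_fold (x : List (Fin 2) × (ZB 2 × ZB 2)) : ZB 2 :=
  x.1.foldl (fun s d => q1_step ((d, x.2.1), s)) x.2.2

/-- the whole computation -/
private def q1_main (x : ZB 2 × ZB 2) : ZB 2 :=
  q1_last (q1_fold (q1_in x), ((zdig 2 x.1.val).1, x.2))

private theorem q1_main_eq (x : ZB 2 × ZB 2) : q1_main x = x.1 * x.2 := by
  obtain ⟨a, b⟩ := x
  have h : (q1_fold (q1_in (a, b))).val = dval 2 (zdig 2 a.val).2 * b.val :=
    q1_fold_val b (zdig 2 a.val).2
  show q1_last (q1_fold (q1_in (a, b)), ((zdig 2 a.val).1, b)) = a * b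
  have ha : a.val = a := rfl
  rw [ha] at h ⊢
  unfold q1_last
  simp only
  generalize q1_fold (q1_in (a, b)) = p at h ⊢
  cases a with
  | ofNat n =>
    rw [n02_zdig_ofNat] at h ⊢
    simp only [n02_dval_dig] at h
    simp only [Bool.false_eq_true, if_false]
    exact h
  | negSucc n =>
    rw [n02_zdig_negSucc] at h ⊢
    simp only [n02_dval_dig] at h
    simp only [if_true]
    show ((-1 : ℤ) • (p.val : ℤ) + (-1 : ℤ) • (b.val : ℤ) : ℤ) = (Int.negSucc n : ℤ) * (b.val : ℤ)
    rw [h, Int.negSucc_eq, smul_eq_mul, smul_eq_mul]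
    ring

/-- the cost of the fold -/
private theorem q1_cost : ∃ C : ℕ, ∀ (b : ZB 2) (q : ℕ), b.val.natAbs ≤ 2 ^ q →
    ∀ (l : List (Fin 2)) (s : ZB 2) (m : ℕ), s.val.natAbs + b.val.natAbs ≤ 2 ^ m * 2 ^ q →
      foldCost (fun y : Fin 2 × ZB 2 => size ((y.1, b), y.2)) (fun y => q1_step ((y.1, b), y.2)) l s ≤
        l.length * (C * (m + l.length + q + 1) + size b) := by
  obtain ⟨C, hC⟩ := size_zb_le 2
  obtain ⟨κ, hκ⟩ := size_fin (Fin 2)
  refine ⟨C + κ + 2, fun b q hb l => ?_⟩
  induction l with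
  | nil => intro s m _; simp [foldCost]
  | cons d l ih =>
    intro s m hs
    have h1 : s.val.natAbs ≤ 2 ^ (m + q) := by
      rw [pow_add]
      omega
    have h2 := hC s (m + q) h1
    have h3 := hκ d
    have h4 : (q1_step ((d, b), s)).val.natAbs + b.val.natAbs ≤ 2 ^ (m + 1) * 2 ^ q := by
      rw [q1_step_val]
      have h5 : ((d : ℤ) * b.val + 2 * s.val).natAbs ≤ b.val.natAbs + 2 * s.val.natAbs := by
        refine (Int.natAbs_add_le _ _).trans ?_
        rw [Int.natAbs_mul, Int.natAbs_mul]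
        have h6 : ((d : ℕ) : ℤ).natAbs ≤ 1 := by
          have := d.isLt
          simp only [Int.natAbs_natCast]
          omega
        have h7 := Nat.mul_le_mul_right b.val.natAbs h6
        have h8 : (2 : ℤ).natAbs = 2 := rfl
        rw [h8]
        omega
      have h9 : 2 ^ (m + 1) * 2 ^ q = 2 * (2 ^ m * 2 ^ q) := by ring
      rw [h9]
      omega
    have h10 := ih _ (m + 1) h4
    simp only [foldCost, List.length_cons, size_prod]
    have e1 : (l.length + 1) * ((C + κ + 2) * (m + (l.length + 1) + q + 1) + size b) =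
        l.length * ((C + κ + 2) * (m + 1 + l.length + q + 1) + size b) +
          (C * (m + q + 1) + C * (l.length + 1) + (κ + 2) * (m + (l.length + 1) + q + 1) + size b) := by
      ring
    have e2 : κ + 2 ≤ (κ + 2) * (m + (l.length + 1) + q + 1) :=
      Nat.le_mul_of_pos_right _ (by omega)
    simp only [size_prod] at h10
    omega

theorem ct_zbmul : CT (fun x : ZB 2 × ZB 2 => x.1 * x.2)
    (fun x => (size x.1 + 1) * (size x.1 + size x.2 + 1)) := by
  obtain ⟨C, hC⟩ := q1_cost
  have hfold : CT q1_fold _ := CT.foldlEnv q1_step_lt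
  obtain ⟨C1, hC1⟩ := (q1_in_lt).size_le
  -- the digits
  have hlen : ∀ a : ZB 2, (zdig 2 a.val).2.length ≤ size a := by
    intro a
    have h1 : size a = size (zdig 2 a.val) := rfl
    have h2 := length_le_size (zdig 2 a.val).2
    rw [h1, size_prod]
    omega
  have hsz : ∀ a : ZB 2, size (zdig 2 a.val).2 ≤ size a := by
    intro a
    have h1 : size a = size (zdig 2 a.val) := rfl
    rw [h1, size_prod]
    omega
  have habs : ∀ a : ZB 2, a.val.natAbs ≤ 2 ^ size a := by
    intro a
    have h1 := n02_abs 2 a.val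
    have h2 : (a.val.natAbs : ℤ) ≤ (2 : ℤ) ^ (zdig 2 a.val).2.length := by
      have h3 : (a.val.natAbs : ℤ) = |a.val| := by simp
      rw [h3]
      exact_mod_cast h1
    have h4 : a.val.natAbs ≤ 2 ^ (zdig 2 a.val).2.length := by exact_mod_cast h2
    exact h4.trans (Nat.pow_le_pow_right (by norm_num) (hlen a))
  have hfin : CT (fun x : ZB 2 × ZB 2 => q1_fold (q1_in x))
      (fun x => (size x.1 + 1) * (size x.1 + size x.2 + 1)) := by
    refine (hfold.comp q1_in_lt).mono (C + size (0 : ZB 2) + 10) (fun x => ?_)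
    obtain ⟨a, b⟩ := x
    have h1 := hC b (size b) (habs b) (zdig 2 a.val).2.reverse 0 0 (by
      have := habs b
      show (0 : ℤ).natAbs + b.val.natAbs ≤ _
      simpa using this)
    have h2 := hlen a
    have h3 := hsz a
    show size (a, b) + (size (zdig 2 a.val).2.reverse +
      ((zdig 2 a.val).2.reverse.length + 1) * size b +
      foldCost (fun y : Fin 2 × ZB 2 => size ((y.1, b), y.2))
        (fun y => q1_step ((y.1, b), y.2)) (zdig 2 a.val).2.reverse 0) ≤
      (C + size (0 : ZB 2) + 10) * ((size a + 1) * (size a + size b + 1) + 1)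
    rw [size_reverse, List.length_reverse, size_prod]
    rw [List.length_reverse] at h1
    generalize (zdig 2 a.val).2.length = n at h1 h2 ⊢
    have h4 : n * (C * (0 + n + size b + 1) + size b) ≤
        size a * (C * (size a + size b + 1) + size b) := by
      refine Nat.mul_le_mul h2 (Nat.add_le_add_right (Nat.mul_le_mul_left _ ?_) _)
      omega
    have h5 : (n + 1) * size b ≤ (size a + 1) * size b := Nat.mul_le_mul_right _ (by omega)
    have e : (C + size (0 : ZB 2) + 10) * ((size a + 1) * (size a + size b + 1) + 1) =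
        size a * (C * (size a + size b + 1) + size b) + C * (size a + size b + 1) + C +
        (size a + 1) * size b +
        (size (0 : ZB 2)) * ((size a + 1) * (size a + size b + 1) + 1) +
        (8 * (size a * size b) + 10 * (size a * size a) + 20 * size a + 9 * size b + 20) := by
      ring
    simp only
    rw [e]
    omega
  have hrest : n03_LT (fun x : ZB 2 × ZB 2 => ((zdig 2 x.1.val).1, x.2)) :=
    n03_pair (n03_comp (g := fun x : ZB 2 => (zdig 2 x.val).1) (n04_LT_zdig1 2) n03_fst) n03_snd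
  have hpair : CT (fun x : ZB 2 × ZB 2 => (q1_fold (q1_in x), ((zdig 2 x.1.val).1, x.2)))
      (fun x => (size x.1 + 1) * (size x.1 + size x.2 + 1)) := by
    refine (hfin.pair hrest).mono 4 (fun x => ?_)
    obtain ⟨a, b⟩ := x
    show size (a, b) + (size a + 1) * (size a + size b + 1) + size (a, b) ≤
      4 * ((size a + 1) * (size a + size b + 1) + 1)
    rw [size_prod]
    have e : (size a + 1) * (size a + size b + 1) =
      size a * size a + size a * size b + 2 * size a + size b + 1 := by ring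
    simp only
    rw [e]
    omega
  obtain ⟨C2, hC2⟩ := hpair.size_le
  have hmain : CT q1_main (fun x => (size x.1 + 1) * (size x.1 + size x.2 + 1)) := by
    refine ((q1_last_lt).comp hpair).mono (C2 + 3) (fun x => ?_)
    have h1 := hC2 x
    obtain ⟨a, b⟩ := x
    show (size a + 1) * (size a + size b + 1) +
      size (q1_fold (q1_in (a, b)), ((zdig 2 a.val).1, b)) ≤
      (C2 + 3) * ((size a + 1) * (size a + size b + 1) + 1)
    have h2 : size (q1_fold (q1_in (a, b)), ((zdig 2 a.val).1, b)) ≤ size (a, b) +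
      C2 * ((size a + 1) * (size a + size b + 1) + 1) := h1
    rw [size_prod (a, b)] at h2
    have e : (size a + 1) * (size a + size b + 1) =
      size a * size a + size a * size b + 2 * size a + size b + 1 := by ring
    have e2 : (C2 + 3) * ((size a + 1) * (size a + size b + 1) + 1) =
      C2 * ((size a + 1) * (size a + size b + 1) + 1) +
        3 * ((size a + 1) * (size a + size b + 1) + 1) := by ring
    simp only at h2
    rw [e2]
    rw [e] at h2 ⊢
    omega
  exact hmain.congr q1_main_eq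

end Pool.Agent.WPU
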