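import Pool.Agent.Lib.MP_2da099_lc.UE.Defs
import Pool.Agent.Lib.MP_2da099_lc.UE.Q1
import Pool.Agent.Lib.MP_2da099_lc.R2.Z01

/-!
# Q2: one step of a bilinear machine

HINTS.  All on lists of fixed length.  `p ↦ A p` is `linMap` with the rows `z01_rows (M.A i)` (`ct_linMap`, `z01_linMap`; `zl` is
`z01_l`, by `rfl`).  `∑ a, p a • (B a *ᵥ m)`: every entry is a sum of products `(e . p) (w . m)` of two linear forms with
constant coefficients; a product costs `(size p + 1) (size p + size m + 1)` (`ct_zbmul`, `ct_dot`), then `ct_zblin 1` and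
`CT.mapConst`.
-/

set_option autoImplicit false

namespace Pool.Agent.WPU

open Pool.Agent.Lib.PolyTime Pool.Agent.WPM Pool.Agent.WPR

/-- the time -/
private noncomputable def q2_T (x : List (ZB 2) × List (ZB 2)) : ℕ := (size x.1 + 1) * (size x.1 + size x.2 + 1)

/-- a linear form -/
private noncomputable def q2_dot (w : List ℤ) (x : List (ZB 2)) : ZB 2 :=
  (List.zipWith (fun (a : ℤ) y => a • y) w x).sum

private theorem q2_size (x : List (ZB 2) × List (ZB 2)) : size x ≤ q2_T x := by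
  rw [size_prod, q2_T]
  exact Nat.le_mul_of_pos_left _ (Nat.succ_pos _)

private theorem q2_prod (e w : List ℤ) :
    CT (fun x : List (ZB 2) × List (ZB 2) => q2_dot e x.1 * q2_dot w x.2) q2_T := by
  have he : n03_LT (fun x : List (ZB 2) => q2_dot e x) := ct_dot 2 e
  have hw : n03_LT (fun x : List (ZB 2) => q2_dot w x) := ct_dot 2 w
  obtain ⟨C1, hC1⟩ := he.size_le
  obtain ⟨C2, hC2⟩ := hw.size_le
  have h1 : n03_LT (fun x : List (ZB 2) × List (ZB 2) => (q2_dot e x.1, q2_dot w x.2)) :=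
    n03_pair (n03_comp (g := fun y : List (ZB 2) => q2_dot e y) he n03_fst)
      (n03_comp (g := fun y : List (ZB 2) => q2_dot w y) hw n03_snd)
  refine (ct_zbmul.comp h1).mono ((C1 + C2 + 2) * (C1 + C2 + 2) + 1) (fun x => ?_)
  show size x + (size (q2_dot e x.1) + 1) * (size (q2_dot e x.1) + size (q2_dot w x.2) + 1) ≤
    ((C1 + C2 + 2) * (C1 + C2 + 2) + 1) * (q2_T x + 1)
  have a0 := q2_size x
  have a1 := hC1 x.1
  have a2 := hC2 x.2
  have b1 : size (q2_dot e x.1) + 1 ≤ (C1 + C2 + 2) * (size x.1 + 1) := by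
    have e1 : (C1 + C2 + 2) * (size x.1 + 1) =
      (size x.1 + C1 * (size x.1 + 1)) + (C2 * (size x.1 + 1) + size x.1 + 2) := by ring
    omega
  have b2 : size (q2_dot e x.1) + size (q2_dot w x.2) + 1 ≤
      (C1 + C2 + 2) * (size x.1 + size x.2 + 1) := by
    have e1 : (C1 + C2 + 2) * (size x.1 + size x.2 + 1) =
      (size x.1 + C1 * (size x.1 + 1)) + (size x.2 + C2 * (size x.2 + 1)) +
        (C1 * size x.2 + C2 * size x.1 + size x.1 + size x.2 + 2) := by ring
    omega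
  have b3 := Nat.mul_le_mul b1 b2
  have e2 : (C1 + C2 + 2) * (size x.1 + 1) * ((C1 + C2 + 2) * (size x.1 + size x.2 + 1)) =
      (C1 + C2 + 2) * (C1 + C2 + 2) * q2_T x := by
    rw [q2_T]
    ring
  have e3 : ((C1 + C2 + 2) * (C1 + C2 + 2) + 1) * (q2_T x + 1) =
      (C1 + C2 + 2) * (C1 + C2 + 2) * q2_T x + q2_T x +
        ((C1 + C2 + 2) * (C1 + C2 + 2) + 1) := by ring
  omega

private theorem q2_sum (L : List (List ℤ × List ℤ)) :
    CT (fun x : List (ZB 2) × List (ZB 2) =>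
      (L.map (fun ew => q2_dot ew.1 x.1 * q2_dot ew.2 x.2)).sum) q2_T := by
  induction L with
  | nil =>
    have h0 : CT (fun _ : List (ZB 2) × List (ZB 2) => (0 : ZB 2)) q2_T := by
      refine CT.mono 1 (CT.const (0 : ZB 2)) ?_
      intro x
      have := q2_size x
      omega
    exact h0.congr (fun x => by simp)
  | cons a L ih =>
    have h1 := ih.pair (q2_prod a.1 a.2)
    obtain ⟨C, hC⟩ := h1.size_le
    have h2 := (ct_zblin 2 1).comp h1
    have hT : ∀ x : List (ZB 2) × List (ZB 2), size x + q2_T x + q2_T x +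
        (size ((L.map (fun ew => q2_dot ew.1 x.1 * q2_dot ew.2 x.2)).sum) +
          size (q2_dot a.1 x.1 * q2_dot a.2 x.2)) ≤ (6 + 3 * C) * (q2_T x + 1) := by
      intro x
      have a0 := q2_size x
      have a1 := hC x
      rw [size_prod] at a1
      simp only at a1
      have a2 : C * (size x + q2_T x + q2_T x + 1) ≤ C * (3 * q2_T x + 3) :=
        Nat.mul_le_mul_left _ (by omega)
      have e : (6 + 3 * C) * (q2_T x + 1) = C * (3 * q2_T x + 3) + (6 * q2_T x + 6) := by ring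
      omega
    have h3 := CT.mono (T' := q2_T) (6 + 3 * C) h2 hT
    refine h3.congr ?_
    intro x
    rw [List.map_cons, List.sum_cons, one_smul, add_comm]

/-- a sum of products of linear forms -/
private noncomputable def q2_F (L : List (List ℤ × List ℤ)) (x : List (ZB 2) × List (ZB 2)) : ZB 2 :=
  (L.map (fun ew => q2_dot ew.1 x.1 * q2_dot ew.2 x.2)).sum

private theorem q2_ctF (L : List (List ℤ × List ℤ)) : CT (q2_F L) q2_T := q2_sum L

private theorem q2_vec (LL : List (List (List ℤ × List ℤ))) :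
    CT (fun x : List (ZB 2) × List (ZB 2) => LL.map (fun L => q2_F L x)) q2_T := by
  have h0 : ∀ L ∈ LL, CT (q2_F L) q2_T := by
    intro L _
    exact q2_ctF L
  have h := CT.mapConst LL (f := q2_F) (T := q2_T) h0
  have h1 : ∀ x : List (ZB 2) × List (ZB 2), size x + q2_T x ≤ 2 * (q2_T x + 1) := by
    intro x
    have := q2_size x
    omega
  have h2 := CT.mono (T' := q2_T) 2 h h1
  exact h2

private theorem q2_dot_zl {N : ℕ} (w x : Fin N → ℤ) :
    q2_dot (List.ofFn w) (zl x) = (ZB.mk (∑ i, w i * x i) : ZB 2) := by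
  unfold q2_dot zl
  rw [z01_zipWith, List.sum_ofFn]
  rfl

private theorem q2_dot_single {N : ℕ} (a : Fin N) (x : Fin N → ℤ) :
    q2_dot (List.ofFn (Pi.single a (1 : ℤ) : Fin N → ℤ)) (zl x) = (ZB.mk (x a) : ZB 2) := by
  rw [q2_dot_zl]
  congr 1
  rw [Finset.sum_eq_single a]
  · rw [Pi.single_eq_same, one_mul]
  · intro b _ hb
    rw [Pi.single_eq_of_ne hb, zero_mul]
  · intro h
    exact absurd (Finset.mem_univ _) h

private theorem q2_val {N1 N2 : ℕ} (p : Fin N1 → ℤ) (m : Fin N2 → ℤ) (c : Fin N1 → Fin N2 → ℤ) :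
    q2_F (List.ofFn (fun a : Fin N1 =>
      (List.ofFn (Pi.single a (1 : ℤ) : Fin N1 → ℤ), List.ofFn (c a)))) (zl p, zl m) =
      (ZB.mk (∑ a, p a * ∑ l, c a l * m l) : ZB 2) := by
  unfold q2_F
  rw [List.map_ofFn, List.sum_ofFn]
  have h1 : ∀ a : Fin N1, ((fun ew : List ℤ × List ℤ =>
      q2_dot ew.1 (zl p) * q2_dot ew.2 (zl m)) ∘ (fun a : Fin N1 =>
      (List.ofFn (Pi.single a (1 : ℤ) : Fin N1 → ℤ), List.ofFn (c a)))) a =
      (ZB.mk (p a * ∑ j, c a j * m j) : ZB 2) := by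
    intro a
    show q2_dot (List.ofFn (Pi.single a (1 : ℤ) : Fin N1 → ℤ)) (zl p) *
      q2_dot (List.ofFn (c a)) (zl m) = _
    rw [q2_dot_single, q2_dot_zl]
    rfl
  rw [Finset.sum_congr rfl (fun a _ => h1 a)]
  rfl

theorem ct_bstep {ι : Type} (M : BM ι) (i : ι) :
    ∃ f : List (ZB 2) × List (ZB 2) → List (ZB 2) × List (ZB 2),
      CT f (fun x => (size x.1 + 1) * (size x.1 + size x.2 + 1)) ∧
      ∀ p m, f (zl p, zl m) = (zl (M.step (p, m) i).1, zl (M.step (p, m) i).2) := by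
  let LL : List (List (List ℤ × List ℤ)) := List.ofFn (fun j : Fin M.N2 =>
    List.ofFn (fun a : Fin M.N1 =>
      (List.ofFn (Pi.single a (1 : ℤ) : Fin M.N1 → ℤ), List.ofFn (M.B i a j))))
  have h1 : CT (fun x : List (ZB 2) × List (ZB 2) => linMap (z01_rows (M.A i)) x.1)
      (fun x => size x) :=
    n03_comp (g := fun y : List (ZB 2) => linMap (z01_rows (M.A i)) y)
      (ct_linMap 2 (z01_rows (M.A i))) n03_fst
  have h2 := h1.pair (q2_vec LL)
  have h3 : ∀ x : List (ZB 2) × List (ZB 2), size x + size x + q2_T x ≤ 3 * (q2_T x + 1) := by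
    intro x
    have := q2_size x
    omega
  have h4 := CT.mono (T' := q2_T) 3 h2 h3
  refine ⟨_, h4, ?_⟩
  intro p m
  refine Prod.ext (z01_linMap (M.A i) p) ?_
  show LL.map (fun L => q2_F L (zl p, zl m)) = zl (M.step (p, m) i).2
  rw [zl, List.map_ofFn]
  congr 1
  funext j
  show q2_F (List.ofFn (fun a : Fin M.N1 =>
    (List.ofFn (Pi.single a (1 : ℤ) : Fin M.N1 → ℤ), List.ofFn (M.B i a j)))) (zl p, zl m) = _
  rw [q2_val p m (fun a => M.B i a j)]
  have h5 : (M.step (p, m) i).2 j = ∑ a, p a * ∑ l, M.B i a j l * m l := by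
    show (∑ a, p a • (M.B i a).mulVec m) j = _
    rw [Finset.sum_apply]
    rfl
  rw [h5]

theorem ct_bout {N1 N2 : ℕ} (c : Fin N1 → Fin N2 → ℤ) :
    ∃ f : List (ZB 2) × List (ZB 2) → ZB 2,
      CT f (fun x => (size x.1 + 1) * (size x.1 + size x.2 + 1)) ∧
      ∀ (p : Fin N1 → ℤ) (m : Fin N2 → ℤ), f (zl p, zl m) =
        (ZB.mk (∑ a, ∑ j, c a j * (p a * m j)) : ZB 2) := by
  refine ⟨q2_F (List.ofFn (fun a : Fin N1 =>
    (List.ofFn (Pi.single a (1 : ℤ) : Fin N1 → ℤ), List.ofFn (c a)))), ?_, ?_⟩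
  · exact q2_ctF _
  · intro p m
    rw [q2_val]
    have h2 : (∑ a, ∑ j, c a j * (p a * m j)) = ∑ a, p a * ∑ j, c a j * m j := by
      refine Finset.sum_congr rfl fun a _ => ?_
      rw [Finset.mul_sum]
      refine Finset.sum_congr rfl fun j _ => ?_
      ring
    rw [h2]

end Pool.Agent.WPU
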