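import Pool.Agent.Lib.MP_2da099_lc.UE.Defs
import Pool.Agent.Lib.MP_2da099_lc.R2.B01
import Pool.Agent.Lib.MP_2da099_lc.A02

/-!
# A1: the word problem as a submodule problem

HINTS.  Copy `B01.lean` (`exists_derivationZ`, `M = G ⧸ A → Additive A × ℤ`) and `A02.lean` (`exists_cocycle`, with `a02_mk_gpow`) with `ℤ`
instead of `ZMod p` (see also `R2/B02.lean`): a module `M` over `LamZ r` and elements `a l` with
`value g w = 1 ↔ Σ over posl 0 w of monZ x.1 • a x.2 = 0`.  `N` = the kernel of the linear map `V ↦ Σ_l V l • a l` from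
`Letter r → LamZ r` to `M` (`vecW w` is mapped to the sum over the path).  If `A` is torsion-free then `M` is a torsion-free abelian
group (`n • f = 0` implies `f = 0` in `Additive A × ℤ`), so `n • x ∈ N` implies `x ∈ N`.
-/

set_option autoImplicit false

namespace Pool.Agent.WPU

open Pool.Agent.Lib.PolyTime Pool.Agent.WPM Pool.Agent.WPR

universe u

private theorem a1_derivation {G : Type u} [Group G] (A : Subgroup G) [A.Normal]
    (hcomm : ∀ a ∈ A, ∀ b ∈ A, a * b = b * a) :
    ∃ (M : Type u) (_ : AddCommGroup M) (ρ : G →* AddMonoid.End M) (D : G → M),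
      (∀ a ∈ A, ρ a = 1) ∧ (∀ x y, D (x * y) = D x + ρ x (D y)) ∧ (∀ x, D x = 0 ↔ x = 1) ∧
      ((∀ a ∈ A, ∀ n : ℕ, 0 < n → a ^ n = 1 → a = 1) → ∀ (n : ℕ) (m : M), 0 < n → n • m = 0 →
        m = 0) := by
  classical
  let iA : CommGroup A :=
    { (inferInstance : Group A) with mul_comm := fun a b => Subtype.ext (hcomm a a.2 b b.2) }
  let s : G ⧸ A → G := Quotient.out
  have hs : ∀ x : G ⧸ A, ((s x : G) : G ⧸ A) = x := fun x => Quotient.out_eq' x
  have hA : ∀ (g : G) (x : G ⧸ A), (s x)⁻¹ * g * s ((g : G ⧸ A)⁻¹ * x) ∈ A := by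
    intro g x
    rw [← QuotientGroup.eq_one_iff]
    rw [QuotientGroup.mk_mul, QuotientGroup.mk_mul, QuotientGroup.mk_inv, hs, hs]
    group
  let ρ : G →* AddMonoid.End (G ⧸ A → Additive A × ℤ) :=
    { toFun := fun g =>
        { toFun := fun f x => f ((g : G ⧸ A)⁻¹ * x)
          map_zero' := rfl
          map_add' := fun f f' => rfl }
      map_one' := by
        apply AddMonoidHom.ext
        intro f
        funext x
        change f (((1 : G) : G ⧸ A)⁻¹ * x) = f x
        rw [QuotientGroup.mk_one, inv_one, one_mul]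
      map_mul' := by
        intro g h
        apply AddMonoidHom.ext
        intro f
        funext x
        change f (((g * h : G) : G ⧸ A)⁻¹ * x) = f ((h : G ⧸ A)⁻¹ * ((g : G ⧸ A)⁻¹ * x))
        rw [QuotientGroup.mk_mul, mul_inv_rev, mul_assoc] }
  let D : G → (G ⧸ A → Additive A × ℤ) := fun g x =>
    (Additive.ofMul ⟨_, hA g x⟩, (if x = (g : G ⧸ A) then 1 else 0) - (if x = 1 then 1 else 0))
  have hD : ∀ x y, D (x * y) = D x + ρ x (D y) := by
    intro g h
    funext x
    change D (g * h) x = D g x + D h ((g : G ⧸ A)⁻¹ * x)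
    apply Prod.ext
    · apply Additive.toMul.injective
      apply Subtype.ext
      change (s x)⁻¹ * (g * h) * s (((g * h : G) : G ⧸ A)⁻¹ * x)
        = ((s x)⁻¹ * g * s ((g : G ⧸ A)⁻¹ * x))
          * ((s ((g : G ⧸ A)⁻¹ * x))⁻¹ * h * s ((h : G ⧸ A)⁻¹ * ((g : G ⧸ A)⁻¹ * x)))
      rw [QuotientGroup.mk_mul, mul_inv_rev, mul_assoc (h : G ⧸ A)⁻¹]
      group
    · change ((if x = ((g * h : G) : G ⧸ A) then (1 : ℤ) else 0) - (if x = 1 then 1 else 0))
        = ((if x = (g : G ⧸ A) then 1 else 0) - (if x = 1 then 1 else 0))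
          + ((if (g : G ⧸ A)⁻¹ * x = (h : G ⧸ A) then 1 else 0)
            - (if (g : G ⧸ A)⁻¹ * x = 1 then 1 else 0))
      have e1 : ((g : G ⧸ A)⁻¹ * x = (h : G ⧸ A)) ↔ (x = ((g * h : G) : G ⧸ A)) := by
        rw [QuotientGroup.mk_mul]
        constructor
        · intro hh
          rw [← hh]
          group
        · intro hh
          rw [hh]
          group
      have e2 : ((g : G ⧸ A)⁻¹ * x = 1) ↔ (x = (g : G ⧸ A)) := by
        constructor
        · intro hh
          exact (inv_mul_eq_one.mp hh).symm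
        · intro hh
          rw [hh]
          group
      simp only [e1, e2]
      ring
  have hρ : ∀ a ∈ A, ρ a = 1 := by
    intro a ha
    apply AddMonoidHom.ext
    intro f
    funext x
    change f ((a : G ⧸ A)⁻¹ * x) = f x
    rw [(QuotientGroup.eq_one_iff a).mpr ha, inv_one, one_mul]
  refine ⟨G ⧸ A → Additive A × ℤ, inferInstance, ρ, D, hρ, hD, fun g => ⟨?_, ?_⟩, ?_⟩
  · intro h
    have h1 : (g : G ⧸ A) = 1 := by
      by_contra hne
      have h2 := congrArg Prod.snd (congrFun h (g : G ⧸ A))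
      change ((if (g : G ⧸ A) = (g : G ⧸ A) then (1 : ℤ) else 0)
        - (if (g : G ⧸ A) = 1 then 1 else 0)) = 0 at h2
      rw [if_pos rfl, if_neg hne, sub_zero] at h2
      exact one_ne_zero h2
    have h3 := congrArg Prod.fst (congrFun h (1 : G ⧸ A))
    have h4 : (s 1)⁻¹ * g * s ((g : G ⧸ A)⁻¹ * 1) = 1 :=
      congrArg (fun z : Additive A => ((Additive.toMul z : A) : G)) h3
    rw [h1, inv_one, one_mul] at h4
    have h5 : g = (s 1) * ((s 1)⁻¹ * g * s 1) * (s 1)⁻¹ := by group
    rw [h5, h4]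
    group
  · rintro rfl
    have h1 := hD 1 1
    rw [mul_one, map_one] at h1
    have h2 : D 1 = D 1 + D 1 := h1
    exact (left_eq_add.mp h2)
  · intro htf n m hn hm
    funext x
    have h1 := congrFun hm x
    have h2 : n • (m x).1 = 0 := congrArg Prod.fst h1
    have h3 : n • (m x).2 = 0 := congrArg Prod.snd h1
    apply Prod.ext
    · have h4 : (Additive.toMul (m x).1 : A) ^ n = 1 := by
        have h5 := congrArg Additive.toMul h2
        exact h5
      have h6 : ((Additive.toMul (m x).1 : A) : G) ^ n = 1 := by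
        have h7 := congrArg (fun z : A => (z : G)) h4
        exact h7
      have h8 := htf _ (Additive.toMul (m x).1 : A).2 n hn h6
      have h9 : (Additive.toMul (m x).1 : A) = 1 := Subtype.ext h8
      exact h9
    · have h4 : (n : ℤ) * (m x).2 = 0 := by
        rw [← nsmul_eq_mul]
        exact h3
      rcases mul_eq_zero.mp h4 with h5 | h5
      · exact absurd h5 (by exact_mod_cast hn.ne')
      · exact h5

private theorem a1_cocycle {G : Type u} [Group G] (A : Subgroup G) [A.Normal]
    (hcomm : ∀ a ∈ A, ∀ b ∈ A, a * b = b * a)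
    (hquot : ∀ x y : G, x * y * x⁻¹ * y⁻¹ ∈ A) {r : ℕ} (g : Fin r → G) :
    ∃ (M : Type u) (_ : AddCommGroup M) (_ : Module (LamZ r) M) (a : Letter r → M),
      (∀ w : List (Letter r), value g w = 1 ↔
        ((posl 0 w).map (fun x => (monZ x.1 : LamZ r) • a x.2)).sum = 0) ∧
      ((∀ a ∈ A, ∀ n : ℕ, 0 < n → a ^ n = 1 → a = 1) → ∀ (n : ℕ) (m : M), 0 < n → n • m = 0 →
        m = 0) := by
  classical
  obtain ⟨M, iM, ρ, D, hρA, hD, hD1, htf⟩ := a1_derivation A hcomm
  obtain ⟨h, hh, hadd, hlet⟩ := a02_mk_gpow A hquot g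
  have hρ : ∀ x y : G, (x : G ⧸ A) = y → ρ x = ρ y := by
    intro x y hxy
    have h1 : x⁻¹ * y ∈ A := QuotientGroup.eq.mp hxy
    have h2 : y = x * (x⁻¹ * y) := by group
    rw [h2, map_mul, hρA _ h1, mul_one]
  let σ : Multiplicative (Fin r → ℤ) →* AddMonoid.End M :=
    { toFun := fun v => ρ (gpow g (Multiplicative.toAdd v))
      map_one' := by
        have h1 : ((gpow g (0 : Fin r → ℤ) : G) : G ⧸ A) = ((1 : G) : G ⧸ A) := by
          rw [← hh]
          have h2 := hadd 0 0
          rw [add_zero] at h2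
          rw [QuotientGroup.mk_one]
          exact (left_eq_mul.mp h2)
        change ρ (gpow g (0 : Fin r → ℤ)) = 1
        rw [hρ _ _ h1, map_one]
      map_mul' := by
        intro v w
        change ρ (gpow g (Multiplicative.toAdd v + Multiplicative.toAdd w))
          = ρ (gpow g (Multiplicative.toAdd v)) * ρ (gpow g (Multiplicative.toAdd w))
        rw [← map_mul]
        apply hρ
        rw [QuotientGroup.mk_mul, ← hh, ← hh, ← hh]
        exact hadd _ _ }
  let φ : LamZ r →ₐ[ℤ] AddMonoid.End M :=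
    AddMonoidAlgebra.lift ℤ (AddMonoid.End M) (Fin r → ℤ) σ
  have hφ : ∀ v, φ (monZ v) = ρ (gpow g v) := by
    intro v
    have h1 := AddMonoidAlgebra.lift_single σ v (1 : ℤ)
    rw [one_smul] at h1
    exact h1
  let mL : Module (LamZ r) M := Module.compHom M φ.toRingHom
  have hmon : ∀ v (m : M), (monZ v : LamZ r) • m = ρ (gpow g v) m := by
    intro v m
    rw [← hφ v]
    rfl
  refine ⟨M, iM, mL, fun l => D (value g [l]), ?_, htf⟩
  have hv1 : ∀ l : Letter r, value g [l] = if l.2 then g l.1 else (g l.1)⁻¹ := by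
    intro l
    unfold value
    rw [List.map_singleton, List.prod_singleton]
  have hv : ∀ (l : Letter r) (w : List (Letter r)), value g (l :: w) = value g [l] * value g w := by
    intro l w
    unfold value
    rw [List.map_cons, List.prod_cons, List.map_singleton, List.prod_singleton]
  have hsum : ∀ (w : List (Letter r)) (c : Fin r → ℤ),
      ((posl c w).map (fun x => (monZ x.1 : LamZ r) • D (value g [x.2]))).sum
        = (monZ c : LamZ r) • D (value g w) := by
    intro w
    induction w with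
    | nil =>
      intro c
      have h1 : D (value g []) = 0 := (hD1 _).mpr rfl
      rw [h1, smul_zero]
      rfl
    | cons l w ih =>
      intro c
      have h1 : (posl c (l :: w)) = (c, l) :: posl (c + sz (sgl l)) w := rfl
      rw [h1, List.map_cons, List.sum_cons, ih, hv l w, hD, smul_add]
      congr 1
      have h2 : (monZ (c + sz (sgl l)) : LamZ r) = monZ c * monZ (sz (sgl l)) := by
        unfold monZ
        rw [AddMonoidAlgebra.single_mul_single, one_mul]
      rw [h2, mul_smul, hmon (sz (sgl l))]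
      congr 1
      have h3 : ρ (gpow g (sz (sgl l))) = ρ (value g [l]) := by
        apply hρ
        rw [← hh, hlet, hv1]
      rw [h3]
  intro w
  rw [hsum w 0]
  have h1 : (monZ (0 : Fin r → ℤ) : LamZ r) = 1 := rfl
  rw [h1, one_smul]
  exact (hD1 _).symm

theorem exists_kernel {G : Type u} [Group G] (A : Subgroup G) [A.Normal]
    (hcomm : ∀ a ∈ A, ∀ b ∈ A, a * b = b * a)
    (hquot : ∀ x y : G, x * y * x⁻¹ * y⁻¹ ∈ A) {r : ℕ} (g : Fin r → G) :
    ∃ N : Submodule (LamZ r) (Letter r → LamZ r), (∀ w : List (Letter r), value g w = 1 ↔ vecW w ∈ N) ∧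
      ((∀ a ∈ A, ∀ n : ℕ, 0 < n → a ^ n = 1 → a = 1) →
        ∀ (n : ℕ) (x : Letter r → LamZ r), 0 < n → n • x ∈ N → x ∈ N) := by
  classical
  obtain ⟨M, iM, mL, a, ha, htf⟩ := a1_cocycle A hcomm hquot g
  let F : (Letter r → LamZ r) →ₗ[LamZ r] M :=
    ∑ l : Letter r, (LinearMap.toSpanSingleton (LamZ r) M (a l)).comp
      (LinearMap.proj (R := LamZ r) (φ := fun _ : Letter r => LamZ r) l)
  have hF : ∀ V, F V = ∑ l, V l • a l := by
    intro V
    change (∑ l : Letter r, (LinearMap.toSpanSingleton (LamZ r) M (a l)).comp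
      (LinearMap.proj (R := LamZ r) (φ := fun _ : Letter r => LamZ r) l)) V = _
    rw [LinearMap.sum_apply]
    rfl
  have hFs : ∀ (v : Fin r → ℤ) (l : Letter r),
      F (Pi.single l (monZ v) : Letter r → LamZ r) = monZ v • a l := by
    intro v l
    rw [hF, Finset.sum_eq_single l]
    · rw [Pi.single_eq_same]
    · intro l' _ hl'
      rw [Pi.single_eq_of_ne hl', zero_smul]
    · intro hl
      exact absurd (Finset.mem_univ l) hl
  refine ⟨LinearMap.ker F, fun w => ?_, fun hA n x hn hx => ?_⟩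
  · rw [ha w, LinearMap.mem_ker]
    unfold vecW
    rw [map_list_sum, List.map_map]
    have e : (fun x : (Fin r → ℤ) × Letter r => (monZ x.1 : LamZ r) • a x.2) =
        (F ∘ fun x : (Fin r → ℤ) × Letter r =>
          (Pi.single x.2 (monZ x.1) : Letter r → LamZ r)) := by
      funext x
      exact (hFs x.1 x.2).symm
    rw [e]
  · rw [LinearMap.mem_ker, map_nsmul] at hx
    rw [LinearMap.mem_ker]
    exact htf hA n _ hn hx

end Pool.Agent.WPU
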