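import Pool.Agent.Lib.MP_2da099_lc.UE.Defs
import Pool.Agent.Lib.MP_2da099_lc.A04

/-!
# A2: primary decomposition, components without integers

HINTS.  `LamZ r` is Noetherian (copy `isNoetherian_lam` in `A04.lean`), `lasker` (`A04.lean`) gives `N = ⋂ Q i`.  For `exists_comps`: keep the `i`
with `P i ∩ ℤ = 0` (a subtype of `Fin m`, reindexed by `Fin m'` with `Fintype.equivFin`).  If `x ∈ Q i` for all these `i`: for every other
`i` there is an integer `n i ≠ 0` in `P i`, and `k i` with `(P i) ^ k i • everything ⊆ Q i`; with `n = Π |n i| ^ k i` (a positive natural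
number) `n • x ∈ Q i` for all `i`, so `n • x ∈ N`, so `x ∈ N`.
-/

set_option autoImplicit false

namespace Pool.Agent.WPU

open Pool.Agent.Lib.PolyTime Pool.Agent.WPM Pool.Agent.WPR

theorem isNoetherian_lamZ (r : ℕ) : IsNoetherianRing (LamZ r) := by
  have : AddMonoid.FG (Fin r → ℤ) := by
    have h : Module.Finite ℤ (Fin r → ℤ) := inferInstance
    have h2 : AddGroup.FG (Fin r → ℤ) := by
      rw [← Module.Finite.iff_addGroup_fg]
      exact h
    exact AddGroup.fg_iff_addMonoid_fg.mp h2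
  have : Algebra.FiniteType ℤ (AddMonoidAlgebra ℤ (Fin r → ℤ)) := inferInstance
  exact Algebra.FiniteType.isNoetherianRing ℤ _

theorem exists_comps {r : ℕ} (N : Submodule (LamZ r) (Letter r → LamZ r))
    (hN : ∀ (n : ℕ) (x : Letter r → LamZ r), 0 < n → n • x ∈ N → x ∈ N) :
    ∃ (m : ℕ) (Q : Fin m → Submodule (LamZ r) (Letter r → LamZ r)) (P : Fin m → Ideal (LamZ r)),
      (∀ x, x ∈ N ↔ ∀ i, x ∈ Q i) ∧
      ∀ i, (P i).IsPrime ∧ (∀ n : ℤ, n ≠ 0 → (n : LamZ r) ∉ P i) ∧
        (∀ f, f ∉ P i → ∀ x, f • x ∈ Q i → x ∈ Q i) ∧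
        ∃ k : ℕ, ∀ f ∈ (P i) ^ k, ∀ x, f • x ∈ Q i := by
  classical
  haveI : IsNoetherianRing (LamZ r) := isNoetherian_lamZ r
  obtain ⟨m, Q, P, hQ, hP⟩ := lasker (LamZ r) (Letter r) N
  set S : Type := {i : Fin m // ∀ n : ℤ, n ≠ 0 → (n : LamZ r) ∉ P i} with hS
  set e : S ≃ Fin (Fintype.card S) := Fintype.equivFin S with he
  refine ⟨Fintype.card S, fun j => Q (e.symm j).1, fun j => P (e.symm j).1, ?_, ?_⟩
  · intro x
    constructor
    · intro h j
      exact (hQ x).mp h _
    · intro h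
      have hgood : ∀ i : Fin m, (∀ n : ℤ, n ≠ 0 → (n : LamZ r) ∉ P i) → x ∈ Q i := by
        intro i hi
        have := h (e ⟨i, hi⟩)
        simpa using this
      have hbad : ∀ i : Fin m, ∃ n : ℕ, 0 < n ∧ n • x ∈ Q i := by
        intro i
        by_cases hi : ∀ n : ℤ, n ≠ 0 → (n : LamZ r) ∉ P i
        · exact ⟨1, one_pos, by rw [one_smul]; exact hgood i hi⟩
        · push Not at hi
          obtain ⟨n, hn0, hn⟩ := hi
          obtain ⟨k, hk⟩ := (hP i).2.2.2
          have hn' : ((n.natAbs : ℕ) : LamZ r) ∈ P i := by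
            rcases Int.natAbs_eq n with h1 | h1
            · have h0 : ((n.natAbs : ℕ) : ℤ) = n := h1.symm
              have h2 : ((n.natAbs : ℕ) : LamZ r) = (n : LamZ r) := by
                rw [← Int.cast_natCast, h0]
              rw [h2]; exact hn
            · have h0 : ((n.natAbs : ℕ) : ℤ) = -n := by omega
              have h2 : ((n.natAbs : ℕ) : LamZ r) = -(n : LamZ r) := by
                rw [← Int.cast_natCast, h0, Int.cast_neg]
              rw [h2]; exact (P i).neg_mem hn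
          refine ⟨n.natAbs ^ k, pow_pos (Int.natAbs_pos.mpr hn0) k, ?_⟩
          have h3 := hk _ (Ideal.pow_mem_pow hn' k) x
          have h4 : (((n.natAbs : ℕ) : LamZ r) ^ k) • x = (n.natAbs ^ k) • x := by
            rw [← Nat.cast_pow, Nat.cast_smul_eq_nsmul]
          rw [h4] at h3
          exact h3
      choose n hn0 hn using hbad
      refine hN (∏ i, n i) x (Finset.prod_pos fun i _ => hn0 i) ?_
      rw [hQ]
      intro i
      obtain ⟨c, hc⟩ := Finset.dvd_prod_of_mem n (Finset.mem_univ i)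
      rw [hc, mul_comm, mul_smul]
      exact (Q i).smul_of_tower_mem c (hn i)
  · intro j
    obtain ⟨h1, h2, h3, h4⟩ := hP (e.symm j).1
    exact ⟨h1, (e.symm j).2, h3, h4⟩

end Pool.Agent.WPU
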