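import Pool.Agent.Lib.MP_2da099_lc.UE.Defs
import Mathlib.RingTheory.Binomial

/-!
# A3: integer powers of unipotent elements

HINTS.  One variable: `ν = u - 1`, `ν ^ k = 0`.  `f c = Σ_{i < k} Ring.choose c i • ν ^ i` (`Ring.choose (c : ℤ) i : ℤ`) satisfies
`f (c + 1) = f c * u` (Pascal: `Ring.choose_succ_succ`-like for integers; the term `i = k` vanishes) and `f 0 = 1` (for `k ≥ 1`; if `k = 0` the
ring is trivial), so `f c = u ^ c` for all integers `c` (`Int.induction_on`).  And `i! • Ring.choose c i` is the value at `c` of the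
polynomial `descPochhammer ℤ i` (`Ring.descPochhammer_eq_factorial_smul_choose`), so `Ring.choose c i = Σ_m q_{i m} c ^ m` with rational
`q_{i m}`, `m ≤ i < k`.  `τ m = Σ_i q_{i m} • ν ^ i`.  Several variables: product of the one-variable expansions
(`Finset.prod_univ_sum`, `Fintype.piFinset_univ`, `Finset.prod_mul_distrib`).
-/

set_option autoImplicit false

namespace Pool.Agent.WPU

open Pool.Agent.Lib.PolyTime Pool.Agent.WPM Pool.Agent.WPR

private noncomputable def a3f {R : Type} [CommRing R] (ν : R) (k : ℕ) (c : ℤ) : R :=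
  ∑ i ∈ Finset.range k, ((Ring.choose c i : ℤ) : R) * ν ^ i

private theorem a3f_succ {R : Type} [CommRing R] (ν : R) (k : ℕ) (hν : ν ^ k = 0) (c : ℤ) :
    a3f ν k (c + 1) = a3f ν k c * (1 + ν) := by
  cases k with
  | zero => simp [a3f]
  | succ k =>
    have h1 : a3f ν (k + 1) (c + 1) = a3f ν (k + 1) c +
        ∑ i ∈ Finset.range k, ((Ring.choose c i : ℤ) : R) * ν ^ (i + 1) := by
      unfold a3f
      rw [Finset.sum_range_succ' _ k, Finset.sum_range_succ' _ k, Ring.choose_zero_right,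
        Ring.choose_zero_right, add_right_comm, ← Finset.sum_add_distrib]
      congr 1
      refine Finset.sum_congr rfl fun i _ => ?_
      rw [Ring.choose_succ_succ]
      push_cast
      ring
    have h2 : a3f ν (k + 1) c * ν =
        ∑ i ∈ Finset.range k, ((Ring.choose c i : ℤ) : R) * ν ^ (i + 1) := by
      unfold a3f
      rw [Finset.sum_range_succ, add_mul, mul_assoc _ (ν ^ k) ν, ← pow_succ, hν, mul_zero,
        add_zero, Finset.sum_mul]
      refine Finset.sum_congr rfl fun i _ => ?_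
      rw [pow_succ, mul_assoc]
    rw [h1, mul_add, mul_one, h2]

private theorem a3f_zero {R : Type} [CommRing R] (ν : R) (k : ℕ) (hν : ν ^ k = 0) :
    a3f ν k 0 = 1 := by
  cases k with
  | zero =>
    have : Subsingleton R := subsingleton_of_zero_eq_one (by rw [← hν, pow_zero])
    exact Subsingleton.elim _ _
  | succ k =>
    unfold a3f
    rw [Finset.sum_range_succ', Ring.choose_zero_right, Finset.sum_eq_zero]
    · simp
    · intro i _
      rw [Ring.choose_zero_succ]
      simp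

private theorem a3f_eq {R : Type} [CommRing R] (u : Rˣ) (k : ℕ)
    (hu : ((u : R) - 1) ^ k = 0) (c : ℤ) : ((u ^ c : Rˣ) : R) = a3f ((u : R) - 1) k c := by
  have hstep : ∀ c : ℤ, a3f ((u : R) - 1) k (c + 1) = a3f ((u : R) - 1) k c * u := by
    intro c
    rw [a3f_succ _ _ hu, add_sub_cancel]
  induction c using Int.induction_on with
  | zero =>
    rw [a3f_zero _ _ hu, zpow_zero, Units.val_one]
  | succ n ih =>
    rw [hstep, ← ih, zpow_add_one, Units.val_mul]
  | pred n ih =>
    have h1 := hstep (-(n : ℤ) - 1)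
    rw [sub_add_cancel, ← ih] at h1
    have h2 : ((u ^ (-(n : ℤ) - 1) : Rˣ) : R) * u = ((u ^ (-(n : ℤ)) : Rˣ) : R) := by
      rw [← Units.val_mul, ← zpow_add_one, sub_add_cancel]
    exact u.isUnit.mul_right_cancel (h2.trans h1)

private theorem a3_choose {R : Type} [CommRing R] [Algebra ℚ R] (k i : ℕ) (hi : i < k) (c : ℤ) :
    ((Ring.choose c i : ℤ) : R) = ∑ m : Fin k, (c : R) ^ (m : ℕ) *
      algebraMap ℚ R (((descPochhammer ℤ i).coeff m : ℤ) / (i.factorial : ℚ)) := by
  have h1 := Ring.descPochhammer_eq_factorial_smul_choose c i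
  rw [← Polynomial.eval_eq_smeval, Polynomial.eval_eq_sum_range' (n := k)
    (by rw [descPochhammer_natDegree]; exact hi)] at h1
  have hf : (i.factorial : ℚ) ≠ 0 := by exact_mod_cast i.factorial_ne_zero
  have h2 : ((Ring.choose c i : ℤ) : ℚ) = ∑ m : Fin k, (c : ℚ) ^ (m : ℕ) *
      (((descPochhammer ℤ i).coeff m : ℤ) / (i.factorial : ℚ)) := by
    have h3 : ((∑ m ∈ Finset.range k, (descPochhammer ℤ i).coeff m * c ^ m : ℤ) : ℚ) =
        (i.factorial : ℚ) * ((Ring.choose c i : ℤ) : ℚ) := by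
      rw [h1, nsmul_eq_mul]
      push_cast
      rfl
    rw [Finset.sum_range (fun m => (descPochhammer ℤ i).coeff m * c ^ m)] at h3
    have h4 : ((Ring.choose c i : ℤ) : ℚ) =
        ((∑ m : Fin k, (descPochhammer ℤ i).coeff m * c ^ (m : ℕ) : ℤ) : ℚ) / i.factorial := by
      rw [h3]
      field_simp
    rw [h4]
    push_cast
    rw [div_eq_mul_inv, Finset.sum_mul]
    refine Finset.sum_congr rfl fun m _ => ?_
    ring
  have h5 := congrArg (algebraMap ℚ R) h2
  rw [map_intCast, map_sum] at h5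
  rw [h5]
  refine Finset.sum_congr rfl fun m _ => ?_
  rw [map_mul, map_pow, map_intCast]

theorem zpow_unip {R : Type} [CommRing R] [Algebra ℚ R] (u : Rˣ) (k : ℕ)
    (hu : ((u : R) - 1) ^ k = 0) :
    ∃ τ : Fin k → R, ∀ c : ℤ, ((u ^ c : Rˣ) : R) = ∑ m : Fin k, (c : R) ^ (m : ℕ) * τ m := by
  refine ⟨fun m => ∑ i ∈ Finset.range k,
    algebraMap ℚ R (((descPochhammer ℤ i).coeff m : ℤ) / (i.factorial : ℚ)) * ((u : R) - 1) ^ i,
    fun c => ?_⟩
  rw [a3f_eq u k hu c]
  unfold a3f
  simp only [Finset.mul_sum]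
  rw [Finset.sum_comm]
  refine Finset.sum_congr rfl fun i hi => ?_
  rw [a3_choose k i (Finset.mem_range.1 hi) c, Finset.sum_mul]
  refine Finset.sum_congr rfl fun m _ => ?_
  ring

theorem prod_zpow_unip {R : Type} [CommRing R] [Algebra ℚ R] {r k : ℕ} (u : Fin r → Rˣ)
    (hu : ∀ i, ((u i : R) - 1) ^ k = 0) :
    ∃ τ : (Fin r → Fin k) → R, ∀ c : Fin r → ℤ, ∏ i, ((u i ^ c i : Rˣ) : R) = pval τ c := by
  choose τ hτ using fun i => zpow_unip (u i) k (hu i)
  refine ⟨fun γ => ∏ i, τ i (γ i), fun c => ?_⟩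
  unfold pval
  rw [Finset.prod_congr rfl (fun i _ => hτ i (c i)), Finset.prod_univ_sum, Fintype.piFinset_univ]
  refine Finset.sum_congr rfl fun γ _ => ?_
  rw [Finset.prod_mul_distrib, mul_comm]

end Pool.Agent.WPU
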