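import Mathlib.RingTheory.Smooth.Field
import Mathlib.RingTheory.LocalRing.ResidueField.Basic
import Mathlib.RingTheory.Smooth.Basic
import Pool.Agent.Lib.MP_2da099_lc.UE.Defs

/-!
# A4: coefficient fields in characteristic zero

HINTS.  The residue field `K` is an algebra over `ℚ` (compatible with `Algebra ℚ R`); it is formally smooth over `ℚ`: every field extension of a
perfect field / of characteristic zero is formally smooth (`Mathlib.RingTheory.Smooth.Field`; search `FormallySmooth`,
`Algebra.FormallySmooth.of_perfectField` or `of algebraicIndependent` + separable algebraic = formally étale).  The surjection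
`R → K` has the nilpotent kernel `maximalIdeal R`: `Algebra.FormallySmooth.lift` (or `exists_lift`) of the identity of `K` gives the
section `s`.
-/

set_option autoImplicit false

namespace Pool.Agent.WPU

open Pool.Agent.WPM Pool.Agent.WPR

theorem exists_section {R : Type} [CommRing R] [IsLocalRing R] [Algebra ℚ R] (k : ℕ)
    (hk : (IsLocalRing.maximalIdeal R) ^ k = ⊥) :
    ∃ s : IsLocalRing.ResidueField R →+* R, ∀ x, IsLocalRing.residue R (s x) = x := by
  have hs : Algebra.FormallySmooth ℚ (IsLocalRing.ResidueField R) := by
    obtain ⟨s, hs⟩ := exists_isTranscendenceBasis ℚ (IsLocalRing.ResidueField R)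
    have halg := hs.isAlgebraic_field
    have hsep : Algebra.IsSeparable
        (IntermediateField.adjoin ℚ (Set.range ((↑) : s → IsLocalRing.ResidueField R)))
        (IsLocalRing.ResidueField R) := inferInstance
    exact Algebra.FormallySmooth.of_algebraicIndependent_of_isSeparable hs.1
  let g : R →ₐ[ℚ] IsLocalRing.ResidueField R :=
    IsScalarTower.toAlgHom ℚ R (IsLocalRing.ResidueField R)
  have hg : Function.Surjective g := IsLocalRing.residue_surjective
  have hker : IsNilpotent (RingHom.ker (g : R →+* IsLocalRing.ResidueField R)) := by
    refine ⟨k, ?_⟩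
    have h1 : RingHom.ker (g : R →+* IsLocalRing.ResidueField R) = IsLocalRing.maximalIdeal R :=
      IsLocalRing.ker_residue
    rw [h1, hk]
    rfl
  exact ⟨(Algebra.FormallySmooth.liftOfSurjective (AlgHom.id ℚ _) g hg hker :
    IsLocalRing.ResidueField R →ₐ[ℚ] R),
    fun x => Algebra.FormallySmooth.liftOfSurjective_apply (AlgHom.id ℚ _) g hg hker x⟩

end Pool.Agent.WPU
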