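import Pool.Agent.Lib.MP_2da099_lc.UE.Defs
import Mathlib.RingTheory.Localization.AtPrime.Basic
import Mathlib.Algebra.Module.LocalizedModule.Basic
import Mathlib.Algebra.Module.Torsion.Basic

/-!
# A5: localization of a primary component

HINTS.  `Λ_P = Localization.AtPrime P`, local with the maximal ideal `m_P` = the ideal generated by `P`; `W_P = LocalizedModule P.primeCompl W`;
the map `W → W_P` is injective because the elements outside `P` act injectively on `W` (`h1`).  `m_P ^ k` kills `W_P` (`h2`;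
`(m_P) ^ k = map (P ^ k)`), so `W_P` is a module over `R = Λ_P ⧸ m_P ^ k` (`Module.IsTorsionBySet.module`), which is local
(`0 < k`: `m_P ^ k ≠ ⊤`; a nontrivial quotient of a local ring) with `m_R ^ k = 0`.  `ℚ ⊆ Λ_P`: all nonzero integers are units in `Λ_P`
(`hZ`), so there is a ring homomorphism `ℚ → Λ_P → R` (`IsLocalization.lift`, or `Rat` as the fraction field of `ℤ`), giving the
`Algebra ℚ R` (`RingHom.toAlgebra`).
-/

set_option autoImplicit false

namespace Pool.Agent.WPU

open Pool.Agent.WPM Pool.Agent.WPR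

theorem exists_local {Λ : Type} [CommRing Λ] (P : Ideal Λ) [P.IsPrime]
    (hZ : ∀ n : ℤ, n ≠ 0 → (n : Λ) ∉ P) {W : Type} [AddCommGroup W] [Module Λ W]
    (h1 : ∀ f, f ∉ P → ∀ x : W, f • x = 0 → x = 0) (k : ℕ) (hk : 0 < k)
    (h2 : ∀ f ∈ P ^ k, ∀ x : W, f • x = 0) :
    ∃ (R : Type) (_ : CommRing R) (_ : IsLocalRing R) (_ : Algebra ℚ R) (W' : Type)
      (_ : AddCommGroup W') (_ : Module R W') (φ : Λ →+* R) (i : W →+ W'), Function.Injective i ∧
      (∀ f x, i (f • x) = φ f • i x) ∧ (IsLocalRing.maximalIdeal R) ^ k = ⊥ := by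
  classical
  let A := Localization.AtPrime P
  let m : Ideal A := IsLocalRing.maximalIdeal A
  let W' := LocalizedModule P.primeCompl W
  have hm : Ideal.map (algebraMap Λ A) P = m := Localization.AtPrime.map_eq_maximalIdeal
  have hmk : Ideal.map (algebraMap Λ A) (P ^ k) = m ^ k := by rw [Ideal.map_pow, hm]
  have hkill : m ^ k ≤ Module.annihilator A W' := by
    rw [← hmk, Ideal.map_le_iff_le_comap]
    intro f hf
    rw [Ideal.mem_comap, Module.mem_annihilator]
    intro y
    rw [algebraMap_smul]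
    induction y using LocalizedModule.induction_on with
    | _ w s =>
      rw [LocalizedModule.smul'_mk, h2 f hf w, LocalizedModule.zero_mk]
  have hT : Module.IsTorsionBySet A W' (m ^ k : Ideal A) := by
    intro y a
    exact Module.mem_annihilator.mp (hkill a.2) y
  let R := A ⧸ (m ^ k)
  have hne : m ^ k ≠ ⊤ := by
    intro h
    have h3 : m ^ k ≤ m := Ideal.pow_le_self hk.ne'
    rw [h, top_le_iff] at h3
    exact (IsLocalRing.maximalIdeal.isMaximal A).ne_top h3
  have hnt : Nontrivial R := Ideal.Quotient.nontrivial_iff.mpr hne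
  have hloc : IsLocalRing R := IsLocalRing.of_surjective' (Ideal.Quotient.mk (m ^ k))
    Ideal.Quotient.mk_surjective
  let modR : Module R W' := Module.IsTorsionBySet.module hT
  have hunit : ∀ y : nonZeroDivisors ℤ, IsUnit (Int.castRingHom A y) := by
    intro y
    have h3 : (y : ℤ) ≠ 0 := nonZeroDivisors.coe_ne_zero y
    have h4 := hZ y h3
    have h5 := IsLocalization.map_units A (⟨((y : ℤ) : Λ), h4⟩ : P.primeCompl)
    rwa [show (algebraMap Λ A) ((⟨((y : ℤ) : Λ), h4⟩ : P.primeCompl) : Λ) = Int.castRingHom A y by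
      simp] at h5
  let q : ℚ →+* R := (Ideal.Quotient.mk (m ^ k)).comp (IsLocalization.lift hunit)
  let algR : Algebra ℚ R := q.toAlgebra
  refine ⟨R, inferInstance, hloc, algR, W', inferInstance, modR,
    (Ideal.Quotient.mk (m ^ k)).comp (algebraMap Λ A),
    (LocalizedModule.mkLinearMap P.primeCompl W).toAddMonoidHom, ?_, ?_, ?_⟩
  · intro x y hxy
    have h3 : LocalizedModule.mk x (1 : P.primeCompl) = LocalizedModule.mk y 1 := hxy
    rw [LocalizedModule.mk_eq] at h3
    obtain ⟨u, hu⟩ := h3
    rw [one_smul, one_smul] at hu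
    have h4 : (u : Λ) • (x - y) = 0 := by
      rw [smul_sub, sub_eq_zero]
      exact hu
    exact sub_eq_zero.mp (h1 u u.2 _ h4)
  · intro f x
    have h3 : ∀ (a : A) (y : W'), (Ideal.Quotient.mk (m ^ k) a : R) • y = a • y := fun a y =>
      Module.IsTorsionBySet.mk_smul hT a y
    change LocalizedModule.mkLinearMap P.primeCompl W (f • x) =
      (Ideal.Quotient.mk (m ^ k) (algebraMap Λ A f) : R) • LocalizedModule.mkLinearMap P.primeCompl W x
    rw [h3, algebraMap_smul, map_smul]
  · rw [eq_bot_iff]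
    have h3 : IsLocalRing.maximalIdeal R ≤ Ideal.map (Ideal.Quotient.mk (m ^ k)) m := by
      intro x hx
      obtain ⟨a, rfl⟩ := Ideal.Quotient.mk_surjective x
      apply Ideal.mem_map_of_mem
      rw [IsLocalRing.mem_maximalIdeal] at hx ⊢
      intro ha
      exact hx (ha.map _)
    calc (IsLocalRing.maximalIdeal R) ^ k ≤ (Ideal.map (Ideal.Quotient.mk (m ^ k)) m) ^ k :=
          Ideal.pow_right_mono h3 k
      _ = Ideal.map (Ideal.Quotient.mk (m ^ k)) (m ^ k) := (Ideal.map_pow _ _ _).symm
      _ ≤ ⊥ := by rw [Ideal.map_quotient_self]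

end Pool.Agent.WPU
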