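import Pool.Agent.Lib.MP_2da099_lc.UE.Defs
import Pool.Agent.Lib.MP_2da099_lc.UE.A3
import Pool.Agent.Lib.MP_2da099_lc.UE.A4
import Pool.Agent.Lib.MP_2da099_lc.UE.A5
import Pool.Agent.Lib.MP_2da099_lc.A05

/-!
# A6: a component as exponential sums in a field

HINTS.  `W = (Letter r → LamZ r) ⧸ Q`, replace `k` by `k + 1` (`P ^ (k + 1) ≤ P ^ k`), `exists_local`, `exists_section`: `R`, `W'`, `φ`, `i`, `s`;
`K = ResidueField R` (characteristic zero because of `Algebra ℚ R`).  `x_j = φ (monZ e_j)` is a unit of `R` (`monZ (-e_j)` is the inverse),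
`η_j` = its residue, `x_j = s (η_j) * u_j` with `u_j - 1 ∈ maximalIdeal R` (apply `residue`; `s` of a unit is a unit), so
`(u_j - 1) ^ k = 0`, and for the monomial `monZ c`: `φ (monZ c) = Π_j x_j ^ c_j = s (mexp η c) * Π u_j ^ c_j = s (mexp η c) * pval τ c`
(`prod_zpow_unip`).  `vecW w ∈ Q` iff `Σ_{(c, l)} φ (monZ c) • i [e_l] = 0` in `W'` (`e_l = Pi.single l 1`, `[ ]` the class modulo `Q`),
i.e. `Σ_{(c, l)} s (mexp η c) • Σ_γ (Π c_i ^ γ_i) • (τ γ • i [e_l]) = 0`.  `W'` is a vector space over `K` through `s`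
(`Module.compHom W' s`); the finitely many vectors `z (γ, l) = τ γ • i [e_l]` have coordinates `κ_j l γ` in a basis of their span
(as in `A05.lean`, but directly for a vector space: `Module.finBasis`).
-/

set_option autoImplicit false

namespace Pool.Agent.WPU

open Pool.Agent.Lib.PolyTime Pool.Agent.WPM Pool.Agent.WPR

/-- The monomial as a unit. -/
private noncomputable def A6_U {r : ℕ} (v : Fin r → ℤ) : (LamZ r)ˣ where
  val := monZ v
  inv := monZ (-v)
  val_inv := by
    rw [monZ, monZ, AddMonoidAlgebra.single_mul_single, add_neg_cancel, mul_one]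
    rfl
  inv_val := by
    rw [monZ, monZ, AddMonoidAlgebra.single_mul_single, neg_add_cancel, mul_one]
    rfl

/-- The monomials as a homomorphism. -/
private noncomputable def A6_hom (r : ℕ) : Multiplicative (Fin r → ℤ) →* (LamZ r)ˣ where
  toFun v := A6_U v.toAdd
  map_one' := by
    refine Units.ext ?_
    show monZ (0 : Fin r → ℤ) = 1
    rfl
  map_mul' v w := by
    refine Units.ext ?_
    show monZ (v.toAdd + w.toAdd) = monZ v.toAdd * monZ w.toAdd
    rw [monZ, monZ, monZ, AddMonoidAlgebra.single_mul_single, mul_one]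

private theorem A6_mon {r : ℕ} (c : Fin r → ℤ) :
    A6_U c = ∏ i, (A6_U (Pi.single i 1 : Fin r → ℤ)) ^ (c i) := by
  have h1 : Multiplicative.ofAdd c =
      ∏ i, (Multiplicative.ofAdd (Pi.single i 1 : Fin r → ℤ)) ^ (c i) := by
    have h2 : ∑ i, (c i) • (Pi.single i 1 : Fin r → ℤ) = c := by
      ext j
      rw [Finset.sum_apply, Finset.sum_eq_single j]
      · simp
      · intro i _ hij
        simp [Pi.single_eq_of_ne hij.symm]
      · intro h
        exact absurd (Finset.mem_univ j) h
    conv_lhs => rw [← h2]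
    rw [ofAdd_sum]
    exact Finset.prod_congr rfl (fun i _ => ofAdd_zsmul _ _)
  have h3 : A6_hom r (Multiplicative.ofAdd c) = A6_U c := rfl
  have h4 : ∀ i : Fin r, A6_hom r (Multiplicative.ofAdd (Pi.single i 1 : Fin r → ℤ)) =
      A6_U (Pi.single i 1) := fun i => rfl
  rw [← h3, h1, map_prod]
  refine Finset.prod_congr rfl (fun i _ => ?_)
  rw [map_zpow, h4]

private theorem A6_phi {r : ℕ} {R : Type} [CommRing R] (φ : LamZ r →+* R) (c : Fin r → ℤ) :
    φ (monZ c) = ∏ i, (((Units.map (φ : LamZ r →* R) (A6_U (Pi.single i 1 : Fin r → ℤ))) ^ (c i) :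
      Rˣ) : R) := by
  have h1 : φ (monZ c) = (Units.map (φ : LamZ r →* R) (A6_U c) : R) := rfl
  rw [h1, A6_mon c, map_prod, Units.coe_prod]
  exact Finset.prod_congr rfl (fun i _ => by rw [map_zpow])

private theorem A6_split {r k : ℕ} {R : Type} [CommRing R] [IsLocalRing R] [Algebra ℚ R]
    (hk : (IsLocalRing.maximalIdeal R) ^ k = ⊥) (s : IsLocalRing.ResidueField R →+* R)
    (hs : ∀ x, IsLocalRing.residue R (s x) = x) (X : Fin r → Rˣ) :
    ∃ τ : (Fin r → Fin k) → R, ∀ c : Fin r → ℤ, ∏ i, ((X i ^ c i : Rˣ) : R) =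
      s (mexp (fun i => Units.map (IsLocalRing.residue R : R →* IsLocalRing.ResidueField R) (X i)) c) *
        pval τ c := by
  set η : Fin r → (IsLocalRing.ResidueField R)ˣ :=
    fun i => Units.map (IsLocalRing.residue R : R →* IsLocalRing.ResidueField R) (X i) with hη
  set Y : Fin r → Rˣ := fun i => Units.map (s : IsLocalRing.ResidueField R →* R) (η i) with hY
  have hu : ∀ i, (((X i * (Y i)⁻¹ : Rˣ) : R) - 1) ^ k = 0 := by
    intro i
    have h1 : ((X i * (Y i)⁻¹ : Rˣ) : R) - 1 ∈ IsLocalRing.maximalIdeal R := by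
      rw [← IsLocalRing.residue_eq_zero_iff, map_sub, map_one, sub_eq_zero]
      have h2 : Units.map (IsLocalRing.residue R : R →* IsLocalRing.ResidueField R) (Y i) = η i := by
        refine Units.ext ?_
        exact hs _
      have h3 : Units.map (IsLocalRing.residue R : R →* IsLocalRing.ResidueField R)
          (X i * (Y i)⁻¹) = 1 := by
        rw [map_mul, map_inv, h2]
        exact mul_inv_cancel _
      have h4 := congrArg Units.val h3
      exact h4
    have h2 := Ideal.pow_mem_pow h1 k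
    rw [hk] at h2
    exact (Ideal.mem_bot).1 h2
  obtain ⟨τ, hτ⟩ := prod_zpow_unip (fun i => X i * (Y i)⁻¹) hu
  refine ⟨τ, fun c => ?_⟩
  rw [← hτ c, mexp, map_prod, ← Finset.prod_mul_distrib]
  refine Finset.prod_congr rfl (fun i _ => ?_)
  have h1 : s ((η i ^ c i : (IsLocalRing.ResidueField R)ˣ) : IsLocalRing.ResidueField R) =
      ((Y i ^ c i : Rˣ) : R) := by
    have h0 : Units.map (s : IsLocalRing.ResidueField R →* R) (η i ^ c i) = Y i ^ c i :=
      map_zpow _ _ _
    rw [← h0]
    rfl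
  rw [h1, ← Units.val_mul]
  congr 1
  rw [← mul_zpow]
  congr 1
  rw [mul_comm (X i), mul_inv_cancel_left]

theorem exists_esum {r : ℕ} (Q : Submodule (LamZ r) (Letter r → LamZ r)) (P : Ideal (LamZ r))
    [P.IsPrime] (hZ : ∀ n : ℤ, n ≠ 0 → (n : LamZ r) ∉ P)
    (h1 : ∀ f, f ∉ P → ∀ x, f • x ∈ Q → x ∈ Q) (k : ℕ) (h2 : ∀ f ∈ P ^ k, ∀ x, f • x ∈ Q) :
    ∃ (K : Type) (_ : Field K) (_ : CharZero K) (η : Fin r → Kˣ) (k' J : ℕ)
      (κ : Fin J → Letter r → (Fin r → Fin k') → K),
      ∀ w : List (Letter r), vecW w ∈ Q ↔ ∀ j, esum η (κ j) w = 0 := by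
  classical
  -- the localized module
  have h1' : ∀ f, f ∉ P → ∀ x : (Letter r → LamZ r) ⧸ Q, f • x = 0 → x = 0 := by
    intro f hf x
    obtain ⟨y, rfl⟩ := Submodule.Quotient.mk_surjective Q x
    rw [← Submodule.Quotient.mk_smul, Submodule.Quotient.mk_eq_zero, Submodule.Quotient.mk_eq_zero]
    exact h1 f hf y
  have h2' : ∀ f ∈ P ^ (k + 1), ∀ x : (Letter r → LamZ r) ⧸ Q, f • x = 0 := by
    intro f hf x
    obtain ⟨y, rfl⟩ := Submodule.Quotient.mk_surjective Q x
    rw [← Submodule.Quotient.mk_smul, Submodule.Quotient.mk_eq_zero]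
    exact h2 f (Ideal.pow_le_pow_right (Nat.le_succ k) hf) y
  obtain ⟨R, _, _, _, W', _, _, φ, i, hi, hφ, hm⟩ := exists_local P hZ h1' (k + 1)
    (Nat.succ_pos k) h2'
  obtain ⟨s, hs⟩ := exists_section (k + 1) hm
  let K := IsLocalRing.ResidueField R
  let X : Fin r → Rˣ := fun j => Units.map (φ : LamZ r →* R) (A6_U (Pi.single j 1 : Fin r → ℤ))
  obtain ⟨τ, hτ⟩ := A6_split hm s hs X
  have hchar : CharZero K := by
    let _ : Algebra ℚ K := ((IsLocalRing.residue R).comp (algebraMap ℚ R)).toAlgebra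
    exact algebraRat.charZero K
  letI : Module K W' := Module.compHom W' s
  have hsmul : ∀ (a : K) (x : W'), a • x = s a • x := fun a x => rfl
  let e : Letter r → (Letter r → LamZ r) ⧸ Q := fun l => Submodule.Quotient.mk (Pi.single l 1)
  obtain ⟨J, α, hα⟩ := coords (R := K) K W' (fun f x h => smul_eq_zero.1 h)
    ((Fin r → Fin (k + 1)) × Letter r) (fun p => τ p.1 • i (e p.2))
  refine ⟨K, inferInstance, hchar,
    fun j => Units.map (IsLocalRing.residue R : R →* IsLocalRing.ResidueField R) (X j), k + 1, J,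
    fun j l γ => α (γ, l) j, fun w => ?_⟩
  set η : Fin r → Kˣ := fun j => Units.map (IsLocalRing.residue R : R →* K) (X j) with hη
  -- the coefficients
  let F : (Fin r → ℤ) × Letter r → ((Fin r → Fin (k + 1)) × Letter r → K) := fun x p =>
    if p.2 = x.2 then mexp η x.1 * ∏ i, (x.1 i : K) ^ (p.1 i : ℕ) else 0
  let L : ((Fin r → Fin (k + 1)) × Letter r → K) →+ W' :=
    { toFun := fun f => ∑ p, f p • (τ p.1 • i (e p.2))
      map_zero' := by simp
      map_add' := fun f g => by simp only [Pi.add_apply, add_smul, Finset.sum_add_distrib] }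
  let C : Fin J → ((Fin r → Fin (k + 1)) × Letter r → K) →+ K := fun j =>
    { toFun := fun f => ∑ p, f p * α p j
      map_zero' := by simp
      map_add' := fun f g => by simp only [Pi.add_apply, add_mul, Finset.sum_add_distrib] }
  have hLC : ∀ f, L f = 0 ↔ ∀ j, C j f = 0 := fun f => hα f
  have hL : ∀ x : (Fin r → ℤ) × Letter r,
      L (F x) = i (Submodule.Quotient.mk (Pi.single x.2 (monZ x.1))) := by
    intro x
    have h3 : (Pi.single x.2 (monZ x.1) : Letter r → LamZ r) = monZ x.1 • Pi.single x.2 1 := by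
      rw [← Pi.single_smul, smul_eq_mul, mul_one]
    rw [h3, Submodule.Quotient.mk_smul, hφ]
    show ∑ p : (Fin r → Fin (k + 1)) × Letter r, F x p • (τ p.1 • i (e p.2)) =
      φ (monZ x.1) • i (e x.2)
    rw [A6_phi φ x.1]
    have h4 := hτ x.1
    rw [h4, pval, Fintype.sum_prod_type, Finset.mul_sum, Finset.sum_smul]
    refine Finset.sum_congr rfl (fun γ _ => ?_)
    rw [Finset.sum_eq_single x.2]
    · show (if x.2 = x.2 then mexp η x.1 * ∏ i, (x.1 i : K) ^ (γ i : ℕ) else 0) •
        (τ γ • i (e x.2)) = _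
      rw [if_pos rfl, hsmul, smul_smul, map_mul, map_prod]
      congr 1
      have h5 : ∀ j, s ((x.1 j : K) ^ (γ j : ℕ)) = (x.1 j : R) ^ (γ j : ℕ) := by
        intro j
        rw [map_pow, map_intCast]
      rw [Finset.prod_congr rfl (fun j _ => h5 j)]
      ring
    · intro l _ hl
      show (if l = x.2 then mexp η x.1 * ∏ i, (x.1 i : K) ^ (γ i : ℕ) else 0) • _ = _
      rw [if_neg hl, zero_smul]
    · intro h
      exact absurd (Finset.mem_univ _) h
  have hC : ∀ j (x : (Fin r → ℤ) × Letter r),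
      C j (F x) = pval (fun γ => α (γ, x.2) j) x.1 * mexp η x.1 := by
    intro j x
    show ∑ p : (Fin r → Fin (k + 1)) × Letter r, F x p * α p j = _
    rw [pval, Fintype.sum_prod_type, Finset.sum_mul]
    refine Finset.sum_congr rfl (fun γ _ => ?_)
    rw [Finset.sum_eq_single x.2]
    · show (if x.2 = x.2 then mexp η x.1 * ∏ i, (x.1 i : K) ^ (γ i : ℕ) else 0) * α (γ, x.2) j = _
      rw [if_pos rfl]
      ring
    · intro l _ hl
      show (if l = x.2 then mexp η x.1 * ∏ i, (x.1 i : K) ^ (γ i : ℕ) else 0) * _ = _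
      rw [if_neg hl, zero_mul]
    · intro h
      exact absurd (Finset.mem_univ _) h
  have hsum : i (Submodule.Quotient.mk (vecW w)) = L (((posl 0 w).map F).sum) := by
    rw [map_list_sum, List.map_map, vecW]
    have h3 : ∀ l : List ((Fin r → ℤ) × Letter r), i (Submodule.Quotient.mk (p := Q)
        ((l.map (fun x => (Pi.single x.2 (monZ x.1) : Letter r → LamZ r))).sum)) =
        (l.map (⇑L ∘ F)).sum := by
      intro l
      induction l with
      | nil =>
        show i (Submodule.Quotient.mk 0) = 0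
        rw [Submodule.Quotient.mk_zero, map_zero]
      | cons a l ih =>
        rw [List.map_cons, List.sum_cons, Submodule.Quotient.mk_add, map_add, ih, List.map_cons,
          List.sum_cons, Function.comp_apply, hL a]
    exact h3 _
  rw [← Submodule.Quotient.mk_eq_zero Q]
  have h3 : (Submodule.Quotient.mk (vecW w) : (Letter r → LamZ r) ⧸ Q) = 0 ↔
      i (Submodule.Quotient.mk (vecW w)) = 0 := by
    constructor
    · intro h
      rw [h, map_zero]
    · intro h
      exact hi (by rw [h, map_zero])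
  rw [h3, hsum, hLC]
  refine forall_congr' (fun j => ?_)
  have h4 : C j (((posl 0 w).map F).sum) = esum η (fun l γ => α (γ, l) j) w := by
    rw [map_list_sum, List.map_map, esum]
    congr 1
    exact List.map_congr_left (fun x _ => hC j x)
  rw [h4]

end Pool.Agent.WPU
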