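import Pool.Agent.Lib.MP_2da099_lc.UE.Defs
import Mathlib.RingTheory.AlgebraicIndependent.TranscendenceBasis
import Mathlib.RingTheory.NoetherNormalization
import Mathlib.RingTheory.Localization.FractionRing
import Mathlib.FieldTheory.IntermediateField.Adjoin.Basic

/-!
# A7: finitely generated fields

HINTS.  `L0 = ℚ(s)` (or the subfield of `K` generated by the finite set `s`).  A transcendence basis of `L0` over `ℚ` inside the generating set
`s` (`exists_isTranscendenceBasis_subset`-like) is finite: `y : Fin t → L0` algebraically independent over `ℚ`, hence over `ℤ`.  The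
evaluation `SP t → L0` is injective, so it extends to the fraction field `F = FractionRing (SP t) → L0` (`IsFractionRing.lift`), which
makes `L0` an algebra over `F`; `L0` is algebraic over `F` and generated by finitely many elements, so it is finite-dimensional
(`IntermediateField.finiteDimensional_adjoin` / `Algebra.IsAlgebraic` and finitely generated).
Alternative: Noether normalization (`exists_integral_inj_algHom_of_fg` or similar) of the `ℚ`-algebra generated by `s`.
`L = L0` as a type, `f` = the inclusion.
-/

set_option autoImplicit false

namespace Pool.Agent.WPU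

open Pool.Agent.WPM Pool.Agent.WPR

theorem exists_funfield {K : Type} [Field K] [CharZero K] (s : Set K) (hs : s.Finite) :
    ∃ (t : ℕ) (L : Type) (_ : Field L) (_ : Algebra (FractionRing (SP t)) L)
      (_ : FiniteDimensional (FractionRing (SP t)) L) (f : L →+* K), s ⊆ Set.range f := by
  classical
  obtain ⟨u, hu⟩ := (AlgebraicIndependent.matroid ℤ K).exists_isBasis s
  rw [AlgebraicIndependent.matroid_isBasis_iff] at hu
  obtain ⟨hind, hus, halg⟩ := hu
  have hufin : u.Finite := hs.subset hus
  have : Finite u := hufin
  have hft : Fintype u := Fintype.ofFinite u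
  let t := Fintype.card u
  let e : Fin t ≃ u := (Fintype.equivFin u).symm
  let y : Fin t → K := fun i => (e i : K)
  have hy : AlgebraicIndependent ℤ y := (algebraicIndependent_equiv e (f := fun x : u => (x : K))).mpr hind
  have hrange : Set.range y = u := by
    ext a
    constructor
    · rintro ⟨i, rfl⟩
      exact (e i).2
    · intro ha
      exact ⟨e.symm ⟨a, ha⟩, by simp [y]⟩
  have hinj : Function.Injective (MvPolynomial.aeval (R := ℤ) y).toRingHom := by
    intro p q hpq
    exact hy hpq
  let F := FractionRing (SP t)
  let g : F →+* K := IsFractionRing.lift hinj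
  let algF : Algebra F K := g.toAlgebra
  have hg : ∀ p : SP t, g (algebraMap (SP t) F p) = MvPolynomial.aeval (R := ℤ) y p :=
    fun p => IsFractionRing.lift_algebraMap hinj p
  have halgF : ∀ a ∈ s, IsAlgebraic F a := by
    intro a ha
    have h1 := halg a ha
    rw [← hrange] at h1
    let f : Algebra.adjoin ℤ (Set.range y) →+* F :=
      (algebraMap (SP t) F).comp hy.aevalEquiv.symm.toAlgHom.toRingHom
    have hf : Function.Injective f :=
      (IsFractionRing.injective (SP t) F).comp hy.aevalEquiv.symm.injective
    have h2 := h1.ringHom_of_comp_eq f (RingHom.id K) hf (by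
      ext x
      change g (algebraMap (SP t) F (hy.aevalEquiv.symm x)) = (x : K)
      rw [hg]
      exact hy.aeval_repr x)
    exact h2
  let L : IntermediateField F K := IntermediateField.adjoin F s
  have : Finite s := hs
  have hL : FiniteDimensional F L := IntermediateField.finiteDimensional_adjoin
    (fun x hx => (halgF x hx).isIntegral)
  refine ⟨t, L, inferInstance, inferInstance, hL, L.val.toRingHom, ?_⟩
  intro a ha
  exact ⟨⟨a, IntermediateField.subset_adjoin F s ha⟩, rfl⟩

end Pool.Agent.WPU
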