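import Pool.Agent.Lib.MP_2da099_lc.UE.Defs

/-!
# A9a: logarithmic derivatives

HINTS.  `D 1 = 0`, `D (x⁻¹) = - D x * x⁻¹ ^ 2`, `D (x ^ n) = n x ^ (n - 1) D x` for natural and then integer `n`:
`D (x ^ n) = x ^ n * (n * (D x * x⁻¹))`; product over `Fin r` by induction (`Finset.prod_induction`-like, logarithmic derivatives add).
-/

set_option autoImplicit false

namespace Pool.Agent.WPU

open Pool.Agent.WPM Pool.Agent.WPR

theorem deriv_mexp {L : Type} [Field L] {r : ℕ} (D : L → L) (hadd : ∀ x y, D (x + y) = D x + D y)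
    (hmul : ∀ x y, D (x * y) = x * D y + y * D x) (η : Fin r → Lˣ) (c : Fin r → ℤ) :
    D (mexp η c) = mexp η c * ∑ j, (c j : L) * (D (η j) * ((η j)⁻¹ : Lˣ)) := by
  have h1 : D 1 = 0 := by
    have h := hmul 1 1
    rw [mul_one, one_mul] at h
    exact left_eq_add.mp h
  let ld : Additive Lˣ →+ L :=
    { toFun := fun u => D (u.toMul : L) * ((u.toMul)⁻¹ : Lˣ)
      map_zero' := by
        change D ((1 : Lˣ) : L) * _ = 0
        rw [Units.val_one, h1, zero_mul]
      map_add' := fun u v => by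
        change D ((u.toMul * v.toMul : Lˣ) : L) * ((u.toMul * v.toMul)⁻¹ : Lˣ) = _
        rw [Units.val_mul, hmul, mul_inv, Units.val_mul, Units.val_inv_eq_inv_val,
          Units.val_inv_eq_inv_val]
        have hu := u.toMul.ne_zero
        have hv := v.toMul.ne_zero
        field_simp
        ring }
  have h2 : mexp η c = ((∏ i, η i ^ c i : Lˣ) : L) := by
    unfold mexp
    rw [Units.coe_prod]
  have h3 : ld (Additive.ofMul (∏ i, η i ^ c i : Lˣ)) =
      ∑ j, (c j : L) * (D (η j) * ((η j)⁻¹ : Lˣ)) := by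
    rw [ofMul_prod, map_sum]
    refine Finset.sum_congr rfl fun j _ => ?_
    rw [ofMul_zpow, map_zsmul, zsmul_eq_mul]
    rfl
  have h4 : ld (Additive.ofMul (∏ i, η i ^ c i : Lˣ)) =
      D (mexp η c) * ((∏ i, η i ^ c i : Lˣ)⁻¹ : Lˣ) := by
    rw [h2]
    rfl
  rw [← h3, h4, h2, mul_comm (D _), ← mul_assoc, ← Units.val_mul, mul_inv_cancel, Units.val_one,
    one_mul]

theorem mexp_add {L : Type} [Field L] {r : ℕ} (η : Fin r → Lˣ) (c c' : Fin r → ℤ) :
    mexp η (c + c') = mexp η c * mexp η c' := by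
  unfold mexp
  rw [← Finset.prod_mul_distrib]
  refine Finset.prod_congr rfl fun i _ => ?_
  rw [Pi.add_apply, zpow_add, Units.val_mul]

theorem mexp_zero {L : Type} [Field L] {r : ℕ} (η : Fin r → Lˣ) : mexp η 0 = 1 := by
  simp [mexp]

theorem mexp_map {L K : Type} [Field L] [Field K] {r : ℕ} (f : L →+* K) (η : Fin r → Lˣ)
    (c : Fin r → ℤ) : f (mexp η c) = mexp (fun i => Units.map f.toMonoidHom (η i)) c := by
  unfold mexp
  rw [map_prod]
  refine Finset.prod_congr rfl fun i _ => ?_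
  rw [← map_zpow]
  rfl

end Pool.Agent.WPU
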