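import Pool.Agent.Lib.MP_2da099_lc.UE.Defs
import Mathlib.RingTheory.Localization.FractionRing
import Mathlib.RingTheory.Derivation.Basic
import Mathlib.FieldTheory.Differential.Basic
import Mathlib.RingTheory.Etale.Field
import Mathlib.RingTheory.Etale.Kaehler
import Mathlib.RingTheory.Kaehler.Basic

/-!
# A8: derivations of function fields

`L` is formally étale over `SP t` (localization, then a finite separable extension), so `Ω[L⁄ℤ]` is the base
change of `Ω[SP t⁄ℤ]`, and the derivation `pderiv i` with values in `L` extends.
-/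

set_option autoImplicit false

namespace Pool.Agent.WPU

open Pool.Agent.WPM Pool.Agent.WPR

open scoped TensorProduct in
/-- derivations extend along formally étale algebras -/
private theorem a8_extend {R L : Type} [CommRing R] [CommRing L] [Algebra R L]
    [Algebra.FormallyEtale R L] (D0 : Derivation ℤ R L) :
    ∃ D : L → L, (∀ x y, D (x + y) = D x + D y) ∧ (∀ x y, D (x * y) = x * D y + y * D x) ∧
      ∀ q : R, D (algebraMap R L q) = D0 q := by
  let m : L ⊗[R] Ω[R⁄ℤ] →ₗ[L] L := D0.liftKaehlerDifferential.liftBaseChange L
  let e := KaehlerDifferential.tensorKaehlerEquivOfFormallyEtale ℤ R L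
  refine ⟨fun x => m (e.symm (KaehlerDifferential.D ℤ L x)), fun x y => ?_, fun x y => ?_,
    fun q => ?_⟩
  · simp only [map_add]
  · simp only [Derivation.leibniz, map_add, map_smul, smul_eq_mul]
  · have h1 := KaehlerDifferential.tensorKaehlerEquivOfFormallyEtale_symm_D_algebraMap ℤ R L q
    show m (e.symm (KaehlerDifferential.D ℤ L (algebraMap R L q))) = D0 q
    rw [h1]
    show D0.liftKaehlerDifferential.liftBaseChange L (1 ⊗ₜ KaehlerDifferential.D ℤ R q) = D0 q
    rw [LinearMap.liftBaseChange_tmul, one_smul, Derivation.liftKaehlerDifferential_comp_D]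

theorem exists_deriv {t : ℕ} (L : Type) [Field L] [Algebra (FractionRing (SP t)) L]
    [FiniteDimensional (FractionRing (SP t)) L] (i : Fin t) :
    ∃ D : L → L, (∀ x y, D (x + y) = D x + D y) ∧ (∀ x y, D (x * y) = x * D y + y * D x) ∧
      ∀ q : SP t, D (algebraMap (FractionRing (SP t)) L (algebraMap (SP t) (FractionRing (SP t)) q)) =
        algebraMap (FractionRing (SP t)) L (algebraMap (SP t) (FractionRing (SP t))
          (MvPolynomial.pderiv i q)) := by
  let aL : Algebra (SP t) L := ((algebraMap (FractionRing (SP t)) L).comp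
    (algebraMap (SP t) (FractionRing (SP t)))).toAlgebra
  have hst : IsScalarTower (SP t) (FractionRing (SP t)) L :=
    IsScalarTower.of_algebraMap_eq fun _ => rfl
  have hc1 : CharZero (SP t) := inferInstance
  have hc : CharZero (FractionRing (SP t)) := by
    refine ⟨fun a b hab => ?_⟩
    have h1 : algebraMap (SP t) (FractionRing (SP t)) (a : SP t) =
        algebraMap (SP t) (FractionRing (SP t)) (b : SP t) := by
      rw [map_natCast, map_natCast]
      exact hab
    exact Nat.cast_injective (IsFractionRing.injective (SP t) (FractionRing (SP t)) h1)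
  have h1 : Algebra.FormallyEtale (SP t) (FractionRing (SP t)) :=
    Algebra.FormallyEtale.of_isLocalization (nonZeroDivisors (SP t))
  have h2 : Algebra.FormallyEtale (FractionRing (SP t)) L := Algebra.FormallyEtale.of_isSeparable _ _
  have h3 : Algebra.FormallyEtale (SP t) L := Algebra.FormallyEtale.comp (SP t) (FractionRing (SP t)) L
  let D0 : Derivation ℤ (SP t) L :=
    (Algebra.linearMap (SP t) L).compDer (MvPolynomial.pderiv i : Derivation ℤ (SP t) (SP t))
  obtain ⟨D, hD1, hD2, hD3⟩ := a8_extend D0
  exact ⟨D, hD1, hD2, fun q => hD3 q⟩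

end Pool.Agent.WPU
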