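import Pool.Agent.Lib.MP_2da099_lc.UE.Defs
import Mathlib.RingTheory.Localization.Integer
import Mathlib.RingTheory.Localization.FractionRing
import Mathlib.LinearAlgebra.FiniteDimensional.Basic
import Mathlib.LinearAlgebra.Matrix.ToLin

/-!
# A9b: common denominators of matrices

HINTS.  `b = Module.finBasis F L`.  For `x : L`: `Algebra.leftMulMatrix b x : Matrix (Fin d) (Fin d) F` satisfies
`b.repr (x * y) = (leftMulMatrix b x).mulVec (b.repr y)`.  The finitely many entries of the matrices of the `x ∈ X`, of the vectors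
`b.repr (D i (b κ'))` and of `b.repr 1` have a common denominator `g ∈ SP t`, `g ≠ 0`
(`IsLocalization.exist_integer_multiples_of_finset` for `nonZeroDivisors (SP t)`); `SP t` is a domain.  `Mx x = 0` for `x ∉ X`.
-/

set_option autoImplicit false

namespace Pool.Agent.WPU

open Pool.Agent.WPM Pool.Agent.WPR

theorem exists_mats {t : ℕ} (L : Type) [Field L] [Algebra (FractionRing (SP t)) L]
    [FiniteDimensional (FractionRing (SP t)) L] (X : Finset L) (D : Fin t → L → L) :
    ∃ (d : ℕ) (b : Module.Basis (Fin d) (FractionRing (SP t)) L) (g : SP t)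
      (Mx : L → Matrix (Fin d) (Fin d) (SP t)) (Γ : Fin t → Matrix (Fin d) (Fin d) (SP t))
      (e : Fin d → SP t), g ≠ 0 ∧
      (∀ x ∈ X, ∀ y κ, ∑ κ', algebraMap (SP t) (FractionRing (SP t)) (Mx x κ κ') * b.repr y κ' =
        algebraMap (SP t) (FractionRing (SP t)) g * b.repr (x * y) κ) ∧
      (∀ i κ κ', algebraMap (SP t) (FractionRing (SP t)) (Γ i κ κ') =
        algebraMap (SP t) (FractionRing (SP t)) g * b.repr (D i (b κ')) κ) ∧
      ∀ κ, algebraMap (SP t) (FractionRing (SP t)) (e κ) =
        algebraMap (SP t) (FractionRing (SP t)) g * b.repr 1 κ := by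
  classical
  let F := FractionRing (SP t)
  let d := Module.finrank F L
  let b : Module.Basis (Fin d) F L := Module.finBasis F L
  let s : Finset F := ((X ×ˢ (Finset.univ : Finset (Fin d × Fin d))).image
      (fun p => Algebra.leftMulMatrix b p.1 p.2.1 p.2.2)) ∪
    ((Finset.univ : Finset (Fin t × Fin d × Fin d)).image
      (fun p => b.repr (D p.1 (b p.2.2)) p.2.1)) ∪
    ((Finset.univ : Finset (Fin d)).image (fun κ => b.repr 1 κ))
  obtain ⟨g, hg⟩ := IsLocalization.exist_integer_multiples_of_finset (nonZeroDivisors (SP t)) s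
  have hint : ∀ a ∈ s, ∃ z : SP t, algebraMap (SP t) F z = algebraMap (SP t) F (g : SP t) * a := by
    intro a ha
    obtain ⟨z, hz⟩ := hg a ha
    refine ⟨z, ?_⟩
    rw [hz, Algebra.smul_def]
  have h1 : ∀ x ∈ X, ∀ κ κ', ∃ z : SP t, algebraMap (SP t) F z =
      algebraMap (SP t) F (g : SP t) * Algebra.leftMulMatrix b x κ κ' := by
    intro x hx κ κ'
    refine hint _ (Finset.mem_union_left _ (Finset.mem_union_left _ ?_))
    exact Finset.mem_image.2 ⟨(x, κ, κ'), Finset.mem_product.2 ⟨hx, Finset.mem_univ _⟩, rfl⟩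
  have h2 : ∀ (i : Fin t) (κ κ' : Fin d), ∃ z : SP t, algebraMap (SP t) F z =
      algebraMap (SP t) F (g : SP t) * b.repr (D i (b κ')) κ := by
    intro i κ κ'
    refine hint _ (Finset.mem_union_left _ (Finset.mem_union_right _ ?_))
    exact Finset.mem_image.2 ⟨(i, κ, κ'), Finset.mem_univ _, rfl⟩
  have h3 : ∀ κ : Fin d, ∃ z : SP t, algebraMap (SP t) F z =
      algebraMap (SP t) F (g : SP t) * b.repr 1 κ := by
    intro κ
    refine hint _ (Finset.mem_union_right _ ?_)
    exact Finset.mem_image.2 ⟨κ, Finset.mem_univ _, rfl⟩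
  choose! M hM using h1
  choose Γ hΓ using h2
  choose e he using h3
  refine ⟨d, b, g, fun x => Matrix.of (fun κ κ' => M x κ κ'),
    fun i => Matrix.of (fun κ κ' => Γ i κ κ'), e, nonZeroDivisors.coe_ne_zero g, ?_, ?_, he⟩
  · intro x hx y κ
    have h4 : b.repr (x * y) κ = ∑ κ', Algebra.leftMulMatrix b x κ κ' * b.repr y κ' := by
      have := congrFun (Algebra.leftMulMatrix_mulVec_repr b x y) κ
      rw [← this]
      rfl
    rw [h4, Finset.mul_sum]
    refine Finset.sum_congr rfl fun κ' _ => ?_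
    rw [← mul_assoc, ← hM x hx κ κ']
    rfl
  · intro i κ κ'
    exact hΓ i κ κ'

end Pool.Agent.WPU
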