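import Pool.Agent.Lib.MP_2da099_lc.UE.Defs
import Pool.Agent.Lib.MP_2da099_lc.UE.A9a
import Mathlib.RingTheory.Localization.FractionRing
import Mathlib.LinearAlgebra.FiniteDimensional.Basic

/-!
# A9c: the vectors Psi

HINTS.  For `nrm c ≤ k` a vector `x : Fin d → SP t` with `algebraMap (x κ) = (algebraMap g) ^ (k + 1) * b.repr (mexp η c) κ` exists, by
induction on `k`: `k = 0`: `c = 0`, the vector `e` (`mexp_zero`).  `nrm c ≤ k + 1`: either `nrm c ≤ k`, multiply the vector by `g`, or
`c ≠ 0`, some `c i ≠ 0`, `c = c' + sz (sgl l)` with `nrm c' ≤ k` (`l = (i, decide (0 < c i))`), multiply the vector of `c'` by the matrix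
`Mx l` (`mexp_add`).  Then choose (`Classical.choose`, `dite` on `nrm c ≤ k`).
-/

set_option autoImplicit false

namespace Pool.Agent.WPU

open Pool.Agent.WPM Pool.Agent.WPR

private theorem psi_nrm_add {r : ℕ} (a b : Fin r → ℤ) : nrm (a + b) ≤ nrm a + nrm b := by
  unfold nrm
  rw [← Finset.sum_add_distrib]
  exact Finset.sum_le_sum fun i _ => Int.natAbs_add_le _ _

private theorem psi_nrm_sgl {r : ℕ} (l : Letter r) : nrm (sz (sgl l)) ≤ 1 := by
  unfold nrm
  calc ∑ i, (sz (sgl l) i).natAbs ≤ ∑ i : Fin r, (if i = l.1 then 1 else 0) := by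
        refine Finset.sum_le_sum fun i _ => ?_
        unfold sz sgl
        by_cases h : i = l.1
        · rw [if_pos h, if_pos h]
          cases l.2 <;> decide
        · rw [if_neg h, if_neg h]
          decide
    _ = 1 := by simp
    _ ≤ 1 := le_rfl

private theorem psi_posl {r : ℕ} (w : List (Letter r)) :
    ∀ c : Fin r → ℤ, ∀ x ∈ posl c w, nrm x.1 ≤ nrm c + w.length := by
  induction w with
  | nil =>
    intro c x hx
    simp [posl] at hx
  | cons l w ih =>
    intro c x hx
    rw [posl, List.mem_cons] at hx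
    rw [List.length_cons]
    rcases hx with h | h
    · rw [h]
      change nrm c ≤ _
      omega
    · have h1 := ih _ x h
      have h2 := psi_nrm_add c (sz (sgl l))
      have h3 := psi_nrm_sgl l
      omega

theorem nrm_posl {r : ℕ} (w : List (Letter r)) : ∀ x ∈ posl 0 w, nrm x.1 ≤ w.length := by
  intro x hx
  have h := psi_posl w 0 x hx
  have h0 : nrm (0 : Fin r → ℤ) = 0 := by simp [nrm]
  omega

private theorem psi_pred {r : ℕ} (c : Fin r → ℤ) (k : ℕ) (h : nrm c ≤ k + 1) (h' : ¬ nrm c ≤ k) :
    ∃ (l : Letter r) (c' : Fin r → ℤ), nrm c' ≤ k ∧ c = sz (sgl l) + c' := by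
  have hne : ∃ i, c i ≠ 0 := by
    by_contra hcon
    push Not at hcon
    apply h'
    have : nrm c = 0 := by simp [nrm, hcon]
    omega
  obtain ⟨i, hi⟩ := hne
  refine ⟨(i, decide (0 < c i)), c - sz (sgl (i, decide (0 < c i))), ?_, by abel⟩
  have e1 : nrm c = (c i).natAbs + ∑ j ∈ Finset.univ.erase i, (c j).natAbs := by
    unfold nrm
    exact (Finset.add_sum_erase Finset.univ (fun j => (c j).natAbs) (Finset.mem_univ i)).symm
  have e2 : nrm (c - sz (sgl (i, decide (0 < c i)))) =
      ((c - sz (sgl (i, decide (0 < c i)))) i).natAbs +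
        ∑ j ∈ Finset.univ.erase i, ((c - sz (sgl (i, decide (0 < c i)))) j).natAbs := by
    unfold nrm
    exact (Finset.add_sum_erase Finset.univ
      (fun j => ((c - sz (sgl (i, decide (0 < c i)))) j).natAbs) (Finset.mem_univ i)).symm
  have e3 : ∑ j ∈ Finset.univ.erase i, ((c - sz (sgl (i, decide (0 < c i)))) j).natAbs =
      ∑ j ∈ Finset.univ.erase i, (c j).natAbs := by
    refine Finset.sum_congr rfl fun j hj => ?_
    have hji : j ≠ i := Finset.ne_of_mem_erase hj
    simp [sz, sgl, hji]
  have e4 : ((c - sz (sgl (i, decide (0 < c i)))) i).natAbs + 1 = (c i).natAbs := by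
    by_cases hp : 0 < c i
    · have : (c - sz (sgl (i, decide (0 < c i)))) i = c i - 1 := by
        simp [sz, sgl, hp]
      rw [this]
      omega
    · have : (c - sz (sgl (i, decide (0 < c i)))) i = c i + 1 := by
        simp [sz, sgl, hp]
      rw [this]
      omega
  omega

theorem exists_psi {r t d : ℕ} (L : Type) [Field L] [Algebra (FractionRing (SP t)) L]
    (b : Module.Basis (Fin d) (FractionRing (SP t)) L) (g : SP t)
    (Mx : Letter r → Matrix (Fin d) (Fin d) (SP t)) (e : Fin d → SP t) (η : Fin r → Lˣ)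
    (hM : ∀ (l : Letter r) (y : L) (κ : Fin d),
      ∑ κ', algebraMap (SP t) (FractionRing (SP t)) (Mx l κ κ') * b.repr y κ' =
        algebraMap (SP t) (FractionRing (SP t)) g * b.repr (mexp η (sz (sgl l)) * y) κ)
    (he : ∀ κ, algebraMap (SP t) (FractionRing (SP t)) (e κ) =
      algebraMap (SP t) (FractionRing (SP t)) g * b.repr 1 κ) :
    ∃ Psi : ℕ → (Fin r → ℤ) → Fin d → SP t, ∀ k c κ, nrm c ≤ k →
      algebraMap (SP t) (FractionRing (SP t)) (Psi k c κ) =
        (algebraMap (SP t) (FractionRing (SP t)) g) ^ (k + 1) * b.repr (mexp η c) κ := by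
  classical
  have key : ∀ (k : ℕ) (c : Fin r → ℤ), nrm c ≤ k → ∃ x : Fin d → SP t, ∀ κ,
      algebraMap (SP t) (FractionRing (SP t)) (x κ) =
        (algebraMap (SP t) (FractionRing (SP t)) g) ^ (k + 1) * b.repr (mexp η c) κ := by
    intro k
    induction k with
    | zero =>
      intro c hc
      have hc0 : c = 0 := by
        funext i
        have h1 : (c i).natAbs ≤ nrm c := by
          unfold nrm
          exact Finset.single_le_sum (f := fun i => (c i).natAbs) (fun _ _ => Nat.zero_le _)
            (Finset.mem_univ i)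
        have h2 : (c i).natAbs = 0 := by omega
        exact Int.natAbs_eq_zero.1 h2
      refine ⟨e, fun κ => ?_⟩
      rw [hc0, mexp_zero, he κ, zero_add, pow_one]
    | succ k ih =>
      intro c hc
      by_cases h : nrm c ≤ k
      · obtain ⟨x, hx⟩ := ih c h
        refine ⟨fun κ => g * x κ, fun κ => ?_⟩
        rw [map_mul, hx κ]
        ring
      · obtain ⟨l, c', hc', hcc⟩ := psi_pred c k hc h
        obtain ⟨x, hx⟩ := ih c' hc'
        refine ⟨fun κ => ∑ κ', Mx l κ κ' * x κ', fun κ => ?_⟩
        rw [map_sum, hcc, mexp_add]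
        have h1 : ∀ κ' : Fin d, algebraMap (SP t) (FractionRing (SP t)) (Mx l κ κ' * x κ') =
            (algebraMap (SP t) (FractionRing (SP t)) g) ^ (k + 1) *
              (algebraMap (SP t) (FractionRing (SP t)) (Mx l κ κ') * b.repr (mexp η c') κ') := by
          intro κ'
          rw [map_mul, hx κ']
          ring
        rw [Finset.sum_congr rfl fun κ' _ => h1 κ', ← Finset.mul_sum, hM l (mexp η c') κ]
        ring
  refine ⟨fun k c => if h : nrm c ≤ k then Classical.choose (key k c h) else 0, ?_⟩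
  intro k c κ h
  beta_reduce
  rw [dif_pos h]
  exact Classical.choose_spec (key k c h) κ

end Pool.Agent.WPU
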