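import Pool.Agent.Lib.MP_2da099_lc.UE.Defs
import Mathlib.RingTheory.Localization.FractionRing
import Mathlib.LinearAlgebra.FiniteDimensional.Basic

/-!
# A9d: the differential equations

HINTS.  Write `G = algebraMap g ∈ F`.  In `L`: `G ^ (k + 1) • y = Σ_κ ψ_κ • b κ` (`Basis.sum_repr`, `hψ`; `ψ_κ` mapped to `L`).  Apply `D`:
the right-hand side gives `Σ_κ (pderiv i ψ_κ) • b κ + Σ_κ ψ_κ • D (b κ)` (`hadd`, `hmul`, `hD`; `a • x = algebraMap a * x`), the left-hand
side `(k + 1) G ^ k (pderiv i g) y + G ^ (k + 1) y ℓ` (`hD` for `g ^ (k + 1)`, `pderiv` of a power; `hy`).  Multiply by `G` and take the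
coordinate `κ` (`b.repr` is `F`-linear): `G pderiv i ψ_κ = (k + 1) pderiv i g * ψ_κ + G ^ (k + 2) b.repr (ℓ * y) κ - Σ_κ' Γ κ κ' ψ_κ'`.
-/

set_option autoImplicit false

namespace Pool.Agent.WPU

open Pool.Agent.WPM Pool.Agent.WPR

theorem deriv_coord {t d : ℕ} (L : Type) [Field L] [Algebra (FractionRing (SP t)) L]
    (b : Module.Basis (Fin d) (FractionRing (SP t)) L) (g : SP t) (i : Fin t) (D : L → L)
    (hadd : ∀ x y, D (x + y) = D x + D y) (hmul : ∀ x y, D (x * y) = x * D y + y * D x)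
    (hD : ∀ q : SP t, D (algebraMap (FractionRing (SP t)) L
      (algebraMap (SP t) (FractionRing (SP t)) q)) =
        algebraMap (FractionRing (SP t)) L (algebraMap (SP t) (FractionRing (SP t))
          (MvPolynomial.pderiv i q)))
    (Γ : Matrix (Fin d) (Fin d) (SP t))
    (hΓ : ∀ κ κ', algebraMap (SP t) (FractionRing (SP t)) (Γ κ κ') =
      algebraMap (SP t) (FractionRing (SP t)) g * b.repr (D (b κ')) κ)
    (k : ℕ) (y ℓ : L) (hy : D y = y * ℓ) (ψ : Fin d → SP t)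
    (hψ : ∀ κ, algebraMap (SP t) (FractionRing (SP t)) (ψ κ) =
      (algebraMap (SP t) (FractionRing (SP t)) g) ^ (k + 1) * b.repr y κ) (κ : Fin d) :
    algebraMap (SP t) (FractionRing (SP t)) (g * MvPolynomial.pderiv i (ψ κ)) =
      algebraMap (SP t) (FractionRing (SP t)) ((k + 1) • (MvPolynomial.pderiv i g * ψ κ)) +
      (algebraMap (SP t) (FractionRing (SP t)) g) ^ (k + 2) * b.repr (ℓ * y) κ -
      algebraMap (SP t) (FractionRing (SP t)) (Γ.mulVec ψ κ) := by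
  classical
  obtain ⟨φ, hφ⟩ : ∃ φ : SP t →+* FractionRing (SP t),
    φ = algebraMap (SP t) (FractionRing (SP t)) := ⟨_, rfl⟩
  obtain ⟨em, hem⟩ : ∃ em : FractionRing (SP t) →+* L,
    em = algebraMap (FractionRing (SP t)) L := ⟨_, rfl⟩
  simp only [← hφ, ← hem] at hD hΓ hψ ⊢
  let Da : L →+ L := AddMonoidHom.mk' D hadd
  have hDa : ∀ x, Da x = D x := fun x => rfl
  have hrep : ∀ (a : FractionRing (SP t)) (x : L), b.repr (em a * x) κ = a * b.repr x κ := by
    intro a x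
    rw [hem, ← Algebra.smul_def, map_smul]
    rfl
  -- the expansion of `y`
  have h1 : em (φ (g ^ (k + 1))) * y = ∑ κ', em (φ (ψ κ')) * b κ' := by
    conv_lhs => rw [← b.sum_repr y]
    rw [Finset.mul_sum]
    refine Finset.sum_congr rfl fun κ' _ => ?_
    rw [hψ, Algebra.smul_def, ← hem, map_mul em, map_pow φ, mul_assoc]
  have h2 : D (em (φ (g ^ (k + 1))) * y) =
      ∑ κ', (em (φ (ψ κ')) * D (b κ') + b κ' * em (φ (MvPolynomial.pderiv i (ψ κ')))) := by
    rw [h1, ← hDa, map_sum]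
    refine Finset.sum_congr rfl fun κ' _ => ?_
    rw [hDa, hmul, hD]
  rw [hmul, hD, hy] at h2
  have h3 := congrArg (fun x => b.repr x κ) h2
  beta_reduce at h3
  have e1 : em (φ (g ^ (k + 1))) * (y * ℓ) + y * em (φ (MvPolynomial.pderiv i (g ^ (k + 1)))) =
      em (φ (g ^ (k + 1))) * (ℓ * y) + em (φ (MvPolynomial.pderiv i (g ^ (k + 1)))) * y := by ring
  rw [e1, map_add, map_sum, Finsupp.add_apply, hrep, hrep, Finsupp.finsetSum_apply] at h3
  have e2 : ∀ κ', b.repr (em (φ (ψ κ')) * D (b κ') + b κ' * em (φ (MvPolynomial.pderiv i (ψ κ')))) κ =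
      φ (ψ κ') * b.repr (D (b κ')) κ + φ (MvPolynomial.pderiv i (ψ κ')) * (if κ' = κ then 1 else 0) := by
    intro κ'
    rw [map_add, Finsupp.add_apply, mul_comm (b κ'), hrep, hrep, b.repr_self, Finsupp.single_apply]
  rw [Finset.sum_congr rfl (fun κ' _ => e2 κ'), Finset.sum_add_distrib] at h3
  have e3 : ∑ κ', φ (MvPolynomial.pderiv i (ψ κ')) * (if κ' = κ then (1 : FractionRing (SP t)) else 0) =
      φ (MvPolynomial.pderiv i (ψ κ)) := by
    simp only [mul_ite, mul_one, mul_zero]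
    rw [Finset.sum_ite_eq' Finset.univ κ (fun κ' => φ (MvPolynomial.pderiv i (ψ κ'))),
      if_pos (Finset.mem_univ κ)]
  rw [e3] at h3
  have e4 : φ (Γ.mulVec ψ κ) = φ g * ∑ κ', φ (ψ κ') * b.repr (D (b κ')) κ := by
    unfold Matrix.mulVec dotProduct
    rw [map_sum, Finset.mul_sum]
    refine Finset.sum_congr rfl fun κ' _ => ?_
    rw [map_mul, hΓ]
    ring
  have e5 : MvPolynomial.pderiv i (g ^ (k + 1)) = (k + 1) • (g ^ k * MvPolynomial.pderiv i g) := by
    rw [Derivation.leibniz_pow, Nat.add_sub_cancel, smul_eq_mul]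
  rw [e4, map_mul φ, map_nsmul, map_mul φ, hψ κ]
  rw [e5, map_nsmul, map_mul φ, map_pow φ, map_pow φ, nsmul_eq_mul] at h3
  rw [nsmul_eq_mul]
  have h4 : φ (MvPolynomial.pderiv i (ψ κ)) = φ g ^ (k + 1) * b.repr (ℓ * y) κ +
      ((k + 1 : ℕ) : FractionRing (SP t)) * (φ g ^ k * φ (MvPolynomial.pderiv i g)) * b.repr y κ -
      ∑ κ', φ (ψ κ') * b.repr (D (b κ')) κ := by
    rw [h3]
    ring
  rw [h4]
  ring

end Pool.Agent.WPU
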