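import Pool.Agent.Lib.MP_2da099_lc.UE.Defs
import Pool.Agent.Lib.MP_2da099_lc.R2.P10
import Pool.Agent.Lib.MP_2da099_lc.C10
import Pool.Agent.Lib.MP_2da099_lc.C09

/-!
# Q0: the predicate Dec

HINTS.  Copy `R2/P10.lean` (`quad_true`, `Quad.and`, `quad_forall`) with the bound `B` (with `n + 1 ≤ B n`) instead of
`(n + 1) ^ 2`.  `Dec.congr`, `Dec.mono`: unfold.  `le_TB`: `lg n ≥ 1`.  `Quad.dec`: `(n + 1) ^ 2 ≤ TB n`.
-/

set_option autoImplicit false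

namespace Pool.Agent.WPU

open Pool.Agent.Lib.PolyTime Pool.Agent.WPM Pool.Agent.WPR

theorem Dec.congr {B : ℕ → ℕ} {ι : Type} [Enc ι] {Z Z' : List ι → Prop} (h : Dec B Z)
    (e : ∀ w, Z w ↔ Z' w) : Dec B Z' := by
  obtain ⟨f, T, C, h1, h2, h3⟩ := h
  exact ⟨f, T, C, h1, fun w => (h2 w).trans (e w), h3⟩

theorem Dec.mono {B B' : ℕ → ℕ} {ι : Type} [Enc ι] {Z : List ι → Prop} (C : ℕ)
    (hB : ∀ n, B n ≤ C * B' n) (h : Dec B Z) : Dec B' Z := by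
  obtain ⟨f, T, C', h1, h2, h3⟩ := h
  refine ⟨f, T, C' * C, h1, h2, fun w => (h3 w).trans ?_⟩
  rw [Nat.mul_assoc]
  exact Nat.mul_le_mul_left _ (hB _)

theorem dec_true {B : ℕ → ℕ} (hB : ∀ n, n + 1 ≤ B n) {ι : Type} [Enc ι] [Finite ι] :
    Dec B (fun _ : List ι => True) := by
  obtain ⟨κ, hκ⟩ := size_list_fin ι
  exact ⟨fun _ => true, _, κ, CT.const true, fun w => by simp, fun w =>
    (hκ w).trans (Nat.mul_le_mul_left _ (hB _))⟩

theorem Dec.and {B : ℕ → ℕ} (hB : ∀ n, n + 1 ≤ B n) {ι : Type} [Enc ι] [Finite ι]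
    {Z Z' : List ι → Prop} (h : Dec B Z) (h' : Dec B Z') : Dec B (fun w => Z w ∧ Z' w) := by
  obtain ⟨f, T, C, h1, h2, h3⟩ := h
  obtain ⟨f', T', C', h1', h2', h3'⟩ := h'
  obtain ⟨κ, hκ⟩ := size_list_fin ι
  have hp : CT (fun w => (f w, f' w)) (fun w => size w + T w + T' w) := CT.pair h1 h1'
  have hc : CT (fun x : Bool × Bool => x.1 && x.2) (fun _ => 0) := CT.fin _
  have := hc.comp hp
  refine ⟨fun w => f w && f' w, _, κ + C + C', this, fun w => ?_, fun w => ?_⟩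
  · show (f w && f' w) = true ↔ _
    rw [Bool.and_eq_true, h2 w, h2' w]
  · have a1 := (hκ w).trans (Nat.mul_le_mul_left κ (hB w.length))
    have a2 := h3 w
    have a3 := h3' w
    show size w + T w + T' w + 0 ≤ (κ + C + C') * B w.length
    have e : (κ + C + C') * B w.length = κ * B w.length + C * B w.length + C' * B w.length := by
      ring
    omega

theorem dec_forall {B : ℕ → ℕ} (hB : ∀ n, n + 1 ≤ B n) {ι : Type} [Enc ι] [Finite ι] (m : ℕ)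
    (Z : Fin m → List ι → Prop) (h : ∀ i, Dec B (Z i)) : Dec B (fun w => ∀ i, Z i w) := by
  induction m with
  | zero => exact (dec_true hB).congr (fun w => ⟨fun _ i => i.elim0, fun _ => trivial⟩)
  | succ m ih =>
    have h1 := ih (fun i => Z i.succ) (fun i => h i.succ)
    exact (Dec.and hB (h 0) h1).congr (fun w => (Fin.forall_fin_succ (P := fun i => Z i w)).symm)

theorem le_TB (n : ℕ) : n + 1 ≤ TB n := by
  unfold TB
  have h1 : 1 ≤ lg n ^ 2 := Nat.one_le_pow _ _ (Nat.succ_pos _)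
  have h2 : n + 1 ≤ (n + 1) ^ 4 := Nat.le_self_pow (by norm_num) _
  calc n + 1 ≤ (n + 1) ^ 4 * 1 := by rw [Nat.mul_one]; exact h2
    _ ≤ (n + 1) ^ 4 * lg n ^ 2 := Nat.mul_le_mul_left _ h1

theorem sq_le_TB (n : ℕ) : (n + 1) ^ 2 ≤ TB n := by
  unfold TB
  have h1 : 1 ≤ lg n ^ 2 := Nat.one_le_pow _ _ (Nat.succ_pos _)
  have h2 : (n + 1) ^ 2 ≤ (n + 1) ^ 4 := Nat.pow_le_pow_right (Nat.succ_pos _) (by norm_num)
  calc (n + 1) ^ 2 ≤ (n + 1) ^ 4 * 1 := by rw [Nat.mul_one]; exact h2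
    _ ≤ (n + 1) ^ 4 * lg n ^ 2 := Nat.mul_le_mul_left _ h1

end Pool.Agent.WPU
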