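import Pool.Agent.Lib.MP_2da099_lc.UE.Defs
import Pool.Agent.Lib.MP_2da099_lc.C09

/-!
# Q4a: the list of the padded prefixes: sizes

HINTS.  `padTo L z r = (r ++ List.replicate L z).take L` has the length `L`.  `paths w` has `n = w.length` elements, each is a list
of length `n` over a finite alphabet with a letter (`size_list_fin`, `size_fin`, `size` of pairs and lists: `size_list_le_of`).
-/

set_option autoImplicit false

namespace Pool.Agent.WPU

open Pool.Agent.Lib.PolyTime Pool.Agent.WPM Pool.Agent.WPR

theorem pre_length {α : Type} (s w : List α) : (pre s w).length = w.length := by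
  induction w generalizing s with
  | nil => rfl
  | cons l w ih =>
    show (pre (l :: s) w).length + 1 = w.length + 1
    rw [ih]

theorem paths_length {r : ℕ} (w : List (Letter r)) : (paths w).length = w.length := by
  unfold paths
  rw [List.length_map, pre_length]

theorem mem_paths_length {r : ℕ} (w : List (Letter r)) :
    ∀ x ∈ paths w, x.1.length = w.length := by
  intro x hx
  unfold paths at hx
  obtain ⟨y, _, rfl⟩ := List.mem_map.1 hx
  show (padTo w.length none (y.1.map some)).length = w.length
  unfold padTo
  rw [List.length_take, List.length_append, List.length_replicate]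
  omega

theorem size_paths {r : ℕ} : ∃ C : ℕ, ∀ w : List (Letter r),
    size (paths w) ≤ C * (w.length + 1) ^ 2 ∧ ∀ x ∈ paths w, size x ≤ C * (w.length + 1) := by
  obtain ⟨κ, hκ⟩ := size_list_fin (Option (Letter r))
  obtain ⟨κ', hκ'⟩ := size_fin (Letter r)
  refine ⟨κ + κ' + 2, fun w => ?_⟩
  have h1 : ∀ x ∈ paths w, size x ≤ (κ + κ' + 1) * (w.length + 1) := by
    intro x hx
    have e1 := hκ x.1
    rw [mem_paths_length w x hx] at e1
    have e2 := hκ' x.2
    have e3 : (κ + κ' + 1) * (w.length + 1) = κ * (w.length + 1) + κ' * w.length + w.length +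
        κ' + 1 := by ring
    rw [size_prod]
    omega
  refine ⟨?_, fun x hx => (h1 x hx).trans (Nat.mul_le_mul_right _ (by omega))⟩
  have h2 := size_list_le_of ((κ + κ' + 1) * (w.length + 1)) (paths w) h1
  rw [paths_length] at h2
  refine h2.trans ?_
  have e1 : ((κ + κ' + 1) * (w.length + 1) + 1) ≤ (κ + κ' + 2) * (w.length + 1) := by
    have : (κ + κ' + 2) * (w.length + 1) = (κ + κ' + 1) * (w.length + 1) + (w.length + 1) := by ring
    omega
  calc ((κ + κ' + 1) * (w.length + 1) + 1) * (w.length + 1) ≤
        (κ + κ' + 2) * (w.length + 1) * (w.length + 1) := Nat.mul_le_mul_right _ e1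
    _ = (κ + κ' + 2) * (w.length + 1) ^ 2 := by ring

end Pool.Agent.WPU
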