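import Pool.Agent.Lib.MP_2da099_lc.UE.Defs
import Pool.Agent.Lib.MP_2da099_lc.UE.Q4a
import Pool.Agent.Lib.MP_2da099_lc.R2.P05
import Pool.Agent.Lib.MP_2da099_lc.R2.P07
import Pool.Agent.Lib.MP_2da099_lc.R2.N03
import Pool.Agent.Lib.MP_2da099_lc.C10

/-!
# Q4b: the list of the padded prefixes: time

HINTS.  `pre [] w` by `CT.foldl` over `w` with the state `(s, out)`, step `(l, (s, out)) ↦ (l :: s, (s, l) :: out)` (then
`CT.reverse`): every step costs `O(size s + 1) = O(n + 1)` (only `s` and `l` are copied; `out` lies below and is not touched, take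
the state as `s` on top of `out`: the cost of a step must not contain `size out`; use `CT.first`, `CT.assocR`, `CT.assocL`).
The conversion of `s : List (Letter r)` to `s.map some` and padding: apply `ct_mapEnv` with the environment `w.length`
(a natural number in unary, `ct_length`) and the function `(x, n) ↦ (padTo n none (x.1.map some), x.2)`
(`ct_map` or a transducer for `map some`, `ct_replicate`, `CT.append`, `ct_take`), cost `O(n + size x + 1)`; or build the prefixes
with `some` from the start.  Lemmas for functions of linear time: the `n03_LT` calculus of `R2/N03.lean`.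
-/

set_option autoImplicit false

namespace Pool.Agent.WPU

open Pool.Agent.Lib.PolyTime Pool.Agent.WPM Pool.Agent.WPR

section general

variable {α : Type} [Enc α]

/-- The step of the list of the prefixes. -/
def Q4b_step (x : α × (List α × List (List α × α))) : List α × List (List α × α) :=
  (x.1 :: x.2.1, (x.2.1, x.1) :: x.2.2)

omit [Enc α] in
theorem Q4b_fold (w : List α) : ∀ (s : List α) (out : List (List α × α)),
    w.foldl (fun s a => Q4b_step (a, s)) (s, out) = (w.reverse ++ s, (pre s w).reverse ++ out) := by
  induction w with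
  | nil => intro s out; rfl
  | cons a w ih =>
    intro s out
    rw [List.foldl_cons]
    have h1 : Q4b_step (a, (s, out)) = (a :: s, (s, a) :: out) := rfl
    rw [h1, ih]
    simp [pre]

theorem Q4b_ct_step : CT (Q4b_step (α := α)) (fun x => size x.1 + size x.2.1) := by
  have h1 : CT (fun x : α × (List α × List (List α × α)) => ((x.1, x.2.1), x.2.2)) _ := CT.assocL
  have hg0 : CT (fun y : α × List α => y.1 :: y.2) (fun _ => 0) := CT.of_enc_eq (fun _ => rfl)
  have hg1 : n03_LT (fun y : α × List α => y.1 :: y.2) := n03_of 1 hg0 (fun _ => by omega)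
  have hg2 : n03_LT (fun y : α × List α => (y.2, y.1)) := n03_pair n03_snd n03_fst
  have hg : n03_LT (fun y : α × List α => (y.1 :: y.2, (y.2, y.1))) := n03_pair hg1 hg2
  have h2 : CT (fun x : (α × List α) × List (List α × α) =>
      ((x.1.1 :: x.1.2, (x.1.2, x.1.1)), x.2)) (fun x => size x.1) := CT.first hg
  have h3 : CT (fun x : (List α × (List α × α)) × List (List α × α) => (x.1.1, (x.1.2, x.2))) _ :=
    CT.assocR
  have h4 : CT (fun x : α × (List α × List (List α × α)) =>
      (x.1 :: x.2.1, ((x.2.1, x.1), x.2.2))) (fun x => size x.1 + size x.2.1) := by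
    refine ((h3.comp (h2.comp h1)).mono 4 (fun x => ?_)).congr (fun _ => rfl)
    show size x.1 + size (x.1, x.2.1) + size (x.1 :: x.2.1) ≤ 4 * (size x.1 + size x.2.1 + 1)
    rw [size_prod, size_cons]
    show size x.1 + (size x.1 + size x.2.1 + 1) + (size x.1 + size x.2.1 + 1) ≤ _
    omega
  exact h4.congr_enc (fun _ => rfl)

theorem Q4b_cost (κ : ℕ) (hκ : ∀ a : α, size a ≤ κ) (w : List α) :
    ∀ (s : List α) (out : List (List α × α)),
    foldCost (fun x : α × (List α × List (List α × α)) => size x.1 + size x.2.1) Q4b_step w (s, out)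
      ≤ w.length * (κ + size s + (κ + 1) * w.length) := by
  induction w with
  | nil => intro s out; simp [foldCost]
  | cons a w ih =>
    intro s out
    have h1 : Q4b_step (a, (s, out)) = (a :: s, (s, a) :: out) := rfl
    have h2 := ih (a :: s) ((s, a) :: out)
    have h3 := hκ a
    rw [size_cons] at h2
    simp only [foldCost]
    rw [h1, List.length_cons]
    have h4 : w.length * (κ + (size a + size s + 1) + (κ + 1) * w.length) ≤
        w.length * (κ + size s + (κ + 1) * (w.length + 1)) := by
      apply Nat.mul_le_mul_left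
      rw [Nat.mul_add (κ + 1)]
      omega
    have h5 : κ + size s ≤ κ + size s + (κ + 1) * (w.length + 1) := Nat.le_add_right _ _
    calc size a + size s + foldCost _ Q4b_step w (a :: s, (s, a) :: out)
        ≤ (κ + size s) + w.length * (κ + size s + (κ + 1) * (w.length + 1)) := by
          have := h2.trans h4
          omega
      _ ≤ (κ + size s + (κ + 1) * (w.length + 1)) +
          w.length * (κ + size s + (κ + 1) * (w.length + 1)) := by omega
      _ = (w.length + 1) * (κ + size s + (κ + 1) * (w.length + 1)) := by ring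

theorem Q4b_size_pre (κ : ℕ) (hκ : ∀ a : α, size a ≤ κ) (w : List α) : ∀ (s : List α),
    size (pre s w) ≤ 1 + w.length * (κ + 2 + size s + (κ + 1) * w.length) := by
  induction w with
  | nil => intro s; simp [pre]
  | cons a w ih =>
    intro s
    have h1 : pre s (a :: w) = (s, a) :: pre (a :: s) w := rfl
    rw [h1, size_cons, size_prod, List.length_cons]
    have h2 := ih (a :: s)
    rw [size_cons] at h2
    have h3 := hκ a
    have h4 : w.length * (κ + 2 + (size a + size s + 1) + (κ + 1) * w.length) ≤
        w.length * (κ + 2 + size s + (κ + 1) * (w.length + 1)) := by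
      apply Nat.mul_le_mul_left
      rw [Nat.mul_add (κ + 1)]
      omega
    calc size s + size a + 1 + size (pre (a :: s) w) + 1
        ≤ 1 + ((κ + 2 + size s) + w.length * (κ + 2 + size s + (κ + 1) * (w.length + 1))) := by
          have := h2.trans (Nat.add_le_add_left h4 1)
          omega
      _ ≤ 1 + ((κ + 2 + size s + (κ + 1) * (w.length + 1)) +
          w.length * (κ + 2 + size s + (κ + 1) * (w.length + 1))) := by omega
      _ = 1 + (w.length + 1) * (κ + 2 + size s + (κ + 1) * (w.length + 1)) := by ring

omit [Enc α] in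
theorem Q4b_pre_len (w : List α) : ∀ s : List α, (pre s w).length = w.length := by
  induction w with
  | nil => intro s; rfl
  | cons a w ih => intro s; simp [pre, ih]

theorem Q4b_pre [Finite α] : CT (fun w : List α => pre [] w) (fun w => (w.length + 1) ^ 2) := by
  obtain ⟨κ, hκ⟩ := size_fin α
  have h1 : CT (fun w : List α => (w, (([] : List α), ([] : List (List α × α)))))
      (fun w => size w) := p05_input _
  have h2 := CT.foldl (Q4b_ct_step (α := α))
  have h3 : CT (fun x : List α × List (List α × α) => x.2) (fun x => size x.1) := CT.snd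
  have h4 := CT.reverse (α := List α × α)
  refine ((h4.comp (h3.comp (h2.comp h1))).mono (10 * (κ + 1)) (fun w => ?_)).congr (fun w => ?_)
  · show size w + (size w + foldCost (fun x : α × (List α × List (List α × α)) =>
        size x.1 + size x.2.1) Q4b_step w ([], [])) +
      size (w.foldl (fun s a => Q4b_step (a, s)) ([], [])).1 +
      size (w.foldl (fun s a => Q4b_step (a, s)) ([], [])).2 ≤ 10 * (κ + 1) * ((w.length + 1) ^ 2 + 1)
    rw [Q4b_fold]
    show size w + (size w + foldCost (fun x : α × (List α × List (List α × α)) =>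
        size x.1 + size x.2.1) Q4b_step w ([], [])) + size (w.reverse ++ []) +
        size ((pre [] w).reverse ++ []) ≤ 10 * (κ + 1) * ((w.length + 1) ^ 2 + 1)
    rw [List.append_nil, List.append_nil, size_reverse, size_reverse]
    have c1 := Q4b_cost κ hκ w [] []
    have c2 := Q4b_size_pre κ hκ w []
    have c3 := size_list_le_of κ w (fun a _ => hκ a)
    rw [size_nil] at c1 c2
    set n := w.length
    have e1 : n * (κ + 1 + (κ + 1) * n) = (κ + 1) * (n * (n + 1)) := by ring
    have e2 : n * (κ + 2 + 1 + (κ + 1) * n) = (κ + 1) * (n * (n + 1)) + 2 * n := by ring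
    rw [e1] at c1
    rw [e2] at c2
    have e3 : 10 * (κ + 1) * ((n + 1) ^ 2 + 1) = 2 * ((κ + 1) * (n * (n + 1))) +
      3 * ((κ + 1) * (n + 1)) + (κ + 1) * (8 * (n * (n + 1)) + 7 * n + 17) := by ring
    rw [e3]
    have e4 : 1 * (8 * (n * (n + 1)) + 7 * n + 17) ≤ (κ + 1) * (8 * (n * (n + 1)) + 7 * n + 17) :=
      Nat.mul_le_mul_right _ (by omega)
    omega
  · show (w.foldl (fun s a => Q4b_step (a, s)) ([], [])).2.reverse = pre [] w
    rw [Q4b_fold]
    simp

end general

theorem Q4b_pad {r : ℕ} : n03_LT (fun x : (List (Letter r) × Letter r) × ℕ =>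
    (padTo x.2 (none : Option (Letter r)) (x.1.1.map some), x.1.2)) := by
  have a1 : n03_LT (fun x : (List (Letter r) × Letter r) × ℕ => x.1.1) :=
    n03_comp (g := fun x : List (Letter r) × Letter r => x.1) n03_fst n03_fst
  have a2 : n03_LT (fun x : (List (Letter r) × Letter r) × ℕ => x.1.2) :=
    n03_comp (g := fun x : List (Letter r) × Letter r => x.2) n03_snd n03_fst
  have a3 : n03_LT (fun x : (List (Letter r) × Letter r) × ℕ =>
      x.1.1.map (some : Letter r → Option (Letter r))) :=
    n03_comp (n03_map (some : Letter r → Option (Letter r))) a1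
  have a4 : n03_LT (fun n : ℕ => List.replicate n (none : Option (Letter r))) := by
    have b1 : CT (fun n : ℕ => (n, (none : Option (Letter r)))) (fun n => size n) := p05_input _
    refine n03_of (10 * (size (none : Option (Letter r)) + 1)) (ct_replicate.comp b1) (fun n => ?_)
    show size n + (n + 1) * size (none : Option (Letter r)) ≤ _
    rw [size_nat]
    nlinarith [Nat.zero_le (n * size (none : Option (Letter r)))]
  have a5 : n03_LT (fun x : (List (Letter r) × Letter r) × ℕ =>
      List.replicate x.2 (none : Option (Letter r))) := n03_comp a4 n03_snd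
  have a6 : n03_LT (fun x : (List (Letter r) × Letter r) × ℕ =>
      x.1.1.map some ++ List.replicate x.2 (none : Option (Letter r))) :=
    n03_comp2 n03_append a3 a5
  have a7 : n03_LT (fun x : ℕ × List (Option (Letter r)) => x.2.take x.1) := by
    refine n03_of 1 ct_take (fun x => ?_)
    rw [size_prod, size_nat]
    omega
  have a8 : n03_LT (fun x : (List (Letter r) × Letter r) × ℕ =>
      (x.1.1.map some ++ List.replicate x.2 (none : Option (Letter r))).take x.2) :=
    n03_comp2 a7 n03_snd a6
  exact n03_pair a8 a2

theorem ct_paths {r : ℕ} : CT (fun w : List (Letter r) => paths w)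
    (fun w => (w.length + 1) ^ 2) := by
  obtain ⟨κ, hκ⟩ := size_fin (Letter r)
  have h1 : CT (fun w : List (Letter r) => (pre [] w, w.length)) _ :=
    CT.pair (Q4b_pre (α := Letter r)) ct_length
  have h2 := ct_mapEnv (Q4b_pad (r := r))
  refine ((h2.comp h1).mono (20 * (κ + 1)) (fun w => ?_)).congr (fun w => rfl)
  have c2 := Q4b_size_pre κ hκ w []
  have c3 := size_list_le_of κ w (fun a _ => hκ a)
  have c4 := p05_sum_size_le (pre [] w)
  have c5 := Q4b_pre_len w []
  have c6 : ((pre [] w).map (fun a => size ((a, w.length) : (List (Letter r) × Letter r) × ℕ))).sum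
      = ((pre [] w).map (fun a => size a)).sum + (pre [] w).length * (2 * w.length + 2) := by
    generalize pre [] w = l
    induction l with
    | nil => simp
    | cons a l ih =>
      rw [List.map_cons, List.sum_cons, ih, size_prod, size_nat, List.map_cons, List.sum_cons,
        List.length_cons]
      ring
  show size w + (w.length + 1) ^ 2 + size w + (size (pre [] w) + ((pre [] w).length + 1) *
    size w.length + ((pre [] w).map (fun a => size ((a, w.length) :
      (List (Letter r) × Letter r) × ℕ))).sum) ≤ 20 * (κ + 1) * ((w.length + 1) ^ 2 + 1)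
  rw [c6, c5, size_nat]
  rw [size_nil] at c2
  set n := w.length
  have e2 : n * (κ + 2 + 1 + (κ + 1) * n) = (κ + 1) * (n * (n + 1)) + 2 * n := by ring
  rw [e2] at c2
  have e3 : 20 * (κ + 1) * ((n + 1) ^ 2 + 1) = 2 * ((κ + 1) * (n * (n + 1))) +
      2 * ((κ + 1) * (n + 1)) + (κ + 1) * (18 * (n * (n + 1)) + 18 * n + 38) := by ring
  rw [e3]
  have e4 : 1 * (18 * (n * (n + 1)) + 18 * n + 38) ≤ (κ + 1) * (18 * (n * (n + 1)) + 18 * n + 38) :=
    Nat.mul_le_mul_right _ (by omega)
  have e5 : (n + 1) ^ 2 = n * (n + 1) + n + 1 := by ring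
  have e6 : (n + 1) * (2 * n + 1) = 2 * (n * (n + 1)) + n + 1 := by ring
  have e7 : n * (2 * n + 2) = 2 * (n * (n + 1)) := by ring
  rw [e5, e6, e7]
  omega

end Pool.Agent.WPU
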