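import Pool.Agent.Lib.MP_2da099_lc.UE.Defs
import Pool.Agent.Lib.MP_2da099_lc.UE.Q2
import Pool.Agent.Lib.MP_2da099_lc.UE.Q3a
import Pool.Agent.Lib.MP_2da099_lc.R2.P08
import Pool.Agent.Lib.MP_2da099_lc.C06

/-!
# Q3b: the run of a tame bilinear machine
-/

set_option autoImplicit false

namespace Pool.Agent.WPU

open Pool.Agent.Lib.PolyTime Pool.Agent.WPM Pool.Agent.WPR

private theorem q3b_lg_pos (n : ℕ) : 1 ≤ lg n := by
  unfold lg
  omega

/-- the state of the machine as a pair of lists -/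
private noncomputable def q3b_st {ι : Type} (M : BM ι) (x : (Fin M.N1 → ℤ) × (Fin M.N2 → ℤ)) :
    List (ZB 2) × List (ZB 2) := (zl x.1, zl x.2)

private theorem q3b_foldl {ι : Type} (M : BM ι)
    (f : ι → List (ZB 2) × List (ZB 2) → List (ZB 2) × List (ZB 2))
    (hf : ∀ i p m, f i (zl p, zl m) = (zl (M.step (p, m) i).1, zl (M.step (p, m) i).2)) :
    ∀ (u : List ι) (x : (Fin M.N1 → ℤ) × (Fin M.N2 → ℤ)),
      u.foldl (fun s a => f a s) (q3b_st M x) = q3b_st M (u.foldl M.step x) := by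
  intro u
  induction u with
  | nil => intro x; rfl
  | cons i u ih =>
    intro x
    have h : f i (q3b_st M x) = q3b_st M (M.step x i) := hf i x.1 x.2
    rw [List.foldl_cons, List.foldl_cons]
    show u.foldl (fun s a => f a s) (f i (q3b_st M x)) = _
    rw [h, ih]

private theorem q3b_cost {ι : Type} (M : BM ι)
    (f : ι → List (ZB 2) × List (ZB 2) → List (ZB 2) × List (ZB 2))
    (hf : ∀ i p m, f i (zl p, zl m) = (zl (M.step (p, m) i).1, zl (M.step (p, m) i).2))
    (T : List (ZB 2) × List (ZB 2) → ℕ) (K : ℕ) :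
    ∀ (u2 u1 : List ι), (∀ u' : List ι, u'.length ≤ (u1 ++ u2).length → T (q3b_st M (M.run u')) ≤ K) →
      foldCost (fun x : ι × (List (ZB 2) × List (ZB 2)) => T x.2) (fun x => f x.1 x.2) u2
        (q3b_st M (M.run u1)) ≤ u2.length * K := by
  intro u2
  induction u2 with
  | nil => intro u1 _; simp [foldCost]
  | cons i u2 ih =>
    intro u1 h
    have h1 : T (q3b_st M (M.run u1)) ≤ K := h u1 (by simp)
    have h2 : f i (q3b_st M (M.run u1)) = q3b_st M (M.run (u1 ++ [i])) := by
      rw [run_append]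
      exact hf i _ _
    have h3 := ih (u1 ++ [i]) (fun u' hu' => h u' (by simpa using hu'))
    show T (q3b_st M (M.run u1)) + foldCost (fun x : ι × (List (ZB 2) × List (ZB 2)) => T x.2)
      (fun x => f x.1 x.2) u2 (f i (q3b_st M (M.run u1))) ≤ (u2.length + 1) * K
    rw [h2]
    have e : (u2.length + 1) * K = u2.length * K + K := by ring
    omega

theorem ct_run {ι : Type} [Enc ι] [Finite ι] (M : BM ι) (hM : M.Tame) :
    CT (fun u : List ι => (zl (M.run u).1, zl (M.run u).2))
      (fun u => (u.length + 1) ^ 2 * lg u.length ^ 2) := by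
  choose f hf1 hf2 using fun i => ct_bstep M i
  obtain ⟨C, hC⟩ := size_run M hM
  obtain ⟨κ, hκ⟩ := size_list_fin ι
  let T : List (ZB 2) × List (ZB 2) → ℕ := fun x => (size x.1 + 1) * (size x.1 + size x.2 + 1)
  have a1 : CT (fun x : ι × (List (ZB 2) × List (ZB 2)) => f x.1 x.2) (fun x => T x.2) :=
    ct_fincase (T := fun _ => T) hf1
  have a2 := CT.foldl a1
  have a3 : CT (fun u : List ι => (q3b_st M (M.p0, M.m0), u)) (fun _ => 0) := CT.pushConst _
  have a4 : CT (fun x : (List (ZB 2) × List (ZB 2)) × List ι => (x.2, x.1)) _ := CT.swap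
  refine (((a2.comp a4).comp a3).mono (size (q3b_st M (M.p0, M.m0)) + 2 * κ +
    (C + 1) * (2 * C + 1)) (fun u => ?_)).congr (fun u => ?_)
  · show 0 + (size (q3b_st M (M.p0, M.m0)) + size u + (size u +
      foldCost (fun x : ι × (List (ZB 2) × List (ZB 2)) => T x.2) (fun x => f x.1 x.2) u
        (q3b_st M (M.run [])))) ≤ _
    set n := u.length with hn
    have hl : 1 ≤ lg n := q3b_lg_pos n
    have h1 : foldCost (fun x : ι × (List (ZB 2) × List (ZB 2)) => T x.2) (fun x => f x.1 x.2) u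
        (q3b_st M (M.run [])) ≤ u.length * (((C + 1) * lg n) * ((2 * C + 1) * ((n + 1) * lg n))) := by
      refine q3b_cost M f hf2 T _ u [] (fun u' hu' => ?_)
      have hu : u'.length ≤ n := by simpa using hu'
      obtain ⟨b1, b2⟩ := hC u'
      have hl' : lg u'.length ≤ lg n := lg_mono hu
      have c1 : size (zl (M.run u').1) ≤ C * lg n := b1.trans (Nat.mul_le_mul_left _ hl')
      have c2 : size (zl (M.run u').2) ≤ C * ((n + 1) * lg n) :=
        b2.trans (Nat.mul_le_mul_left _ (Nat.mul_le_mul (by omega) hl'))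
      have c3 : lg n ≤ (n + 1) * lg n := Nat.le_mul_of_pos_left _ (Nat.succ_pos n)
      have c4 : C * lg n ≤ C * ((n + 1) * lg n) := Nat.mul_le_mul_left _ c3
      show (size (zl (M.run u').1) + 1) * (size (zl (M.run u').1) + size (zl (M.run u').2) + 1) ≤ _
      refine Nat.mul_le_mul ?_ ?_
      · have e : (C + 1) * lg n = C * lg n + lg n := by ring
        omega
      · have e : (2 * C + 1) * ((n + 1) * lg n) = C * ((n + 1) * lg n) + C * ((n + 1) * lg n) +
          (n + 1) * lg n := by ring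
        omega
    have h2 : size u ≤ κ * (n + 1) := hκ u
    have h3 : n + 1 ≤ (n + 1) ^ 2 * lg n ^ 2 := by
      have : 1 ≤ lg n ^ 2 := Nat.one_le_pow _ _ hl
      nlinarith
    have h4 : n * (((C + 1) * lg n) * ((2 * C + 1) * ((n + 1) * lg n))) ≤
        (C + 1) * (2 * C + 1) * ((n + 1) ^ 2 * lg n ^ 2) := by
      calc n * (((C + 1) * lg n) * ((2 * C + 1) * ((n + 1) * lg n)))
          ≤ (n + 1) * (((C + 1) * lg n) * ((2 * C + 1) * ((n + 1) * lg n))) :=
            Nat.mul_le_mul_right _ (Nat.le_succ n)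
        _ = _ := by ring
    have h5 : κ * (n + 1) ≤ κ * ((n + 1) ^ 2 * lg n ^ 2) := Nat.mul_le_mul_left _ h3
    set W := (n + 1) ^ 2 * lg n ^ 2 with hW
    set s0 := size (q3b_st M (M.p0, M.m0)) with hs0
    have e : (s0 + 2 * κ + (C + 1) * (2 * C + 1)) * (W + 1) = s0 * W + s0 + 2 * (κ * W) + 2 * κ +
        (C + 1) * (2 * C + 1) * W + (C + 1) * (2 * C + 1) := by ring
    rw [e]
    have h6 := h1.trans h4
    omega
  · show u.foldl (fun s a => f a s) (q3b_st M (M.p0, M.m0)) = _
    rw [q3b_foldl M f hf2]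
    rfl

end Pool.Agent.WPU
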