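import Pool.Agent.Lib.MP_2da099_lc.UE.Defs
import Pool.Agent.Lib.MP_2da099_lc.UE.Q3b

/-!
# Q5: the output of a pair

HINTS.  `CT.zip` of the two lists, `ct_run` on the zipped list (its length is at most the sum of the lengths), and `ct_bout` for
the coefficients `c l l'` by `ct_fincase` over the finite type `Letter r × Letter r`.  Sizes by `size_run`, `size_list_fin`.
`out_bound`: `run_bound`, finitely many letters (`Finset.sup` or sums of all `|c l l' a j|`).
-/

set_option autoImplicit false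

namespace Pool.Agent.WPU

open Pool.Agent.Lib.PolyTime Pool.Agent.WPM Pool.Agent.WPR

theorem q5_lg_pos (n : ℕ) : 1 ≤ lg n := by
  unfold lg
  omega

theorem out_bound {r : ℕ} (M : BM (Option (Letter r) × Option (Letter r))) (hM : M.Tame)
    (c : Letter r → Letter r → Fin M.N1 → Fin M.N2 → ℤ) : ∃ C : ℕ, ∀ l l' u,
    (M.out (c l l') (M.run u)).natAbs ≤ 2 ^ (C * ((u.length + 1) * lg u.length)) := by
  obtain ⟨C, hC⟩ := run_bound M hM
  let S : ℕ := ∑ l, ∑ l', ∑ a, ∑ j, (c l l' a j).natAbs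
  refine ⟨S + C + C, fun l l' u => ?_⟩
  obtain ⟨h1, h2⟩ := hC u
  have hS : ∑ a, ∑ j, (c l l' a j).natAbs ≤ S := by
    have e1 : ∑ a, ∑ j, (c l l' a j).natAbs ≤ ∑ l', ∑ a, ∑ j, (c l l' a j).natAbs :=
      Finset.single_le_sum (f := fun l' => ∑ a, ∑ j, (c l l' a j).natAbs)
        (fun _ _ => Nat.zero_le _) (Finset.mem_univ l')
    have e2 : ∑ l', ∑ a, ∑ j, (c l l' a j).natAbs ≤ S :=
      Finset.single_le_sum (f := fun l => ∑ l', ∑ a, ∑ j, (c l l' a j).natAbs)
        (fun _ _ => Nat.zero_le _) (Finset.mem_univ l)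
    exact e1.trans e2
  set P : ℕ := 2 ^ (C * lg u.length) * 2 ^ (C * ((u.length + 1) * lg u.length)) with hP
  have h3 : (M.out (c l l') (M.run u)).natAbs ≤ (∑ a, ∑ j, (c l l' a j).natAbs) * P := by
    unfold BM.out
    refine (Int.natAbs_sum_le _ _).trans ?_
    rw [Finset.sum_mul]
    refine Finset.sum_le_sum fun a _ => ?_
    refine (Int.natAbs_sum_le _ _).trans ?_
    rw [Finset.sum_mul]
    refine Finset.sum_le_sum fun j _ => ?_
    rw [Int.natAbs_mul, Int.natAbs_mul]
    exact Nat.mul_le_mul_left _ (Nat.mul_le_mul (h1 a) (h2 j))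
  have hlg := q5_lg_pos u.length
  have hn : 1 ≤ (u.length + 1) * lg u.length := Nat.succ_le_of_lt (by positivity)
  have hn2 : lg u.length ≤ (u.length + 1) * lg u.length := Nat.le_mul_of_pos_left _ (by omega)
  calc (M.out (c l l') (M.run u)).natAbs ≤ S * P := h3.trans (Nat.mul_le_mul_right _ hS)
    _ ≤ 2 ^ S * P := Nat.mul_le_mul_right _ Nat.lt_two_pow_self.le
    _ = 2 ^ (S + (C * lg u.length + C * ((u.length + 1) * lg u.length))) := by
        rw [hP, ← pow_add, ← pow_add]
    _ ≤ 2 ^ ((S + C + C) * ((u.length + 1) * lg u.length)) := by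
        refine Nat.pow_le_pow_right (by norm_num) ?_
        have e1 : S ≤ S * ((u.length + 1) * lg u.length) := Nat.le_mul_of_pos_right _ hn
        have e2 : C * lg u.length ≤ C * ((u.length + 1) * lg u.length) := Nat.mul_le_mul_left _ hn2
        have e3 : (S + C + C) * ((u.length + 1) * lg u.length) =
            S * ((u.length + 1) * lg u.length) + C * ((u.length + 1) * lg u.length) +
              C * ((u.length + 1) * lg u.length) := by ring
        omega

theorem q5_arr {A L : Type} [Enc A] [Enc L] :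
    CT (fun x : (A × L) × (A × L) => ((x.1.2, x.2.2), (x.1.1, x.2.1))) (fun x => size x) := by
  have b1 : CT (fun x : (A × L) × (A × L) => x.1) (fun x => size x) :=
    (CT.fst (α := A × L) (β := A × L)).mono 1 (fun x => by
      rw [size_prod x]; omega)
  have b2 : CT (fun x : (A × L) × (A × L) => x.2) (fun x => size x) :=
    (CT.snd (α := A × L) (β := A × L)).mono 1 (fun x => by
      rw [size_prod x]; omega)
  have a1 : CT (fun x : (A × L) × (A × L) => x.1.2) (fun x => size x) :=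
    ((CT.snd (α := A) (β := L)).comp b1).mono 2 (fun x => by
      show size x + size x.1.1 ≤ 2 * (size x + 1)
      rw [size_prod x, size_prod x.1]; omega)
  have a2 : CT (fun x : (A × L) × (A × L) => x.2.2) (fun x => size x) :=
    ((CT.snd (α := A) (β := L)).comp b2).mono 2 (fun x => by
      show size x + size x.2.1 ≤ 2 * (size x + 1)
      rw [size_prod x, size_prod x.2]; omega)
  have a3 : CT (fun x : (A × L) × (A × L) => x.1.1) (fun x => size x) :=
    ((CT.fst (α := A) (β := L)).comp b1).mono 2 (fun x => by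
      show size x + (size x.1.1 + size x.1.2) ≤ 2 * (size x + 1)
      rw [size_prod x, size_prod x.1]; omega)
  have a4 : CT (fun x : (A × L) × (A × L) => x.2.1) (fun x => size x) :=
    ((CT.fst (α := A) (β := L)).comp b2).mono 2 (fun x => by
      show size x + (size x.2.1 + size x.2.2) ≤ 2 * (size x + 1)
      rw [size_prod x, size_prod x.2]; omega)
  exact (CT.pair (CT.pair a1 a2) (CT.pair a3 a4)).mono 7 (fun x => by
    show size x + (size x + size x + size x) + (size x + size x + size x) ≤ 7 * (size x + 1)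
    omega)

theorem q5_num {C n N p m : ℕ} (hn : n ≤ N) (hp : p ≤ C * lg n)
    (hm : m ≤ C * ((n + 1) * lg n)) :
    (p + 1) * (p + m + 1) ≤ ((C + 1) * (2 * C + 1)) * ((N + 1) ^ 2 * lg N ^ 2) := by
  have h0 := q5_lg_pos N
  have h1 : lg n ≤ lg N := lg_mono hn
  have h2 : p + 1 ≤ (C + 1) * ((N + 1) * lg N) := by
    have e1 : C * lg n ≤ C * ((N + 1) * lg N) :=
      Nat.mul_le_mul_left _ (h1.trans (Nat.le_mul_of_pos_left _ (by omega)))
    have e2 : 1 ≤ (N + 1) * lg N := Nat.succ_le_of_lt (by positivity)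
    rw [Nat.add_mul, Nat.one_mul]
    omega
  have h3 : p + m + 1 ≤ (2 * C + 1) * ((N + 1) * lg N) := by
    have e1 : C * lg n ≤ C * ((N + 1) * lg N) :=
      Nat.mul_le_mul_left _ (h1.trans (Nat.le_mul_of_pos_left _ (by omega)))
    have e2 : 1 ≤ (N + 1) * lg N := Nat.succ_le_of_lt (by positivity)
    have e3 : C * ((n + 1) * lg n) ≤ C * ((N + 1) * lg N) :=
      Nat.mul_le_mul_left _ (Nat.mul_le_mul (by omega) h1)
    have e4 : (2 * C + 1) * ((N + 1) * lg N) = C * ((N + 1) * lg N) + C * ((N + 1) * lg N) +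
        (N + 1) * lg N := by ring
    omega
  calc (p + 1) * (p + m + 1) ≤ ((C + 1) * ((N + 1) * lg N)) * ((2 * C + 1) * ((N + 1) * lg N)) :=
        Nat.mul_le_mul h2 h3
    _ = ((C + 1) * (2 * C + 1)) * ((N + 1) ^ 2 * lg N ^ 2) := by ring

theorem ct_pairout {r : ℕ} (M : BM (Option (Letter r) × Option (Letter r))) (hM : M.Tame)
    (c : Letter r → Letter r → Fin M.N1 → Fin M.N2 → ℤ) :
    CT (fun x : (List (Option (Letter r)) × Letter r) × (List (Option (Letter r)) × Letter r) =>
      (ZB.mk (M.out (c x.1.2 x.2.2) (M.run (x.1.1.zip x.2.1))) : ZB 2))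
      (fun x => (x.1.1.length + x.2.1.length + 1) ^ 2 *
        lg (x.1.1.length + x.2.1.length) ^ 2) := by
  obtain ⟨C, hC⟩ := size_run M hM
  obtain ⟨κ, hκ⟩ := size_list_fin (Option (Letter r))
  obtain ⟨κ', hκ'⟩ := size_fin (Letter r)
  have hrun := ct_run M hM
  -- the output for fixed letters
  have hf : ∀ i : Letter r × Letter r,
      CT (fun y : List (Option (Letter r)) × List (Option (Letter r)) =>
        (ZB.mk (M.out (c i.1 i.2) (M.run (y.1.zip y.2))) : ZB 2))
      (fun y => (y.1.length + y.2.length + 1) ^ 2 * lg (y.1.length + y.2.length) ^ 2) := by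
    intro i
    obtain ⟨f, hf1, hf2⟩ := ct_bout (c i.1 i.2)
    have hz := CT.zip (α := Option (Letter r)) (β := Option (Letter r))
    refine ((hf1.comp (hrun.comp hz)).mono (2 * κ + 1 + (C + 1) * (2 * C + 1)) (fun y => ?_)).congr
      (fun y => ?_)
    · show size y.1 + size y.2 + (((y.1.zip y.2).length + 1) ^ 2 * lg (y.1.zip y.2).length ^ 2) +
        (size (zl (M.run (y.1.zip y.2)).1) + 1) *
          (size (zl (M.run (y.1.zip y.2)).1) + size (zl (M.run (y.1.zip y.2)).2) + 1) ≤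
        (2 * κ + 1 + (C + 1) * (2 * C + 1)) *
          ((y.1.length + y.2.length + 1) ^ 2 * lg (y.1.length + y.2.length) ^ 2 + 1)
      obtain ⟨h1, h2⟩ := hC (y.1.zip y.2)
      set N := y.1.length + y.2.length with hN
      have hn : (y.1.zip y.2).length ≤ N := by
        rw [List.length_zip]
        exact (Nat.min_le_left _ _).trans (by omega)
      have h3 := q5_num hn h1 h2
      have h0 := q5_lg_pos N
      have h4 : ((y.1.zip y.2).length + 1) ^ 2 * lg (y.1.zip y.2).length ^ 2 ≤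
          (N + 1) ^ 2 * lg N ^ 2 :=
        Nat.mul_le_mul (Nat.pow_le_pow_left (by omega) 2) (Nat.pow_le_pow_left (lg_mono hn) 2)
      have h5 : N + 1 ≤ (N + 1) ^ 2 * lg N ^ 2 := by
        have e1 : N + 1 ≤ (N + 1) ^ 2 := Nat.le_self_pow (by norm_num) _
        exact e1.trans (Nat.le_mul_of_pos_right _ (by positivity))
      have h6 : size y.1 ≤ κ * ((N + 1) ^ 2 * lg N ^ 2) :=
        (hκ y.1).trans (Nat.mul_le_mul_left _ (by omega))
      have h7 : size y.2 ≤ κ * ((N + 1) ^ 2 * lg N ^ 2) :=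
        (hκ y.2).trans (Nat.mul_le_mul_left _ (by omega))
      have e : (2 * κ + 1 + (C + 1) * (2 * C + 1)) * ((N + 1) ^ 2 * lg N ^ 2 + 1) =
          κ * ((N + 1) ^ 2 * lg N ^ 2) + κ * ((N + 1) ^ 2 * lg N ^ 2) + (N + 1) ^ 2 * lg N ^ 2 +
          ((C + 1) * (2 * C + 1)) * ((N + 1) ^ 2 * lg N ^ 2) +
          (2 * κ + 1 + (C + 1) * (2 * C + 1)) := by ring
      rw [e]
      omega
    · exact hf2 _ _
  have h := ct_fincase hf
  refine ((h.comp (q5_arr (A := List (Option (Letter r))) (L := Letter r))).mono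
    (2 * κ + 2 * κ' + 5) (fun x => ?_)).congr (fun x => rfl)
  show size x + ((x.1.1.length + x.2.1.length + 1) ^ 2 * lg (x.1.1.length + x.2.1.length) ^ 2) ≤
    (2 * κ + 2 * κ' + 5) * ((x.1.1.length + x.2.1.length + 1) ^ 2 *
      lg (x.1.1.length + x.2.1.length) ^ 2 + 1)
  set N := x.1.1.length + x.2.1.length with hN
  have h0 := q5_lg_pos N
  have h5 : N + 1 ≤ (N + 1) ^ 2 * lg N ^ 2 := by
    have e1 : N + 1 ≤ (N + 1) ^ 2 := Nat.le_self_pow (by norm_num) _
    exact e1.trans (Nat.le_mul_of_pos_right _ (by positivity))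
  have h6 : size x.1.1 ≤ κ * ((N + 1) ^ 2 * lg N ^ 2) :=
    (hκ x.1.1).trans (Nat.mul_le_mul_left _ (by omega))
  have h7 : size x.2.1 ≤ κ * ((N + 1) ^ 2 * lg N ^ 2) :=
    (hκ x.2.1).trans (Nat.mul_le_mul_left _ (by omega))
  have h8 := hκ' x.1.2
  have h9 := hκ' x.2.2
  rw [size_prod x, size_prod x.1, size_prod x.2]
  have e : (2 * κ + 2 * κ' + 5) * ((N + 1) ^ 2 * lg N ^ 2 + 1) =
      κ * ((N + 1) ^ 2 * lg N ^ 2) + κ * ((N + 1) ^ 2 * lg N ^ 2) + (N + 1) ^ 2 * lg N ^ 2 +
      (2 * κ' + 4) * ((N + 1) ^ 2 * lg N ^ 2) + (2 * κ + 2 * κ' + 5) := by ring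
  rw [e]
  omega

end Pool.Agent.WPU
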