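import Pool.Agent.Lib.MP_2da099_lc.UE.Defs
import Pool.Agent.Lib.MP_2da099_lc.UE.Q5
import Pool.Agent.Lib.MP_2da099_lc.UE.Q4a
import Pool.Agent.Lib.MP_2da099_lc.C10
import Pool.Agent.Lib.MP_2da099_lc.C09
import Pool.Agent.Lib.MP_2da099_lc.R2.N01
import Pool.Agent.Lib.MP_2da099_lc.R2.N03

/-!
# Q6a: the inner sum

HINTS.  `CT.foldlEnv` over `y ∈ ps = x.2`, environment `x.1`, state `s : ZB 2`, step `((y, x), s) ↦ s + out (x, y)` (`ct_pairout`,
`ct_zblin 1`); a sum as a fold: `(l.map f).sum = l.foldl (fun s a => s + f a) 0`.  Put `m = x.1.1.length + pmx x.2`.  Cost of a step: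
at most `C * ((m + 1) ^ 2 * lg m ^ 2)` plus the sizes of `s` and of the output, where all partial sums satisfy
`|s| ≤ x.2.length * 2 ^ (C (m + 1) lg m)` (`out_bound`; the zipped list is not longer than `x.1.1`), so `size s ≤ C' (m + 1) lg m`
(`size_zb_le`).  Bound `foldCost` by induction over the list with the hypothesis that the start state is bounded by
(number of terms already added) * `2 ^ (...)`.  The environment has the size `O(x.1.1.length + 1)`, the list `x.2` the size
`O((x.2.length + 1) * (mxl + 1))`.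
-/

set_option autoImplicit false

namespace Pool.Agent.WPU

open Pool.Agent.Lib.PolyTime Pool.Agent.WPM Pool.Agent.WPR

private theorem q6a_lg_mono {a b : ℕ} (h : a ≤ b) : lg a ≤ lg b := by
  unfold lg
  exact Nat.add_le_add_right (Nat.log_mono_right (by omega)) 1

private theorem q6a_lg_pos (a : ℕ) : 1 ≤ lg a := by
  unfold lg
  omega

private theorem q6a_sum_bound {α : Type} (f : α → ℤ) (E : ℕ) : ∀ l : List α,
    (∀ y ∈ l, (f y).natAbs ≤ E) → ((l.map f).sum).natAbs ≤ l.length * E := by
  intro l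
  induction l with
  | nil => intro _; simp
  | cons a l ih =>
    intro h
    rw [List.map_cons, List.sum_cons, List.length_cons]
    have h1 := h a (by simp)
    have h2 := ih (fun y hy => h y (by simp [hy]))
    have h3 := Int.natAbs_add_le (f a) ((l.map f).sum)
    have e : (l.length + 1) * E = l.length * E + E := by ring
    omega

private theorem q6a_fold_sum {α : Type} (f : α → ℤ) : ∀ (l : List α) (s : ℤ),
    l.foldl (fun s a => s + f a) s = s + (l.map f).sum := by
  intro l
  induction l with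
  | nil => intro s; simp
  | cons a l ih =>
    intro s
    rw [List.foldl_cons, ih, List.map_cons, List.sum_cons]
    ring

private theorem q6a_foldCost {τ : Type} (T : τ × ZB 2 → ℕ) (step : τ × ZB 2 → ZB 2) (B E n : ℕ) :
    ∀ (l : List τ), (∀ y ∈ l, ∀ s : ZB 2, s.val.natAbs ≤ n * E → T (y, s) ≤ B) →
      (∀ y ∈ l, ∀ s : ZB 2, (step (y, s)).val.natAbs ≤ s.val.natAbs + E) →
      ∀ (s : ZB 2) (k : ℕ), s.val.natAbs ≤ k * E → k + l.length ≤ n →
        foldCost T step l s ≤ B * l.length := by
  intro l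
  induction l with
  | nil => intro _ _ s k _ _; simp [foldCost]
  | cons a l ih =>
    intro hT hs s k hk hn
    rw [List.length_cons] at hn
    have h1 := hT a (by simp) s (hk.trans (Nat.mul_le_mul_right _ (by omega)))
    have h2 := hs a (by simp) s
    have h3 := ih (fun y hy => hT y (by simp [hy])) (fun y hy => hs y (by simp [hy]))
      (step (a, s)) (k + 1) (by
        have e : (k + 1) * E = k * E + E := by ring
        omega) (by omega)
    have e : B * (a :: l).length = B * l.length + B := by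
      rw [List.length_cons]; ring
    simp only [foldCost]
    omega

private theorem q6a_mxl {α : Type} (l : List (List α)) : ∀ y ∈ l, y.length ≤ mxl l := by
  induction l with
  | nil => intro y hy; simp at hy
  | cons a l ih =>
    intro y hy
    have e : mxl (a :: l) = max a.length (mxl l) := by simp [mxl]
    rw [e]
    rcases List.mem_cons.1 hy with h | h
    · rw [h]; exact le_max_left _ _
    · exact (ih y h).trans (le_max_right _ _)

private theorem q6a_pmx {r : ℕ} (ps : List (List (Option (Letter r)) × Letter r)) :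
    ∀ y ∈ ps, y.1.length ≤ pmx ps := by
  intro y hy
  have h1 := q6a_mxl (ps.map Prod.fst) y.1 (List.mem_map_of_mem hy)
  unfold pmx
  omega

/-- the output of a pair -/
private def q6aOut {r : ℕ} (M : BM (Option (Letter r) × Option (Letter r)))
    (c : Letter r → Letter r → Fin M.N1 → Fin M.N2 → ℤ)
    (x y : List (Option (Letter r)) × Letter r) : ℤ :=
  M.out (c x.2 y.2) (M.run (x.1.zip y.1))

private theorem q6a_out_bound {r : ℕ} (M : BM (Option (Letter r) × Option (Letter r)))
    (hM : M.Tame) (c : Letter r → Letter r → Fin M.N1 → Fin M.N2 → ℤ) : ∃ C : ℕ,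
    ∀ (x y : List (Option (Letter r)) × Letter r),
      (q6aOut M c x y).natAbs ≤ 2 ^ (C * ((x.1.length + 1) * lg x.1.length)) := by
  obtain ⟨C, hC⟩ := out_bound M hM c
  refine ⟨C, fun x y => (hC x.2 y.2 (x.1.zip y.1)).trans ?_⟩
  refine Nat.pow_le_pow_right (by norm_num) (Nat.mul_le_mul_left _ ?_)
  have h1 : (x.1.zip y.1).length ≤ x.1.length := by
    rw [List.length_zip]; exact min_le_left _ _
  exact Nat.mul_le_mul (by omega) (q6a_lg_mono h1)

/-- the step of the fold -/
private def q6aStep {r : ℕ} (M : BM (Option (Letter r) × Option (Letter r)))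
    (c : Letter r → Letter r → Fin M.N1 → Fin M.N2 → ℤ)
    (z : ((List (Option (Letter r)) × Letter r) × (List (Option (Letter r)) × Letter r)) × ZB 2) :
    ZB 2 := z.2 + (1 : ℤ) • (ZB.mk (q6aOut M c z.1.2 z.1.1) : ZB 2)

/-- the cost of the step -/
private noncomputable def q6aT {r : ℕ} (M : BM (Option (Letter r) × Option (Letter r)))
    (c : Letter r → Letter r → Fin M.N1 → Fin M.N2 → ℤ)
    (z : ((List (Option (Letter r)) × Letter r) × (List (Option (Letter r)) × Letter r)) × ZB 2) :
    ℕ := size z.1.1 + size z.1.2 + (z.1.2.1.length + z.1.1.1.length + 1) ^ 2 *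
      lg (z.1.2.1.length + z.1.1.1.length) ^ 2 + size (ZB.mk (q6aOut M c z.1.2 z.1.1) : ZB 2) +
      size z.2

private theorem q6a_ct_step {r : ℕ} (M : BM (Option (Letter r) × Option (Letter r)))
    (hM : M.Tame) (c : Letter r → Letter r → Fin M.N1 → Fin M.N2 → ℤ) :
    CT (q6aStep M c) (q6aT M c) := by
  have h1 : CT (fun x : (List (Option (Letter r)) × Letter r) ×
      (List (Option (Letter r)) × Letter r) => (x.2, x.1)) (fun x => size x.1 + size x.2) := CT.swap
  have h2 := ct_pairout M hM c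
  have h3 := h2.comp h1
  have h4 : CT (fun z : ((List (Option (Letter r)) × Letter r) ×
      (List (Option (Letter r)) × Letter r)) × ZB 2 => _) _ := CT.first (γ := ZB 2) h3
  have h5 : CT (fun x : ZB 2 × ZB 2 => (x.2, x.1)) (fun x => size x.1 + size x.2) := CT.swap
  have h6 := ct_zblin 2 1
  refine ((h6.comp (h5.comp h4)).mono 2 (fun z => ?_)).congr (fun z => rfl)
  show size z.1.1 + size z.1.2 + (z.1.2.1.length + z.1.1.1.length + 1) ^ 2 *
      lg (z.1.2.1.length + z.1.1.1.length) ^ 2 +
      (size (ZB.mk (q6aOut M c z.1.2 z.1.1) : ZB 2) + size z.2) +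
      (size z.2 + size (ZB.mk (q6aOut M c z.1.2 z.1.1) : ZB 2)) ≤ 2 * (q6aT M c z + 1)
  unfold q6aT
  omega

theorem ct_inner {r : ℕ} (M : BM (Option (Letter r) × Option (Letter r))) (hM : M.Tame)
    (c : Letter r → Letter r → Fin M.N1 → Fin M.N2 → ℤ) :
    CT (fun x : (List (Option (Letter r)) × Letter r) ×
        List (List (Option (Letter r)) × Letter r) =>
      (ZB.mk ((x.2.map (fun y => M.out (c x.1.2 y.2) (M.run (x.1.1.zip y.1)))).sum) : ZB 2))
      (fun x => (x.2.length + 1) *
        ((x.1.1.length + pmx x.2 + 1) ^ 2 * lg (x.1.1.length + pmx x.2) ^ 2)) := by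
  have h1 : CT (fun x : (List (Option (Letter r)) × Letter r) ×
      List (List (Option (Letter r)) × Letter r) => (x.2, x.1)) (fun x => size x.1 + size x.2) :=
    CT.swap
  have h2 : CT (fun x : List (Option (Letter r)) × Letter r => ((0 : ZB 2), x)) (fun _ => 0) :=
    CT.pushConst _
  have h3 : CT (fun x : ZB 2 × (List (Option (Letter r)) × Letter r) => (x.2, x.1))
    (fun x => size x.1 + size x.2) := CT.swap
  have h4 : CT (fun x : List (List (Option (Letter r)) × Letter r) ×
      (List (Option (Letter r)) × Letter r) => (x.1, (x.2, (0 : ZB 2)))) _ :=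
    CT.second (h3.comp h2)
  have h5 := CT.foldlEnv (q6a_ct_step M hM c)
  have h6 := h5.comp (h4.comp h1)
  -- constants
  obtain ⟨κ0, hκ0⟩ := size_list_fin (Option (Letter r))
  obtain ⟨κ1, hκ1⟩ := size_fin (Letter r)
  obtain ⟨C0, hC0⟩ := q6a_out_bound M hM c
  obtain ⟨C2, hC2⟩ := size_zb_le 2
  have hsz : ∀ y : List (Option (Letter r)) × Letter r,
      size y ≤ (κ0 + κ1 + 1) * (y.1.length + 1) := by
    intro y
    rw [size_prod]
    have a1 := hκ0 y.1
    have a2 := hκ1 y.2
    have e : (κ0 + κ1 + 1) * (y.1.length + 1) = κ0 * (y.1.length + 1) + κ1 * y.1.length + κ1 +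
      (y.1.length + 1) := by ring
    omega
  set κ := κ0 + κ1 + 1 with hκ
  set z0 := size (0 : ZB 2) with hz0
  refine (h6.mono (z0 + 20 * (κ + 1) + 10 + 2 * (C2 * (C0 + 2))) (fun x => ?_)).congr (fun x => ?_)
  · show size x.1 + size x.2 + (size x.2 + (0 + (size (0 : ZB 2) + size x.1))) +
      (size x.2 + (x.2.length + 1) * size x.1 +
        foldCost (fun y => q6aT M c ((y.1, x.1), y.2)) (fun y => q6aStep M c ((y.1, x.1), y.2))
          x.2 (0 : ZB 2)) ≤ _
    set m := x.1.1.length + pmx x.2 with hm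
    set W := (m + 1) ^ 2 * lg m ^ 2 with hW
    have hlg := q6a_lg_pos m
    have w1 : (m + 1) * lg m ≤ W := by
      rw [hW]
      have : (m + 1) * lg m ≤ ((m + 1) * lg m) * ((m + 1) * lg m) :=
        Nat.le_mul_self _
      calc (m + 1) * lg m ≤ ((m + 1) * lg m) * ((m + 1) * lg m) := this
        _ = (m + 1) ^ 2 * lg m ^ 2 := by ring
    have w0 : m + 1 ≤ W := (Nat.le_mul_of_pos_right _ hlg).trans w1
    have w2 : 1 ≤ W := by omega
    have hn : x.2.length ≤ m := by
      rw [hm]; unfold pmx; omega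
    -- sizes
    have s1 : size x.1 ≤ κ * W := (hsz x.1).trans (Nat.mul_le_mul_left _ (by omega))
    have s2 : ∀ y ∈ x.2, size y ≤ κ * W := fun y hy => (hsz y).trans
      (Nat.mul_le_mul_left _ (by have := q6a_pmx x.2 y hy; omega))
    have s3 : size x.2 ≤ (κ * W + 1) * (x.2.length + 1) := size_list_le_of _ _ s2
    -- the exponent
    set E := C0 * ((x.1.1.length + 1) * lg x.1.1.length) with hE
    have e1 : E ≤ C0 * ((m + 1) * lg m) :=
      Nat.mul_le_mul_left _ (Nat.mul_le_mul (by omega) (q6a_lg_mono (by omega)))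
    have o1 : ∀ y : List (Option (Letter r)) × Letter r,
        size (ZB.mk (q6aOut M c x.1 y) : ZB 2) ≤ C2 * (C0 + 2) * W := by
      intro y
      refine (hC2 _ E (hC0 x.1 y)).trans ?_
      have : E + 1 ≤ (C0 + 2) * W := by
        have e2 : C0 * ((m + 1) * lg m) ≤ C0 * W := Nat.mul_le_mul_left _ w1
        have e3 : (C0 + 2) * W = C0 * W + 2 * W := by ring
        omega
      calc C2 * (E + 1) ≤ C2 * ((C0 + 2) * W) := Nat.mul_le_mul_left _ this
        _ = C2 * (C0 + 2) * W := by ring
    have o2 : ∀ s : ZB 2, s.val.natAbs ≤ x.2.length * 2 ^ E → size s ≤ C2 * (C0 + 2) * W := by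
      intro s hs
      have h7 : s.val.natAbs ≤ 2 ^ (x.2.length + E) := by
        refine hs.trans ?_
        rw [pow_add]
        exact Nat.mul_le_mul_right _ (Nat.lt_two_pow_self).le
      refine (hC2 s _ h7).trans ?_
      have : x.2.length + E + 1 ≤ (C0 + 2) * W := by
        have e2 : C0 * ((m + 1) * lg m) ≤ C0 * W := Nat.mul_le_mul_left _ w1
        have e3 : (C0 + 2) * W = C0 * W + 2 * W := by ring
        omega
      calc C2 * (x.2.length + E + 1) ≤ C2 * ((C0 + 2) * W) := Nat.mul_le_mul_left _ this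
        _ = C2 * (C0 + 2) * W := by ring
    have hfold : foldCost (fun y => q6aT M c ((y.1, x.1), y.2))
        (fun y => q6aStep M c ((y.1, x.1), y.2)) x.2 (0 : ZB 2) ≤
        (2 * (κ * W) + W + 2 * (C2 * (C0 + 2) * W)) * x.2.length := by
      refine q6a_foldCost _ _ _ (2 ^ E) x.2.length x.2 ?_ ?_ (0 : ZB 2) 0 (Nat.zero_le _) (by omega)
      · intro y hy s hs
        have t1 := s2 y hy
        have t2 := o1 y
        have t3 := o2 s hs
        have t4 : (x.1.1.length + y.1.length + 1) ^ 2 * lg (x.1.1.length + y.1.length) ^ 2 ≤ W := by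
          have hy2 := q6a_pmx x.2 y hy
          rw [hW]
          exact Nat.mul_le_mul (Nat.pow_le_pow_left (by omega) _)
            (Nat.pow_le_pow_left (q6a_lg_mono (by omega)) _)
        show size y + size x.1 + (x.1.1.length + y.1.length + 1) ^ 2 *
          lg (x.1.1.length + y.1.length) ^ 2 + size (ZB.mk (q6aOut M c x.1 y) : ZB 2) + size s ≤ _
        omega
      · intro y hy s
        have h7 : (q6aStep M c ((y, x.1), s)).val = s.val + q6aOut M c x.1 y := by
          show s.val + (1 : ℤ) • (q6aOut M c x.1 y) = _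
          rw [one_smul]
        show (q6aStep M c ((y, x.1), s)).val.natAbs ≤ _
        rw [h7]
        exact (Int.natAbs_add_le _ _).trans (Nat.add_le_add_left (hC0 x.1 y) _)
    rw [← hz0]
    set n := x.2.length
    have f1 : (n + 1) * size x.1 ≤ (n + 1) * (κ * W) := Nat.mul_le_mul_left _ s1
    have f2 : (κ * W + 1) * (n + 1) ≤ (κ + 1) * ((n + 1) * W) := by
      calc (κ * W + 1) * (n + 1) ≤ (κ * W + W) * (n + 1) := Nat.mul_le_mul_right _ (by omega)
        _ = (κ + 1) * ((n + 1) * W) := by ring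
    have f3 : (2 * (κ * W) + W + 2 * (C2 * (C0 + 2) * W)) * n ≤
        (2 * κ + 1 + 2 * (C2 * (C0 + 2))) * ((n + 1) * W) := by
      calc (2 * (κ * W) + W + 2 * (C2 * (C0 + 2) * W)) * n
          ≤ (2 * (κ * W) + W + 2 * (C2 * (C0 + 2) * W)) * (n + 1) :=
            Nat.mul_le_mul_left _ (by omega)
        _ = _ := by ring
    have f4 : size x.1 ≤ (n + 1) * (κ * W) := s1.trans (Nat.le_mul_of_pos_left _ (by omega))
    have f5 : (n + 1) * (κ * W) = κ * ((n + 1) * W) := by ring
    have f6 : (z0 + 20 * (κ + 1) + 10 + 2 * (C2 * (C0 + 2))) * ((n + 1) * W + 1) =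
      z0 * ((n + 1) * W) + z0 + 20 * (κ * ((n + 1) * W)) + 20 * ((n + 1) * W) + 20 * (κ + 1) +
        10 * ((n + 1) * W) + 10 + 2 * (C2 * (C0 + 2)) * ((n + 1) * W) + 2 * (C2 * (C0 + 2)) := by
      ring
    have f7 : (κ + 1) * ((n + 1) * W) = κ * ((n + 1) * W) + (n + 1) * W := by ring
    have f8 : (2 * κ + 1 + 2 * (C2 * (C0 + 2))) * ((n + 1) * W) =
      2 * (κ * ((n + 1) * W)) + (n + 1) * W + 2 * (C2 * (C0 + 2)) * ((n + 1) * W) := by ring
    rw [f6]
    omega
  · show x.2.foldl (fun s a => q6aStep M c ((a, x.1), s)) (0 : ZB 2) = _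
    have h7 := q6a_fold_sum (fun y => q6aOut M c x.1 y) x.2 0
    rw [zero_add] at h7
    show x.2.foldl (fun s a => q6aStep M c ((a, x.1), s)) (0 : ZB 2) =
      (ZB.mk ((x.2.map (fun y => q6aOut M c x.1 y)).sum) : ZB 2)
    rw [← h7]
    show (List.foldl (fun (s : ℤ) a => s + (1 : ℤ) • (q6aOut M c x.1 a)) (0 : ℤ) x.2 : ℤ) =
      List.foldl (fun (s : ℤ) a => s + q6aOut M c x.1 a) (0 : ℤ) x.2
    simp only [one_smul]

theorem inner_bound {r : ℕ} (M : BM (Option (Letter r) × Option (Letter r))) (hM : M.Tame)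
    (c : Letter r → Letter r → Fin M.N1 → Fin M.N2 → ℤ) : ∃ C : ℕ,
    ∀ (x : List (Option (Letter r)) × Letter r) (ps : List (List (Option (Letter r)) × Letter r)),
      ((ps.map (fun y => M.out (c x.2 y.2) (M.run (x.1.zip y.1)))).sum).natAbs ≤
        ps.length * 2 ^ (C * ((x.1.length + 1) * lg x.1.length)) := by
  obtain ⟨C, hC⟩ := q6a_out_bound M hM c
  refine ⟨C, fun x ps => ?_⟩
  exact q6a_sum_bound (fun y => q6aOut M c x y) _ ps (fun y _ => hC x y)

end Pool.Agent.WPU
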