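import Pool.Agent.Lib.MP_2da099_lc.UE.Defs
import Pool.Agent.Lib.MP_2da099_lc.UE.Q0
import Pool.Agent.Lib.MP_2da099_lc.UE.Q4b
import Pool.Agent.Lib.MP_2da099_lc.UE.Q6a
import Pool.Agent.Lib.MP_2da099_lc.R2.N01
import Pool.Agent.Lib.MP_2da099_lc.R2.N03
import Pool.Agent.Lib.MP_2da099_lc.R2.N04
import Pool.Agent.Lib.MP_2da099_lc.C10

/-!
# Q6b: double sums in time TB

HINTS.  Outer sum: `CT.foldlEnv` over `x ∈ paths w`, environment `paths w` (size `O(n ^ 2)`, it is copied `n + 1` times), state
`s : ZB 2`, step `((x, ps), s) ↦ s + inner (x, ps)` (`ct_inner`, `ct_zblin 1`).  For `x ∈ paths w`: `x.1.length = n`,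
`pmx (paths w) ≤ 2 n`, so a step costs at most `C * ((n + 1) * ((3 n + 1) ^ 2 * lg (3 n) ^ 2))` plus the size of `s`, and
`|s| ≤ n * n * 2 ^ (C (n + 1) lg n)` (`inner_bound`), so `size s ≤ C' (n + 1) lg n`.  `lg (3 n) ≤ lg n + 2 ≤ 3 lg n`.  Total
`C (n + 1) ^ 4 * lg n ^ 2 = C * TB n`.  The bounds hold along the real run only, so bound `foldCost` by induction over a list
with the hypothesis that all its elements are in `paths w`.  At the end `ct_zbzero`.  Start: `w ↦ (paths w, (paths w, 0))` by
`ct_paths`, `CT.dup`, `CT.pushConst`.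
-/

set_option autoImplicit false

namespace Pool.Agent.WPU

open Pool.Agent.Lib.PolyTime Pool.Agent.WPM Pool.Agent.WPR

/-- a bound for the cost of a fold along the real run -/
private theorem q6b_fold {τ ρ : Type} (T : τ × ρ → ℕ) (step : τ × ρ → ρ) (K n : ℕ) (P : τ → Prop)
    (Inv : ℕ → ρ → Prop)
    (h : ∀ a s j, P a → j < n → Inv j s → T (a, s) ≤ K ∧ Inv (j + 1) (step (a, s))) :
    ∀ (l : List τ) (s : ρ) (j : ℕ), (∀ a ∈ l, P a) → j + l.length ≤ n → Inv j s →
      foldCost T step l s ≤ K * l.length ∧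
        Inv (j + l.length) (l.foldl (fun s a => step (a, s)) s) := by
  intro l
  induction l with
  | nil => intro s j _ _ h3; exact ⟨by simp [foldCost], h3⟩
  | cons a l ih =>
    intro s j h1 h2 h3
    rw [List.length_cons] at h2 ⊢
    obtain ⟨b1, b2⟩ := h a s j (h1 a (List.mem_cons_self ..)) (by omega) h3
    obtain ⟨b3, b4⟩ := ih (step (a, s)) (j + 1) (fun x hx => h1 x (List.mem_cons_of_mem _ hx))
      (by omega) b2
    refine ⟨?_, ?_⟩
    · have e : K * (l.length + 1) = K + K * l.length := by ring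
      simp only [foldCost]
      omega
    · rw [List.foldl_cons]
      have e : j + (l.length + 1) = j + 1 + l.length := by omega
      rw [e]
      exact b4

private theorem q6b_lg_pos (n : ℕ) : 1 ≤ lg n := Nat.succ_pos _

private theorem q6b_lg3 (n : ℕ) : lg (3 * n) ≤ 3 * lg n := by
  have h1 : Nat.log 2 (3 * n + 1) ≤ Nat.log 2 ((n + 1) * 2 * 2) := Nat.log_mono_right (by omega)
  rw [Nat.log_mul_base Nat.one_lt_two (by omega), Nat.log_mul_base Nat.one_lt_two (by omega)] at h1
  unfold lg
  omega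

private theorem q6b_mxl {α : Type} (n : ℕ) (rows : List (List α)) (h : ∀ x ∈ rows, x.length ≤ n) :
    mxl rows ≤ n := by
  unfold mxl
  induction rows with
  | nil => simp
  | cons a l ih =>
    have h1 := h a (List.mem_cons_self ..)
    have h2 := ih (fun x hx => h x (List.mem_cons_of_mem _ hx))
    rw [List.map_cons, List.foldr_cons]
    exact max_le h1 h2

private theorem q6b_pmx {r : ℕ} (w : List (Letter r)) : pmx (paths w) ≤ 2 * w.length := by
  have h1 : mxl ((paths w).map Prod.fst) ≤ w.length := by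
    refine q6b_mxl _ _ (fun x hx => ?_)
    rw [List.mem_map] at hx
    obtain ⟨y, hy, rfl⟩ := hx
    exact (mem_paths_length w y hy).le
  unfold pmx
  rw [paths_length]
  omega

/-- the inner sum -/
private def q6b_inner {r : ℕ} (M : BM (Option (Letter r) × Option (Letter r)))
    (c : Letter r → Letter r → Fin M.N1 → Fin M.N2 → ℤ)
    (x : List (Option (Letter r)) × Letter r) (ps : List (List (Option (Letter r)) × Letter r)) : ℤ :=
  (ps.map (fun y => M.out (c x.2 y.2) (M.run (x.1.zip y.1)))).sum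

/-- the step of the outer sum -/
private def q6b_step {r : ℕ} (M : BM (Option (Letter r) × Option (Letter r)))
    (c : Letter r → Letter r → Fin M.N1 → Fin M.N2 → ℤ)
    (z : ((List (Option (Letter r)) × Letter r) × List (List (Option (Letter r)) × Letter r)) ×
      ZB 2) : ZB 2 := z.2 + (1 : ℤ) • (ZB.mk (q6b_inner M c z.1.1 z.1.2) : ZB 2)

private theorem q6b_step_val {r : ℕ} (M : BM (Option (Letter r) × Option (Letter r)))
    (c : Letter r → Letter r → Fin M.N1 → Fin M.N2 → ℤ)
    (a : List (Option (Letter r)) × Letter r) (ps : List (List (Option (Letter r)) × Letter r))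
    (s : ZB 2) : (q6b_step M c ((a, ps), s)).val = s.val + q6b_inner M c a ps := by
  show (s.val : ℤ) + (1 : ℤ) • (q6b_inner M c a ps : ℤ) = _
  rw [one_smul]

private theorem q6b_sum {r : ℕ} (M : BM (Option (Letter r) × Option (Letter r)))
    (c : Letter r → Letter r → Fin M.N1 → Fin M.N2 → ℤ)
    (ps : List (List (Option (Letter r)) × Letter r))
    (l : List (List (Option (Letter r)) × Letter r)) (s : ZB 2) :
    (l.foldl (fun s a => q6b_step M c ((a, ps), s)) s).val =
      s.val + (l.map (fun a => q6b_inner M c a ps)).sum := by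
  induction l generalizing s with
  | nil => simp
  | cons a l ih => rw [List.foldl_cons, ih, q6b_step_val, List.map_cons, List.sum_cons, add_assoc]

/-- the time of the inner sum -/
private def q6b_T {r : ℕ}
    (x : (List (Option (Letter r)) × Letter r) × List (List (Option (Letter r)) × Letter r)) : ℕ :=
  (x.2.length + 1) * ((x.1.1.length + pmx x.2 + 1) ^ 2 * lg (x.1.1.length + pmx x.2) ^ 2)

private theorem q6b_ct_step {r : ℕ} (M : BM (Option (Letter r) × Option (Letter r)))
    (hM : M.Tame) (c : Letter r → Letter r → Fin M.N1 → Fin M.N2 → ℤ) :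
    CT (q6b_step M c) (fun z => q6b_T z.1 +
      (size (ZB.mk (q6b_inner M c z.1.1 z.1.2) : ZB 2) + size z.2)) := by
  have h1 : CT (fun x : (List (Option (Letter r)) × Letter r) ×
      List (List (Option (Letter r)) × Letter r) =>
      (ZB.mk (q6b_inner M c x.1 x.2) : ZB 2)) q6b_T := ct_inner M hM c
  have h2 : CT (fun z : ((List (Option (Letter r)) × Letter r) ×
      List (List (Option (Letter r)) × Letter r)) × ZB 2 =>
      ((ZB.mk (q6b_inner M c z.1.1 z.1.2) : ZB 2), z.2)) (fun z => q6b_T z.1) := CT.first h1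
  have h3 : CT (fun x : ZB 2 × ZB 2 => (x.2, x.1)) (fun x => size x.1 + size x.2) := CT.swap
  have h4 := (ct_zblin 2 1).comp (h3.comp h2)
  refine h4.mono 2 (fun z => ?_)
  show q6b_T z.1 + (size (ZB.mk (q6b_inner M c z.1.1 z.1.2) : ZB 2) + size z.2) +
    (size z.2 + size (ZB.mk (q6b_inner M c z.1.1 z.1.2) : ZB 2)) ≤ _
  omega

theorem dec_psum1 {r : ℕ} (M : BM (Option (Letter r) × Option (Letter r))) (hM : M.Tame)
    (c : Letter r → Letter r → Fin M.N1 → Fin M.N2 → ℤ) :
    Dec TB (fun w : List (Letter r) => M.psum c w = 0) := by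
  obtain ⟨C1, hC1⟩ := inner_bound M hM c
  obtain ⟨C2, hC2⟩ := size_zb_le 2
  obtain ⟨C3, hC3⟩ := size_paths (r := r)
  have hfold := CT.foldlEnv (q6b_ct_step M hM c)
  have hstart : CT (fun w : List (Letter r) => (paths w, (paths w, (0 : ZB 2))))
      (fun w => (w.length + 1) ^ 2 + size (paths w)) := by
    have a1 := CT.dup.comp (ct_paths (r := r))
    have a2 : CT (fun l : List (List (Option (Letter r)) × Letter r) => ((0 : ZB 2), l))
      (fun _ => 0) := CT.pushConst 0
    have a3 : CT (fun x : ZB 2 × List (List (Option (Letter r)) × Letter r) => (x.2, x.1))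
      (fun x => size x.1 + size x.2) := CT.swap
    have a4 : CT (fun x : List (List (Option (Letter r)) × Letter r) ×
      List (List (Option (Letter r)) × Letter r) => (x.1, (x.2, (0 : ZB 2)))) _ :=
      CT.second (a3.comp a2)
    refine (a4.comp a1).mono (size (0 : ZB 2) + 3) (fun w => ?_)
    show (w.length + 1) ^ 2 + size (paths w) +
      (size (paths w) + (0 + (size (0 : ZB 2) + size (paths w)))) ≤ _
    have e : (size (0 : ZB 2) + 3) * ((w.length + 1) ^ 2 + size (paths w) + 1) =
      3 * ((w.length + 1) ^ 2 + size (paths w)) + 3 +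
      size (0 : ZB 2) * ((w.length + 1) ^ 2 + size (paths w)) + size (0 : ZB 2) := by ring
    omega
  have hall := (ct_zbzero 2).comp (hfold.comp hstart)
  obtain ⟨K, hK⟩ : ∃ K, K = 27 * 9 + 2 * (C2 * (C1 + 3)) := ⟨_, rfl⟩
  refine ⟨_, _, 1 + C3 + C3 + C3 + K + C2 * (C1 + 3), hall, fun w => ?_, fun w => ?_⟩
  · show decide ((paths w).foldl (fun s a => q6b_step M c ((a, paths w), s)) 0 = 0) = true ↔ _
    rw [decide_eq_true_iff]
    have e : ((paths w).foldl (fun s a => q6b_step M c ((a, paths w), s)) 0).val =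
        M.psum c w := by
      rw [q6b_sum]
      show (0 : ℤ) + _ = _
      rw [zero_add]
      rfl
    show (_ : ℤ) = 0 ↔ M.psum c w = 0
    rw [← e]
    exact Iff.rfl
  · obtain ⟨n, hn⟩ : ∃ n, n = w.length := ⟨_, rfl⟩
    obtain ⟨L, hL⟩ : ∃ L, L = (n + 1) * lg n := ⟨_, rfl⟩
    have hlg := q6b_lg_pos n
    have hL1 : n + 1 ≤ L := by
      rw [hL]
      exact Nat.le_mul_of_pos_right _ hlg
    have hin : ∀ a ∈ paths w, (q6b_inner M c a (paths w)).natAbs ≤ n * 2 ^ (C1 * L) := by
      intro a ha
      have h1 := hC1 a (paths w)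
      rw [paths_length, mem_paths_length w a ha, ← hn, ← hL] at h1
      exact h1
    have hpow : ∀ k ≤ n + 1, k * (n * 2 ^ (C1 * L)) ≤ 2 ^ ((C1 + 2) * L) := by
      intro k hk
      have h1 : n + 1 ≤ 2 ^ L := hL1.trans Nat.lt_two_pow_self.le
      calc k * (n * 2 ^ (C1 * L)) ≤ 2 ^ L * (2 ^ L * 2 ^ (C1 * L)) :=
            Nat.mul_le_mul (hk.trans h1) (Nat.mul_le_mul_right _ ((Nat.le_succ n).trans h1))
        _ = 2 ^ ((C1 + 2) * L) := by
            rw [← pow_add, ← pow_add]
            congr 1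
            ring
    have hsz : ∀ (x : ZB 2) (k : ℕ), k ≤ n + 1 → x.val.natAbs ≤ k * (n * 2 ^ (C1 * L)) →
        size x ≤ C2 * (C1 + 3) * L := by
      intro x k hk hx
      have h1 := hC2 x ((C1 + 2) * L) (hx.trans (hpow k hk))
      refine h1.trans ?_
      rw [Nat.mul_assoc]
      refine Nat.mul_le_mul_left _ ?_
      have e : (C1 + 3) * L = (C1 + 2) * L + L := by ring
      omega
    -- the bound for the time
    obtain ⟨B, hB⟩ : ∃ B, B = (n + 1) ^ 3 * lg n ^ 2 := ⟨_, rfl⟩
    have hLB : L ≤ B := by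
      rw [hL, hB]
      refine Nat.mul_le_mul (Nat.le_self_pow (by norm_num) _) (Nat.le_self_pow (by norm_num) _)
    have hTB : TB n = (n + 1) * B := by
      rw [hB]
      unfold TB
      ring
    have hBTB : B ≤ TB n := by
      rw [hTB]
      exact Nat.le_mul_of_pos_left _ (Nat.succ_pos _)
    have hT : ∀ a ∈ paths w, q6b_T (a, paths w) ≤ 27 * 9 * B := by
      intro a ha
      unfold q6b_T
      show ((paths w).length + 1) * ((a.1.length + pmx (paths w) + 1) ^ 2 *
        lg (a.1.length + pmx (paths w)) ^ 2) ≤ _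
      have p1 := q6b_pmx w
      rw [paths_length, mem_paths_length w a ha, ← hn]
      rw [← hn] at p1
      have p2 : n + pmx (paths w) ≤ 3 * n := by omega
      have p3 : lg (n + pmx (paths w)) ≤ 3 * lg n := by
        refine le_trans ?_ (q6b_lg3 n)
        unfold lg
        exact Nat.succ_le_succ (Nat.log_mono_right (by omega))
      have p4 : (n + pmx (paths w) + 1) ^ 2 ≤ (3 * (n + 1)) ^ 2 := Nat.pow_le_pow_left (by omega) 2
      have p5 : lg (n + pmx (paths w)) ^ 2 ≤ (3 * lg n) ^ 2 := Nat.pow_le_pow_left p3 2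
      calc (n + 1) * ((n + pmx (paths w) + 1) ^ 2 * lg (n + pmx (paths w)) ^ 2)
          ≤ (n + 1) * ((3 * (n + 1)) ^ 2 * (3 * lg n) ^ 2) :=
            Nat.mul_le_mul_left _ (Nat.mul_le_mul p4 p5)
        _ = 81 * ((n + 1) ^ 3 * lg n ^ 2) := by ring
        _ ≤ 27 * 9 * B := by
            rw [hB]
            exact Nat.mul_le_mul_right _ (by norm_num)
    have hf := q6b_fold (fun y : (List (Option (Letter r)) × Letter r) × ZB 2 =>
        q6b_T (y.1, paths w) +
          (size (ZB.mk (q6b_inner M c y.1 (paths w)) : ZB 2) + size y.2))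
      (fun y => q6b_step M c ((y.1, paths w), y.2)) (K * B) n (fun a => a ∈ paths w)
      (fun k s => s.val.natAbs ≤ k * (n * 2 ^ (C1 * L))) (by
        intro a s k ha hk hs
        have b1 := hT a ha
        have b2 := hsz (ZB.mk (q6b_inner M c a (paths w)) : ZB 2) 1 (by omega) (by
          rw [Nat.one_mul]
          exact hin a ha)
        have b3 := hsz s k (by omega) hs
        refine ⟨?_, ?_⟩
        · show q6b_T (a, paths w) +
            (size (ZB.mk (q6b_inner M c a (paths w)) : ZB 2) + size s) ≤ K * B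
          have b4 : C2 * (C1 + 3) * L ≤ C2 * (C1 + 3) * B := Nat.mul_le_mul_left _ hLB
          have e : K * B = 27 * 9 * B + 2 * (C2 * (C1 + 3) * B) := by rw [hK]; ring
          omega
        · show (q6b_step M c ((a, paths w), s)).val.natAbs ≤ _
          rw [q6b_step_val]
          have b5 := Int.natAbs_add_le s.val (q6b_inner M c a (paths w))
          have b6 := hin a ha
          have e : (k + 1) * (n * 2 ^ (C1 * L)) = k * (n * 2 ^ (C1 * L)) + n * 2 ^ (C1 * L) := by
            ring
          have b7 : s.val.natAbs ≤ k * (n * 2 ^ (C1 * L)) := hs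
          omega)
      (paths w) 0 0 (fun a ha => ha) (by rw [paths_length]; omega) (by
        show (0 : ℤ).natAbs ≤ _
        simp)
    obtain ⟨f1, f2⟩ := hf
    rw [paths_length, ← hn] at f1 f2
    rw [Nat.zero_add] at f2
    have f3 := hsz _ n (by omega) f2
    obtain ⟨s1, -⟩ := hC3 w
    rw [← hn] at s1
    show (w.length + 1) ^ 2 + size (paths w) + (size (paths w) +
      ((paths w).length + 1) * size (paths w) + foldCost _ _ (paths w) 0) +
      size ((paths w).foldl (fun s a => q6b_step M c ((a, paths w), s)) 0) ≤ _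
    rw [paths_length, ← hn]
    have g1 : (n + 1) ^ 2 ≤ TB n := sq_le_TB n
    have g2 : C3 * (n + 1) ^ 2 ≤ C3 * TB n := Nat.mul_le_mul_left _ g1
    have g3 : (n + 1) * size (paths w) ≤ C3 * TB n := by
      calc (n + 1) * size (paths w) ≤ (n + 1) * (C3 * (n + 1) ^ 2) := Nat.mul_le_mul_left _ s1
        _ = C3 * (n + 1) ^ 3 := by ring
        _ ≤ C3 * TB n := by
            refine Nat.mul_le_mul_left _ ?_
            unfold TB
            calc (n + 1) ^ 3 ≤ (n + 1) ^ 4 * 1 := by
                  rw [Nat.mul_one]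
                  exact Nat.pow_le_pow_right (Nat.succ_pos _) (by norm_num)
              _ ≤ (n + 1) ^ 4 * lg n ^ 2 := Nat.mul_le_mul_left _ (Nat.one_le_pow _ _ hlg)
    have g4 : K * B * n ≤ K * TB n := by
      rw [hTB, Nat.mul_assoc]
      refine Nat.mul_le_mul_left _ ?_
      rw [Nat.mul_comm]
      exact Nat.mul_le_mul_right _ (Nat.le_succ n)
    have g5 : C2 * (C1 + 3) * L ≤ C2 * (C1 + 3) * TB n := Nat.mul_le_mul_left _ (hLB.trans hBTB)
    have e : (1 + C3 + C3 + C3 + K + C2 * (C1 + 3)) * TB n =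
      TB n + C3 * TB n + C3 * TB n + C3 * TB n + K * TB n + C2 * (C1 + 3) * TB n := by ring
    rw [e]
    have f1' := f1.trans g4
    have f3' := f3.trans g5
    have s1' := s1.trans g2
    refine le_trans (Nat.add_le_add (Nat.add_le_add (Nat.add_le_add g1 s1')
      (Nat.add_le_add (Nat.add_le_add s1' g3) f1')) f3') ?_
    omega

theorem dec_psum {r J : ℕ} (M : BM (Option (Letter r) × Option (Letter r))) (hM : M.Tame)
    (c : Fin J → Letter r → Letter r → Fin M.N1 → Fin M.N2 → ℤ) :
    Dec TB (fun w : List (Letter r) => ∀ j, M.psum (c j) w = 0) :=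
  dec_forall le_TB J _ (fun j => dec_psum1 M hM (c j))

end Pool.Agent.WPU
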