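import Pool.Agent.Lib.MP_2da099_lc.UE.Defs

/-!
# T4: the positions of the padded prefixes

HINTS.  `vpos (s.map some) = (s.map (fun l => sz (sgl l))).sum`; padding by `none` does not change `vpos` (`mvo none = 0`), and for
`s.length ≤ n` the list `padTo n none (s.map some)` is `s.map some ++ replicate (n - s.length) none`.  By induction on `w`, for
all `s`: `(pre s w).map (fun x => (vpos (x.1.map some), x.2)) = posl (vpos (s.map some)) w`.  Every `x ∈ pre [] w` has
`x.1.length < w.length`.
-/

set_option autoImplicit false

namespace Pool.Agent.WPU

open Pool.Agent.Lib.PolyTime Pool.Agent.WPM Pool.Agent.WPR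

private theorem t4_pad {r : ℕ} (L : ℕ) (u : List (Option (Letter r))) (h : u.length ≤ L) :
    vpos (padTo L none u) = vpos u := by
  have h1 : padTo L none u = u ++ List.replicate (L - u.length) none := by
    unfold padTo
    rw [List.take_append, List.take_of_length_le h, List.take_replicate]
    congr 2
    omega
  unfold vpos
  rw [h1, List.map_append, List.sum_append, List.map_replicate]
  change _ + (List.replicate (L - u.length) (0 : Fin r → ℤ)).sum = _
  rw [List.sum_replicate, smul_zero, add_zero]

private theorem t4_pre {r : ℕ} (w : List (Letter r)) : ∀ s : List (Letter r),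
    (pre s w).map (fun x => (vpos (x.1.map some), x.2)) = posl (vpos (s.map some)) w := by
  induction w with
  | nil => intro s; rfl
  | cons l w ih =>
    intro s
    have h1 : vpos ((l :: s).map some) = vpos (s.map some) + sz (sgl l) := by
      unfold vpos
      rw [List.map_cons, List.map_cons, List.sum_cons, add_comm]
      rfl
    change (vpos (s.map some), l) :: (pre (l :: s) w).map (fun x => (vpos (x.1.map some), x.2)) = _
    rw [ih (l :: s), h1]
    rfl

private theorem t4_len {r : ℕ} (w : List (Letter r)) : ∀ s : List (Letter r), ∀ x ∈ pre s w,
    x.1.length ≤ s.length + w.length := by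
  induction w with
  | nil =>
    intro s x hx
    exact absurd hx List.not_mem_nil
  | cons l w ih =>
    intro s x hx
    rcases List.mem_cons.1 hx with rfl | hx
    · exact Nat.le_add_right _ _
    · have h := ih (l :: s) x hx
      rw [List.length_cons] at h ⊢
      omega

theorem paths_posl {r : ℕ} (w : List (Letter r)) :
    (paths w).map (fun x => (vpos x.1, x.2)) = posl 0 w := by
  have h1 : (paths w).map (fun x => (vpos x.1, x.2)) =
      (pre [] w).map (fun x => (vpos (x.1.map some), x.2)) := by
    unfold paths
    rw [List.map_map]
    refine List.map_congr_left fun x hx => ?_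
    have h2 := t4_len w [] x hx
    rw [List.length_nil, zero_add] at h2
    change (vpos (padTo w.length none (x.1.map some)), x.2) = _
    rw [t4_pad _ _ (by rw [List.length_map]; exact h2)]
  rw [h1, t4_pre w []]
  rfl

end Pool.Agent.WPU
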