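import Pool.Agent.Lib.MP_2da099_lc.UE.Defs
import Pool.Agent.Lib.MP_2da099_lc.UE.T3
import Pool.Agent.Lib.MP_2da099_lc.UE.R1

/-!
# T5a: the outputs of the machine

HINTS.  `lf_pair`: `mulVec` is a sum, multiply out, `Matrix.mul_apply`, `Matrix.transpose_apply`, exchange the sums
(`Finset.sum_comm`).  `lf_square`: `(Σ_x F x κ)² = Σ_x Σ_y F x κ * F y κ` for lists (`List.sum_map_mul_left`,
`List.sum_map_mul_right`, induction on a list) and `map_sum`, linearity of `Lf`.  `exists_out`: for every `γ, γ'` the form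
`bilf β ((Th l γ)ᵀ * Th l' γ')` is a combination of the `(M.run u).2 j` (hypothesis `hq`); the factor
`(∏ v i ^ γ i) * ∏ w i ^ γ' i` is the parameter `(M.run u).1 (e (some (γ, γ')))` (`he`; exponents of `Fin K` embedded in `Fin K'` with
`Fin.castLE hK`).  `c l l' a j` = the sum over all `γ, γ'` with `e (some (..)) = a` of the coefficient of `j`.  Then
`M.out = Σ_{γ γ'} v^γ w^γ' bilf β ((Th l γ)ᵀ * Th l' γ') = bilf β ((thv (Th l) v)ᵀ * thv (Th l') w)` (`bilf_sum`, `bilf_smul`,
`thv` is a sum with integer scalars) and `lf_pair`.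
-/

set_option autoImplicit false

namespace Pool.Agent.WPU

open Pool.Agent.Lib.PolyTime Pool.Agent.WPM Pool.Agent.WPR

theorem lf_pair {r : ℕ} (H : Hol r) (D : ℕ) (β : Fin H.t → Fin D)
    (A B : Matrix (Fin H.d) (Fin H.d) (SP H.t)) (k : ℕ) (v w : Fin r → ℤ) :
    Lf D β (∑ κ, A.mulVec (H.Psi (2 * k) v) κ * B.mulVec (H.Psi (2 * k) w) κ) =
      bilf H D β (A.transpose * B) k v w := by
  unfold bilf
  apply congrArg (Lf D β)
  simp only [Matrix.mulVec, dotProduct, Matrix.mul_apply, Matrix.transpose_apply]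
  simp only [Finset.sum_mul_sum]
  simp only [Finset.sum_mul]
  rw [Finset.sum_comm]
  refine Finset.sum_congr rfl fun κ _ => ?_
  rw [Finset.sum_comm]
  refine Finset.sum_congr rfl fun κ' _ => ?_
  refine Finset.sum_congr rfl fun μ _ => ?_
  ring

private theorem t5a_inner {t d D : ℕ} (β : Fin t → Fin D) {α : Type} (l' : List α)
    (F : α → Fin d → SP t) (x : α) :
    ∑ κ, Lf D β (F x κ * (l'.map F).sum κ) =
      (l'.map (fun y => Lf D β (∑ κ, F x κ * F y κ))).sum := by
  induction l' with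
  | nil => simp
  | cons y l' ih =>
    simp only [List.map_cons, List.sum_cons, Pi.add_apply, mul_add, map_add,
      Finset.sum_add_distrib]
    rw [ih, map_sum]

private theorem t5a_outer {t d D : ℕ} (β : Fin t → Fin D) {α : Type} (l l' : List α)
    (F : α → Fin d → SP t) :
    ∑ κ, Lf D β ((l.map F).sum κ * (l'.map F).sum κ) =
      (l.map (fun x => (l'.map (fun y => Lf D β (∑ κ, F x κ * F y κ))).sum)).sum := by
  induction l with
  | nil => simp
  | cons x l ih =>
    simp only [List.map_cons, List.sum_cons, Pi.add_apply, add_mul, map_add,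
      Finset.sum_add_distrib]
    rw [ih, t5a_inner]

theorem lf_square {t d D : ℕ} (β : Fin t → Fin D) {α : Type} (l : List α)
    (F : α → Fin d → SP t) :
    ∑ κ, Lf D β ((l.map F).sum κ * (l.map F).sum κ) =
      (l.map (fun x => (l.map (fun y => Lf D β (∑ κ, F x κ * F y κ))).sum)).sum :=
  t5a_outer β l l F

private theorem t5a_thv {r t d K : ℕ} (A B : (Fin r → Fin K) → Matrix (Fin d) (Fin d) (SP t))
    (v w : Fin r → ℤ) :
    (thv A v).transpose * thv B w = ∑ γ : Fin r → Fin K, ∑ γ' : Fin r → Fin K,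
      ((∏ i, v i ^ (γ i : ℕ)) * ∏ i, w i ^ (γ' i : ℕ)) • ((A γ).transpose * B γ') := by
  unfold thv
  rw [Matrix.transpose_sum, Finset.sum_mul]
  refine Finset.sum_congr rfl fun γ _ => ?_
  rw [Finset.mul_sum]
  refine Finset.sum_congr rfl fun γ' _ => ?_
  rw [Matrix.transpose_smul, smul_mul_assoc, mul_smul_comm, smul_smul]

theorem exists_out {r K K' : ℕ} (hK : K ≤ K') (H : Hol r) (D D1 : ℕ)
    (M : BM (Option (Letter r) × Option (Letter r))) (e : PI r K' → Fin M.N1)
    (he : ∀ u i, (M.run u).1 (e i) =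
      pmv u.length (vpos (u.map Prod.fst)) (vpos (u.map Prod.snd)) i)
    (β : Fin H.t → Fin D)
    (hq : ∀ q : Matrix (Fin H.d) (Fin H.d) (SP H.t), (∀ κ κ', (q κ κ').totalDegree ≤ D1) →
      ∃ c : Fin M.N2 → ℤ, ∀ u, ∑ j, c j * (M.run u).2 j =
        bilf H D β q u.length (vpos (u.map Prod.fst)) (vpos (u.map Prod.snd)))
    (Th : Letter r → (Fin r → Fin K) → Matrix (Fin H.d) (Fin H.d) (SP H.t))
    (hTh : ∀ l l' γ γ' κ κ', (((Th l γ).transpose * Th l' γ') κ κ').totalDegree ≤ D1) :
    ∃ c : Letter r → Letter r → Fin M.N1 → Fin M.N2 → ℤ, ∀ u l l',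
      M.out (c l l') (M.run u) =
        Lf D β (∑ κ, (thv (Th l) (vpos (u.map Prod.fst))).mulVec
          (H.Psi (2 * u.length) (vpos (u.map Prod.fst))) κ *
          (thv (Th l') (vpos (u.map Prod.snd))).mulVec
            (H.Psi (2 * u.length) (vpos (u.map Prod.snd))) κ) := by
  classical
  choose C hC using fun l l' γ γ' => hq ((Th l γ).transpose * Th l' γ') (hTh l l' γ γ')
  let emb : (Fin r → Fin K) → (Fin r → Fin K') := fun γ i => Fin.castLE hK (γ i)
  refine ⟨fun l l' a j => ∑ γ : Fin r → Fin K, ∑ γ' : Fin r → Fin K,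
    if e (some (emb γ, emb γ')) = a then C l l' γ γ' j else 0, ?_⟩
  intro u l l'
  rw [lf_pair, t5a_thv, bilf_sum]
  simp only [BM.out, Finset.sum_mul]
  rw [Finset.sum_congr rfl fun a _ => Finset.sum_comm]
  rw [Finset.sum_comm]
  refine Finset.sum_congr rfl fun γ _ => ?_
  rw [bilf_sum]
  rw [Finset.sum_congr rfl fun a _ => Finset.sum_comm]
  rw [Finset.sum_comm]
  refine Finset.sum_congr rfl fun γ' _ => ?_
  rw [bilf_smul, ← hC, Finset.sum_eq_single (e (some (emb γ, emb γ')))]
  · rw [Finset.mul_sum]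
    refine Finset.sum_congr rfl fun j _ => ?_
    rw [if_pos rfl, he]
    simp only [pmv, emb, Fin.val_castLE]
    ring
  · intro a _ ha
    refine Finset.sum_eq_zero fun j _ => ?_
    rw [if_neg (Ne.symm ha), zero_mul]
  · intro h
    exact absurd (Finset.mem_univ _) h

end Pool.Agent.WPU
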