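import Pool.Agent.Lib.MP_2da099_lc.UE.Defs
import Pool.Agent.Lib.MP_2da099_lc.UE.T5a
import Pool.Agent.Lib.MP_2da099_lc.UE.T4
import Pool.Agent.Lib.MP_2da099_lc.UE.L3
import Pool.Agent.Lib.MP_2da099_lc.UE.Q4a

/-!
# T5b: words are tested by bilinear machines

HINTS.  Take `D` and `m` from `exists_rec H`, `K' = max K 2`, `D1 ≥ m` and `≥` the degrees of all `(Th l γ)ᵀ * Th l' γ'` (finitely many),
the machine `M` of `exists_machine` for `K'`, the outputs `c β` of `exists_out`, numbered by `β : Fin H.t → Fin D`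
(`Fintype.equivFin`).  For `x, y ∈ paths w` the list `x.1.zip y.1` has the length `n = w.length` and the projections `x.1`, `y.1`
(`mem_paths_length`, `List.map_fst_zip`, `List.map_snd_zip`).  So `M.psum (c β) w` is the double sum of
`Lf D β (∑ κ, F x κ * F y κ)` over `x, y ∈ paths w` with `F x = (thv (Th x.2) (vpos x.1)).mulVec (Psi (2 n) (vpos x.1))`, by `lf_square`
it is `∑ κ, Lf D β (S κ * S κ)` with `S = Σ_x F x = hsum H Th w` (`paths_posl`).  It vanishes for all `β` iff `S = 0` (`Lf_pos`).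
-/

set_option autoImplicit false

namespace Pool.Agent.WPU

open Pool.Agent.Lib.PolyTime Pool.Agent.WPM Pool.Agent.WPR

theorem t5b_fin {ι : Type} [Finite ι] (F : ι → ℕ) : ∃ D0 : ℕ, ∀ i, F i ≤ D0 := by
  classical
  let _ := Fintype.ofFinite ι
  exact ⟨Finset.univ.sup F, fun i => Finset.le_sup (Finset.mem_univ i)⟩

theorem t5b_fin6 {A B C D E F : Type} [Finite A] [Finite B] [Finite C] [Finite D] [Finite E]
    [Finite F] (g : A → B → C → D → E → F → ℕ) :
    ∃ D0 : ℕ, ∀ a b c d e f, g a b c d e f ≤ D0 := by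
  obtain ⟨D0, h⟩ := t5b_fin (fun x : A × B × C × D × E × F =>
    g x.1 x.2.1 x.2.2.1 x.2.2.2.1 x.2.2.2.2.1 x.2.2.2.2.2)
  exact ⟨D0, fun a b c d e f => h (a, b, c, d, e, f)⟩

theorem t5b_bound {r K : ℕ} (H : Hol r)
    (Th : Letter r → (Fin r → Fin K) → Matrix (Fin H.d) (Fin H.d) (SP H.t)) :
    ∃ D0 : ℕ, ∀ l l' γ γ' κ κ', (((Th l γ).transpose * Th l' γ') κ κ').totalDegree ≤ D0 :=
  t5b_fin6 (fun l l' γ γ' κ κ' => (((Th l γ).transpose * Th l' γ') κ κ').totalDegree)

theorem t5b_psum {r K : ℕ} (H : Hol r)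
    (Th : Letter r → (Fin r → Fin K) → Matrix (Fin H.d) (Fin H.d) (SP H.t)) (D : ℕ)
    (β : Fin H.t → Fin D) (M : BM (Option (Letter r) × Option (Letter r)))
    (c : Letter r → Letter r → Fin M.N1 → Fin M.N2 → ℤ)
    (hc : ∀ u l l', M.out (c l l') (M.run u) =
        Lf D β (∑ κ, (thv (Th l) (vpos (u.map Prod.fst))).mulVec
          (H.Psi (2 * u.length) (vpos (u.map Prod.fst))) κ *
          (thv (Th l') (vpos (u.map Prod.snd))).mulVec
            (H.Psi (2 * u.length) (vpos (u.map Prod.snd))) κ)) (w : List (Letter r)) :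
    M.psum c w = ∑ κ, Lf D β (hsum H Th w κ * hsum H Th w κ) := by
  let F : List (Option (Letter r)) × Letter r → Fin H.d → SP H.t := fun x =>
    (thv (Th x.2) (vpos x.1)).mulVec (H.Psi (2 * w.length) (vpos x.1))
  have hS : hsum H Th w = ((paths w).map F).sum := by
    unfold hsum
    rw [← paths_posl, List.map_map]
    rfl
  rw [hS, lf_square]
  unfold BM.psum
  congr 1
  refine List.map_congr_left (fun x hx => ?_)
  congr 1
  refine List.map_congr_left (fun y hy => ?_)
  have h1 := mem_paths_length w x hx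
  have h2 := mem_paths_length w y hy
  have h3 : (x.1.zip y.1).map Prod.fst = x.1 := List.map_fst_zip (by rw [h1, h2])
  have h4 : (x.1.zip y.1).map Prod.snd = y.1 := List.map_snd_zip (by rw [h1, h2])
  have h5 : (x.1.zip y.1).length = w.length := by
    rw [List.length_zip, h1, h2, min_self]
  have h6 := hc (x.1.zip y.1) x.2 y.2
  rw [h3, h4, h5] at h6
  exact h6

theorem exists_BM {r K : ℕ} (H : Hol r)
    (Th : Letter r → (Fin r → Fin K) → Matrix (Fin H.d) (Fin H.d) (SP H.t)) :
    ∃ (M : BM (Option (Letter r) × Option (Letter r))) (J : ℕ)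
      (c : Fin J → Letter r → Letter r → Fin M.N1 → Fin M.N2 → ℤ), M.Tame ∧
      ∀ w : List (Letter r), hsum H Th w = 0 ↔ ∀ j, M.psum (c j) w = 0 := by
  classical
  obtain ⟨D, hD, m, hm⟩ := exists_rec H
  obtain ⟨D0, hD0⟩ := t5b_bound H Th
  obtain ⟨M, e, hT, he, hq⟩ := exists_machine H (max K 2) (le_max_right _ _) D (max m D0)
    (fun β o o' q h => hm (max m D0) (le_max_left _ _) β o o' q h)
  have hout := fun β : Fin H.t → Fin D => exists_out (le_max_left K 2) H D (max m D0) M e he β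
    (hq β) Th (fun l l' γ γ' κ κ' => (hD0 l l' γ γ' κ κ').trans (le_max_right _ _))
  choose c hc using hout
  refine ⟨M, Fintype.card (Fin H.t → Fin D), fun j => c ((Fintype.equivFin _).symm j), hT,
    fun w => ?_⟩
  constructor
  · intro h j
    rw [t5b_psum H Th D _ M _ (hc _) w, h]
    simp
  · intro h
    have h1 : ∀ β : Fin H.t → Fin D, ∑ κ, Lf D β (hsum H Th w κ * hsum H Th w κ) = 0 := by
      intro β
      rw [← t5b_psum H Th D β M (c β) (hc β) w]
      have h2 := h (Fintype.equivFin _ β)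
      simp only [Equiv.symm_apply_apply] at h2
      exact h2
    funext κ
    exact Lf_pos D hD (hsum H Th w) h1 κ

end Pool.Agent.WPU
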