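import Pool.Agent.Lib.MP_2da099_lc.UE.Defs
import Pool.Agent.Lib.MP_2da099_lc.UE.Q6b
import Pool.Agent.Lib.MP_2da099_lc.UE.T5b
import Pool.Agent.Lib.MP_2da099_lc.UE.A2
import Pool.Agent.Lib.MP_2da099_lc.UE.A6
import Pool.Agent.Lib.MP_2da099_lc.UE.A7
import Pool.Agent.Lib.MP_2da099_lc.UE.A9a
import Pool.Agent.Lib.MP_2da099_lc.UE.A9e

/-!
# F1: components are decided in time TB

HINTS.  `dec_esum`: `exists_funfield` for the finite set of all `η j`, `(η j)⁻¹`, `κ j l γ`; `L`, `f`; preimages `η'`, `κ'` (units: the preimage of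
`η j` is nonzero); `esum η (κ j) w = f (esum η' (κ' j) w)` (`mexp_map`, `map_list_sum`), `f` injective.  `exists_hol`, then for every `j`
`exists_BM` and `dec_psum`; `dec_forall`, `Dec.congr`.  `dec_comp`: `exists_esum`.  `dec_submodule`: `exists_comps`, `dec_forall`.
-/

set_option autoImplicit false

namespace Pool.Agent.WPU

open Pool.Agent.Lib.PolyTime Pool.Agent.WPM Pool.Agent.WPR

private theorem f1_esum {L K : Type} [Field L] [Field K] {r k : ℕ} (f : L →+* K)
    (η' : Fin r → Lˣ) (κ' : Letter r → (Fin r → Fin k) → L) (w : List (Letter r)) :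
    f (esum η' κ' w) =
      esum (fun i => Units.map f.toMonoidHom (η' i)) (fun l γ => f (κ' l γ)) w := by
  unfold esum
  rw [map_list_sum, List.map_map]
  congr 1
  refine List.map_congr_left fun x _ => ?_
  change f (pval (κ' x.2) x.1 * mexp η' x.1) = _
  rw [map_mul, mexp_map]
  congr 1
  unfold pval
  rw [map_sum]
  refine Finset.sum_congr rfl fun γ _ => ?_
  rw [map_mul, map_prod]
  congr 1
  refine Finset.prod_congr rfl fun i _ => ?_
  rw [map_pow, map_intCast]

theorem dec_esum {K : Type} [Field K] [CharZero K] {r k J : ℕ} (η : Fin r → Kˣ)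
    (κ : Fin J → Letter r → (Fin r → Fin k) → K) :
    Dec TB (fun w : List (Letter r) => ∀ j, esum η (κ j) w = 0) := by
  have hfin : (Set.range (fun j => ((η j : Kˣ) : K)) ∪
      Set.range (fun x : Fin J × Letter r × (Fin r → Fin k) => κ x.1 x.2.1 x.2.2)).Finite :=
    (Set.finite_range _).union (Set.finite_range _)
  obtain ⟨t, L, _, _, _, f, hf⟩ := exists_funfield _ hfin
  have hη : ∀ j, ∃ y : L, f y = η j := fun j => hf (Or.inl ⟨j, rfl⟩)
  choose y hy using hη
  have hy0 : ∀ j, y j ≠ 0 := by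
    intro j h
    have h1 := hy j
    rw [h, map_zero] at h1
    exact (η j).ne_zero h1.symm
  have hκ : ∀ j l γ, ∃ z : L, f z = κ j l γ := fun j l γ => hf (Or.inr ⟨(j, l, γ), rfl⟩)
  choose κ' hκ' using hκ
  have e1 : (fun i => Units.map f.toMonoidHom (Units.mk0 (y i) (hy0 i))) = η := by
    funext i
    apply Units.ext
    exact hy i
  have e2 : ∀ w j, esum η (κ j) w = f (esum (fun i => Units.mk0 (y i) (hy0 i)) (κ' j) w) := by
    intro w j
    rw [f1_esum, e1]
    congr 1
    funext l γ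
    exact (hκ' j l γ).symm
  obtain ⟨H, Th, hH⟩ := exists_hol (t := t) L (fun i => Units.mk0 (y i) (hy0 i)) κ'
  refine (dec_forall le_TB J (fun j w => hsum H (Th j) w = 0) (fun j => ?_)).congr (fun w => ?_)
  · obtain ⟨M, J', c, hM, h⟩ := exists_BM H (Th j)
    exact (dec_psum M hM c).congr (fun w => (h w).symm)
  · refine forall_congr' fun j => ?_
    rw [← hH w j, e2 w j, map_eq_zero]

theorem dec_comp {r : ℕ} (Q : Submodule (LamZ r) (Letter r → LamZ r)) (P : Ideal (LamZ r))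
    [P.IsPrime] (hZ : ∀ n : ℤ, n ≠ 0 → (n : LamZ r) ∉ P)
    (h1 : ∀ f, f ∉ P → ∀ x, f • x ∈ Q → x ∈ Q) (k : ℕ) (h2 : ∀ f ∈ P ^ k, ∀ x, f • x ∈ Q) :
    Dec TB (fun w : List (Letter r) => vecW w ∈ Q) := by
  obtain ⟨K, _, _, η, k', J, κ, h⟩ := exists_esum Q P hZ h1 k h2
  exact (dec_esum η κ).congr (fun w => (h w).symm)

theorem dec_submodule {r : ℕ} (N : Submodule (LamZ r) (Letter r → LamZ r))
    (hN : ∀ (n : ℕ) (x : Letter r → LamZ r), 0 < n → n • x ∈ N → x ∈ N) :
    Dec TB (fun w : List (Letter r) => vecW w ∈ N) := by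
  obtain ⟨m, Q, P, h1, h2⟩ := exists_comps N hN
  refine (dec_forall le_TB m (fun i w => vecW w ∈ Q i) (fun i => ?_)).congr
    (fun w => (h1 (vecW w)).symm)
  obtain ⟨hP, hZ, hf, k, hk⟩ := h2 i
  have := hP
  exact dec_comp (Q i) (P i) hZ hf k hk

end Pool.Agent.WPU
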