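import Pool.Agent.Lib.MP_2da099_lc.UE.PDefs
import Mathlib.RingTheory.AlgebraicIndependent.Basic
import Mathlib.RingTheory.AlgebraicIndependent.TranscendenceBasis
import Mathlib.RingTheory.Localization.FractionRing
import Mathlib.FieldTheory.Finite.Polynomial
import Mathlib.Algebra.Algebra.ZMod

/-!
# N0: transcendence degree of the residue field, elementary form

HINTS.  `K'`, `f'` from `h : TrLe p d P`.  `LamZ r ⧸ P` is a domain (`Ideal.Quotient.isDomain`); `K` is its fraction field through
`Ideal.Quotient.lift P f` (`IsFractionRing.of_field` or build `IsLocalization`; algebra by `RingHom.toAlgebra`), so there is a ring homomorphism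
`g : K →+* K'` (`IsFractionRing.lift`), injective.  `g ∘ z : Fin (d + 1) → K'` is not algebraically independent over `ZMod p`
(`AlgebraicIndependent.cardinalMk_le_trdeg`, `d + 1 ≤ d` is absurd in cardinals: `Cardinal.mk_fin`, `Nat.cast_le`).  So there is a nonzero
`q0 : MvPolynomial (Fin (d + 1)) (ZMod p)` with `aeval (g ∘ z) q0 = 0`; lift it to `q` over `ℤ` (`MvPolynomial.map_surjective`,
`ZMod.ringHom_surjective` / `ZMod.intCast_surjective`); `q ≠ p * q'` because `map q = q0 ≠ 0` and `map (p * q') = 0`.  `aeval z q = 0` by injectivity of `g`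
(`MvPolynomial.aeval_map_algebraMap`, `MvPolynomial.map_aeval` / `MvPolynomial.aeval_algHom_apply`).  Alternative without fraction rings: choose a
common denominator.
-/

set_option autoImplicit false

namespace Pool.Agent.WPU

open Pool.Agent.WPM Pool.Agent.WPR

/-- The residue field of the prime ideal `P` embeds in a field of transcendence degree at most `d` over
`ZMod p`. -/
def TrLe (p d : ℕ) {r : ℕ} (P : Ideal (LamZ r)) : Prop :=
  ∃ (K : Type) (_ : Field K) (_ : Algebra (ZMod p) K) (f : LamZ r →+* K),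
    RingHom.ker f = P ∧ Algebra.trdeg (ZMod p) K ≤ (d : Cardinal)

theorem trle_dep {p d r : ℕ} [Fact p.Prime] {P : Ideal (LamZ r)} (h : TrLe p d P) (K : Type)
    [Field K] [CharP K p] (f : LamZ r →+* K) (hker : ∀ x, f x = 0 ↔ x ∈ P)
    (hfrac : ∀ z : K, ∃ x y : LamZ r, f y ≠ 0 ∧ z * f y = f x) (z : Fin (d + 1) → K) :
    ∃ q : SP (d + 1), MvPolynomial.aeval z q = 0 ∧ ∀ q' : SP (d + 1), q ≠ p * q' := by
  classical
  obtain ⟨K', _, _, f', hker', htr⟩ := h
  have hPf : P = RingHom.ker f := by
    ext x
    rw [RingHom.mem_ker]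
    exact (hker x).symm
  have hP : P.IsPrime := by
    rw [hPf]
    exact RingHom.ker_isPrime f
  let A : Type := LamZ r ⧸ P
  let fb : A →+* K := Ideal.Quotient.lift P f (fun a ha => (hker a).2 ha)
  let fb' : A →+* K' := Ideal.Quotient.lift P f' (fun a ha => by
    rw [← hker'] at ha
    exact ha)
  have hfb0 : ∀ x, fb (Ideal.Quotient.mk P x) = f x := fun x => Ideal.Quotient.lift_mk P f _
  have hfb0' : ∀ x, fb' (Ideal.Quotient.mk P x) = f' x := fun x => Ideal.Quotient.lift_mk P f' _
  have hfb : Function.Injective fb := by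
    rw [injective_iff_map_eq_zero]
    intro a ha
    obtain ⟨x, rfl⟩ := Ideal.Quotient.mk_surjective a
    rw [hfb0] at ha
    exact Ideal.Quotient.eq_zero_iff_mem.2 ((hker x).1 ha)
  have hfb' : Function.Injective fb' := by
    rw [injective_iff_map_eq_zero]
    intro a ha
    obtain ⟨x, rfl⟩ := Ideal.Quotient.mk_surjective a
    rw [hfb0'] at ha
    refine Ideal.Quotient.eq_zero_iff_mem.2 ?_
    rw [← hker']
    exact ha
  letI : Algebra A K := fb.toAlgebra
  have halg : ∀ a, algebraMap A K a = fb a := fun _ => rfl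
  haveI : FaithfulSMul A K := (faithfulSMul_iff_algebraMap_injective A K).2 hfb
  haveI : IsFractionRing A K := by
    refine IsFractionRing.of_field A K fun x => ?_
    obtain ⟨u, v, hv, huv⟩ := hfrac x
    refine ⟨Ideal.Quotient.mk P u, Ideal.Quotient.mk P v, ?_⟩
    rw [halg, halg, hfb0, hfb0, eq_div_iff hv]
    exact huv
  let g : K →+* K' := IsFractionRing.lift hfb'
  have hnot : ¬ AlgebraicIndependent (ZMod p) (fun i => g (z i)) := by
    intro hind
    have h1 := hind.cardinalMk_le_trdeg
    have h2 := h1.trans htr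
    rw [Cardinal.mk_fin, Nat.cast_le] at h2
    omega
  rw [algebraicIndependent_iff] at hnot
  push Not at hnot
  obtain ⟨q0, hq0, hq1⟩ := hnot
  obtain ⟨q, hq⟩ := MvPolynomial.map_surjective (Int.castRingHom (ZMod p)) ZMod.intCast_surjective q0
  refine ⟨q, ?_, ?_⟩
  · apply g.injective
    rw [map_zero, ← hq0, ← hq, MvPolynomial.aeval_def, MvPolynomial.aeval_def, MvPolynomial.eval₂_map,
      MvPolynomial.eval₂_comp_left]
    congr 1
    exact RingHom.ext_int _ _
  · intro q' hqq
    apply hq1
    rw [← hq, hqq, map_mul, map_natCast]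
    have h0 : ((p : ℕ) : MvPolynomial (Fin (d + 1)) (ZMod p)) = 0 := by
      rw [← map_natCast (MvPolynomial.C : ZMod p →+* MvPolynomial (Fin (d + 1)) (ZMod p)),
        ZMod.natCast_self, map_zero]
    rw [h0, zero_mul]

end Pool.Agent.WPU
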