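import Pool.Agent.Lib.MP_2da099_lc.UE.PDefs
import Mathlib.RingTheory.Ideal.Operations
import Mathlib.Algebra.CharP.Lemmas
import Mathlib.RingTheory.Nilpotent.Basic

/-!
# B4: high powers of unipotent elements

HINTS.  `pow_unip`: if `x ≡ 1` modulo `I ^ j` (`j ≥ 1`) then `x ^ p ≡ 1` modulo `I ^ (j + 1)`: `x ^ p - 1 = (x - 1) (1 + x + .. + x ^ (p - 1))` and the
second factor is `p` modulo `I`.  By induction `u ^ (p ^ j) - 1 ∈ I ^ (j + 1)`.
`unit_of_ne`: `L.π` surjective, `x z = 1 + n` with `π n = 0`, so `n = p w` is nilpotent (`L.pe`), `1 + n` is a unit (`IsNilpotent.isUnit_one_add`).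
-/

set_option autoImplicit false

namespace Pool.Agent.WPU

open Pool.Agent.WPM Pool.Agent.WPR

private theorem b4_step {R : Type} [CommRing R] (p : ℕ) (I : Ideal R) (hpI : (p : R) ∈ I)
    (j : ℕ) (x : R) (hx : x - 1 ∈ I ^ (j + 1)) : x ^ p - 1 ∈ I ^ (j + 2) := by
  have hxI : x - 1 ∈ I := by
    have h := Ideal.pow_le_pow_right (I := I) (show 1 ≤ j + 1 by omega) hx
    rwa [pow_one] at h
  have h1 : ∑ i ∈ Finset.range p, x ^ i ∈ I := by
    have h2 : ∑ i ∈ Finset.range p, x ^ i = ∑ i ∈ Finset.range p, (x ^ i - 1) + (p : R) := by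
      rw [Finset.sum_sub_distrib]
      simp
    rw [h2]
    refine I.add_mem (I.sum_mem fun i _ => ?_) hpI
    have h3 : x - 1 ∣ x ^ i - 1 := by
      have h := sub_dvd_pow_sub_pow x 1 i
      rwa [one_pow] at h
    obtain ⟨c, hc⟩ := h3
    rw [hc]
    exact I.mul_mem_right c hxI
  have h4 : x ^ p - 1 = (x - 1) * ∑ i ∈ Finset.range p, x ^ i := (mul_geom_sum x p).symm
  rw [h4, pow_succ]
  exact Ideal.mul_mem_mul hx h1

theorem pow_unip {R : Type} [CommRing R] (p : ℕ) (hp : p.Prime) (I : Ideal R) (hpI : (p : R) ∈ I)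
    (k : ℕ) (hk : I ^ k = ⊥) (M : ℕ) (hM : k ≤ M + 1) (u : R) (hu : u - 1 ∈ I) :
    u ^ p ^ M = 1 := by
  have h : ∀ j : ℕ, u ^ p ^ j - 1 ∈ I ^ (j + 1) := by
    intro j
    induction j with
    | zero => simpa using hu
    | succ j ih =>
      rw [pow_succ p j, pow_mul]
      exact b4_step p I hpI j _ ih
  have h1 := Ideal.pow_le_pow_right hM (h M)
  rw [hk, Ideal.mem_bot] at h1
  exact sub_eq_zero.1 h1

theorem unit_of_ne {p e : ℕ} {K : Type} [Field K] (L : PLift p e K) (x : L.O) (hx : L.π x ≠ 0) :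
    IsUnit x := by
  obtain ⟨z, hz⟩ := L.surj (L.π x)⁻¹
  have h1 : L.π (x * z - 1) = 0 := by
    rw [map_sub, map_mul, hz, map_one, mul_inv_cancel₀ hx, sub_self]
  obtain ⟨w, hw⟩ := (L.ker _).1 h1
  have h2 : x * z = 1 + (p : L.O) * w := by
    rw [← hw]; ring
  have h3 : IsNilpotent ((p : L.O) * w) := ⟨e, by rw [mul_pow, L.pe, zero_mul]⟩
  have h4 : IsUnit (x * z) := by
    rw [h2]
    exact IsNilpotent.isUnit_one_add h3
  exact isUnit_of_mul_isUnit_left h4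

theorem pow_eq_of_eq {p e : ℕ} [Fact p.Prime] {K : Type} [Field K] (L : PLift p e K) (M : ℕ)
    (hM : e ≤ M + 1) (x z : L.O) (hx : L.π x ≠ 0) (hxz : L.π x = L.π z) :
    x ^ p ^ M = z ^ p ^ M := by
  obtain ⟨v, hv⟩ := unit_of_ne L x hx
  obtain ⟨w, hw⟩ := (L.ker (z - x)).1 (by rw [map_sub, hxz, sub_self])
  have h1 : z * ((v⁻¹ : (L.O)ˣ) : L.O) - 1 = (p : L.O) * (w * ((v⁻¹ : (L.O)ˣ) : L.O)) := by
    have h2 : x * ((v⁻¹ : (L.O)ˣ) : L.O) = 1 := by rw [← hv]; exact v.mul_inv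
    calc z * ((v⁻¹ : (L.O)ˣ) : L.O) - 1 = z * ((v⁻¹ : (L.O)ˣ) : L.O) - x * ((v⁻¹ : (L.O)ˣ) : L.O) := by
          rw [h2]
      _ = (z - x) * ((v⁻¹ : (L.O)ˣ) : L.O) := by ring
      _ = _ := by rw [hw]; ring
  have h3 : (z * ((v⁻¹ : (L.O)ˣ) : L.O)) ^ p ^ M = 1 := by
    refine pow_unip p (Fact.out : p.Prime) (Ideal.span {(p : L.O)})
      (Ideal.mem_span_singleton_self _) e ?_ M hM _ ?_
    · rw [Ideal.span_singleton_pow, L.pe]
      exact Ideal.span_singleton_eq_bot.2 rfl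
    · rw [h1]
      exact Ideal.mem_span_singleton.2 (dvd_mul_right _ _)
  have h4 : z = (z * ((v⁻¹ : (L.O)ˣ) : L.O)) * x := by
    rw [mul_assoc, ← hv, v.inv_mul, mul_one]
  calc x ^ p ^ M = (z * ((v⁻¹ : (L.O)ˣ) : L.O)) ^ p ^ M * x ^ p ^ M := by rw [h3, one_mul]
    _ = ((z * ((v⁻¹ : (L.O)ˣ) : L.O)) * x) ^ p ^ M := (mul_pow _ _ _).symm
    _ = z ^ p ^ M := by rw [← h4]

end Pool.Agent.WPU
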