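import Pool.Agent.Lib.MP_2da099_lc.UE.PDefs
import Mathlib.Algebra.CharP.Frobenius
import Mathlib.FieldTheory.IntermediateField.Adjoin.Basic
import Mathlib.LinearAlgebra.FiniteDimensional.Basic
import Mathlib.RingTheory.Algebraic.Integral

/-!
# B5a: a basis over the field of p-th powers

HINTS.  `F = (frobenius K p).fieldRange`; `K` is an `F`-algebra generated as a field by the finite set `S` of elements which are algebraic over
`F` (`x ^ p ∈ F`), so `K` is finite-dimensional over `F`: `IntermediateField.adjoin F S = ⊤` is finite-dimensional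
(`IntermediateField.finiteDimensional_adjoin` or similar).  Basis `b` (`Module.finBasis`), coefficients in `F` are `p`-th powers of
unique elements (compare `A09.lean`).
-/

set_option autoImplicit false

namespace Pool.Agent.WPU

open Pool.Agent.WPM Pool.Agent.WPR

private lemma b5a_fin (p : ℕ) [Fact p.Prime] (K : Type) [Field K] [CharP K p] (S : Set K)
    (hS : S.Finite) (hgen : Subfield.closure S = ⊤) :
    FiniteDimensional ((frobenius K p).fieldRange) K := by
  set F : Subfield K := (frobenius K p).fieldRange with hF
  have hint : ∀ x ∈ S, IsIntegral F x := by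
    intro x _
    refine IsIntegral.of_pow (Nat.Prime.pos Fact.out : 0 < p) ?_
    have hx : x ^ p ∈ F := ⟨x, by simp [frobenius_def]⟩
    exact isIntegral_algebraMap (R := F) (x := (⟨x ^ p, hx⟩ : F))
  have := hS.to_subtype
  have h1 : FiniteDimensional F (IntermediateField.adjoin F S) :=
    IntermediateField.finiteDimensional_adjoin hint
  have h2 : IntermediateField.adjoin F S = ⊤ := by
    rw [eq_top_iff]
    intro z _
    have hz : z ∈ Subfield.closure S := by rw [hgen]; trivial
    have hle : Subfield.closure S ≤ (IntermediateField.adjoin F S).toSubfield :=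
      Subfield.closure_le.2 (IntermediateField.subset_adjoin F S)
    exact hle hz
  rw [h2] at h1
  exact (IntermediateField.topEquiv (F := F) (E := K)).toLinearEquiv.finiteDimensional

theorem exists_pbasis (p : ℕ) [Fact p.Prime] (K : Type) [Field K] [CharP K p] (S : Set K)
    (hS : S.Finite) (hgen : Subfield.closure S = ⊤) :
    ∃ (d : ℕ) (b : Fin d → K), (∀ z : K, ∃ c : Fin d → K, z = ∑ j, c j ^ p * b j) ∧
      ∀ c : Fin d → K, ∑ j, c j ^ p * b j = 0 → ∀ j, c j = 0 := by
  have := b5a_fin p K S hS hgen
  let B := Module.finBasis ((frobenius K p).fieldRange) K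
  refine ⟨_, fun j => B j, ?_, ?_⟩
  · intro z
    have h : ∀ j, ∃ c : K, c ^ p = ((B.repr z j : (frobenius K p).fieldRange) : K) := by
      intro j
      obtain ⟨c, hc⟩ := (B.repr z j).2
      exact ⟨c, by simpa [frobenius_def] using hc⟩
    choose c hc using h
    refine ⟨c, ?_⟩
    conv_lhs => rw [← B.sum_repr z]
    refine Finset.sum_congr rfl fun j _ => ?_
    rw [hc j]
    rfl
  · intro c hc j
    have hli := Fintype.linearIndependent_iff.1 B.linearIndependent
      (fun j => (⟨c j ^ p, ⟨c j, by simp [frobenius_def]⟩⟩ : (frobenius K p).fieldRange))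
      (by
        rw [← hc]
        refine Finset.sum_congr rfl fun j _ => ?_
        rfl) j
    have h0 : c j ^ p = 0 := congrArg Subtype.val hli
    exact pow_eq_zero_iff (Nat.Prime.ne_zero Fact.out) |>.1 h0

end Pool.Agent.WPU
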