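import Pool.Agent.Lib.MP_2da099_lc.UE.PDefs
import Pool.Agent.Lib.MP_2da099_lc.UE.B3a
import Pool.Agent.Lib.MP_2da099_lc.UE.B5a

/-!
# N1: a small basis over the field of p-th powers

HINTS.  `exists_sepbasis` gives `t`, `y` algebraically independent modulo `p` with (last clause, `M = 1`)
`Subfield.closure (Set.range y ∪ (fun x => x ^ p ^ 1) '' S) = ⊤`.  (1) `t ≤ dd`: otherwise apply `hz` to `y ∘ Fin.castLE _`: `q` with `aeval q = 0`, so for
`rename (Fin.castLE _) q : SP t` the first clause gives `q''` with `rename .. q = p * q''`; compare coefficients (or apply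
`MvPolynomial.killCompl`) to get `q = p * q'`, a contradiction.  (2) `F = (frobenius K p).fieldRange`; `K` is spanned over `F` by the
`p ^ t` products `∏ i, y i ^ a i`, `a : Fin t → Fin p`: the span is closed under multiplication (reduce exponents, `y i ^ p ∈ F`), contains `F` and `y i`,
closed under inverses (`z⁻¹ = z ^ (p - 1) * (z ^ p)⁻¹`, `z ^ p ∈ F`), so it is a subfield (see `A09.lean`, the same argument), and contains
`Set.range y` and the `x ^ p`, `x ∈ S`.  So `Module.finrank F K ≤ p ^ t ≤ p ^ dd` (`finrank_span_finset_le_card`, `A09.lean`).  (3) The basis: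
as in `B5a.lean` (`Module.finBasis`), its proof can be copied.
-/

set_option autoImplicit false

namespace Pool.Agent.WPU

open Pool.Agent.WPM Pool.Agent.WPR

private theorem n1_deg (p : ℕ) (K : Type) [Field K] {t : ℕ} (y : Fin t → K)
    (hy : ∀ q : SP t, MvPolynomial.aeval y q = 0 → ∃ q' : SP t, q = p * q') (dd : ℕ)
    (hz : ∀ z : Fin (dd + 1) → K, ∃ q : SP (dd + 1), MvPolynomial.aeval z q = 0 ∧
      ∀ q' : SP (dd + 1), q ≠ p * q') : t ≤ dd := by
  by_contra hcon
  have hle : dd + 1 ≤ t := by omega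
  obtain ⟨q, hq0, hq⟩ := hz (y ∘ Fin.castLE hle)
  have hinj : Function.Injective (Fin.castLE hle) := Fin.castLE_injective hle
  obtain ⟨q'', hq''⟩ := hy (MvPolynomial.rename (Fin.castLE hle) q) (by
    rw [MvPolynomial.aeval_rename]
    exact hq0)
  refine hq (MvPolynomial.killCompl hinj q'') ?_
  have h1 := congrArg (MvPolynomial.killCompl hinj) hq''
  rw [MvPolynomial.killCompl_rename_app, map_mul, map_natCast] at h1
  exact h1

private theorem n1_span (p : ℕ) [Fact p.Prime] (K : Type) [Field K] [CharP K p] (S : Set K)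
    {t : ℕ} (y : Fin t → K)
    (htop : Subfield.closure (Set.range y ∪ (fun x => x ^ p ^ 1) '' S) = ⊤) :
    Submodule.span (frobenius K p).fieldRange
      (Set.range fun a : Fin t → Fin p => ∏ i, y i ^ (a i : ℕ)) = ⊤ := by
  set F : Subfield K := (frobenius K p).fieldRange with hF
  have hp : 0 < p := (Fact.out : p.Prime).pos
  have hpow : ∀ x : K, x ^ p ∈ F := fun x => ⟨x, by simp [frobenius_def]⟩
  -- all monomials
  have hmon : ∀ n : Fin t → ℕ, (∏ i, y i ^ n i) ∈ Submodule.span F
      (Set.range fun a : Fin t → Fin p => ∏ i, y i ^ (a i : ℕ)) := by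
    intro n
    have h1 : (∏ i, y i ^ n i) = (⟨(∏ i, y i ^ (n i / p)) ^ p, hpow _⟩ : F) •
        ∏ i, y i ^ (((⟨n i % p, Nat.mod_lt _ hp⟩ : Fin p) : ℕ)) := by
      show _ = (∏ i, y i ^ (n i / p)) ^ p * ∏ i, y i ^ (n i % p)
      rw [← Finset.prod_pow, ← Finset.prod_mul_distrib]
      refine Finset.prod_congr rfl fun i _ => ?_
      rw [← pow_mul, ← pow_add, Nat.div_add_mod']
    rw [h1]
    exact Submodule.smul_mem _ _ (Submodule.subset_span
      ⟨fun i => ⟨n i % p, Nat.mod_lt _ hp⟩, rfl⟩)
  have hint : ∀ x ∈ Set.range y, IsAlgebraic F x := by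
    intro x _
    refine IsIntegral.isAlgebraic (IsIntegral.of_pow hp ?_)
    exact isIntegral_algebraMap (R := F) (x := (⟨x ^ p, hpow x⟩ : F))
  have h1 : IntermediateField.adjoin F (Set.range y) = ⊤ := by
    rw [eq_top_iff]
    intro z _
    have hz : z ∈ Subfield.closure (Set.range y ∪ (fun x => x ^ p ^ 1) '' S) := by
      rw [htop]; trivial
    have hle : Subfield.closure (Set.range y ∪ (fun x => x ^ p ^ 1) '' S) ≤
        (IntermediateField.adjoin F (Set.range y)).toSubfield := by
      refine Subfield.closure_le.2 (Set.union_subset (IntermediateField.subset_adjoin F _) ?_)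
      rintro _ ⟨x, _, rfl⟩
      have h3 := (IntermediateField.adjoin F (Set.range y)).algebraMap_mem (⟨x ^ p, hpow x⟩ : F)
      have h4 : (fun x : K => x ^ p ^ 1) x = x ^ p := by simp
      rw [h4]
      exact h3
    exact hle hz
  rw [Submodule.eq_top_iff']
  intro z
  have h2 : z ∈ Algebra.adjoin F (Set.range y) := by
    rw [← IntermediateField.adjoin_toSubalgebra_of_isAlgebraic hint, h1]
    trivial
  rw [Algebra.adjoin_range_eq_range_aeval] at h2
  obtain ⟨q, hq⟩ := h2
  have hq' : MvPolynomial.aeval y q = z := hq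
  rw [← hq', MvPolynomial.aeval_def, MvPolynomial.eval₂_eq']
  refine Submodule.sum_mem _ fun m _ => ?_
  rw [← Algebra.smul_def]
  exact Submodule.smul_mem _ _ (hmon m)

theorem exists_pbasis_le (p : ℕ) [Fact p.Prime] (K : Type) [Field K] [CharP K p] (S : Set K)
    (hS : S.Finite) (hgen : Subfield.closure S = ⊤) (dd : ℕ)
    (hz : ∀ z : Fin (dd + 1) → K, ∃ q : SP (dd + 1), MvPolynomial.aeval z q = 0 ∧
      ∀ q' : SP (dd + 1), q ≠ p * q') :
    ∃ (d : ℕ) (b : Fin d → K), d ≤ p ^ dd ∧ (∀ z : K, ∃ c : Fin d → K, z = ∑ j, c j ^ p * b j) ∧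
      ∀ c : Fin d → K, ∑ j, c j ^ p * b j = 0 → ∀ j, c j = 0 := by
  classical
  obtain ⟨t, y, θ, g, hy, -, -, -, -, -, -, hlast⟩ := exists_sepbasis p K S hS hgen
  have ht : t ≤ dd := n1_deg p K y hy dd hz
  have hspan := n1_span p K S y (hlast S hgen 1)
  set P : Finset K := Finset.univ.image
    (fun a : Fin t → Fin p => ∏ i, y i ^ (a i : ℕ)) with hP
  have hPc : P.card ≤ p ^ t := by
    refine Finset.card_image_le.trans ?_
    rw [Finset.card_univ, Fintype.card_fun, Fintype.card_fin, Fintype.card_fin]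
  have hPs : Submodule.span (frobenius K p).fieldRange (P : Set K) = ⊤ := by
    rw [← hspan]
    congr 1
    ext x
    rw [Finset.mem_coe, hP, Finset.mem_image]
    constructor
    · rintro ⟨a, -, h⟩
      exact ⟨a, h⟩
    · rintro ⟨a, h⟩
      exact ⟨a, Finset.mem_univ _, h⟩
  have hfin : Module.Finite (frobenius K p).fieldRange K := ⟨⟨P, hPs⟩⟩
  have hrank : Module.finrank (frobenius K p).fieldRange K ≤ P.card := by
    have h5 := finrank_span_finset_le_card (R := (frobenius K p).fieldRange) P
    unfold Set.finrank at h5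
    rw [hPs, finrank_top] at h5
    exact h5
  let B := Module.finBasis ((frobenius K p).fieldRange) K
  refine ⟨_, fun j => B j, ?_, ?_, ?_⟩
  · exact hrank.trans (hPc.trans (Nat.pow_le_pow_right (Fact.out : p.Prime).pos ht))
  · intro z
    have h : ∀ j, ∃ c : K, c ^ p = ((B.repr z j : (frobenius K p).fieldRange) : K) := by
      intro j
      obtain ⟨c, hc⟩ := (B.repr z j).2
      exact ⟨c, by simpa [frobenius_def] using hc⟩
    choose c hc using h
    refine ⟨c, ?_⟩
    conv_lhs => rw [← B.sum_repr z]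
    refine Finset.sum_congr rfl fun j _ => ?_
    rw [hc j]
    rfl
  · intro c hc j
    have hli := Fintype.linearIndependent_iff.1 B.linearIndependent
      (fun j => (⟨c j ^ p, ⟨c j, by simp [frobenius_def]⟩⟩ : (frobenius K p).fieldRange))
      (by
        rw [← hc]
        refine Finset.sum_congr rfl fun j _ => ?_
        rfl) j
    have h0 : c j ^ p = 0 := congrArg Subtype.val hli
    exact pow_eq_zero_iff (Nat.Prime.ne_zero Fact.out) |>.1 h0

end Pool.Agent.WPU
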