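import Pool.Agent.Lib.MP_2da099_lc.UE.M9

/-!
# N5: sound data give a decision procedure in time n ^ (3 t / (t + 1))

HINTS.  Merge `M9.lean` (the private `m9_dcost`, `m9_ct_gdecide` must be copied with new names) and `F02.lean` (`good_of_sound`, the same proof with
`sum_bound p t D.s (Fintype.card U) D.d`, `e = Fintype.card U`).  `R 0 ≤ D.s` (`gstart_card`), `R (k + 1) ≤ D.d * R k`: the pruned list is not longer than
the list of the new rows (a lemma on `gprune`, `gins`: `(gins B v).length ≤ B.length + 1`, so `(gprune vs).length ≤ vs.length`; `gnews_length`),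
`R (k + 1) ≤ card U * N (k + 1)` (`gprune_card`).
-/

set_option autoImplicit false

namespace Pool.Agent.WPU

open Pool.Agent.Lib.PolyTime Pool.Agent.WPM Pool.Agent.WPR

/-- The cost of the decision procedure. -/
private noncomputable def n5_dcost {p r : ℕ} [NeZero p] {U : Type} [AddCommGroup U] (D : GD p r U)
    (w : List (Letter r)) : ℕ :=
  w.length + foldCost (fun y => glcost D y.2) (fun y => glevel D y.2) w (gstart D w) +
    ((w.foldl (fun x _ => glevel D x) (gstart D w)).1.length +
      ((w.foldl (fun x _ => glevel D x) (gstart D w)).2.length + 1) *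
        (mxl (w.foldl (fun x _ => glevel D x) (gstart D w)).2 + 1))

private theorem n5_ct_gdecide {p r : ℕ} [NeZero p] {U : Type} [AddCommGroup U] [Enc U] [Finite U]
    (D : GD p r U) : CT (gdecide D) (n5_dcost D) := by
  obtain ⟨κ, hκ⟩ := size_fin (Letter r)
  obtain ⟨κ3, hκ3⟩ := size_list_fin (Letter r)
  have a1 : CT (fun w : List (Letter r) => (w, w)) (fun w => size w) := CT.dup
  have a2 : CT (fun x : List (Letter r) × List (Letter r) => (x.1, gstart D x.2)) _ :=
    CT.second (γ := List (Letter r)) (ct_gstart D)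
  have b1 : CT (fun x : Letter r × (List (Sg r) × List (List U)) => x.2)
      (fun x => size x.1) := CT.snd
  have b2 : CT (fun x : Letter r × (List (Sg r) × List (List U)) => glevel D x.2)
      (fun x => size x.1 + glcost D x.2) := (ct_glevel D).comp b1
  have a3 := CT.foldl b2
  have a4 := ct_gfinish r U
  have all := a4.comp (a3.comp (a2.comp a1))
  refine (all.mono (3 * κ3 + κ + 3) (fun w => ?_)).congr (fun w => rfl)
  have s1 : size w ≤ κ3 * (w.length + 1) := hκ3 w
  have s2 := k06_foldCost_add (fun y : Letter r × (List (Sg r) × List (List U)) =>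
    glcost D y.2) (fun a => size a) (fun y => glevel D y.2) κ hκ w (gstart D w)
  show size w + (size w + w.length) + (size w +
      foldCost (fun y : Letter r × (List (Sg r) × List (List U)) =>
        size y.1 + glcost D y.2) (fun y => glevel D y.2) w (gstart D w)) +
    ((w.foldl (fun x _ => glevel D x) (gstart D w)).1.length +
      ((w.foldl (fun x _ => glevel D x) (gstart D w)).2.length + 1) *
        (mxl (w.foldl (fun x _ => glevel D x) (gstart D w)).2 + 1)) ≤
    (3 * κ3 + κ + 3) * (n5_dcost D w + 1)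
  unfold n5_dcost
  generalize foldCost (fun y : Letter r × (List (Sg r) × List (List U)) =>
    glcost D y.2) (fun y => glevel D y.2) w (gstart D w) = F at *
  generalize ((w.foldl (fun x _ => glevel D x) (gstart D w)).1.length +
      ((w.foldl (fun x _ => glevel D x) (gstart D w)).2.length + 1) *
        (mxl (w.foldl (fun x _ => glevel D x) (gstart D w)).2 + 1)) = G at *
  have e : (3 * κ3 + κ + 3) * (w.length + F + G + 1) = 3 * (κ3 * (w.length + 1)) +
    3 * κ3 * (F + G) + κ * w.length + κ * (F + G + 1) + 3 * (w.length + F + G + 1) := by ring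
  rw [e]
  omega

theorem good_of_gsound {p r : ℕ} [Fact p.Prime] [NeZero p] {U : Type} [AddCommGroup U] [Finite U]
    (t : ℕ) (D : GD p r U) (hd : D.d ≤ p ^ t) (Z : List (Letter r) → Prop) (h : D.Sound Z) :
    Good r t Z := by
  classical
  let _ : Fintype U := Fintype.ofFinite U
  let _ : Enc U := encFintype U
  obtain ⟨E, hE⟩ : ∃ E, E = Fintype.card U := ⟨_, rfl⟩
  have hp2 : 2 ≤ p := (Fact.out : p.Prime).two_le
  obtain ⟨C, hC⟩ := sum_bound p t D.s E D.d hp2 hd
  refine ⟨gdecide D, n5_dcost D, C + 1 + (1 + (D.s + E + 1) * 2), n5_ct_gdecide D,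
    gdecide_iff D Z h, fun w => ?_⟩
  set x : ℕ → List (Sg r) × List (List U) := fun k => (glevel D)^[k] (gstart D w) with hx
  have hx0 : x 0 = gstart D w := rfl
  have hxs : ∀ k, x (k + 1) = glevel D (x k) := fun k => Function.iterate_succ_apply' _ _ _
  have hrows : ∀ k, ∀ row ∈ (x k).2, row.length = (x k).1.length := by
    intro k
    induction k with
    | zero => exact gstart_rows D w
    | succ k ih => rw [hxs]; exact glevel_rows D (x k) ih
  set N : ℕ → ℕ := fun k => (x k).1.length with hN
  set R : ℕ → ℕ := fun k => (x k).2.length with hR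
  have hN0 : N 0 ≤ w.length := by
    change (gstart D w).1.length ≤ w.length
    rw [gstart_length_fst]
    have hq : 0 < D.q := Nat.pos_of_ne_zero D.hq.ne
    rw [Nat.div_le_iff_le_mul_add_pred hq]
    have h1 : w.length ≤ D.q * w.length := Nat.le_mul_of_pos_left _ hq
    omega
  have hNs : ∀ k, N (k + 1) = (N k + p - 1) / p := by
    intro k
    change (x (k + 1)).1.length = _
    rw [hxs, glevel_length_fst]
  have hR0 : R 0 ≤ D.s := le_of_eq (gstart_card D w)
  have hx2 : ∀ k, (x (k + 1)).2 = gprune (gnews D (ann p r (x k).1) (x k).2) := by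
    intro k
    rw [hxs]
    rfl
  have hRs : ∀ k, R (k + 1) ≤ D.d * R k := by
    intro k
    change (x (k + 1)).2.length ≤ D.d * (x k).2.length
    rw [hx2]
    refine (gprune_length_le _).trans ?_
    rw [gnews_length]
  have hRe : ∀ k, R (k + 1) ≤ E * N (k + 1) := by
    intro k
    change (x (k + 1)).2.length ≤ E * (x (k + 1)).1.length
    rw [hx2, hE]
    refine gprune_card _ _ (fun v hv => ?_)
    rw [hxs]
    exact gnews_rows D (x k) (hrows k) v hv
  have hNstep : ∀ k, N (k + 1) ≤ max 1 (N k - 1) := by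
    intro k
    rw [hNs]
    rcases Nat.lt_or_ge (N k) 2 with h1 | h1
    · refine le_trans ?_ (le_max_left _ _)
      rw [Nat.div_le_iff_le_mul_add_pred (by omega)]
      omega
    · refine le_trans ?_ (le_max_right _ _)
      rw [Nat.div_le_iff_le_mul_add_pred (by omega)]
      have h2 : 2 * (N k - 1) ≤ p * (N k - 1) := Nat.mul_le_mul_right _ hp2
      omega
  have hNk : ∀ k, N k ≤ max 1 (w.length - k) := by
    intro k
    induction k with
    | zero => exact hN0.trans (le_max_right _ _)
    | succ k ih =>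
      have := hNstep k
      omega
  have hNn : N w.length ≤ 1 := by
    have := hNk w.length
    omega
  have hRn : R w.length ≤ D.s + E := by
    rcases Nat.eq_zero_or_eq_succ_pred w.length with h0 | h0
    · rw [h0]; omega
    · have h1 := hRe (w.length - 1)
      have h2 : w.length - 1 + 1 = w.length := by
        rw [h0]; rfl
      rw [h2] at h1
      have h3 : E * N w.length ≤ E * 1 := Nat.mul_le_mul_left _ hNn
      omega
  have hlc : ∀ k, glcost D (x k) ≤ (R k + 1) * (2 * N k + 1) +
      (D.d * R k + 1) * ((R (k + 1) + 1) * (N (k + 1) + 1)) := by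
    intro k
    have h1 : mxl (x k).2 ≤ N k := mxl_le _ _ (fun row hr => (hrows k row hr).le)
    have h2 : mxl (gnews D (ann p r (x k).1) (x k).2) ≤ N (k + 1) := by
      refine mxl_le _ _ (fun row hr => ?_)
      have h3 := gnews_rows D (x k) (hrows k) row hr
      change row.length ≤ (x (k + 1)).1.length
      rw [hxs]
      exact h3.le
    unfold glcost
    have h4 : (glevel D (x k)).2.length = R (k + 1) := by
      change _ = (x (k + 1)).2.length
      rw [hxs]
    rw [h4, gnews_length]
    refine Nat.add_le_add (Nat.mul_le_mul_left _ ?_) (Nat.mul_le_mul_left _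
      (Nat.mul_le_mul_left _ (Nat.add_le_add_right h2 1)))
    change N k + mxl (x k).2 + 1 ≤ 2 * N k + 1
    omega
  have hfold : foldCost (fun y : Letter r × _ => glcost D y.2) (fun y => glevel D y.2) w
      (gstart D w) ≤ ∑ k ∈ Finset.range w.length, ((R k + 1) * (2 * N k + 1) +
        (D.d * R k + 1) * ((R (k + 1) + 1) * (N (k + 1) + 1))) := by
    rw [f02_foldCost_iter (glcost D) (glevel D)]
    exact Finset.sum_le_sum (fun k _ => hlc k)
  have hfin : w.foldl (fun x _ => glevel D x) (gstart D w) = x w.length :=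
    List.foldl_const _ _ _
  have hcost : n5_dcost D w ≤ w.length + (∑ k ∈ Finset.range w.length,
      ((R k + 1) * (2 * N k + 1) +
        (D.d * R k + 1) * ((R (k + 1) + 1) * (N (k + 1) + 1)))) +
        (1 + (D.s + E + 1) * 2) := by
    unfold n5_dcost
    rw [hfin]
    refine Nat.add_le_add (Nat.add_le_add_left hfold _) ?_
    have h1 : mxl (x w.length).2 ≤ 1 :=
      (mxl_le _ _ (fun row hr => (hrows w.length row hr).le)).trans hNn
    exact Nat.add_le_add hNn (Nat.mul_le_mul (Nat.add_le_add_right hRn 1) (by omega))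
  have hsum := hC w.length N R hN0 (fun k => (hNs k).le) hR0 hRs hRe
  have hpow : ((w.length : ℝ) + 1) ≤ ((w.length : ℝ) + 1) ^ expo t := by
    have h1 : (1 : ℝ) ≤ (w.length : ℝ) + 1 := by
      have : (0 : ℝ) ≤ (w.length : ℝ) := Nat.cast_nonneg _
      linarith
    calc (w.length : ℝ) + 1 = ((w.length : ℝ) + 1) ^ (1 : ℝ) := (Real.rpow_one _).symm
      _ ≤ ((w.length : ℝ) + 1) ^ expo t := Real.rpow_le_rpow_of_exponent_le h1 (one_le_expo t)
  have hnn : (0 : ℝ) ≤ (w.length : ℝ) := Nat.cast_nonneg _
  have hcost' : (n5_dcost D w : ℝ) ≤ w.length + (∑ k ∈ Finset.range w.length,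
      (((R k + 1) * (2 * N k + 1) +
        (D.d * R k + 1) * ((R (k + 1) + 1) * (N (k + 1) + 1)) : ℕ) : ℝ))
        + (1 + (D.s + E + 1) * 2) := by
    have := hcost
    exact_mod_cast this
  have hB : (0 : ℝ) ≤ 1 + ((D.s : ℝ) + E + 1) * 2 := by positivity
  have hB2 : 1 + ((D.s : ℝ) + E + 1) * 2 ≤
      (1 + ((D.s : ℝ) + E + 1) * 2) * ((w.length : ℝ) + 1) ^ expo t := by
    have : (1 : ℝ) ≤ ((w.length : ℝ) + 1) ^ expo t := by linarith
    nlinarith
  refine hcost'.trans ?_
  have : (C + 1 + (1 + ((D.s : ℝ) + E + 1) * 2)) * ((w.length : ℝ) + 1) ^ expo t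
      = C * ((w.length : ℝ) + 1) ^ expo t + ((w.length : ℝ) + 1) ^ expo t
        + (1 + ((D.s : ℝ) + E + 1) * 2) * ((w.length : ℝ) + 1) ^ expo t := by ring
  rw [this]
  linarith

end Pool.Agent.WPU
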