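import Pool.Agent.Lib.MP_2da099_lc.UE.N0
import Pool.Agent.Lib.MP_2da099_lc.UE.N3
import Pool.Agent.Lib.MP_2da099_lc.UE.N4
import Pool.Agent.Lib.MP_2da099_lc.UE.N5
import Pool.Agent.Lib.MP_2da099_lc.F03

/-!
# N6: a torsion component, sharp exponent
-/

set_option autoImplicit false

namespace Pool.Agent.WPU

open Pool.Agent.Lib.PolyTime Pool.Agent.WPM Pool.Agent.WPR

theorem good_comp_p {r d : ℕ} (Q : Submodule (LamZ r) (Letter r → LamZ r)) (P : Ideal (LamZ r))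
    [P.IsPrime] (p : ℕ) (hp : p.Prime) (hpP : (p : LamZ r) ∈ P) (htr : TrLe p d P)
    (h1 : ∀ f, f ∉ P → ∀ x, f • x ∈ Q → x ∈ Q) (k : ℕ) (h2 : ∀ f ∈ P ^ k, ∀ x, f • x ∈ Q) :
    Pool.Agent.WPM.Good r d (fun w : List (Letter r) => vecW w ∈ Q) := by
  have : Fact p.Prime := ⟨hp⟩
  have : NeZero p := ⟨hp.ne_zero⟩
  obtain ⟨O, iO, t, d', s, q, hq, ξ, yu, φ, α, hdd, hp0, hinj, hφ, hgen, hw⟩ :=
    exists_pdata_le Q P p hpP h1 k h2 d htr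
  have hN0 : ((p ^ (k + 1) : ℕ) : O) = 0 := by
    rw [Nat.cast_pow, hp0]
  obtain ⟨U, iU, fU, D, hDd, hD⟩ := exists_sound_le (p := p) (N := p ^ (k + 1))
    (pow_pos hp.pos _) hN0 ξ yu φ α hinj hφ hgen
  exact (good_of_gsound d D (by rw [hDd]; exact hdd) _ hD).iff hw

end Pool.Agent.WPU
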