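import Pool.Agent.Lib.MP_2da099_lc.UE.A9e

/-!
# A9f: holonomic data of a function field, any level
-/

set_option autoImplicit false

namespace Pool.Agent.WPU

open Pool.Agent.Lib.PolyTime Pool.Agent.WPM Pool.Agent.WPR

theorem exists_holN {r k J t : ℕ} (L : Type) [Field L] [Algebra (FractionRing (SP t)) L]
    [FiniteDimensional (FractionRing (SP t)) L] (η : Fin r → Lˣ)
    (κ : Fin J → Letter r → (Fin r → Fin k) → L) :
    ∃ (H : Hol r) (Th : Fin J → Letter r → (Fin r → Fin k) → Matrix (Fin H.d) (Fin H.d) (SP H.t)),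
      ∀ (w : List (Letter r)) (N : ℕ), w.length ≤ N → ∀ j : Fin J, esum η (κ j) w = 0 ↔
        (((posl 0 w).map (fun x => (thv (Th j x.2) x.1).mulVec (H.Psi (2 * N) x.1))).sum :
          Fin H.d → SP H.t) = 0 := by
  classical
  choose D hadd hmul hD using fun i : Fin t => exists_deriv L i
  obtain ⟨X, hX⟩ : ∃ X : Finset L, (∀ l : Letter r, mexp η (sz (sgl l)) ∈ X) ∧
      (∀ (i : Fin t) (j : Fin r), D i (η j) * ((η j)⁻¹ : Lˣ) ∈ X) ∧
      (∀ (j : Fin J) (l : Letter r) (γ : Fin r → Fin k), κ j l γ ∈ X) := by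
    refine ⟨(Finset.univ.image fun l : Letter r => mexp η (sz (sgl l))) ∪
      ((Finset.univ.image fun p : Fin t × Fin r => D p.1 (η p.2) * ((η p.2)⁻¹ : Lˣ)) ∪
        (Finset.univ.image fun p : Fin J × (Letter r × (Fin r → Fin k)) => κ p.1 p.2.1 p.2.2)), ?_, ?_, ?_⟩
    · intro l
      exact Finset.mem_union_left _ (Finset.mem_image_of_mem (fun l : Letter r => mexp η (sz (sgl l))) (Finset.mem_univ l))
    · intro i j
      exact Finset.mem_union_right _ (Finset.mem_union_left _ (Finset.mem_image_of_mem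
        (fun p : Fin t × Fin r => D p.1 (η p.2) * ((η p.2)⁻¹ : Lˣ)) (Finset.mem_univ (i, j))))
    · intro j l γ
      exact Finset.mem_union_right _ (Finset.mem_union_right _ (Finset.mem_image_of_mem
        (fun p : Fin J × (Letter r × (Fin r → Fin k)) => κ p.1 p.2.1 p.2.2) (Finset.mem_univ (j, l, γ))))
  obtain ⟨hX1, hX2, hX3⟩ := hX
  obtain ⟨d, b, g, Mx, Γ, e, hg, hM, hΓ, he⟩ := exists_mats L X D
  obtain ⟨Psi, hPsi⟩ := exists_psi L b g (fun l => Mx (mexp η (sz (sgl l)))) e η
    (fun l y κ => hM _ (hX1 l) y κ) he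
  have hinj : Function.Injective (algebraMap (SP t) (FractionRing (SP t))) := IsFractionRing.injective _ _
  have hG : algebraMap (SP t) (FractionRing (SP t)) g ≠ 0 := by
    rw [Ne, map_eq_zero_iff _ hinj]
    exact hg
  -- the first recurrence
  have hstay : ∀ k c, nrm c ≤ k → Psi (k + 1) c = g • Psi k c := by
    intro k c hc
    funext κ
    apply hinj
    rw [Pi.smul_apply, smul_eq_mul, map_mul, hPsi (k + 1) c κ (by omega), hPsi k c κ hc]
    ring
  have hmove : ∀ k c (o : Option (Letter r)), nrm c ≤ k → Psi (k + 1) (c + mvo o) =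
      (match o with
        | none => g • (1 : Matrix (Fin d) (Fin d) (SP t))
        | some l => Mx (mexp η (sz (sgl l)))).mulVec (Psi k c) := by
    intro k c o hc
    rcases o with _ | l
    · change Psi (k + 1) (c + 0) = (g • (1 : Matrix (Fin d) (Fin d) (SP t))).mulVec (Psi k c)
      rw [add_zero, Matrix.smul_mulVec, Matrix.one_mulVec]
      exact hstay k c hc
    · change Psi (k + 1) (c + sz (sgl l)) = (Mx (mexp η (sz (sgl l)))).mulVec (Psi k c)
      funext κ
      apply hinj
      have h1 : nrm (c + sz (sgl l)) ≤ k + 1 := by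
        have h2 := a9e_nrm_add c (sz (sgl l))
        have h3 := a9e_nrm_sgl l
        omega
      rw [hPsi (k + 1) _ κ h1, a9e_mul b g _ _ (hM _ (hX1 l)) (k + 1) (mexp η c) (Psi k c) (fun κ => hPsi k c κ hc) κ,
        mexp_add, mul_comm (mexp η c)]
  have hderiv : ∀ k c i κ, nrm c ≤ k → g * MvPolynomial.pderiv i (Psi k c κ) =
      k • (MvPolynomial.pderiv i g * Psi k c κ) +
        ((MvPolynomial.pderiv i g) • (1 : Matrix (Fin d) (Fin d) (SP t)) - Γ i).mulVec (Psi k c) κ +
      ∑ j, c j • (Mx (D i (η j) * ((η j)⁻¹ : Lˣ))).mulVec (Psi k c) κ := by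
    intro k c i κ hc
    apply hinj
    have h1 := deriv_coord L b g i (D i) (hadd i) (hmul i) (hD i) (Γ i) (hΓ i) k (mexp η c)
      (∑ j, (c j : L) * (D i (η j) * ((η j)⁻¹ : Lˣ))) (deriv_mexp (D i) (hadd i) (hmul i) η c) (Psi k c)
      (fun κ => hPsi k c κ hc) κ
    rw [h1]
    have h2 : (algebraMap (SP t) (FractionRing (SP t)) g) ^ (k + 2) *
        b.repr ((∑ j, (c j : L) * (D i (η j) * ((η j)⁻¹ : Lˣ))) * mexp η c) κ =
        algebraMap (SP t) (FractionRing (SP t)) (∑ j, c j • (Mx (D i (η j) * ((η j)⁻¹ : Lˣ))).mulVec (Psi k c) κ) := by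
      rw [map_sum, Finset.sum_mul, a9e_repr_sum, Finset.mul_sum]
      refine Finset.sum_congr rfl fun j _ => ?_
      rw [map_zsmul, a9e_mul b g _ _ (hM _ (hX2 i j)) (k + 1) (mexp η c) (Psi k c) (fun κ => hPsi k c κ hc) κ,
        mul_assoc, a9e_repr_int, zsmul_eq_mul]
      ring
    rw [h2, Matrix.sub_mulVec, Matrix.smul_mulVec, Matrix.one_mulVec, Pi.sub_apply, Pi.smul_apply, smul_eq_mul]
    rw [map_add, map_add, map_sub, add_smul, one_smul, map_add]
    ring
  refine ⟨⟨t, d, g, _, fun i => (MvPolynomial.pderiv i g) • (1 : Matrix (Fin d) (Fin d) (SP t)) - Γ i,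
    fun i j => Mx (D i (η j) * ((η j)⁻¹ : Lˣ)), Psi, hstay, hmove, hderiv⟩,
    fun j l γ => Mx (κ j l γ), ?_⟩
  intro w N hNw j
  -- the value of one summand
  have key : ∀ x ∈ posl 0 w, ∀ κ' : Fin d, algebraMap (SP t) (FractionRing (SP t))
      ((thv (fun γ => Mx (κ j x.2 γ)) x.1).mulVec (Psi (2 * N) x.1) κ') =
      (algebraMap (SP t) (FractionRing (SP t)) g) ^ (2 * N + 2) *
        b.repr (pval (κ j x.2) x.1 * mexp η x.1) κ' := by
    intro x hx κ'
    have hc : nrm x.1 ≤ 2 * N := by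
      have := nrm_posl w x hx
      omega
    unfold thv pval
    rw [Matrix.sum_mulVec, Finset.sum_apply, map_sum, Finset.sum_mul, a9e_repr_sum, Finset.mul_sum]
    refine Finset.sum_congr rfl fun γ _ => ?_
    rw [Matrix.smul_mulVec, Pi.smul_apply, map_zsmul, a9e_mul b g _ _ (hM _ (hX3 j x.2 γ)) (2 * N + 1)
      (mexp η x.1) (Psi (2 * N) x.1) (fun κ => hPsi _ _ κ hc) κ']
    have h3 : κ j x.2 γ * (∏ i, (x.1 i : L) ^ (γ i : ℕ)) * mexp η x.1 =
        ((∏ i, x.1 i ^ (γ i : ℕ) : ℤ) : L) * (κ j x.2 γ * mexp η x.1) := by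
      push_cast
      ring
    rw [h3, a9e_repr_int, zsmul_eq_mul]
    ring
  -- the sums
  have hsumK : ∀ κ' : Fin d, algebraMap (SP t) (FractionRing (SP t))
      ((((posl 0 w).map (fun x => (thv (fun γ => Mx (κ j x.2 γ)) x.1).mulVec (Psi (2 * N) x.1))).sum :
        Fin d → SP t) κ') =
      (algebraMap (SP t) (FractionRing (SP t)) g) ^ (2 * N + 2) * b.repr (esum η (κ j) w) κ' := by
    intro κ'
    have e1 : ∀ l : List ((Fin r → ℤ) × Letter r), (∀ x ∈ l, x ∈ posl 0 w) → algebraMap (SP t) (FractionRing (SP t))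
        (((l.map (fun x => (thv (fun γ => Mx (κ j x.2 γ)) x.1).mulVec (Psi (2 * N) x.1))).sum :
          Fin d → SP t) κ') = (algebraMap (SP t) (FractionRing (SP t)) g) ^ (2 * N + 2) *
        b.repr ((l.map (fun x => pval (κ j x.2) x.1 * mexp η x.1)).sum) κ' := by
      intro l
      induction l with
      | nil =>
        intro _
        simp
      | cons x l ih =>
        intro hl
        rw [List.map_cons, List.sum_cons, List.map_cons, List.sum_cons, Pi.add_apply, map_add,
          ih (fun y hy => hl y (List.mem_cons_of_mem _ hy)), key x (hl x List.mem_cons_self), map_add,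
          Finsupp.add_apply]
        ring
    exact e1 _ (fun x hx => hx)
  have hN : (algebraMap (SP t) (FractionRing (SP t)) g) ^ (2 * N + 2) ≠ 0 := pow_ne_zero _ hG
  change esum η (κ j) w = 0 ↔ (((posl 0 w).map (fun x => (thv (fun γ => Mx (κ j x.2 γ)) x.1).mulVec
    (Psi (2 * N) x.1))).sum : Fin d → SP t) = 0
  constructor
  · intro h
    funext κ'
    apply hinj
    rw [hsumK κ', h]
    simp
  · intro h
    apply b.repr.injective
    rw [map_zero]
    ext κ'
    have h4 := hsumK κ'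
    rw [h, Pi.zero_apply, map_zero] at h4
    rcases mul_eq_zero.1 h4.symm with h5 | h5
    · exact absurd h5 hN
    · rw [h5]
      rfl

end Pool.Agent.WPU
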