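import Pool.Agent.Lib.MP_2da099_lc.UE.PDefs
import Pool.Agent.Lib.MP_2da099_lc.A04
import Pool.Agent.Lib.MP_2da099_lc.UE.A2

/-!
# B1: all primary components

HINTS.  `lasker` with `isNoetherian_lamZ` (row A2).  If `P i` contains a nonzero integer then it contains a prime number: factor the absolute
value (`P i` is prime and contains the product of the prime factors; `1 ∉ P i`).
-/

set_option autoImplicit false

namespace Pool.Agent.WPU

open Pool.Agent.Lib.PolyTime Pool.Agent.WPM Pool.Agent.WPR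

private theorem exists_prime_mem {R : Type} [CommRing R] (P : Ideal R) (hP : P.IsPrime) :
    ∀ n : ℕ, 0 < n → (n : R) ∈ P → ∃ p : ℕ, p.Prime ∧ (p : R) ∈ P := by
  intro n
  induction n using Nat.strong_induction_on with
  | _ n ih =>
    intro hn0 hn
    by_cases h1 : n = 1
    · subst h1
      rw [Nat.cast_one] at hn
      exact absurd ((Ideal.eq_top_iff_one P).mpr hn) hP.ne_top
    · obtain ⟨c, hc⟩ := Nat.minFac_dvd n
      have hp := Nat.minFac_prime h1
      have h2 : ((n.minFac : ℕ) : R) * ((c : ℕ) : R) ∈ P := by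
        rw [← Nat.cast_mul, ← hc]
        exact hn
      rcases hP.mem_or_mem h2 with h3 | h3
      · exact ⟨_, hp, h3⟩
      · have hc0 : 0 < c := by
          rcases Nat.eq_zero_or_pos c with h | h
          · rw [h, mul_zero] at hc
            omega
          · exact h
        have hcn : c < n := by
          have := hp.two_le
          calc c < 2 * c := by omega
            _ ≤ n.minFac * c := Nat.mul_le_mul_right c this
            _ = n := hc.symm
        exact ih c hcn hc0 h3

theorem exists_comps_all {r : ℕ} (N : Submodule (LamZ r) (Letter r → LamZ r)) :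
    ∃ (m : ℕ) (Q : Fin m → Submodule (LamZ r) (Letter r → LamZ r)) (P : Fin m → Ideal (LamZ r)),
      (∀ x, x ∈ N ↔ ∀ i, x ∈ Q i) ∧
      ∀ i, (P i).IsPrime ∧
        ((∀ n : ℤ, n ≠ 0 → (n : LamZ r) ∉ P i) ∨ ∃ p : ℕ, p.Prime ∧ (p : LamZ r) ∈ P i) ∧
        (∀ f, f ∉ P i → ∀ x, f • x ∈ Q i → x ∈ Q i) ∧
        ∃ k : ℕ, ∀ f ∈ (P i) ^ k, ∀ x, f • x ∈ Q i := by
  classical
  haveI : IsNoetherianRing (LamZ r) := isNoetherian_lamZ r
  obtain ⟨m, Q, P, hQ, hP⟩ := lasker (LamZ r) (Letter r) N
  refine ⟨m, Q, P, hQ, fun i => ?_⟩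
  obtain ⟨h1, h2, h3, h4⟩ := hP i
  refine ⟨h1, ?_, h3, h4⟩
  by_cases hi : ∀ n : ℤ, n ≠ 0 → (n : LamZ r) ∉ P i
  · exact Or.inl hi
  · right
    push Not at hi
    obtain ⟨n, hn0, hn⟩ := hi
    have hn' : ((n.natAbs : ℕ) : LamZ r) ∈ P i := by
      rcases Int.natAbs_eq n with h5 | h5
      · have h0 : ((n.natAbs : ℕ) : ℤ) = n := h5.symm
        have h6 : ((n.natAbs : ℕ) : LamZ r) = (n : LamZ r) := by
          rw [← Int.cast_natCast, h0]
        rw [h6]; exact hn
      · have h0 : ((n.natAbs : ℕ) : ℤ) = -n := by omega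
        have h6 : ((n.natAbs : ℕ) : LamZ r) = -(n : LamZ r) := by
          rw [← Int.cast_natCast, h0, Int.cast_neg]
        rw [h6]; exact (P i).neg_mem hn
    exact exists_prime_mem (P i) h1 n.natAbs (Int.natAbs_pos.mpr hn0) hn'

end Pool.Agent.WPU
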