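import Pool.Agent.Lib.MP_2da099_lc.UE.PDefs
import Mathlib.RingTheory.Localization.AtPrime.Basic
import Mathlib.Algebra.Module.LocalizedModule.Basic
import Mathlib.Algebra.Module.Torsion.Basic

/-!
# B2: localization of a primary component, general form

HINTS.  As in row A5 (`exists_local`, landed, copy it) without `Algebra ℚ`: `R = Λ_P ⧸ m_P ^ k`.  In addition: every element of `Λ_P` is `f / g`
with `g ∉ P`, and `φ g` is a unit of `R` for `g ∉ P`; `φ f ∈ maximalIdeal R` iff `f ∈ P`.
-/

set_option autoImplicit false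

namespace Pool.Agent.WPU

open Pool.Agent.WPM Pool.Agent.WPR

theorem exists_local_gen {Λ : Type} [CommRing Λ] (P : Ideal Λ) [P.IsPrime]
    {W : Type} [AddCommGroup W] [Module Λ W]
    (h1 : ∀ f, f ∉ P → ∀ x : W, f • x = 0 → x = 0) (k : ℕ) (hk : 0 < k)
    (h2 : ∀ f ∈ P ^ k, ∀ x : W, f • x = 0) :
    ∃ (R : Type) (_ : CommRing R) (_ : IsLocalRing R) (W' : Type)
      (_ : AddCommGroup W') (_ : Module R W') (φ : Λ →+* R) (i : W →+ W'), Function.Injective i ∧
      (∀ f x, i (f • x) = φ f • i x) ∧ (IsLocalRing.maximalIdeal R) ^ k = ⊥ ∧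
      (∀ f, φ f ∈ IsLocalRing.maximalIdeal R ↔ f ∈ P) ∧
      ∀ a : R, ∃ f g : Λ, IsUnit (φ g) ∧ φ g * a = φ f := by
  classical
  let A := Localization.AtPrime P
  let m : Ideal A := IsLocalRing.maximalIdeal A
  let W' := LocalizedModule P.primeCompl W
  have hm : Ideal.map (algebraMap Λ A) P = m := Localization.AtPrime.map_eq_maximalIdeal
  have hmk : Ideal.map (algebraMap Λ A) (P ^ k) = m ^ k := by rw [Ideal.map_pow, hm]
  have hkill : m ^ k ≤ Module.annihilator A W' := by
    rw [← hmk, Ideal.map_le_iff_le_comap]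
    intro f hf
    rw [Ideal.mem_comap, Module.mem_annihilator]
    intro y
    rw [algebraMap_smul]
    induction y using LocalizedModule.induction_on with
    | _ w s =>
      rw [LocalizedModule.smul'_mk, h2 f hf w, LocalizedModule.zero_mk]
  have hT : Module.IsTorsionBySet A W' (m ^ k : Ideal A) := by
    intro y a
    exact Module.mem_annihilator.mp (hkill a.2) y
  let R := A ⧸ (m ^ k)
  have hne : m ^ k ≠ ⊤ := by
    intro h
    have h3 : m ^ k ≤ m := Ideal.pow_le_self hk.ne'
    rw [h, top_le_iff] at h3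
    exact (IsLocalRing.maximalIdeal.isMaximal A).ne_top h3
  have hnt : Nontrivial R := Ideal.Quotient.nontrivial_iff.mpr hne
  have hloc : IsLocalRing R := IsLocalRing.of_surjective' (Ideal.Quotient.mk (m ^ k))
    Ideal.Quotient.mk_surjective
  let modR : Module R W' := Module.IsTorsionBySet.module hT
  have hle : m ^ k ≤ m := Ideal.pow_le_self hk.ne'
  -- an element of `A` whose class is a unit is a unit
  have hun : ∀ a : A, IsUnit (Ideal.Quotient.mk (m ^ k) a : R) → IsUnit a := by
    intro a ha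
    by_contra hna
    have h3 : a ∈ m := (IsLocalRing.mem_maximalIdeal a).mpr hna
    obtain ⟨b, hb⟩ := ha.exists_right_inv
    obtain ⟨b', rfl⟩ := Ideal.Quotient.mk_surjective b
    rw [← map_mul, ← map_one (Ideal.Quotient.mk (m ^ k)), Ideal.Quotient.mk_eq_mk_iff_sub_mem] at hb
    have h4 := hle hb
    have h5 : (1 : A) ∈ m := by
      have h6 := m.sub_mem (m.mul_mem_right b' h3) h4
      rwa [sub_sub_cancel] at h6
    exact (IsLocalRing.maximalIdeal.isMaximal A).ne_top ((Ideal.eq_top_iff_one _).mpr h5)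
  refine ⟨R, inferInstance, hloc, W', inferInstance, modR,
    (Ideal.Quotient.mk (m ^ k)).comp (algebraMap Λ A),
    (LocalizedModule.mkLinearMap P.primeCompl W).toAddMonoidHom, ?_, ?_, ?_, ?_, ?_⟩
  · intro x y hxy
    have h3 : LocalizedModule.mk x (1 : P.primeCompl) = LocalizedModule.mk y 1 := hxy
    rw [LocalizedModule.mk_eq] at h3
    obtain ⟨u, hu⟩ := h3
    rw [one_smul, one_smul] at hu
    have h4 : (u : Λ) • (x - y) = 0 := by
      rw [smul_sub, sub_eq_zero]
      exact hu
    exact sub_eq_zero.mp (h1 u u.2 _ h4)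
  · intro f x
    have h3 : ∀ (a : A) (y : W'), (Ideal.Quotient.mk (m ^ k) a : R) • y = a • y := fun a y =>
      Module.IsTorsionBySet.mk_smul hT a y
    change LocalizedModule.mkLinearMap P.primeCompl W (f • x) =
      (Ideal.Quotient.mk (m ^ k) (algebraMap Λ A f) : R) • LocalizedModule.mkLinearMap P.primeCompl W x
    rw [h3, algebraMap_smul, map_smul]
  · rw [eq_bot_iff]
    have h3 : IsLocalRing.maximalIdeal R ≤ Ideal.map (Ideal.Quotient.mk (m ^ k)) m := by
      intro x hx
      obtain ⟨a, rfl⟩ := Ideal.Quotient.mk_surjective x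
      apply Ideal.mem_map_of_mem
      rw [IsLocalRing.mem_maximalIdeal] at hx ⊢
      intro ha
      exact hx (ha.map _)
    calc (IsLocalRing.maximalIdeal R) ^ k ≤ (Ideal.map (Ideal.Quotient.mk (m ^ k)) m) ^ k :=
          Ideal.pow_right_mono h3 k
      _ = Ideal.map (Ideal.Quotient.mk (m ^ k)) (m ^ k) := (Ideal.map_pow _ _ _).symm
      _ ≤ ⊥ := by rw [Ideal.map_quotient_self]
  · intro f
    rw [IsLocalRing.mem_maximalIdeal, mem_nonunits_iff]
    constructor
    · intro hf
      by_contra hfP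
      exact hf ((IsLocalization.map_units A (⟨f, hfP⟩ : P.primeCompl)).map (Ideal.Quotient.mk (m ^ k)))
    · intro hf hu
      have h3 := hun _ hu
      have h4 : algebraMap Λ A f ∈ m := hm ▸ Ideal.mem_map_of_mem _ hf
      exact (IsLocalRing.mem_maximalIdeal _).mp h4 h3
  · intro a
    obtain ⟨a', rfl⟩ := Ideal.Quotient.mk_surjective a
    obtain ⟨f, g, hfg⟩ := IsLocalization.exists_mk'_eq P.primeCompl a'
    refine ⟨f, g, (IsLocalization.map_units A g).map (Ideal.Quotient.mk (m ^ k)), ?_⟩
    change Ideal.Quotient.mk (m ^ k) (algebraMap Λ A g) * Ideal.Quotient.mk (m ^ k) a' =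
      Ideal.Quotient.mk (m ^ k) (algebraMap Λ A f)
    rw [← map_mul, ← hfg, IsLocalization.mk'_spec']

end Pool.Agent.WPU
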