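import Pool.Agent.Lib.MP_2da099_lc.UE.PDefs
import Mathlib.RingTheory.Localization.AtPrime.Basic
import Mathlib.RingTheory.Localization.FractionRing
import Mathlib.RingTheory.MvPolynomial.Basic

/-!
# B3d: the base of the flat lift

HINTS.  `𝔭` = the ideal generated by `p` in `SP t`: it is the kernel of `aeval y : SP t → K` (hypothesis `hy`, and `p = 0` in `K`), so it is
prime.  `B = Localization.AtPrime 𝔭`, a domain (`SP t` is one) in which `p ≠ 0`; `ρ : B → K` extends `aeval y` (elements outside `𝔭` are
nonzero in `K`: `IsLocalization.lift`).  Kernel: if `ρ (a / s) = 0` then `aeval y a = 0`, `a = p a'`.  Image: all `aeval y a / aeval y s`, which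
is the subfield generated by the `y i`.  The last two claims are the universal property of the localization.
-/

set_option autoImplicit false

namespace Pool.Agent.WPU

open Pool.Agent.WPM Pool.Agent.WPR

private theorem b3d_mem {K : Type} [Field K] {t : ℕ} (y : Fin t → K) (q : SP t) :
    MvPolynomial.aeval y q ∈ Subfield.closure (Set.range y) := by
  induction q using MvPolynomial.induction_on with
  | C a =>
    rw [MvPolynomial.aeval_C]
    exact intCast_mem _ a
  | add a b ha hb =>
    rw [map_add]
    exact add_mem ha hb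
  | mul_X a i ha =>
    rw [map_mul, MvPolynomial.aeval_X]
    exact mul_mem ha (Subfield.subset_closure ⟨i, rfl⟩)

theorem exists_base (p : ℕ) [Fact p.Prime] (K : Type) [Field K] [CharP K p] {t : ℕ}
    (y : Fin t → K) (hy : ∀ q : SP t, MvPolynomial.aeval y q = 0 → ∃ q' : SP t, q = p * q') :
    ∃ (B : Type) (_ : CommRing B) (_ : IsDomain B) (ρ : B →+* K) (ι : SP t →+* B),
      (∀ q, ρ (ι q) = MvPolynomial.aeval y q) ∧ (p : B) ≠ 0 ∧
      (∀ b, ρ b = 0 ↔ ∃ z, b = (p : B) * z) ∧
      (∀ x ∈ Subfield.closure (Set.range y), ∃ b, ρ b = x) ∧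
      (∀ b, ρ b ∈ Subfield.closure (Set.range y)) ∧
      (∀ (R : Type) [CommRing R] (h : SP t →+* R),
        (∀ q, MvPolynomial.aeval y q ≠ 0 → IsUnit (h q)) → ∃ h' : B →+* R, ∀ q, h' (ι q) = h q) ∧
      ∀ (R : Type) [CommRing R] (h h' : B →+* R), (∀ q, h (ι q) = h' (ι q)) → h = h' := by
  have hp : p.Prime := Fact.out
  -- the multiplicative set
  let g : SP t →+* K := (MvPolynomial.aeval y : SP t →ₐ[ℤ] K).toRingHom
  have hg : ∀ q, g q = MvPolynomial.aeval y q := fun q => rfl
  let S : Submonoid (SP t) :=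
    { carrier := {q | g q ≠ 0}
      mul_mem' := by
        intro a b ha hb
        change g (a * b) ≠ 0
        rw [map_mul]
        exact mul_ne_zero ha hb
      one_mem' := by
        change g 1 ≠ 0
        rw [map_one]
        exact one_ne_zero }
  have hS : ∀ q : SP t, q ∈ S ↔ g q ≠ 0 := fun q => Iff.rfl
  have hSn : S ≤ nonZeroDivisors (SP t) := by
    intro q hq
    apply mem_nonZeroDivisors_of_ne_zero
    rintro rfl
    exact (hS 0).1 hq (map_zero g)
  have hunit : ∀ s : S, IsUnit (g s) := fun s => isUnit_iff_ne_zero.2 ((hS s).1 s.2)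
  have hdom : IsDomain (Localization S) := IsLocalization.isDomain_localization hSn
  let ι : SP t →+* Localization S := algebraMap (SP t) (Localization S)
  let ρ : Localization S →+* K := IsLocalization.lift (M := S) hunit
  have hρι : ∀ q, ρ (ι q) = g q := fun q => IsLocalization.lift_eq hunit q
  have hinj : Function.Injective ι := IsLocalization.injective (Localization S) hSn
  have hpι : ι (p : SP t) = (p : Localization S) := map_natCast ι p
  have hsurj : ∀ b : Localization S, ∃ a s : SP t, g s ≠ 0 ∧ b * ι s = ι a ∧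
      ∃ v : Localization S, ι s * v = 1 := by
    intro b
    obtain ⟨a, s, rfl⟩ := IsLocalization.exists_mk'_eq S b
    refine ⟨a, s, (hS s).1 s.2, IsLocalization.mk'_spec _ a s, ?_⟩
    exact (IsLocalization.map_units (Localization S) s).exists_right_inv
  have hinv : ∀ s : SP t, g s ≠ 0 → ∃ v : Localization S, ι s * v = 1 := fun s hs =>
    (IsLocalization.map_units (Localization S) (⟨s, (hS s).2 hs⟩ : S)).exists_right_inv
  refine ⟨Localization S, inferInstance, hdom, ρ, ι, hρι, ?_, ?_, ?_, ?_, ?_, ?_⟩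
  · rw [← hpι]
    intro h
    have h1 : (p : SP t) = 0 := hinj (by rw [h, map_zero])
    exact hp.ne_zero (by exact_mod_cast h1)
  · intro b
    constructor
    · intro h
      obtain ⟨a, s, hs, hbs, v, hv⟩ := hsurj b
      have h1 : g a = 0 := by
        rw [← hρι a, ← hbs, map_mul, h, zero_mul]
      obtain ⟨a', ha'⟩ := hy a h1
      refine ⟨ι a' * v, ?_⟩
      calc b = b * (ι s * v) := by rw [hv, mul_one]
        _ = (b * ι s) * v := by ring
        _ = ι (p * a') * v := by rw [hbs, ha']
        _ = (p : Localization S) * (ι a' * v) := by rw [map_mul, hpι]; ring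
    · rintro ⟨z, rfl⟩
      rw [map_mul, map_natCast, CharP.cast_eq_zero, zero_mul]
  · intro x hx
    induction hx using Subfield.closure_induction with
    | mem x hx =>
      obtain ⟨i, rfl⟩ := hx
      refine ⟨ι (MvPolynomial.X i), ?_⟩
      rw [hρι, hg, MvPolynomial.aeval_X]
    | one => exact ⟨1, map_one _⟩
    | add x y _ _ hx hy =>
      obtain ⟨a, rfl⟩ := hx
      obtain ⟨b, rfl⟩ := hy
      exact ⟨a + b, map_add _ _ _⟩
    | neg x _ hx =>
      obtain ⟨a, rfl⟩ := hx
      exact ⟨-a, map_neg _ _⟩
    | inv x _ hx =>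
      obtain ⟨b, rfl⟩ := hx
      obtain ⟨a, s, hs, hbs, v, hv⟩ := hsurj b
      by_cases h0 : ρ b = 0
      · exact ⟨0, by rw [h0, inv_zero, map_zero]⟩
      · have h1 : g a ≠ 0 := by
          rw [← hρι a, ← hbs, map_mul, hρι]
          exact mul_ne_zero h0 hs
        obtain ⟨w, hw⟩ := hinv a h1
        refine ⟨ι s * w, ?_⟩
        apply eq_inv_of_mul_eq_one_right
        rw [← map_mul, ← mul_assoc, hbs, hw, map_one]
    | mul x y _ _ hx hy =>
      obtain ⟨a, rfl⟩ := hx
      obtain ⟨b, rfl⟩ := hy
      exact ⟨a * b, map_mul _ _ _⟩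
  · intro b
    obtain ⟨a, s, hs, hbs, v, hv⟩ := hsurj b
    have h1 : ρ b * g s = g a := by rw [← hρι s, ← hρι a, ← map_mul, hbs]
    have h2 : ρ b = g a / g s := by rw [eq_div_iff hs, h1]
    rw [h2]
    exact div_mem (b3d_mem y a) (b3d_mem y s)
  · intro R _ h hh
    refine ⟨IsLocalization.lift (M := S) (g := h) (fun s => hh s ((hS s).1 s.2)), fun q => ?_⟩
    exact IsLocalization.lift_eq _ q
  · intro R _ h h' hh
    apply IsLocalization.ringHom_ext S
    exact RingHom.ext hh

end Pool.Agent.WPU
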