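import Pool.Agent.Lib.MP_2da099_lc.UE.PDefs
import Pool.Agent.Lib.MP_2da099_lc.UE.B3d
import Mathlib.RingTheory.AdjoinRoot
import Mathlib.Algebra.Polynomial.Lifts
import Mathlib.Dynamics.Newton

/-!
# B3b: the flat lift: construction

HINTS.  `B`, `ρ`, `ι` from `exists_base`.  `g` lifts to a monic polynomial `f ∈ B[X]` of the same degree `n`: `X ^ n + Σ_{i < n} C (b i) X ^ i` with
`ρ (b i) = g.coeff i` (`exists_base`, image of `ρ`; or `Polynomial.lifts_and_natDegree_eq_and_monic`).  `O = AdjoinRoot f`, free over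
`B` with the basis `1, T, .., T ^ (n - 1)` (`AdjoinRoot.powerBasis'`), `π : O → K` by `AdjoinRoot.lift ρ θ`.
`π (Σ b_i T ^ i) = Σ ρ (b_i) θ ^ i = 0` implies `ρ (b_i) = 0` (`hind`), `b_i ∈ p B`: kernel of `π`.  Multiplication by `p` is injective
(coordinates in the domain `B`).  Surjective: `hspan`.  `yO i = AdjoinRoot.of (ι (X i))`.
Lifting property: `SP t → R`, `X i ↦ yy i` (`MvPolynomial.eval₂Hom` / `aeval`); if `aeval y q ≠ 0` its value `h q` is a unit:
`ρ' (h q) = f' (of (ι q)) ≠ 0` (`π (of (ι q)) = aeval y q ≠ 0`), and an element of `R` with nonzero image in `K'` is a unit (`ρ'` is onto, the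
kernel is nilpotent).  So `h' : B → R`.  `R` is a `B`-algebra by `h'`; `r0 ∈ R` with `ρ' r0 = f' T`; `aeval r0 f` is nilpotent (its image is
`f' (f (T)) = 0`: the two maps `ρ' ∘ h'` and `f' ∘ of` from `B` agree by the last claim of `exists_base`), `aeval r0 f.derivative` has the image
`f' (f.derivative (T)) ≠ 0` because `π` of it is `g'(θ) ≠ 0`: a unit.  Newton: `Polynomial.exists_unique_nilpotent_sub_and_aeval_eq_zero` gives a
root `r` with `r0 - r` nilpotent, `F = AdjoinRoot.lift h' r`; `ρ' r = ρ' r0` (a nilpotent element of a field is zero); `ρ' (F x) = f' x` by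
`AdjoinRoot.ringHom_ext` or induction.
-/

set_option autoImplicit false

namespace Pool.Agent.WPU

open Pool.Agent.WPM Pool.Agent.WPR

private theorem b3b_unit {R K' : Type} [CommRing R] [Field K'] (ρ : R →+* K')
    (hs : Function.Surjective ρ) (hn : ∀ x, ρ x = 0 → IsNilpotent x) (x : R) (hx : ρ x ≠ 0) :
    IsUnit x := by
  obtain ⟨z, hz⟩ := hs (ρ x)⁻¹
  have h1 : ρ (x * z - 1) = 0 := by
    rw [map_sub, map_mul, hz, mul_inv_cancel₀ hx, map_one, sub_self]
  have h2 := (hn _ h1).isUnit_one_add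
  have h3 : 1 + (x * z - 1) = x * z := by ring
  rw [h3] at h2
  exact isUnit_of_mul_isUnit_left h2

/-- the lifting property -/
private theorem b3b_lift {t : ℕ} {B K : Type} [CommRing B] [Field K] (y : Fin t → K) (θ : K)
    (ρ : B →+* K) (ι : SP t →+* B) (hρι : ∀ q, ρ (ι q) = MvPolynomial.aeval y q)
    (huniv : ∀ (R : Type) [CommRing R] (h : SP t →+* R),
      (∀ q, MvPolynomial.aeval y q ≠ 0 → IsUnit (h q)) → ∃ h' : B →+* R, ∀ q, h' (ι q) = h q)
    (huniq : ∀ (R : Type) [CommRing R] (h h' : B →+* R), (∀ q, h (ι q) = h' (ι q)) → h = h')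
    (f : Polynomial B) (h0 : f.eval₂ ρ θ = 0) (h1 : f.derivative.eval₂ ρ θ ≠ 0)
    (R : Type) [CommRing R] (K' : Type) [Field K'] (ρ' : R →+* K') (f' : AdjoinRoot f →+* K')
    (yy : Fin t → R) (hs : Function.Surjective ρ') (hnil : ∀ x, ρ' x = 0 → IsNilpotent x)
    (hne : ∀ x, AdjoinRoot.lift ρ θ h0 x ≠ 0 → f' x ≠ 0)
    (hyy : ∀ i, ρ' (yy i) = f' (AdjoinRoot.of f (ι (MvPolynomial.X i)))) :
    ∃ F : AdjoinRoot f →+* R, (∀ x, ρ' (F x) = f' x) ∧
      ∀ i, F (AdjoinRoot.of f (ι (MvPolynomial.X i))) = yy i := by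
  let h : SP t →+* R := MvPolynomial.eval₂Hom (Int.castRingHom R) yy
  have hh : ∀ q, ρ' (h q) = f' (AdjoinRoot.of f (ι q)) := by
    have e : ρ'.comp h = (f'.comp (AdjoinRoot.of f)).comp ι := by
      refine MvPolynomial.ringHom_ext (fun r => ?_) (fun i => ?_)
      · simp only [RingHom.comp_apply, eq_intCast, map_intCast]
      · show ρ' (h (MvPolynomial.X i)) = f' (AdjoinRoot.of f (ι (MvPolynomial.X i)))
        rw [← hyy]
        congr 1
        exact MvPolynomial.eval₂Hom_X' _ _ _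
    intro q
    exact congrArg (fun g => g q) e
  have hunit : ∀ q, MvPolynomial.aeval y q ≠ 0 → IsUnit (h q) := by
    intro q hq
    refine b3b_unit ρ' hs hnil _ ?_
    rw [hh]
    refine hne _ ?_
    rw [AdjoinRoot.lift_of, hρι]
    exact hq
  obtain ⟨h', hh'⟩ := huniv R h hunit
  have hcomp : ρ'.comp h' = f'.comp (AdjoinRoot.of f) := by
    refine huniq K' _ _ fun q => ?_
    show ρ' (h' (ι q)) = f' (AdjoinRoot.of f (ι q))
    rw [hh', hh]
  obtain ⟨r0, hr0⟩ := hs (f' (AdjoinRoot.root f))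
  have hev : ∀ P : Polynomial B, ρ' (Polynomial.eval₂ h' r0 P) =
      f' (Polynomial.eval₂ (AdjoinRoot.of f) (AdjoinRoot.root f) P) := by
    intro P
    rw [Polynomial.hom_eval₂, Polynomial.hom_eval₂, hcomp, hr0]
  have hn0 : IsNilpotent (Polynomial.aeval r0 (f.map h')) := by
    refine hnil _ ?_
    rw [Polynomial.aeval_def, Polynomial.eval₂_map, Algebra.algebraMap_self, RingHom.id_comp, hev,
      AdjoinRoot.eval₂_root, map_zero]
  have hu0 : IsUnit (Polynomial.aeval r0 (f.map h').derivative) := by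
    refine b3b_unit ρ' hs hnil _ ?_
    rw [Polynomial.derivative_map, Polynomial.aeval_def, Polynomial.eval₂_map,
      Algebra.algebraMap_self, RingHom.id_comp, hev]
    refine hne _ ?_
    rw [Polynomial.hom_eval₂, AdjoinRoot.lift_root, AdjoinRoot.lift_comp_of]
    exact h1
  obtain ⟨r, ⟨hr1, hr2⟩, -⟩ := Polynomial.existsUnique_nilpotent_sub_and_aeval_eq_zero hn0 hu0
  rw [Polynomial.aeval_def, Polynomial.eval₂_map, Algebra.algebraMap_self, RingHom.id_comp] at hr2
  have hrr : ρ' r = f' (AdjoinRoot.root f) := by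
    have h2 : IsNilpotent (ρ' (r0 - r)) := hr1.map ρ'
    have h3 := h2.eq_zero
    rw [map_sub, sub_eq_zero] at h3
    rw [← h3, hr0]
  refine ⟨AdjoinRoot.lift h' r hr2, fun x => ?_, fun i => ?_⟩
  · have e : ρ'.comp (AdjoinRoot.lift h' r hr2) = f' := by
      refine AdjoinRoot.ringHom_ext ?_ ?_
      · rw [RingHom.comp_assoc, AdjoinRoot.lift_comp_of, hcomp]
      · rw [RingHom.comp_apply, AdjoinRoot.lift_root, hrr]
    exact congrArg (fun g => g x) e
  · rw [AdjoinRoot.lift_of, hh']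
    exact MvPolynomial.eval₂Hom_X' _ _ _

theorem exists_lift0 (p : ℕ) [Fact p.Prime] (K : Type) [Field K] [CharP K p] {t : ℕ}
    (y : Fin t → K) (θ : K) (g : Polynomial K)
    (hy : ∀ q : SP t, MvPolynomial.aeval y q = 0 → ∃ q' : SP t, q = p * q')
    (hg : g.Monic) (hco : ∀ i, g.coeff i ∈ Subfield.closure (Set.range y))
    (h0 : g.eval θ = 0) (h1 : g.derivative.eval θ ≠ 0)
    (hind : ∀ c : Fin g.natDegree → K, (∀ i, c i ∈ Subfield.closure (Set.range y)) →
      ∑ i, c i * θ ^ (i : ℕ) = 0 → ∀ i, c i = 0)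
    (hspan : ∀ z : K, ∃ c : Fin g.natDegree → K, (∀ i, c i ∈ Subfield.closure (Set.range y)) ∧
      z = ∑ i, c i * θ ^ (i : ℕ)) :
    ∃ (O : Type) (_ : CommRing O) (π : O →+* K) (yO : Fin t → O), Function.Surjective π ∧
      (∀ i, π (yO i) = y i) ∧ (∀ x, π x = 0 ↔ ∃ z, x = (p : O) * z) ∧
      (∀ x : O, (p : O) * x = 0 → x = 0) ∧
      ∀ (R : Type) [CommRing R] (K' : Type) [Field K'] (ρ : R →+* K') (f : O →+* K')
        (yy : Fin t → R), Function.Surjective ρ → (∀ x, ρ x = 0 → IsNilpotent x) →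
        (∀ x, π x ≠ 0 → f x ≠ 0) → (∀ i, ρ (yy i) = f (yO i)) →
        ∃ F : O →+* R, (∀ x, ρ (F x) = f x) ∧ ∀ i, F (yO i) = yy i := by
  obtain ⟨B, iB, iD, ρ, ι, hρι, hp0, hker, himg, hcl, huniv, huniq⟩ := exists_base p K y hy
  have hlift : g ∈ Polynomial.lifts ρ := by
    rw [Polynomial.lifts_iff_coeff_lifts]
    intro n
    obtain ⟨b, hb⟩ := himg _ (hco n)
    exact ⟨b, hb⟩
  obtain ⟨f, hfg, hdeg, hf⟩ := Polynomial.lifts_and_natDegree_eq_and_monic hlift hg
  rw [← hdeg] at hind hspan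
  have e0 : f.eval₂ ρ θ = 0 := by
    rw [Polynomial.eval₂_eq_eval_map, hfg]
    exact h0
  have e1 : f.derivative.eval₂ ρ θ ≠ 0 := by
    rw [Polynomial.eval₂_eq_eval_map, ← Polynomial.derivative_map, hfg]
    exact h1
  let π : AdjoinRoot f →+* K := AdjoinRoot.lift ρ θ e0
  let bas := (AdjoinRoot.powerBasis' hf).basis
  have hbas : ∀ x : AdjoinRoot f, x = ∑ i : Fin f.natDegree,
      AdjoinRoot.of f (bas.repr x i) * AdjoinRoot.root f ^ (i : ℕ) := by
    intro x
    have h2 := bas.sum_repr x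
    conv_lhs => rw [← h2]
    refine Finset.sum_congr rfl fun i _ => ?_
    have h3 : bas i = AdjoinRoot.root f ^ (i : ℕ) := (AdjoinRoot.powerBasis' hf).basis_eq_pow i
    rw [h3, Algebra.smul_def]
    rfl
  have hπ : ∀ c : Fin f.natDegree → B, π (∑ i : Fin f.natDegree,
      AdjoinRoot.of f (c i) * AdjoinRoot.root f ^ (i : ℕ)) = ∑ i, ρ (c i) * θ ^ (i : ℕ) := by
    intro c
    rw [map_sum]
    refine Finset.sum_congr rfl fun i _ => ?_
    rw [map_mul, map_pow]
    congr 1
    · exact AdjoinRoot.lift_of e0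
    · congr 1
      exact AdjoinRoot.lift_root e0
  refine ⟨AdjoinRoot f, inferInstance, π, fun i => AdjoinRoot.of f (ι (MvPolynomial.X i)),
    ?_, ?_, ?_, ?_, ?_⟩
  · intro z
    obtain ⟨c, hc1, hc2⟩ := hspan z
    choose b hb using fun i => himg (c i) (hc1 i)
    refine ⟨∑ i : Fin f.natDegree, AdjoinRoot.of f (b i) * AdjoinRoot.root f ^ (i : ℕ), ?_⟩
    rw [hπ, hc2]
    exact Finset.sum_congr rfl fun i _ => by rw [hb]
  · intro i
    show AdjoinRoot.lift ρ θ e0 (AdjoinRoot.of f (ι (MvPolynomial.X i))) = y i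
    rw [AdjoinRoot.lift_of, hρι, MvPolynomial.aeval_X]
  · intro x
    constructor
    · intro hx
      rw [hbas x, hπ] at hx
      have h2 := hind (fun i => ρ (bas.repr x i)) (fun i => hcl _) hx
      choose z hz using fun i => (hker _).1 (h2 i)
      refine ⟨∑ i : Fin f.natDegree, AdjoinRoot.of f (z i) * AdjoinRoot.root f ^ (i : ℕ), ?_⟩
      rw [Finset.mul_sum]
      conv_lhs => rw [hbas x]
      refine Finset.sum_congr rfl fun i _ => ?_
      rw [hz i, map_mul, map_natCast, mul_assoc]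
    · rintro ⟨z, rfl⟩
      rw [map_mul, map_natCast, CharP.cast_eq_zero, zero_mul]
  · intro x hx
    have h2 : (p : B) • x = 0 := by
      rw [Algebra.smul_def, map_natCast]
      exact hx
    have h3 : bas.repr x = 0 := by
      ext i
      have h4 : bas.repr ((p : B) • x) i = 0 := by rw [h2, map_zero]; rfl
      rw [map_smul, Finsupp.smul_apply, smul_eq_mul] at h4
      exact (mul_eq_zero.1 h4).resolve_left hp0
    exact bas.repr.map_eq_zero_iff.1 h3
  · intro R _ K' _ ρ' f' yy hs hnil hne hyy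
    exact b3b_lift y θ ρ ι hρι huniv huniq f e0 e1 R K' ρ' f' yy hs hnil hne hyy

end Pool.Agent.WPU
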