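import Pool.Agent.Lib.MP_2da099_lc.UE.PDefs
import Pool.Agent.Lib.MP_2da099_lc.UE.B3a
import Pool.Agent.Lib.MP_2da099_lc.UE.B3b
import Mathlib.RingTheory.Ideal.Quotient.Operations

/-!
# B3c: the flat lift modulo a power of p

HINTS.  `O0` from `exists_lift0` for the data of `exists_sepbasis`; `O = O0 ⧸ (p ^ e)`; `π` factors (`e ≥ 1`, `π p = 0`).  `flat`: if
`p ^ i x ∈ p ^ e O0` then `x ∈ p ^ (e - i) O0` because multiplication by `p` is injective on `O0`.  `ker`: clear.  `lift`: for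
`f : O → K'` apply the lifting property of `O0` to `f ∘ mk`: `(p : R) ^ e = 0`, so `F` kills `p ^ e`.  The hypothesis `π x ≠ 0 → f x ≠ 0`:
`x` is a unit modulo `p`, so modulo `p ^ e` (`x z = 1 + p w`, `p w` is nilpotent in `O`), a ring homomorphism to a field maps units to
nonzero elements.  `yne`: `y_i ≠ 0` because `X_i` is not divisible by `p`.
-/

set_option autoImplicit false

namespace Pool.Agent.WPU

open Pool.Agent.WPM Pool.Agent.WPR

theorem exists_plift (p : ℕ) [Fact p.Prime] (K : Type) [Field K] [CharP K p] (S : Set K)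
    (hS : S.Finite) (hgen : Subfield.closure S = ⊤) (e : ℕ) (he : 0 < e) :
    Nonempty (PLift p e K) := by
  obtain ⟨t, y, θ, g, hy, hg, hco, h0, h1, hind, hspan, hsep⟩ := exists_sepbasis p K S hS hgen
  obtain ⟨O0, iO, π0, yO, hsurj, hπy, hker, hinj, hlift⟩ :=
    exists_lift0 p K y θ g hy hg hco h0 h1 hind hspan
  have hp : p.Prime := Fact.out
  have hp0 : π0 (p : O0) = 0 := by rw [map_natCast, CharP.cast_eq_zero]
  have hinjn : ∀ (i : ℕ) (x : O0), (p : O0) ^ i * x = 0 → x = 0 := by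
    intro i
    induction i with
    | zero =>
      intro x hx
      rwa [pow_zero, one_mul] at hx
    | succ i ih =>
      intro x hx
      rw [pow_succ, mul_assoc] at hx
      exact hinj x (ih _ hx)
  let I : Ideal O0 := Ideal.span {(p : O0) ^ e}
  have hI : ∀ a, a ∈ I ↔ ∃ c, a = (p : O0) ^ e * c := by
    intro a
    rw [Ideal.mem_span_singleton]
    rfl
  have hIπ : ∀ a, a ∈ I → π0 a = 0 := by
    intro a ha
    obtain ⟨c, rfl⟩ := (hI a).mp ha
    rw [map_mul, map_pow, hp0, zero_pow he.ne', zero_mul]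
  let mk : O0 →+* O0 ⧸ I := Ideal.Quotient.mk I
  have hmk : Function.Surjective mk := Ideal.Quotient.mk_surjective
  have hmk0 : ∀ a, mk a = 0 ↔ a ∈ I := fun a => Ideal.Quotient.eq_zero_iff_mem
  let π : O0 ⧸ I →+* K := Ideal.Quotient.lift I π0 hIπ
  have hπ : ∀ a, π (mk a) = π0 a := fun a => rfl
  have hpe : ((p : ℕ) : O0 ⧸ I) ^ e = 0 := by
    have h2 : mk ((p : O0) ^ e) = ((p : ℕ) : O0 ⧸ I) ^ e := by rw [map_pow, map_natCast]
    rw [← h2, hmk0]
    exact Ideal.mem_span_singleton_self _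
  have hunit : ∀ x : O0, π0 x ≠ 0 → IsUnit (mk x) := by
    intro x hx
    obtain ⟨z, hz⟩ := hsurj (π0 x)⁻¹
    have h2 : π0 (x * z - 1) = 0 := by
      rw [map_sub, map_mul, hz, mul_inv_cancel₀ hx, map_one, sub_self]
    obtain ⟨w, hw⟩ := (hker _).mp h2
    have h3 : IsNilpotent (mk ((p : O0) * w)) := by
      refine ⟨e, ?_⟩
      rw [← map_pow, mul_pow, hmk0, hI]
      exact ⟨w ^ e, rfl⟩
    have h4 : mk x * mk z = 1 + mk ((p : O0) * w) := by
      rw [← map_mul, ← map_one mk, ← map_add, ← hw]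
      congr 1
      ring
    have h5 : IsUnit (mk x * mk z) := by
      rw [h4]
      exact h3.isUnit_one_add
    exact isUnit_of_mul_isUnit_left h5
  refine ⟨{
    O := O0 ⧸ I
    π := π
    t := t
    y := fun i => mk (yO i)
    surj := ?_
    yne := ?_
    ker := ?_
    pe := hpe
    flat := ?_
    lift := ?_
    sep := ?_ }⟩
  · intro x
    obtain ⟨a, rfl⟩ := hsurj x
    exact ⟨mk a, hπ a⟩
  · intro i
    rw [hπ, hπy]
    intro hi
    obtain ⟨q', hq'⟩ := hy (MvPolynomial.X i) (by rw [MvPolynomial.aeval_X]; exact hi)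
    have h2 := congrArg (MvPolynomial.coeff (Finsupp.single i 1)) hq'
    rw [MvPolynomial.coeff_X, ← nsmul_eq_mul, MvPolynomial.coeff_smul, nsmul_eq_mul,
      if_pos rfl] at h2
    have h3 : ((p : ℕ) : ℤ) ∣ 1 := ⟨_, h2⟩
    have h4 : p ∣ 1 := by exact_mod_cast h3
    exact hp.one_lt.ne' (Nat.dvd_one.mp h4)
  · intro x
    obtain ⟨a, rfl⟩ := hmk x
    rw [hπ, hker]
    constructor
    · rintro ⟨z, rfl⟩
      exact ⟨mk z, by rw [map_mul, map_natCast]⟩
    · rintro ⟨z, hz⟩
      obtain ⟨b, rfl⟩ := hmk z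
      have h2 : mk (a - (p : O0) * b) = 0 := by
        rw [map_sub, map_mul, map_natCast, hz, sub_self]
      obtain ⟨c, hc⟩ := (hI _).mp ((hmk0 _).mp h2)
      obtain ⟨k, rfl⟩ : ∃ k, e = k + 1 := ⟨e - 1, by omega⟩
      refine ⟨b + (p : O0) ^ k * c, ?_⟩
      have h3 : a = (p : O0) * b + (p : O0) ^ (k + 1) * c := by rw [← hc]; ring
      rw [h3]
      ring
  · intro i x hi hx
    obtain ⟨a, rfl⟩ := hmk x
    have h2 : mk ((p : O0) ^ i * a) = 0 := by
      rw [map_mul, map_pow, map_natCast]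
      exact hx
    obtain ⟨c, hc⟩ := (hI _).mp ((hmk0 _).mp h2)
    have h3 : (p : O0) ^ i * (a - (p : O0) ^ (e - i) * c) = 0 := by
      rw [mul_sub, hc, ← mul_assoc, ← pow_add, Nat.add_sub_cancel' hi, sub_self]
    have h4 := sub_eq_zero.mp (hinjn i _ h3)
    exact ⟨mk c, by rw [h4, map_mul, map_pow, map_natCast]⟩
  · intro R _ K' _ ρ f yy hρ hnil hpR hyy
    obtain ⟨F0, hF1, hF2⟩ := hlift R K' ρ (f.comp mk) yy hρ hnil
      (fun x hx => ((hunit x hx).map f).ne_zero) (fun i => hyy i)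
    have hF0 : ∀ a, a ∈ I → F0 a = 0 := by
      intro a ha
      obtain ⟨c, rfl⟩ := (hI a).mp ha
      rw [map_mul, map_pow, map_natCast, hpR, zero_mul]
    refine ⟨Ideal.Quotient.lift I F0 hF0, ?_, ?_⟩
    · intro x
      obtain ⟨a, rfl⟩ := hmk x
      exact hF1 a
    · intro i
      exact hF2 i
  · intro S' hS' M
    have h2 : (Set.range fun i => π (mk (yO i))) = Set.range y := by
      congr 1
      funext i
      rw [hπ, hπy]
    rw [h2]
    exact hsep S' hS' M

end Pool.Agent.WPU
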