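import Pool.Agent.Lib.MP_2da099_lc.UE.PDefs
import Pool.Agent.Lib.MP_2da099_lc.UE.B4
import Pool.Agent.Lib.MP_2da099_lc.UE.B5a

/-!
# B5b: Frobenius and coordinates on the lift

HINTS.  Frobenius lift: `L.lift` with `R = L.O`, `K' = K`, `ρ = L.π`, `f x = (L.π x) ^ p` (`(frobenius K p).comp L.π`), `yy i = L.y i ^ p`; elements of the
kernel of `L.π` are multiples of `p`, nilpotent: `σ` with `L.π (σ x) = (L.π x) ^ p`, `σ (y i) = y i ^ p`.
Coordinates: lifts `c j ∈ L.O` of the basis `b j` of `exists_pbasis`.  Claim: every `z ∈ L.O` is `∑ σ (x j) * c j` for exactly one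
`x : Fin d → L.O`.  Existence: modulo `p` by `exists_pbasis` and surjectivity of `π`: `z = ∑ σ (x j) c j + p z'`; iterate `e` times
(by induction on `i`: `z - ∑ σ (x j) c j ∈ p ^ i L.O` for some `x`).  Uniqueness: if `∑ σ (x j) c j = 0` then by induction on `i ≤ e` all
`x j ∈ p ^ i L.O`: write `x j = p ^ i w j`, `p ^ i * ∑ σ (w j) c j = 0`, so by `L.flat` `∑ σ (w j) c j ∈ p ^ (e - i) L.O`, which is in the kernel of `π`
for `i < e`, so `∑ (π w j) ^ p b j = 0`, `π (w j) = 0`, `w j ∈ p L.O`.  `φ j z = x j`: additive, `φ j (σ (x) * z) = x * φ j z` by uniqueness.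
-/

set_option autoImplicit false

namespace Pool.Agent.WPU

open Pool.Agent.WPM Pool.Agent.WPR

/-- existence of the coordinates, modulo `p ^ i` -/
private theorem b5b_ex {p e : ℕ} {K : Type} [Field K] (L : PLift p e K) (σ : L.O →+* L.O)
    (hσ : ∀ x, L.π (σ x) = L.π x ^ p) {d : ℕ} (b : Fin d → K)
    (hb : ∀ z : K, ∃ c : Fin d → K, z = ∑ j, c j ^ p * b j) (c : Fin d → L.O)
    (hc : ∀ j, L.π (c j) = b j) (i : ℕ) :
    ∀ z : L.O, ∃ (x : Fin d → L.O) (z' : L.O), z = ∑ j, σ (x j) * c j + (p : L.O) ^ i * z' := by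
  induction i with
  | zero =>
    intro z
    refine ⟨fun _ => 0, z, ?_⟩
    simp
  | succ i ih =>
    intro z
    obtain ⟨x, z', hz⟩ := ih z
    obtain ⟨u, hu⟩ := hb (L.π z')
    choose w hw using fun j => L.surj (u j)
    have h1 : L.π (z' - ∑ j, σ (w j) * c j) = 0 := by
      rw [map_sub, map_sum, hu, sub_eq_zero]
      refine Finset.sum_congr rfl fun j _ => ?_
      rw [map_mul, hσ, hw, hc]
    obtain ⟨z'', hz''⟩ := (L.ker _).1 h1
    refine ⟨fun j => x j + (p : L.O) ^ i * w j, z'', ?_⟩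
    have h2 : z' = ∑ j, σ (w j) * c j + (p : L.O) * z'' := by
      rw [← hz'']
      ring
    have h3 : ∑ j, σ (x j + (p : L.O) ^ i * w j) * c j =
        ∑ j, σ (x j) * c j + (p : L.O) ^ i * ∑ j, σ (w j) * c j := by
      rw [Finset.mul_sum, ← Finset.sum_add_distrib]
      refine Finset.sum_congr rfl fun j _ => ?_
      rw [map_add, map_mul, map_pow, map_natCast]
      ring
    rw [h3, hz]
    conv_lhs => rw [h2]
    ring

/-- uniqueness of the coordinates -/
private theorem b5b_un {p e : ℕ} {K : Type} [Field K] (L : PLift p e K) (σ : L.O →+* L.O)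
    (hσ : ∀ x, L.π (σ x) = L.π x ^ p) {d : ℕ} (b : Fin d → K)
    (hb : ∀ c : Fin d → K, ∑ j, c j ^ p * b j = 0 → ∀ j, c j = 0) (c : Fin d → L.O)
    (hc : ∀ j, L.π (c j) = b j) (x : Fin d → L.O) (hx : ∑ j, σ (x j) * c j = 0) :
    ∀ j, x j = 0 := by
  have key : ∀ i : ℕ, i ≤ e → ∀ j, ∃ w, x j = (p : L.O) ^ i * w := by
    intro i
    induction i with
    | zero => intro _ j; exact ⟨x j, by simp⟩
    | succ i ih =>
      intro hi j
      choose w hw using ih (by omega)
      have h1 : (p : L.O) ^ i * ∑ j, σ (w j) * c j = 0 := by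
        rw [← hx, Finset.mul_sum]
        refine Finset.sum_congr rfl fun j _ => ?_
        rw [hw j, map_mul, map_pow, map_natCast]
        ring
      obtain ⟨z, hz⟩ := L.flat i _ (by omega) h1
      have hp0 : L.π (p : L.O) = 0 := (L.ker _).2 ⟨1, by rw [mul_one]⟩
      have h2 : ∑ j, L.π (w j) ^ p * b j = 0 := by
        have h3 := congrArg L.π hz
        rw [map_sum, map_mul, map_pow, hp0, zero_pow (by omega), zero_mul] at h3
        rw [← h3]
        refine Finset.sum_congr rfl fun j _ => ?_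
        rw [map_mul, hσ, hc]
      have h4 := hb (fun j => L.π (w j)) h2 j
      obtain ⟨w', hw'⟩ := (L.ker _).1 h4
      refine ⟨w', ?_⟩
      rw [hw j, hw', pow_succ]
      ring
  intro j
  obtain ⟨w, hw⟩ := key e le_rfl j
  rw [hw, L.pe, zero_mul]

theorem exists_frob (p e : ℕ) [Fact p.Prime] (K : Type) [Field K] [CharP K p] (S : Set K)
    (hS : S.Finite) (hgen : Subfield.closure S = ⊤) (L : PLift p e K) (he : 0 < e) :
    ∃ (σ : L.O →+* L.O) (d : ℕ) (φ : Fin d → L.O →+ L.O), (∀ i, σ (L.y i) = L.y i ^ p) ∧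
      (∀ x, L.π (σ x) = L.π x ^ p) ∧ (∀ z, (∀ j, φ j z = 0) → z = 0) ∧
      ∀ (j : Fin d) (x z : L.O), φ j (σ x * z) = x * φ j z := by
  obtain ⟨σ, hσ1, hσ2⟩ := L.lift L.O K L.π ((frobenius K p).comp L.π) (fun i => L.y i ^ p) L.surj
    (fun x hx => by
      obtain ⟨z, rfl⟩ := (L.ker x).1 hx
      exact ⟨e, by rw [mul_pow, L.pe, zero_mul]⟩) L.pe
    (fun i => by
      rw [map_pow]
      rfl)
  have hσ : ∀ x, L.π (σ x) = L.π x ^ p := fun x => hσ1 x
  obtain ⟨d, b, hb1, hb2⟩ := exists_pbasis p K S hS hgen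
  choose c hc using fun j => L.surj (b j)
  have hex : ∀ z : L.O, ∃ x : Fin d → L.O, z = ∑ j, σ (x j) * c j := by
    intro z
    obtain ⟨x, z', hz⟩ := b5b_ex L σ hσ b hb1 c hc e z
    refine ⟨x, ?_⟩
    rw [hz, L.pe, zero_mul, add_zero]
  choose f hf using hex
  have hun : ∀ (z : L.O) (x : Fin d → L.O), z = ∑ j, σ (x j) * c j → ∀ j, f z j = x j := by
    intro z x hz j
    have h1 : ∑ j, σ (f z j - x j) * c j = 0 := by
      have h2 : ∑ j, σ (f z j - x j) * c j = ∑ j, σ (f z j) * c j - ∑ j, σ (x j) * c j := by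
        rw [← Finset.sum_sub_distrib]
        refine Finset.sum_congr rfl fun j _ => ?_
        rw [map_sub, sub_mul]
      rw [h2, ← hf z, ← hz, sub_self]
    exact sub_eq_zero.1 (b5b_un L σ hσ b hb2 c hc _ h1 j)
  refine ⟨σ, d, fun j => AddMonoidHom.mk' (fun z => f z j) (fun z z' => ?_), hσ2, hσ,
    fun z hz => ?_, fun j x z => ?_⟩
  · refine hun (z + z') (fun j => f z j + f z' j) ?_ j
    have h2 : ∑ j, σ (f z j + f z' j) * c j =
        ∑ j, σ (f z j) * c j + ∑ j, σ (f z' j) * c j := by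
      rw [← Finset.sum_add_distrib]
      refine Finset.sum_congr rfl fun j _ => ?_
      rw [map_add, add_mul]
    rw [h2, ← hf z, ← hf z']
  · rw [hf z]
    refine Finset.sum_eq_zero fun j _ => ?_
    have h1 : f z j = 0 := hz j
    rw [h1, map_zero, zero_mul]
  · change f (σ x * z) j = x * f z j
    refine hun (σ x * z) (fun j => x * f z j) ?_ j
    conv_lhs => rw [hf z]
    rw [Finset.mul_sum]
    refine Finset.sum_congr rfl fun j _ => ?_
    rw [map_mul, mul_assoc]

end Pool.Agent.WPU
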