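import Pool.Agent.Lib.MP_2da099_lc.UE.PDefs
import Pool.Agent.Lib.MP_2da099_lc.UE.B4
import Mathlib.Algebra.Module.Injective
import Mathlib.RingTheory.Noetherian.Basic

/-!
# B6: finitely many tests over the lift

HINTS.  Every ideal of `L.O` is `(p ^ i)`, `i ≤ e`: every `x ≠ 0` is `p ^ i * unit` (`L.ker`, `unit_of_ne`, `L.pe`), so `L.O` is Noetherian and the ideals form
a chain.  `L.O` is an injective module over itself (Baer: `Module.Baer.injective`): a linear map `h : (p ^ i) → L.O` has
`p ^ (e - i) * h (p ^ i) = h (p ^ e) = 0`, so `h (p ^ i) = p ^ i * b` (`L.flat` with `e - i`), and `h` extends to `x ↦ x * b`.  Hence for every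
module `W` and `x ≠ 0` in `W` there is a linear map `W → L.O` not vanishing at `x`: the annihilator of `x` is `(p ^ i)`, `i ≥ 1`, the map
`L.O x → L.O`, `a x ↦ a p ^ (e - i)`, is well defined and nonzero at `x` (`p ^ (e - i) ≠ 0` because otherwise, by `flat`, ..., `1 ∈ p L.O`),
it extends to `W` by injectivity.
Then: `T = {α : κ → L.O | ∀ f, ∑ f i • z i = 0 → ∑ f i * α i = 0}` is a submodule of `κ → L.O`, finitely generated (Noetherian), generators
`α 1, .., α s`.  If `∑ f i * α j i = 0` for all `j` then for all `α ∈ T`; a linear map `h : W → L.O` gives `α i = h (z i)` in `T`, so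
`h (∑ f i • z i) = 0` for all `h`, so `∑ f i • z i = 0`.
-/

set_option autoImplicit false

namespace Pool.Agent.WPU

open Pool.Agent.WPM Pool.Agent.WPR

private theorem b6_form {p e : ℕ} {K : Type} [Field K] (L : PLift p e K) (x : L.O) (n : ℕ) :
    (∃ i < n, ∃ u : L.Oˣ, x = (p : L.O) ^ i * u) ∨ ∃ z, x = (p : L.O) ^ n * z := by
  induction n with
  | zero => exact Or.inr ⟨x, by simp⟩
  | succ n ih =>
    rcases ih with ⟨i, hi, u, hu⟩ | ⟨z, hz⟩
    · exact Or.inl ⟨i, by omega, u, hu⟩
    · by_cases h : L.π z = 0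
      · obtain ⟨w, hw⟩ := (L.ker z).mp h
        exact Or.inr ⟨w, by rw [hz, hw]; ring⟩
      · obtain ⟨u, hu⟩ := unit_of_ne L z h
        exact Or.inl ⟨n, by omega, u, by rw [hz, hu]⟩

private theorem b6_ideal {p e : ℕ} {K : Type} [Field K] (L : PLift p e K) (I : Ideal L.O) :
    ∃ i ≤ e, I = Ideal.span {(p : L.O) ^ i} := by
  classical
  have hex : ∃ i, (p : L.O) ^ i ∈ I := ⟨e, by rw [L.pe]; exact I.zero_mem⟩
  refine ⟨Nat.find hex, Nat.find_min' hex (by rw [L.pe]; exact I.zero_mem), le_antisymm ?_ ?_⟩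
  · intro x hx
    rw [Ideal.mem_span_singleton]
    rcases b6_form L x e with ⟨i, hi, u, hu⟩ | ⟨z, hz⟩
    · have h1 : (p : L.O) ^ i ∈ I := by
        have h3 : (p : L.O) ^ i = ((u⁻¹ : L.Oˣ) : L.O) * x := by
          rw [hu, mul_left_comm, Units.inv_mul, mul_one]
        rw [h3]
        exact I.mul_mem_left _ hx
      have h2 := Nat.find_min' hex h1
      rw [hu]
      exact (pow_dvd_pow _ h2).mul_right _
    · rw [hz, L.pe, zero_mul]
      exact dvd_zero _
  · rw [Ideal.span_le, Set.singleton_subset_iff]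
    exact Nat.find_spec hex

private theorem b6_noeth {p e : ℕ} {K : Type} [Field K] (L : PLift p e K) :
    IsNoetherianRing L.O := by
  rw [isNoetherianRing_iff_ideal_fg]
  intro I
  obtain ⟨i, _, rfl⟩ := b6_ideal L I
  exact ⟨{(p : L.O) ^ i}, by simp⟩

private theorem b6_baer {p e : ℕ} {K : Type} [Field K] (L : PLift p e K) :
    Module.Baer L.O L.O := by
  intro I g
  obtain ⟨i, hi, rfl⟩ := b6_ideal L I
  have hmem : (p : L.O) ^ i ∈ Ideal.span {(p : L.O) ^ i} := Ideal.mem_span_singleton_self _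
  have h0 : (p : L.O) ^ (e - i) * g ⟨(p : L.O) ^ i, hmem⟩ = 0 := by
    rw [← smul_eq_mul, ← map_smul]
    have h1 : (p : L.O) ^ (e - i) • (⟨(p : L.O) ^ i, hmem⟩ : Ideal.span {(p : L.O) ^ i}) = 0 := by
      apply Subtype.ext
      show (p : L.O) ^ (e - i) * (p : L.O) ^ i = 0
      rw [← pow_add, Nat.sub_add_cancel hi, L.pe]
    rw [h1, map_zero]
  obtain ⟨z, hz⟩ := L.flat (e - i) _ (Nat.sub_le _ _) h0
  have h2 : e - (e - i) = i := by omega
  rw [h2] at hz
  refine ⟨LinearMap.toSpanSingleton L.O L.O z, fun x hx => ?_⟩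
  obtain ⟨a, ha⟩ := Ideal.mem_span_singleton.mp hx
  have h3 : (⟨x, hx⟩ : Ideal.span {(p : L.O) ^ i}) = a • ⟨(p : L.O) ^ i, hmem⟩ := by
    apply Subtype.ext
    show x = a * (p : L.O) ^ i
    rw [ha, mul_comm]
  rw [h3, map_smul, hz, LinearMap.toSpanSingleton_apply, smul_eq_mul, smul_eq_mul, ha]
  ring

/-- linear forms separate points -/
private theorem b6_sep {p e : ℕ} {K : Type} [Field K] (L : PLift p e K)
    (W : Type) [AddCommGroup W] [Module L.O W] (x : W) (hx : x ≠ 0) :
    ∃ h : W →ₗ[L.O] L.O, h x ≠ 0 := by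
  set φ : L.O →ₗ[L.O] W := LinearMap.toSpanSingleton L.O W x with hφ
  obtain ⟨i, hi, hI⟩ := b6_ideal L (LinearMap.ker φ)
  have hi1 : 1 ≤ i := by
    by_contra hcon
    have h0 : i = 0 := by omega
    rw [h0, pow_zero, Ideal.span_singleton_one] at hI
    have h1 : (1 : L.O) ∈ LinearMap.ker φ := by
      rw [hI]
      exact Submodule.mem_top
    rw [LinearMap.mem_ker, hφ, LinearMap.toSpanSingleton_apply, one_smul] at h1
    exact hx h1
  have hp : L.π (p : L.O) = 0 := (L.ker _).mpr ⟨1, by rw [mul_one]⟩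
  have hne : (p : L.O) ^ (e - i) ≠ 0 := by
    intro h0
    obtain ⟨z, hz⟩ := L.flat (e - i) 1 (Nat.sub_le _ _) (by rw [h0, zero_mul])
    have h2 : e - (e - i) = i := by omega
    rw [h2] at hz
    have h3 := congrArg L.π hz
    rw [map_one, map_mul, map_pow, hp, zero_pow (by omega), zero_mul] at h3
    exact one_ne_zero h3
  have hle : LinearMap.ker φ ≤
      LinearMap.ker (LinearMap.toSpanSingleton L.O L.O ((p : L.O) ^ (e - i))) := by
    intro a ha
    rw [hI] at ha
    obtain ⟨b, hb⟩ := Ideal.mem_span_singleton.mp ha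
    rw [LinearMap.mem_ker, LinearMap.toSpanSingleton_apply, smul_eq_mul, hb, mul_right_comm,
      ← pow_add, Nat.add_sub_cancel' hi, L.pe, zero_mul]
  have hinj : Function.Injective ((LinearMap.ker φ).liftQ φ le_rfl) :=
    LinearMap.ker_eq_bot.mp (Submodule.ker_liftQ_eq_bot _ _ _ le_rfl)
  obtain ⟨h, hh⟩ := Module.Baer.extension_property (b6_baer L) _ hinj
    ((LinearMap.ker φ).liftQ (LinearMap.toSpanSingleton L.O L.O ((p : L.O) ^ (e - i))) hle)
  refine ⟨h, ?_⟩
  have h1 := congrArg (fun f => f (Submodule.Quotient.mk 1)) hh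
  simp only [LinearMap.comp_apply, Submodule.liftQ_apply] at h1
  rw [hφ, LinearMap.toSpanSingleton_apply, one_smul, LinearMap.toSpanSingleton_apply, one_smul]
    at h1
  rw [h1]
  exact hne

theorem exists_tests {p e : ℕ} [Fact p.Prime] {K : Type} [Field K] (L : PLift p e K) (he : 0 < e)
    (W : Type) [AddCommGroup W] [Module L.O W] (κ : Type) [Fintype κ] (z : κ → W) :
    ∃ (s : ℕ) (α : κ → Fin s → L.O), ∀ f : κ → L.O,
      (∑ i, f i • z i = 0 ↔ ∀ j, ∑ i, f i * α i j = 0) := by
  classical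
  have := b6_noeth L
  let T : Submodule L.O (κ → L.O) :=
    { carrier := {α | ∀ f : κ → L.O, ∑ i, f i • z i = 0 → ∑ i, f i * α i = 0}
      add_mem' := by
        intro a b ha hb f hf
        simp only [Pi.add_apply, mul_add, Finset.sum_add_distrib]
        rw [ha f hf, hb f hf, add_zero]
      zero_mem' := by
        intro f _
        simp
      smul_mem' := by
        intro c a ha f hf
        have h1 : ∑ i, f i * (c • a) i = c * ∑ i, f i * a i := by
          rw [Finset.mul_sum]
          refine Finset.sum_congr rfl fun i _ => ?_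
          rw [Pi.smul_apply, smul_eq_mul]
          ring
        rw [h1, ha f hf, mul_zero] }
  have hT : T.FG := IsNoetherian.noetherian T
  obtain ⟨s, α, hα⟩ := Submodule.fg_iff_exists_fin_generating_family.mp hT
  refine ⟨s, fun i j => α j i, fun f => ⟨fun hf j => ?_, fun hf => ?_⟩⟩
  · have h1 : α j ∈ T := by
      rw [← hα]
      exact Submodule.subset_span ⟨j, rfl⟩
    exact h1 f hf
  · by_contra hx
    obtain ⟨h, hh⟩ := b6_sep L W _ hx
    have h1 : (fun i => h (z i)) ∈ T := by
      intro f' hf'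
      have h2 : ∑ i, f' i * h (z i) = h (∑ i, f' i • z i) := by
        rw [map_sum]
        refine Finset.sum_congr rfl fun i _ => ?_
        rw [map_smul, smul_eq_mul]
      rw [h2, hf', map_zero]
    rw [← hα] at h1
    have h2 : ∀ β ∈ Submodule.span L.O (Set.range α), ∑ i, f i * β i = 0 := by
      intro β hβ
      induction hβ using Submodule.span_induction with
      | mem x hx =>
        obtain ⟨j, rfl⟩ := hx
        exact hf j
      | zero => simp
      | add x y _ _ hx hy =>
        simp only [Pi.add_apply, mul_add, Finset.sum_add_distrib]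
        rw [hx, hy, add_zero]
      | smul c x _ hx =>
        have h1 : ∑ i, f i * (c • x) i = c * ∑ i, f i * x i := by
          rw [Finset.mul_sum]
          refine Finset.sum_congr rfl fun i _ => ?_
          rw [Pi.smul_apply, smul_eq_mul]
          ring
        rw [h1, hx, mul_zero]
    have h3 := h2 _ h1
    apply hh
    rw [map_sum, ← h3]
    refine Finset.sum_congr rfl fun i _ => ?_
    rw [map_smul, smul_eq_mul]

end Pool.Agent.WPU
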