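import Pool.Agent.Lib.MP_2da099_lc.UE.PDefs
import Pool.Agent.Lib.MP_2da099_lc.UE.B4

/-!
# B7: the lift is generated by multiplicative elements

HINTS.  `h v = upow ξ v` (units of `L.O`), `g = upow yu u` (units `yu i` with the values `L.y i`).  `G` = the additive closure of all products
`upow ξ v * upow yu u`, a subring.  `O'' = {z | ∃ x y ∈ G, IsUnit y ∧ z * y = x}` is a subring of `L.O`, closed under inverses of units
(if `z` is a unit then `x = z y` is a unit).  Its image in `K` under `π` is a subfield (nonzero image = unit, `unit_of_ne`) which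
contains `π (y i)` and the `(S)`-powers `π (ξ i)`: hypothesis `hξ` says that these generate `K`; so `O'' + p L.O = L.O` (`L.ker`), hence
`O'' + p ^ i L.O = L.O` for all `i` (`p ∈ O''`), and `p ^ e = 0`.
-/

set_option autoImplicit false

namespace Pool.Agent.WPU

open Pool.Agent.WPM Pool.Agent.WPR

theorem b7_upow_add {O : Type} [CommRing O] {r : ℕ} (u : Fin r → Oˣ) (v w : Fin r → ℤ) :
    upow u (v + w) = upow u v * upow u w := by
  unfold upow
  rw [← Units.val_mul, ← Finset.prod_mul_distrib]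
  congr 1
  refine Finset.prod_congr rfl fun i _ => ?_
  rw [Pi.add_apply, zpow_add]

theorem b7_upow_zero {O : Type} [CommRing O] {r : ℕ} (u : Fin r → Oˣ) : upow u 0 = 1 := by
  simp [upow]

theorem b7_upow_single {O : Type} [CommRing O] {r : ℕ} (u : Fin r → Oˣ) (i : Fin r) :
    upow u (Pi.single i 1) = u i := by
  classical
  unfold upow
  congr 1
  rw [Finset.prod_eq_single i]
  · simp
  · intro j _ hj
    simp [Pi.single_eq_of_ne hj]
  · intro h
    exact absurd (Finset.mem_univ i) h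

/-- the monoid of the products -/
def b7M {O : Type} [CommRing O] {r t : ℕ} (ξ : Fin r → Oˣ) (yu : Fin t → Oˣ) : Submonoid O where
  carrier := Set.range (fun v : (Fin r → ℤ) × (Fin t → ℤ) => upow ξ v.1 * upow yu v.2)
  mul_mem' := by
    rintro _ _ ⟨v, rfl⟩ ⟨w, rfl⟩
    refine ⟨v + w, ?_⟩
    simp only [Prod.fst_add, Prod.snd_add, b7_upow_add]
    ring
  one_mem' := ⟨0, by simp [b7_upow_zero]⟩

/-- the fractions -/
def b7F {O : Type} [CommRing O] (A : Subring O) : Subring O where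
  carrier := {z | ∃ x y : O, x ∈ A ∧ y ∈ A ∧ IsUnit y ∧ z * y = x}
  mul_mem' := by
    rintro a b ⟨x, y, hx, hy, hu, h⟩ ⟨x', y', hx', hy', hu', h'⟩
    exact ⟨x * x', y * y', A.mul_mem hx hx', A.mul_mem hy hy', hu.mul hu', by rw [← h, ← h']; ring⟩
  one_mem' := ⟨1, 1, A.one_mem, A.one_mem, isUnit_one, by ring⟩
  add_mem' := by
    rintro a b ⟨x, y, hx, hy, hu, h⟩ ⟨x', y', hx', hy', hu', h'⟩
    exact ⟨x * y' + x' * y, y * y', A.add_mem (A.mul_mem hx hy') (A.mul_mem hx' hy),
      A.mul_mem hy hy', hu.mul hu', by rw [← h, ← h']; ring⟩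
  zero_mem' := ⟨0, 1, A.zero_mem, A.one_mem, isUnit_one, by ring⟩
  neg_mem' := by
    rintro a ⟨x, y, hx, hy, hu, h⟩
    exact ⟨-x, y, A.neg_mem hx, hy, hu, by rw [← h]; ring⟩

theorem b7F_inv {O : Type} [CommRing O] (A : Subring O) (z w : O) (hz : z ∈ b7F A)
    (hw : z * w = 1) : w ∈ b7F A := by
  obtain ⟨x, y, hx, hy, hu, h⟩ := hz
  have hx' : IsUnit x := by
    rw [← h]
    exact (IsUnit.of_mul_eq_one w hw).mul hu
  refine ⟨y, x, hy, hx, hx', ?_⟩
  rw [← h]
  calc w * (z * y) = (z * w) * y := by ring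
    _ = y := by rw [hw, one_mul]

theorem b7F_le {O : Type} [CommRing O] (A : Subring O) (z : O) (hz : z ∈ A) : z ∈ b7F A :=
  ⟨z, 1, hz, A.one_mem, isUnit_one, by ring⟩

theorem hgen_plift {p e r : ℕ} [Fact p.Prime] {K : Type} [Field K] (L : PLift p e K)
    (ξ : Fin r → L.Oˣ) (yu : Fin L.t → L.Oˣ) (hyu : ∀ i, (yu i : L.O) = L.y i)
    (hξ : Subfield.closure (Set.range (fun i => L.π (L.y i)) ∪
      Set.range (fun i => L.π (ξ i : L.O))) = ⊤) (z : L.O) :
    ∃ x y : L.O, x ∈ AddSubgroup.closure (Set.range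
        (fun v : (Fin r → ℤ) × (Fin L.t → ℤ) => upow ξ v.1 * upow yu v.2)) ∧
      y ∈ AddSubgroup.closure (Set.range
        (fun v : (Fin r → ℤ) × (Fin L.t → ℤ) => upow ξ v.1 * upow yu v.2)) ∧
      IsUnit y ∧ z * y = x := by
  set T : Set L.O := Set.range
    (fun v : (Fin r → ℤ) × (Fin L.t → ℤ) => upow ξ v.1 * upow yu v.2) with hT
  set A : Subring L.O := Subring.closure T with hA
  have hmem : ∀ x, x ∈ A ↔ x ∈ AddSubgroup.closure T := by
    intro x
    have h1 : (Submonoid.closure T : Set L.O) = T := by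
      have h2 : Submonoid.closure T = b7M ξ yu := by
        have h3 : ((b7M ξ yu : Submonoid L.O) : Set L.O) = T := rfl
        rw [← h3, Submonoid.closure_eq]
      rw [h2]
      rfl
    rw [hA, Subring.mem_closure_iff, h1]
  have hTA : ∀ x ∈ T, x ∈ b7F A := fun x hx => b7F_le A x (Subring.subset_closure hx)
  -- the image is a subfield
  let K0 : Subfield K :=
    { (b7F A).map L.π with
      inv_mem' := by
        rintro _ ⟨a, ha, rfl⟩
        by_cases h0 : L.π a = 0
        · rw [h0, inv_zero]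
          exact ⟨0, (b7F A).zero_mem, map_zero _⟩
        · obtain ⟨b, hb⟩ := (unit_of_ne L a h0).exists_right_inv
          refine ⟨b, b7F_inv A a b ha hb, ?_⟩
          have h1 : L.π a * L.π b = 1 := by rw [← map_mul, hb, map_one]
          exact eq_inv_of_mul_eq_one_right h1 }
  have hK0 : ∀ x : K, ∃ a ∈ b7F A, L.π a = x := by
    intro x
    have h1 : Subfield.closure (Set.range (fun i => L.π (L.y i)) ∪
        Set.range (fun i => L.π (ξ i : L.O))) ≤ K0 := by
      rw [Subfield.closure_le]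
      rintro _ (⟨i, rfl⟩ | ⟨i, rfl⟩)
      · refine ⟨L.y i, hTA _ ⟨(0, Pi.single i 1), ?_⟩, rfl⟩
        simp only
        rw [b7_upow_zero, b7_upow_single, one_mul, hyu]
      · refine ⟨(ξ i : L.O), hTA _ ⟨(Pi.single i 1, 0), ?_⟩, rfl⟩
        simp only
        rw [b7_upow_zero, b7_upow_single, mul_one]
    rw [hξ] at h1
    have h2 : x ∈ K0 := h1 (Subfield.mem_top x)
    exact h2
  have hstep : ∀ i : ℕ, ∀ z : L.O, ∃ a ∈ b7F A, ∃ w : L.O, z = a + (p : L.O) ^ i * w := by
    intro i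
    induction i with
    | zero =>
      intro z
      exact ⟨0, (b7F A).zero_mem, z, by ring⟩
    | succ i ih =>
      intro z
      obtain ⟨a, ha, w, hw⟩ := ih z
      obtain ⟨b, hb, hbw⟩ := hK0 (L.π w)
      have h1 : L.π (w - b) = 0 := by rw [map_sub, hbw, sub_self]
      obtain ⟨c, hc⟩ := (L.ker (w - b)).mp h1
      refine ⟨a + (p : L.O) ^ i * b, (b7F A).add_mem ha
        ((b7F A).mul_mem ((b7F A).pow_mem (natCast_mem (b7F A) p) i) hb), c, ?_⟩
      have h2 : w = b + (p : L.O) * c := by rw [← hc]; ring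
      rw [hw, h2]
      ring
  obtain ⟨a, ha, w, hw⟩ := hstep e z
  rw [L.pe, zero_mul, add_zero] at hw
  rw [← hw] at ha
  obtain ⟨x, y, hx, hy, hu, h⟩ := ha
  exact ⟨x, y, (hmem x).mp hx, (hmem y).mp hy, hu, h⟩

end Pool.Agent.WPU
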