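import Pool.Agent.Lib.MP_2da099_lc.UE.PDefs
import Pool.Agent.Lib.MP_2da099_lc.UE.B4
import Mathlib.RingTheory.LocalRing.ResidueField.Basic

/-!
# B8a: the lift maps to the local ring

HINTS.  `L.lift` with `R`, `K' = ResidueField R`, `ρ = residue R`, `f = L.π`, `yy i` a lift of `L.π (L.y i)` (`residue` is surjective); the kernel of
`residue R` is the maximal ideal, whose elements are nilpotent (`x ^ e ∈ maximalIdeal ^ e = ⊥`); `(p : R) ^ e = 0` because
`p ∈ maximalIdeal R`.  `residue_gen`: every element of `K` is `residue a`, `φ g * a = φ f` with `φ g` a unit, so it is the quotient of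
`residue (φ f)` and `residue (φ g)`; `LamZ r` is generated as a ring by the monomials `monZ (± e_j)` (`AddMonoidAlgebra` induction; a monomial is
a product of powers: `monZ c` with `c = Σ c_j e_j`), and `residue (φ (monZ (- e_j)))` is the inverse of `residue (φ (monZ e_j))`.  So the
subfield generated by the `residue (φ (monZ e_j))` is everything.
-/

set_option autoImplicit false

namespace Pool.Agent.WPU

open Pool.Agent.WPM Pool.Agent.WPR

theorem exists_section_p {p e : ℕ} (R : Type) [CommRing R] [IsLocalRing R]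
    (hk : (IsLocalRing.maximalIdeal R) ^ e = ⊥) (hp : (p : R) ∈ IsLocalRing.maximalIdeal R)
    (L : PLift p e (IsLocalRing.ResidueField R)) :
    ∃ s : L.O →+* R, ∀ x, IsLocalRing.residue R (s x) = L.π x := by
  have hnil : ∀ x : R, IsLocalRing.residue R x = 0 → x ^ e = 0 := by
    intro x hx
    have h1 : x ∈ IsLocalRing.maximalIdeal R := by
      rw [← IsLocalRing.ker_residue]
      exact hx
    have h2 : x ^ e ∈ (IsLocalRing.maximalIdeal R) ^ e := Ideal.pow_mem_pow h1 e
    rw [hk] at h2
    exact h2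
  choose yy hyy using fun i => IsLocalRing.residue_surjective (R := R) (L.π (L.y i))
  have hp0 : IsLocalRing.residue R (p : R) = 0 := (IsLocalRing.residue_eq_zero_iff (p : R)).mpr hp
  obtain ⟨F, hF, -⟩ := L.lift R (IsLocalRing.ResidueField R) (IsLocalRing.residue R) L.π yy
    IsLocalRing.residue_surjective (fun x hx => ⟨e, hnil x hx⟩) (hnil _ hp0) hyy
  exact ⟨F, hF⟩

theorem residue_gen {r : ℕ} (R : Type) [CommRing R] [IsLocalRing R] (φ : LamZ r →+* R)
    (hφ : ∀ a : R, ∃ f g : LamZ r, IsUnit (φ g) ∧ φ g * a = φ f) :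
    Subfield.closure (Set.range
      (fun j : Fin r => IsLocalRing.residue R (φ (monZ (Pi.single j 1))))) = ⊤ := by
  obtain ⟨S, hS⟩ : ∃ S, S = Subfield.closure (Set.range
      (fun j : Fin r => IsLocalRing.residue R (φ (monZ (Pi.single j 1))))) := ⟨_, rfl⟩
  obtain ⟨ψ, hψ⟩ : ∃ ψ : LamZ r →+* IsLocalRing.ResidueField R, ∀ x,
      ψ x = IsLocalRing.residue R (φ x) := ⟨(IsLocalRing.residue R).comp φ, fun x => rfl⟩
  have hadd : ∀ c c' : Fin r → ℤ, ψ (monZ (c + c')) = ψ (monZ c) * ψ (monZ c') := by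
    intro c c'
    rw [← map_mul]
    congr 1
    unfold monZ
    rw [AddMonoidAlgebra.single_mul_single, one_mul]
  have hone : ψ (monZ (0 : Fin r → ℤ)) = 1 := by
    have : (monZ (0 : Fin r → ℤ) : LamZ r) = 1 := rfl
    rw [this, map_one]
  have hneg : ∀ c : Fin r → ℤ, ψ (monZ (-c)) = (ψ (monZ c))⁻¹ := by
    intro c
    have h1 : ψ (monZ (-c)) * ψ (monZ c) = 1 := by
      rw [← hadd, neg_add_cancel, hone]
    exact eq_inv_of_mul_eq_one_left h1
  let H : AddSubgroup (Fin r → ℤ) :=
    { carrier := {c | ψ (monZ c) ∈ S}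
      add_mem' := fun {a b} ha hb => by
        show ψ (monZ (a + b)) ∈ S
        rw [hadd]
        exact S.mul_mem ha hb
      zero_mem' := by
        show ψ (monZ 0) ∈ S
        rw [hone]
        exact S.one_mem
      neg_mem' := fun {a} ha => by
        show ψ (monZ (-a)) ∈ S
        rw [hneg]
        exact S.inv_mem ha }
  have hH1 : ∀ j : Fin r, Pi.single j (1 : ℤ) ∈ H := by
    intro j
    show ψ (monZ (Pi.single j 1)) ∈ S
    rw [hS, hψ]
    exact Subfield.subset_closure ⟨j, rfl⟩
  have hH : ∀ c : Fin r → ℤ, ψ (monZ c) ∈ S := by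
    intro c
    have h1 : c = ∑ j, c j • Pi.single j (1 : ℤ) := by
      funext i
      rw [Finset.sum_apply]
      simp [Pi.single_apply]
    have h2 : ∑ j, c j • Pi.single j (1 : ℤ) ∈ H :=
      H.sum_mem fun j _ => H.zsmul_mem (hH1 j) (c j)
    rw [← h1] at h2
    exact h2
  have hall : ∀ f : LamZ r, ψ f ∈ S := by
    intro f
    induction f using AddMonoidAlgebra.induction_on with
    | of c => exact hH c
    | add a b ha hb => rw [map_add]; exact S.add_mem ha hb
    | smul z a ha => rw [map_zsmul]; exact S.zsmul_mem ha z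
  rw [← hS, eq_top_iff]
  intro x _
  obtain ⟨a, rfl⟩ := IsLocalRing.residue_surjective x
  obtain ⟨f, g, hg, hfg⟩ := hφ a
  have h1 : ψ g * IsLocalRing.residue R a = ψ f := by
    rw [hψ, hψ, ← map_mul, hfg]
  have h2 : ψ g ≠ 0 := by
    rw [hψ]
    exact (hg.map (IsLocalRing.residue R)).ne_zero
  have h3 : IsLocalRing.residue R a = ψ f / ψ g := by
    rw [← h1, mul_div_cancel_left₀ _ h2]
  rw [h3]
  exact S.div_mem (hall f) (hall g)

theorem residue_char {p : ℕ} [Fact p.Prime] (R : Type) [CommRing R] [IsLocalRing R]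
    (hp : (p : R) ∈ IsLocalRing.maximalIdeal R) : CharP (IsLocalRing.ResidueField R) p := by
  have hp0 : IsLocalRing.residue R (p : R) = 0 := (IsLocalRing.residue_eq_zero_iff (p : R)).mpr hp
  rw [map_natCast] at hp0
  exact (CharP.charP_iff_prime_eq_zero Fact.out).mpr hp0

end Pool.Agent.WPU
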