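import Pool.Agent.Lib.MP_2da099_lc.UE.PDefs
import Pool.Agent.Lib.MP_2da099_lc.UE.B4
import Pool.Agent.Lib.MP_2da099_lc.UE.A9a
import Pool.Agent.Lib.MP_2da099_lc.ADefs
import Pool.Agent.Lib.MP_2da099_lc.S01
import Mathlib.RingTheory.LocalRing.ResidueField.Basic

/-!
# B8b: multiplicative representatives

HINTS.  `x j = φ (monZ e_j)`, a unit of `R` (inverse `φ (monZ (- e_j))`).  `ξ0 j ∈ L.O` with `L.π (ξ0 j) = residue (x j) ≠ 0` (`L.surj`), a unit
(`unit_of_ne`).  `ξ j = ξ0 j ^ (p ^ M)`.  `s (ξ0 j)` is a unit with the residue of `x j`, so `u = x j * s (ξ0 j)⁻¹` is `1` modulo the maximal ideal and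
`u ^ (p ^ M) = 1` (`pow_unip`): `x j ^ (p ^ M) = s (ξ j)`.  `σ (ξ0 j)` and `ξ0 j ^ p` have the same image under `π` (nonzero), so
`σ (ξ j) = σ (ξ0 j) ^ (p ^ M) = (ξ0 j ^ p) ^ (p ^ M) = ξ j ^ p` (`pow_eq_of_eq`).  `phi_mon`: `c = q • fl q c + dz (md q c)` (`fl_add_md`),
`monZ (v + w) = monZ v * monZ w`, `monZ (q • v) = monZ v ^ q`, `φ (monZ v) = Π (x j) ^ (v j)` for units, so `φ (monZ (q • v)) = s (upow ξ v)`, `q = p ^ M`.
`sigma_upow`: `σ (upow ξ v) = upow ξ (p • v)` for units with `σ (ξ j) = ξ j ^ p` (`Units.map`, `map_zpow`, `zpow_mul`).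
-/

set_option autoImplicit false

namespace Pool.Agent.WPU

open Pool.Agent.Lib.PolyTime Pool.Agent.WPM Pool.Agent.WPR

/-- The monomial as a unit. -/
private noncomputable def b8b_U {r : ℕ} (v : Fin r → ℤ) : (LamZ r)ˣ where
  val := monZ v
  inv := monZ (-v)
  val_inv := by
    rw [monZ, monZ, AddMonoidAlgebra.single_mul_single, add_neg_cancel, mul_one]
    rfl
  inv_val := by
    rw [monZ, monZ, AddMonoidAlgebra.single_mul_single, neg_add_cancel, mul_one]
    rfl

/-- The monomials as a homomorphism. -/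
private noncomputable def b8b_hom (r : ℕ) : Multiplicative (Fin r → ℤ) →* (LamZ r)ˣ where
  toFun v := b8b_U v.toAdd
  map_one' := by
    refine Units.ext ?_
    show monZ (0 : Fin r → ℤ) = 1
    rfl
  map_mul' v w := by
    refine Units.ext ?_
    show monZ (v.toAdd + w.toAdd) = monZ v.toAdd * monZ w.toAdd
    rw [monZ, monZ, monZ, AddMonoidAlgebra.single_mul_single, mul_one]

private theorem b8b_mon {r : ℕ} (c : Fin r → ℤ) :
    b8b_U c = ∏ i, (b8b_U (Pi.single i 1 : Fin r → ℤ)) ^ (c i) := by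
  have h1 : Multiplicative.ofAdd c =
      ∏ i, (Multiplicative.ofAdd (Pi.single i 1 : Fin r → ℤ)) ^ (c i) := by
    have h2 : ∑ i, (c i) • (Pi.single i 1 : Fin r → ℤ) = c := by
      ext j
      rw [Finset.sum_apply, Finset.sum_eq_single j]
      · simp
      · intro i _ hij
        simp [Pi.single_eq_of_ne hij.symm]
      · intro h
        exact absurd (Finset.mem_univ j) h
    conv_lhs => rw [← h2]
    rw [ofAdd_sum]
    exact Finset.prod_congr rfl (fun i _ => ofAdd_zsmul _ _)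
  have h3 : b8b_hom r (Multiplicative.ofAdd c) = b8b_U c := rfl
  have h4 : ∀ i : Fin r, b8b_hom r (Multiplicative.ofAdd (Pi.single i 1 : Fin r → ℤ)) =
      b8b_U (Pi.single i 1) := fun i => rfl
  rw [← h3, h1, map_prod]
  refine Finset.prod_congr rfl (fun i _ => ?_)
  rw [map_zpow, h4]

theorem sigma_upow {O : Type} [CommRing O] {r : ℕ} (σ : O →+* O) (p : ℕ) (ξ : Fin r → Oˣ)
    (h : ∀ j, σ (ξ j : O) = (ξ j : O) ^ p) (v : Fin r → ℤ) : σ (upow ξ v) = upow ξ (p • v) := by
  have h1 : ∀ j, Units.map (σ : O →* O) (ξ j) = ξ j ^ p := by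
    intro j
    refine Units.ext ?_
    rw [Units.coe_map, Units.val_pow_eq_pow_val]
    exact h j
  have h2 : Units.map (σ : O →* O) (∏ i, ξ i ^ v i) = ∏ i, ξ i ^ (p • v) i := by
    rw [map_prod]
    refine Finset.prod_congr rfl (fun i _ => ?_)
    rw [map_zpow, h1, ← zpow_natCast, ← zpow_mul, Pi.smul_apply, nsmul_eq_mul]
  exact congrArg Units.val h2

theorem exists_reps {r p e M : ℕ} [Fact p.Prime] (R : Type) [CommRing R] [IsLocalRing R]
    (hk : (IsLocalRing.maximalIdeal R) ^ e = ⊥) (hp : (p : R) ∈ IsLocalRing.maximalIdeal R)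
    (L : PLift p e (IsLocalRing.ResidueField R)) (hM : e ≤ M + 1)
    (s : L.O →+* R) (hs : ∀ x, IsLocalRing.residue R (s x) = L.π x) (σ : L.O →+* L.O)
    (hσ : ∀ x, L.π (σ x) = L.π x ^ p) (φ : LamZ r →+* R) :
    ∃ ξ : Fin r → L.Oˣ, (∀ j, σ (ξ j : L.O) = (ξ j : L.O) ^ p) ∧
      (∀ j, L.π (ξ j : L.O) = (IsLocalRing.residue R (φ (monZ (Pi.single j 1)))) ^ p ^ M) ∧
      ∀ v : Fin r → ℤ, φ (monZ (p ^ M • v)) = s (upow ξ v) := by
  classical
  -- the units of `R`
  set X : Fin r → Rˣ := fun j => Units.map (φ : LamZ r →* R) (b8b_U (Pi.single j 1)) with hX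
  have hXv : ∀ j, ((X j : Rˣ) : R) = φ (monZ (Pi.single j 1)) := fun j => rfl
  have hXne : ∀ j, IsLocalRing.residue R (φ (monZ (Pi.single j 1))) ≠ 0 := by
    intro j
    rw [← hXv]
    exact ((X j).isUnit.map (IsLocalRing.residue R)).ne_zero
  -- the lifts
  choose x0 hx0 using fun j => L.surj (IsLocalRing.residue R (φ (monZ (Pi.single j 1))))
  have hx0ne : ∀ j, L.π (x0 j) ≠ 0 := fun j => by rw [hx0 j]; exact hXne j
  choose z hz using fun j => unit_of_ne L (x0 j) (hx0ne j)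
  -- the key identity
  have hkey : ∀ j, X j ^ p ^ M = Units.map (s : L.O →* R) (z j ^ p ^ M) := by
    intro j
    set Y : Rˣ := Units.map (s : L.O →* R) (z j) with hY
    have h1 : ((X j * Y⁻¹ : Rˣ) : R) - 1 ∈ IsLocalRing.maximalIdeal R := by
      rw [← IsLocalRing.residue_eq_zero_iff, map_sub, map_one, sub_eq_zero]
      have h2 : Units.map (IsLocalRing.residue R : R →* IsLocalRing.ResidueField R) Y =
          Units.map (IsLocalRing.residue R : R →* IsLocalRing.ResidueField R) (X j) := by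
        refine Units.ext ?_
        show IsLocalRing.residue R (s (z j : L.O)) = IsLocalRing.residue R (X j : R)
        rw [hs, hz, hx0, hXv]
      have h3 : Units.map (IsLocalRing.residue R : R →* IsLocalRing.ResidueField R)
          (X j * Y⁻¹) = 1 := by
        rw [map_mul, map_inv, h2]
        exact mul_inv_cancel _
      exact congrArg Units.val h3
    have h4 : ((X j * Y⁻¹ : Rˣ) : R) ^ p ^ M = 1 :=
      pow_unip p (Fact.out) (IsLocalRing.maximalIdeal R) hp e hk M hM _ h1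
    have h5 : (X j * Y⁻¹) ^ p ^ M = 1 := by
      refine Units.ext ?_
      rw [Units.val_pow_eq_pow_val]
      exact h4
    rw [mul_pow, inv_pow, mul_inv_eq_one] at h5
    rw [h5, map_pow]
  refine ⟨fun j => z j ^ p ^ M, ?_, ?_, ?_⟩
  · intro j
    rw [Units.val_pow_eq_pow_val, map_pow, ← pow_mul, mul_comm (p ^ M) p, pow_mul]
    have h1 : L.π (σ (z j : L.O)) = L.π ((z j : L.O) ^ p) := by
      rw [hσ, map_pow]
    have h2 : L.π (σ (z j : L.O)) ≠ 0 := by
      rw [hσ, hz]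
      exact pow_ne_zero _ (hx0ne j)
    exact pow_eq_of_eq L M hM _ _ h2 h1
  · intro j
    rw [Units.val_pow_eq_pow_val, map_pow, hz, hx0]
  · intro v
    have h1 : φ (monZ (p ^ M • v)) = ((Units.map (φ : LamZ r →* R) (b8b_U (p ^ M • v)) : Rˣ) : R) :=
      rfl
    have h2 : Units.map (φ : LamZ r →* R) (b8b_U (p ^ M • v)) =
        Units.map (s : L.O →* R) (∏ i, (z i ^ p ^ M) ^ v i) := by
      rw [b8b_mon, map_prod, map_prod]
      refine Finset.prod_congr rfl (fun i _ => ?_)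
      rw [map_zpow, map_zpow, ← hkey i, Pi.smul_apply, nsmul_eq_mul, zpow_mul, zpow_natCast]
    rw [h1, h2]
    rfl

theorem monZ_split {r : ℕ} (q : ℕ) [NeZero q] (c : Fin r → ℤ) :
    (monZ c : LamZ r) = monZ (q • fl q c) * monZ (dz (md q c)) := by
  rw [monZ, monZ, monZ, AddMonoidAlgebra.single_mul_single, mul_one]
  congr 1
  funext i
  rw [Pi.add_apply, Pi.smul_apply, nsmul_eq_mul]
  exact fl_add_md q c i

end Pool.Agent.WPU
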