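import Pool.Agent.Lib.MP_2da099_lc.UE.PDefs
import Pool.Agent.Lib.MP_2da099_lc.UE.B2
import Pool.Agent.Lib.MP_2da099_lc.UE.B3c
import Pool.Agent.Lib.MP_2da099_lc.UE.B4
import Pool.Agent.Lib.MP_2da099_lc.UE.B5b
import Pool.Agent.Lib.MP_2da099_lc.UE.B6
import Pool.Agent.Lib.MP_2da099_lc.UE.B7
import Pool.Agent.Lib.MP_2da099_lc.UE.B8a
import Pool.Agent.Lib.MP_2da099_lc.UE.B8b
import Pool.Agent.Lib.MP_2da099_lc.A06

/-!
# B8: a torsion component over a lift

HINTS.  `W = (Letter r → LamZ r) ⧸ Q`; `k + 1` instead of `k`; `exists_local_gen`: `R`, `W'`, `φ`, `i`; `p ∈ maximalIdeal R` because `p ∈ P`.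
`K = ResidueField R`, characteristic `p` (`residue_char`), generated by the finite set `S` of the `residue (φ (monZ e_j))`
(`residue_gen`).  `e = k + 1`: `L` from `exists_plift`; `σ`, `d`, `φ_j` from `exists_frob`; `s` from `exists_section_p`; `M = e`, `q = p ^ M`, `ξ` from
`exists_reps`.  `φ (monZ c) = s (upow ξ (fl q c)) * φ (monZ (dz (md q c)))` (`monZ_split`).  `W'` is an `L.O`-module through `s`
(`Module.compHom`); `exists_tests` for the finite family `z (a, l) = φ (monZ (dz a)) • i [e_l]`, `a : Fin r → Fin q`; `vecW w ∈ Q` iff the sum over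
the path of `φ (monZ c) • i [e_l]` is zero; group it by `(a, l)` (`twist_group` in `A06.lean`).  `yu i` = the unit with the value `L.y i` (`L.yne`,
`unit_of_ne`).  `σ (upow ξ v) = upow ξ (p • v)`, `σ (upow yu u) = upow yu (p • u)` (`sigma_upow`).  `hgen_plift` with `L.sep S`: the field is generated by
the `π (y i)` and the `p ^ M`-th powers of `S`, which are the `π (ξ j)`.
-/

set_option autoImplicit false

namespace Pool.Agent.WPU

open Pool.Agent.Lib.PolyTime Pool.Agent.WPM Pool.Agent.WPR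

theorem exists_pdata {r : ℕ} (Q : Submodule (LamZ r) (Letter r → LamZ r)) (P : Ideal (LamZ r))
    [P.IsPrime] (p : ℕ) [Fact p.Prime] (hpP : (p : LamZ r) ∈ P)
    (h1 : ∀ f, f ∉ P → ∀ x, f • x ∈ Q → x ∈ Q) (k : ℕ) (h2 : ∀ f ∈ P ^ k, ∀ x, f • x ∈ Q) :
    ∃ (O : Type) (_ : CommRing O) (t d s q : ℕ) (_ : NeZero q) (ξ : Fin r → Oˣ) (yu : Fin t → Oˣ)
      (φ : Fin d → O →+ O) (α : (Fin r → Fin q) → Letter r → Fin s → O),
      (p : O) ^ (k + 1) = 0 ∧
      (∀ z, (∀ j, φ j z = 0) → z = 0) ∧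
      (∀ (j : Fin d) (v : Fin r → ℤ) (u : Fin t → ℤ) (z : O),
        φ j (upow ξ (p • v) * upow yu (p • u) * z) = upow ξ v * upow yu u * φ j z) ∧
      (∀ z : O, ∃ x y : O, x ∈ AddSubgroup.closure (Set.range
          (fun v : (Fin r → ℤ) × (Fin t → ℤ) => upow ξ v.1 * upow yu v.2)) ∧
        y ∈ AddSubgroup.closure (Set.range
          (fun v : (Fin r → ℤ) × (Fin t → ℤ) => upow ξ v.1 * upow yu v.2)) ∧
        IsUnit y ∧ z * y = x) ∧
      ∀ w : List (Letter r), vecW w ∈ Q ↔ ∀ j, ((posl 0 w).map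
        (fun x => upow ξ (fl q x.1) * α (md q x.1) x.2 j)).sum = 0 := by
  classical
  have hp2 : p.Prime := Fact.out
  let W : Type := (Letter r → LamZ r) ⧸ Q
  have h1' : ∀ f, f ∉ P → ∀ x : W, f • x = 0 → x = 0 := by
    intro f hf x hx
    obtain ⟨y, rfl⟩ := Submodule.mkQ_surjective Q x
    rw [← map_smul, Submodule.mkQ_apply, Submodule.Quotient.mk_eq_zero] at hx
    rw [Submodule.mkQ_apply, Submodule.Quotient.mk_eq_zero]
    exact h1 f hf y hx
  have h2' : ∀ f ∈ P ^ (k + 1), ∀ x : W, f • x = 0 := by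
    intro f hf x
    obtain ⟨y, rfl⟩ := Submodule.mkQ_surjective Q x
    rw [← map_smul, Submodule.mkQ_apply, Submodule.Quotient.mk_eq_zero]
    exact h2 f (Ideal.pow_le_pow_right (Nat.le_succ k) hf) y
  obtain ⟨R, iR, iL, W', iW, iM, φ, i, hinj, hsm, hk, hP, hfrac⟩ :=
    exists_local_gen P h1' (k + 1) (Nat.succ_pos k) h2'
  have hpR : (p : R) ∈ IsLocalRing.maximalIdeal R := by
    have := (hP (p : LamZ r)).2 hpP
    rwa [map_natCast] at this
  haveI hchar : CharP (IsLocalRing.ResidueField R) p := residue_char R hpR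
  let S : Set (IsLocalRing.ResidueField R) := Set.range
    (fun j : Fin r => IsLocalRing.residue R (φ (monZ (Pi.single j 1))))
  have hS : S.Finite := Set.finite_range _
  have hgen : Subfield.closure S = ⊤ := residue_gen R φ hfrac
  obtain ⟨L⟩ := exists_plift p (IsLocalRing.ResidueField R) S hS hgen (k + 1) (Nat.succ_pos k)
  obtain ⟨σ, d, ψ, hσy, hσ, hψ0, hψ⟩ :=
    exists_frob p (k + 1) (IsLocalRing.ResidueField R) S hS hgen L (Nat.succ_pos k)
  obtain ⟨s, hs⟩ := exists_section_p R hk hpR L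
  obtain ⟨ξ, hξ1, hξ2, hξ3⟩ := exists_reps (M := k + 1) R hk hpR L (by omega) s hs σ hσ φ
  have hunit : ∀ j, IsUnit (L.y j) := fun j => unit_of_ne L _ (L.yne j)
  let yu : Fin L.t → L.Oˣ := fun j => (hunit j).unit
  have hyu : ∀ j, (yu j : L.O) = L.y j := fun j => (hunit j).unit_spec
  have hyσ : ∀ j, σ (yu j : L.O) = (yu j : L.O) ^ p := by
    intro j
    rw [hyu, hσy]
  have hq0 : NeZero (p ^ (k + 1)) := ⟨pow_ne_zero _ hp2.ne_zero⟩
  letI mO : Module L.O W' := Module.compHom W' s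
  have hcomp : ∀ (a : L.O) (x : W'), a • x = s a • x := fun a x => rfl
  let z : (Fin r → Fin (p ^ (k + 1))) × Letter r → W' := fun x =>
    φ (monZ (dz x.1)) • i (Q.mkQ (Pi.single x.2 1))
  obtain ⟨n, α, hα⟩ := exists_tests L (Nat.succ_pos k) W'
    ((Fin r → Fin (p ^ (k + 1))) × Letter r) z
  refine ⟨L.O, L.ring, L.t, d, n, p ^ (k + 1), hq0, ξ, yu, ψ, fun a l j => α (a, l) j, L.pe, hψ0,
    ?_, ?_, ?_⟩
  · intro j v u x
    rw [← sigma_upow σ p ξ hξ1 v, ← sigma_upow σ p yu hyσ u, ← map_mul, hψ]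
  · intro x
    refine hgen_plift L ξ yu hyu ?_ x
    rw [← L.sep S hgen (k + 1)]
    congr 2
    ext y
    constructor
    · rintro ⟨j, rfl⟩
      exact ⟨_, ⟨j, rfl⟩, (hξ2 j).symm⟩
    · rintro ⟨_, ⟨j, rfl⟩, rfl⟩
      exact ⟨j, hξ2 j⟩
  · intro w
    have e0 : ∀ x : (Fin r → ℤ) × Letter r,
        i (Q.mkQ (Pi.single x.2 (monZ x.1) : Letter r → LamZ r)) =
          upow ξ (fl (p ^ (k + 1)) x.1) • z (md (p ^ (k + 1)) x.1, x.2) := by
      intro x
      have e1 : (Pi.single x.2 (monZ x.1) : Letter r → LamZ r) =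
          monZ x.1 • (Pi.single x.2 1 : Letter r → LamZ r) := by
        rw [← Pi.single_smul, smul_eq_mul, mul_one]
      rw [e1, map_smul]
      rw [hsm (monZ x.1), monZ_split (p ^ (k + 1)) x.1, map_mul, hξ3, mul_smul, hcomp]
    have e2 : i (Q.mkQ (vecW w)) = ((posl 0 w).map
        (fun x => upow ξ (fl (p ^ (k + 1)) x.1) • z (md (p ^ (k + 1)) x.1, x.2))).sum := by
      unfold vecW
      rw [map_list_sum, map_list_sum, List.map_map, List.map_map]
      congr 1
      apply List.map_congr_left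
      intro x _
      exact e0 x
    have e3 : vecW w ∈ Q ↔ i (Q.mkQ (vecW w)) = 0 := by
      rw [map_eq_zero_iff i hinj, Submodule.mkQ_apply, Submodule.Quotient.mk_eq_zero]
    rw [e3, e2]
    have e4 := twist_group (R := L.O) (fun x : (Fin r → ℤ) × Letter r => upow ξ (fl (p ^ (k + 1)) x.1))
      z (fun x => (md (p ^ (k + 1)) x.1, x.2)) (posl 0 w)
    rw [e4, hα]
    refine forall_congr' fun j => ?_
    have e5 := twist_group (R := L.O) (M := L.O)
      (fun x : (Fin r → ℤ) × Letter r => upow ξ (fl (p ^ (k + 1)) x.1))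
      (fun y => α y j) (fun x => (md (p ^ (k + 1)) x.1, x.2)) (posl 0 w)
    simp only [smul_eq_mul] at e5
    rw [← e5]

end Pool.Agent.WPU
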