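import Pool.Agent.Lib.MP_2da099_lc.UE.PDefs
import Pool.Agent.Lib.MP_2da099_lc.A10
import Mathlib.GroupTheory.FiniteAbelian.Basic

/-!
# B9a: a finite space of coefficients

HINTS.  As in `A10.lean` (`field_data`).  Let `H (v, u) = upow ξ v * upow yu u`, `E D` = the additive subgroup generated by the `H (v, u)` with
`|v i|, |u i| ≤ D`: finitely generated and killed by `N`, so finite; increasing in `D`; `E D * E D' ⊆ E (D + D')`; the union is the closure `G` of the
range of `H`.  Common denominators (`hgen`; products of units): a unit `m` with `m * φ j (H (dz ρ, du ρ')) ∈ E D0` for all digit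
vectors `ρ : Fin r → Fin p`, `ρ' : Fin t → Fin p` and all `j`; a unit `c` with `c * α i ∈ E D1` for all `i`.  Take `E = E D` with
`D ≥ 2 D0 + 6`, `D ≥ D1 + 1`.  For `|v i|, |u i| ≤ D` and digits `a`: `H (dz a + v, u) = H (p • w, p • w') * H (dz ρ, du ρ')` with the quotients
`w = fl p (dz a + v)`, `w' = fl p u` and residues `ρ = md p (..)`, `ρ' = md p u`, so
`m * φ j (upow ξ (dz a) * H (v, u)) = H (w, w') * (m * φ j (H (dz ρ, du ρ')))`, `|w i| ≤ (D + p) / p + 1 ≤ D / 2 + 2`, and after multiplication by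
`upow ξ (sz δ)` the result lies in `E (D / 2 + 3 + D0) ⊆ E D`.
-/

set_option autoImplicit false

namespace Pool.Agent.WPU

open Pool.Agent.Lib.PolyTime Pool.Agent.WPM Pool.Agent.WPR

private theorem b9a_zero {O : Type} [CommRing O] {r : ℕ} (u : Fin r → Oˣ) : upow u 0 = 1 := by
  simp [upow]

private theorem b9a_add {O : Type} [CommRing O] {r : ℕ} (u : Fin r → Oˣ) (v w : Fin r → ℤ) :
    upow u (v + w) = upow u v * upow u w := by
  unfold upow
  rw [← Units.val_mul, ← Finset.prod_mul_distrib]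
  congr 1
  refine Finset.prod_congr rfl fun i _ => ?_
  rw [Pi.add_apply, zpow_add]

/-- The boxes of exponents. -/
private def b9aBox (r t D : ℕ) : Set ((Fin r → ℤ) × (Fin t → ℤ)) :=
  {v | (∀ i, |v.1 i| ≤ (D : ℤ)) ∧ ∀ i, |v.2 i| ≤ (D : ℤ)}

private theorem b9a_box_finite (r t D : ℕ) : (b9aBox r t D).Finite := by
  apply ((a10_box_finite r D).prod (a10_box_finite t D)).subset
  intro v hv
  exact ⟨hv.1, hv.2⟩

section

variable {r t : ℕ} {O : Type} [CommRing O] (H : (Fin r → ℤ) × (Fin t → ℤ) → O)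

/-- The additive group generated by the monomials in a box. -/
private def b9aE (D : ℕ) : AddSubgroup O := AddSubgroup.closure (H '' b9aBox r t D)

private theorem b9a_mem {v : (Fin r → ℤ) × (Fin t → ℤ)} {D : ℕ} (h : ∀ i, |v.1 i| ≤ (D : ℤ))
    (h' : ∀ i, |v.2 i| ≤ (D : ℤ)) : H v ∈ b9aE H D :=
  AddSubgroup.subset_closure ⟨v, ⟨h, h'⟩, rfl⟩

private theorem b9a_mono {D D' : ℕ} (h : D ≤ D') : b9aE H D ≤ b9aE H D' := by
  apply AddSubgroup.closure_mono
  apply Set.image_mono
  intro v hv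
  exact ⟨fun i => (hv.1 i).trans (by exact_mod_cast h), fun i => (hv.2 i).trans (by exact_mod_cast h)⟩

private theorem b9a_mul (hadd : ∀ v w, H (v + w) = H v * H w) {D D' : ℕ} {x y : O}
    (hx : x ∈ b9aE H D) (hy : y ∈ b9aE H D') : x * y ∈ b9aE H (D + D') := by
  induction hx using AddSubgroup.closure_induction with
  | mem a ha =>
    induction hy using AddSubgroup.closure_induction with
    | mem b hb =>
      obtain ⟨v, hv, rfl⟩ := ha
      obtain ⟨w, hw, rfl⟩ := hb
      rw [← hadd]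
      refine b9a_mem H (fun i => ?_) (fun i => ?_)
      · rw [Prod.fst_add, Pi.add_apply]
        refine (abs_add_le _ _).trans ?_
        push_cast
        exact add_le_add (hv.1 i) (hw.1 i)
      · rw [Prod.snd_add, Pi.add_apply]
        refine (abs_add_le _ _).trans ?_
        push_cast
        exact add_le_add (hv.2 i) (hw.2 i)
    | zero =>
      rw [mul_zero]
      exact AddSubgroup.zero_mem _
    | add b c _ _ hb hc =>
      rw [mul_add]
      exact AddSubgroup.add_mem _ hb hc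
    | neg b _ hb =>
      rw [mul_neg]
      exact AddSubgroup.neg_mem _ hb
  | zero =>
    rw [zero_mul]
    exact AddSubgroup.zero_mem _
  | add b c _ _ hb hc =>
    rw [add_mul]
    exact AddSubgroup.add_mem _ hb hc
  | neg b _ hb =>
    rw [neg_mul]
    exact AddSubgroup.neg_mem _ hb

private theorem b9a_exists (x : O) (hx : x ∈ AddSubgroup.closure (Set.range H)) :
    ∃ D, x ∈ b9aE H D := by
  induction hx using AddSubgroup.closure_induction with
  | mem z hz =>
    obtain ⟨v, rfl⟩ := hz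
    refine ⟨∑ i, (v.1 i).natAbs + ∑ i, (v.2 i).natAbs, b9a_mem H ?_ ?_⟩
    · intro i
      have h1 : (v.1 i).natAbs ≤ ∑ i, (v.1 i).natAbs :=
        Finset.single_le_sum (f := fun i => (v.1 i).natAbs) (fun _ _ => Nat.zero_le _) (Finset.mem_univ i)
      rw [Int.abs_eq_natAbs]
      exact_mod_cast h1.trans (Nat.le_add_right _ _)
    · intro i
      have h1 : (v.2 i).natAbs ≤ ∑ i, (v.2 i).natAbs :=
        Finset.single_le_sum (f := fun i => (v.2 i).natAbs) (fun _ _ => Nat.zero_le _) (Finset.mem_univ i)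
      rw [Int.abs_eq_natAbs]
      exact_mod_cast h1.trans (Nat.le_add_left _ _)
  | zero => exact ⟨0, AddSubgroup.zero_mem _⟩
  | add a b _ _ ha hb =>
    obtain ⟨D, hD⟩ := ha
    obtain ⟨D', hD'⟩ := hb
    exact ⟨D + D', AddSubgroup.add_mem _ (b9a_mono H (Nat.le_add_right _ _) hD)
      (b9a_mono H (Nat.le_add_left _ _) hD')⟩
  | neg a _ ha =>
    obtain ⟨D, hD⟩ := ha
    exact ⟨D, AddSubgroup.neg_mem _ hD⟩

private theorem b9a_denom (h0 : H 0 = 1) (hadd : ∀ v w, H (v + w) = H v * H w)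
    (hgen : ∀ z : O, ∃ x y : O, x ∈ AddSubgroup.closure (Set.range H) ∧
      y ∈ AddSubgroup.closure (Set.range H) ∧ IsUnit y ∧ z * y = x)
    {κ : Type} (z : κ → O) (s : Finset κ) :
    ∃ (y : Oˣ) (D : ℕ), (y : O) ∈ b9aE H D ∧ ∀ i ∈ s, (y : O) * z i ∈ b9aE H D := by
  classical
  induction s using Finset.induction_on with
  | empty =>
    refine ⟨1, 0, ?_, ?_⟩
    · rw [Units.val_one, ← h0]
      exact b9a_mem H (fun i => by simp) (fun i => by simp)
    · intro i hi
      exact absurd hi (Finset.notMem_empty i)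
  | insert k s _ ih =>
    obtain ⟨y, D, hyD, hyz⟩ := ih
    obtain ⟨x', y', hx', hy', ⟨yu, rfl⟩, hz⟩ := hgen (z k)
    obtain ⟨D1, hD1⟩ := b9a_exists H x' hx'
    obtain ⟨D2, hD2⟩ := b9a_exists H _ hy'
    refine ⟨y * yu, D + (D1 + D2), ?_, ?_⟩
    · rw [Units.val_mul]
      exact b9a_mul H hadd hyD (b9a_mono H (Nat.le_add_left _ _) hD2)
    · intro i hi
      rw [Units.val_mul]
      rcases Finset.mem_insert.mp hi with h | h
      · rw [h]
        have h1 : (y : O) * yu * z k = y * x' := by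
          rw [← hz]
          ring
        rw [h1]
        exact b9a_mul H hadd hyD (b9a_mono H (Nat.le_add_right _ _) hD1)
      · have h1 : (y : O) * yu * z i = y * z i * yu := by ring
        rw [h1]
        exact b9a_mul H hadd (hyz i h) (b9a_mono H (Nat.le_add_left _ _) hD2)

private theorem b9a_finite {N : ℕ} (hN : 0 < N) (hN0 : (N : O) = 0) (D : ℕ) :
    (b9aE H D : Set O).Finite := by
  have hfg : (b9aE H D).FG := by
    refine ⟨((b9a_box_finite r t D).image H).toFinset, ?_⟩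
    rw [Set.Finite.coe_toFinset]
    rfl
  have h1 : AddGroup.FG (b9aE H D) := (AddGroup.fg_iff_addSubgroup_fg _).2 hfg
  have h2 : IsAddTorsion (b9aE H D) := by
    intro x
    rw [isOfFinAddOrder_iff_nsmul_eq_zero]
    refine ⟨N, hN, Subtype.ext ?_⟩
    show N • (x : O) = 0
    rw [nsmul_eq_mul, hN0, zero_mul]
  have h3 : Finite (b9aE H D) := AddCommGroup.finite_of_fg_isAddTorsion _ h2
  exact Set.toFinite _

end

private theorem b9a_fl {p : ℕ} (hp2 : 2 ≤ p) {D : ℕ} (a v : ℤ) (ha0 : 0 ≤ a) (ha1 : a < p)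
    (hv : |v| ≤ (D : ℤ)) : |(a + v) / (p : ℤ)| ≤ ((D / 2 + 2 : ℕ) : ℤ) := by
  have hvi := abs_le.mp hv
  have hp0 : (0 : ℤ) < (p : ℤ) := by exact_mod_cast (by omega : 0 < p)
  have hp2' : (2 : ℤ) ≤ (p : ℤ) := by exact_mod_cast hp2
  have e1 := Int.mul_ediv_add_emod (a + v) (p : ℤ)
  have e2 := Int.emod_nonneg (a + v) hp0.ne'
  have e3 := Int.emod_lt_of_pos (a + v) hp0
  have e5 : ((D / 2 + 2 : ℕ) : ℤ) = (D : ℤ) / 2 + 2 := by push_cast; rfl
  rw [e5, abs_le]
  have e6 : (D : ℤ) ≤ 2 * ((D : ℤ) / 2) + 1 := by omega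
  constructor
  · by_contra hcon
    have h7 : (a + v) / (p : ℤ) ≤ -((D : ℤ) / 2 + 2) - 1 := by omega
    have h8 : (p : ℤ) * ((a + v) / (p : ℤ)) ≤ (p : ℤ) * (-((D : ℤ) / 2 + 2) - 1) :=
      mul_le_mul_of_nonneg_left h7 hp0.le
    nlinarith
  · by_contra hcon
    have h7 : (D : ℤ) / 2 + 3 ≤ (a + v) / (p : ℤ) := by omega
    have h8 : (p : ℤ) * ((D : ℤ) / 2 + 3) ≤ (p : ℤ) * ((a + v) / (p : ℤ)) :=
      mul_le_mul_of_nonneg_left h7 hp0.le
    nlinarith

theorem finite_space {p r t d N : ℕ} [Fact p.Prime] {O : Type} [CommRing O] (hN : 0 < N)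
    (hN0 : (N : O) = 0) (ξ : Fin r → Oˣ) (yu : Fin t → Oˣ) (φ : Fin d → O →+ O)
    (hφ : ∀ (j : Fin d) (v : Fin r → ℤ) (u : Fin t → ℤ) (z : O),
      φ j (upow ξ (p • v) * upow yu (p • u) * z) = upow ξ v * upow yu u * φ j z)
    (hgen : ∀ z : O, ∃ x y : O, x ∈ AddSubgroup.closure (Set.range
        (fun v : (Fin r → ℤ) × (Fin t → ℤ) => upow ξ v.1 * upow yu v.2)) ∧
      y ∈ AddSubgroup.closure (Set.range
        (fun v : (Fin r → ℤ) × (Fin t → ℤ) => upow ξ v.1 * upow yu v.2)) ∧
      IsUnit y ∧ z * y = x)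
    (κ : Type) [Finite κ] (α : κ → O) :
    ∃ (E : AddSubgroup O) (c m : Oˣ), (E : Set O).Finite ∧
      (∀ i (δ : Sg r), upow ξ (sz δ) * (c * α i) ∈ E) ∧
      ∀ (a : Fin r → Fin p) (δ : Sg r) (j : Fin d), ∀ u ∈ E,
        upow ξ (sz δ) * (m * φ j (upow ξ (dz a) * u)) ∈ E := by
  classical
  have hp2 : 2 ≤ p := (Fact.out : p.Prime).two_le
  cases nonempty_fintype κ
  set H : (Fin r → ℤ) × (Fin t → ℤ) → O := fun v => upow ξ v.1 * upow yu v.2 with hH
  have h0 : H 0 = 1 := by
    show upow ξ 0 * upow yu 0 = 1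
    rw [b9a_zero, b9a_zero, mul_one]
  have hadd : ∀ v w, H (v + w) = H v * H w := by
    intro v w
    show upow ξ (v.1 + w.1) * upow yu (v.2 + w.2) = upow ξ v.1 * upow yu v.2 * (upow ξ w.1 * upow yu w.2)
    rw [b9a_add, b9a_add]
    ring
  obtain ⟨m, D0, hmD, hmz⟩ := b9a_denom H h0 hadd hgen
    (fun x : (Fin r → Fin p) × (Fin t → Fin p) × Fin d => φ x.2.2 (H (dz x.1, dz x.2.1))) Finset.univ
  obtain ⟨c, D1, hcD, hcz⟩ := b9a_denom H h0 hadd hgen α Finset.univ
  let D : ℕ := 2 * D0 + D1 + 8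
  have hsz : ∀ δ : Sg r, upow ξ (sz δ) ∈ b9aE H 1 := by
    intro δ
    have h1 : upow ξ (sz δ) = H (sz δ, 0) := by
      show _ = upow ξ (sz δ) * upow yu 0
      rw [b9a_zero, mul_one]
    rw [h1]
    apply b9a_mem
    · intro i
      exact_mod_cast abs_cast_le (δ i)
    · intro i
      simp
  refine ⟨b9aE H D, c, m, b9a_finite H hN hN0 D, ?_, ?_⟩
  · intro k δ
    refine b9a_mono H ?_ (b9a_mul H hadd (hsz δ) (hcz k (Finset.mem_univ k)))
    change 1 + D1 ≤ 2 * D0 + D1 + 8
    omega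
  · intro a δ j u hu
    induction hu using AddSubgroup.closure_induction with
    | mem z hz =>
      obtain ⟨⟨v, u⟩, ⟨hv, hu⟩, rfl⟩ := hz
      let x : Fin r → ℤ := dz a + v
      have hx : x = p • fl p x + dz (md p x) := by
        funext i
        have h1 := fl_add_md p x i
        rw [Pi.add_apply, Pi.smul_apply, nsmul_eq_mul]
        exact h1
      have hu2 : u = p • fl p u + dz (md p u) := by
        funext i
        have h1 := fl_add_md p u i
        rw [Pi.add_apply, Pi.smul_apply, nsmul_eq_mul]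
        exact h1
      have h2 : upow ξ (dz a) * H (v, u) =
          upow ξ (p • fl p x) * upow yu (p • fl p u) * H (dz (md p x), dz (md p u)) := by
        show upow ξ (dz a) * (upow ξ v * upow yu u) =
          upow ξ (p • fl p x) * upow yu (p • fl p u) * (upow ξ (dz (md p x)) * upow yu (dz (md p u)))
        have k1 : upow ξ (dz a) * upow ξ v = upow ξ (p • fl p x) * upow ξ (dz (md p x)) := by
          rw [← b9a_add, ← b9a_add, ← hx]
        have k2 : upow yu u = upow yu (p • fl p u) * upow yu (dz (md p u)) := by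
          rw [← b9a_add, ← hu2]
        rw [← mul_assoc, k1, k2]
        ring
      rw [h2, hφ]
      have h3 : upow ξ (sz δ) * (m * (upow ξ (fl p x) * upow yu (fl p u) *
          φ j (H (dz (md p x), dz (md p u)))))
          = upow ξ (sz δ) * (H (fl p x, fl p u) * (m * φ j (H (dz (md p x), dz (md p u))))) := by
        show _ = upow ξ (sz δ) * (upow ξ (fl p x) * upow yu (fl p u) * _)
        ring
      rw [h3]
      have h4 : H (fl p x, fl p u) ∈ b9aE H (D / 2 + 2) := by
        apply b9a_mem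
        · intro i
          exact b9a_fl hp2 ((a i : ℕ) : ℤ) (v i) (Int.natCast_nonneg _) (by exact_mod_cast (a i).isLt)
            (hv i)
        · intro i
          have := b9a_fl hp2 (0 : ℤ) (u i) le_rfl (by exact_mod_cast (by omega : 0 < p)) (hu i)
          rw [zero_add] at this
          exact this
      refine b9a_mono H ?_ (b9a_mul H hadd (hsz δ)
        (b9a_mul H hadd h4 (hmz (md p x, md p u, j) (Finset.mem_univ _))))
      have h9 : D = 2 * D0 + D1 + 8 := rfl
      omega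
    | zero =>
      rw [mul_zero, map_zero, mul_zero, mul_zero]
      exact AddSubgroup.zero_mem _
    | add x y _ _ hx hy =>
      rw [mul_add, map_add, mul_add, mul_add]
      exact AddSubgroup.add_mem _ hx hy
    | neg x _ hx =>
      rw [mul_neg, map_neg, mul_neg, mul_neg]
      exact AddSubgroup.neg_mem _ hx

end Pool.Agent.WPU
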