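import Pool.Agent.Lib.MP_2da099_lc.UE.PDefs
import Pool.Agent.Lib.MP_2da099_lc.UE.B9a
import Pool.Agent.Lib.MP_2da099_lc.A11

/-!
# B9b: sound data

HINTS.  `upow ξ` is multiplicative (`zpow_add`, `Finset.prod_mul_distrib`), its values are units.  `E`, `c`, `m` from `finite_space` with
`κ = (Fin r → Fin q) × Letter r × Fin s`; `U = E` as a type; `V v u = upow ξ v * u`; `step a δ j u = upow ξ (sz δ) * (m * φ j (upow ξ (dz a) * u))`,
`init a δ l j = upow ξ (sz δ) * (c * α a l j)`.  Check the five properties as in `A11.lean`: injective because `upow ξ v` is a unit; the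
third one: `z = ∑ upow ξ c_i * u_i` is zero iff all `φ j z` are zero (`hinj`) iff all `m * φ j z` are zero, and
`m * φ j z = ∑ V (fl p c_i) (step (md p c_i) 0 j u_i)` because `c_i = p • fl p c_i + dz (md p c_i)` (`fl_add_md`) and `hφ` with `u = 0`.
The last one: multiply by the unit `c`.
-/

set_option autoImplicit false

namespace Pool.Agent.WPU

open Pool.Agent.Lib.PolyTime Pool.Agent.WPM Pool.Agent.WPR

theorem upow_add {O : Type} [CommRing O] {r : ℕ} (u : Fin r → Oˣ) (v w : Fin r → ℤ) :
    upow u (v + w) = upow u v * upow u w := by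
  unfold upow
  rw [← Units.val_mul, ← Finset.prod_mul_distrib]
  congr 1
  refine Finset.prod_congr rfl fun i _ => ?_
  rw [Pi.add_apply, zpow_add]

theorem isUnit_upow {O : Type} [CommRing O] {r : ℕ} (u : Fin r → Oˣ) (v : Fin r → ℤ) :
    IsUnit (upow u v) := by
  unfold upow
  exact Units.isUnit _

private theorem b9b_zero {O : Type} [CommRing O] {r : ℕ} (u : Fin r → Oˣ) : upow u 0 = 1 := by
  simp [upow]

private theorem b9b_split {r p : ℕ} [NeZero p] (v : Fin r → ℤ) :
    v = p • fl p v + dz (md p v) := by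
  funext i
  have h := fl_add_md p v i
  change v i = p • fl p v i + (((md p v i : Fin p) : ℕ) : ℤ)
  rw [nsmul_eq_mul]
  exact h

theorem exists_sound {p r t d s q N : ℕ} [Fact p.Prime] [NeZero p] [NeZero q] {O : Type}
    [CommRing O] (hN : 0 < N) (hN0 : (N : O) = 0) (ξ : Fin r → Oˣ) (yu : Fin t → Oˣ)
    (φ : Fin d → O →+ O) (α : (Fin r → Fin q) → Letter r → Fin s → O)
    (hinj : ∀ z, (∀ j, φ j z = 0) → z = 0)
    (hφ : ∀ (j : Fin d) (v : Fin r → ℤ) (u : Fin t → ℤ) (z : O),
      φ j (upow ξ (p • v) * upow yu (p • u) * z) = upow ξ v * upow yu u * φ j z)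
    (hgen : ∀ z : O, ∃ x y : O, x ∈ AddSubgroup.closure (Set.range
        (fun v : (Fin r → ℤ) × (Fin t → ℤ) => upow ξ v.1 * upow yu v.2)) ∧
      y ∈ AddSubgroup.closure (Set.range
        (fun v : (Fin r → ℤ) × (Fin t → ℤ) => upow ξ v.1 * upow yu v.2)) ∧
      IsUnit y ∧ z * y = x) :
    ∃ (U : Type) (_ : AddCommGroup U) (_ : Finite U) (D : GD p r U),
      D.Sound (fun w => ∀ j, ((posl 0 w).map
        (fun x => upow ξ (fl q x.1) * α (md q x.1) x.2 j)).sum = 0) := by
  obtain ⟨E, c, m, hfin, hα, hst⟩ := finite_space hN hN0 ξ yu φ hφ hgen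
    ((Fin r → Fin q) × Letter r × Fin s) (fun x => α x.1 x.2.1 x.2.2)
  have hφ0 : ∀ (j : Fin d) (v : Fin r → ℤ) (z : O),
      φ j (upow ξ (p • v) * z) = upow ξ v * φ j z := by
    intro j v z
    have h := hφ j v 0 z
    rwa [smul_zero, b9b_zero, mul_one, mul_one] at h
  let D : GD p r E :=
    { q := q
      hq := inferInstance
      d := d
      s := s
      step := fun a δ j u => ⟨upow ξ (sz δ) * (m * φ j (upow ξ (dz a) * u)), hst a δ j u u.2⟩
      init := fun a δ l j => ⟨upow ξ (sz δ) * (c * α a l j), hα (a, l, j) δ⟩ }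
  let V : (Fin r → ℤ) → E →+ O := fun v => (AddMonoidHom.mulLeft (upow ξ v)).comp E.subtype
  have hV : ∀ v (u : E), V v u = upow ξ v * (u : O) := fun v u => rfl
  have hstep : ∀ a δ j u, ((D.step a δ j u : E) : O) =
      upow ξ (sz δ) * (m * φ j (upow ξ (dz a) * u)) := fun a δ j u => rfl
  have hinit : ∀ a δ l j, ((D.init a δ l j : E) : O) = upow ξ (sz δ) * (c * α a l j) :=
    fun a δ l j => rfl
  refine ⟨E, inferInstance, hfin.to_subtype, D, O, inferInstance, V, ?_, ?_, ?_, ?_, ?_⟩
  · intro v u u' h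
    rw [hV, hV] at h
    exact Subtype.ext ((isUnit_upow ξ v).mul_left_cancel h)
  · intro v δ a j u
    rw [hV, hV, hstep, hstep, a11_sz_zero, b9b_zero, one_mul, upow_add, mul_assoc]
  · intro l
    have key : ∀ j : Fin d, (l.map (fun x => V (fl p x.1)
        (D.step (md p x.1) (fun _ => 0) j x.2))).sum = m * φ j (l.map (fun x => V x.1 x.2)).sum := by
      intro j
      rw [map_list_sum, List.map_map, ← List.sum_map_mul_left]
      refine congrArg List.sum (List.map_congr_left (fun x _ => ?_))
      simp only [Function.comp_apply]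
      rw [hV, hV, hstep, a11_sz_zero, b9b_zero, one_mul]
      have hsplit : upow ξ x.1 = upow ξ (p • fl p x.1) * upow ξ (dz (md p x.1)) := by
        rw [← upow_add, ← b9b_split]
      rw [hsplit, mul_assoc (upow ξ (p • fl p x.1)), hφ0]
      ring
    constructor
    · intro h j
      rw [key, h, map_zero, mul_zero]
    · intro h
      apply hinj
      intro j
      have h1 := h j
      rw [key] at h1
      exact (Units.isUnit m).mul_right_eq_zero.1 h1
  · intro v δ a l j
    rw [hV, hV, hinit, hinit, a11_sz_zero, b9b_zero, one_mul, upow_add, mul_assoc]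
  · intro w
    refine forall_congr' (fun j => ?_)
    have key : ((posl 0 w).map
        (fun x => V (fl q x.1) (D.init (md q x.1) (fun _ => 0) x.2 j))).sum
        = c * ((posl 0 w).map (fun x => upow ξ (fl q x.1) * α (md q x.1) x.2 j)).sum := by
      rw [← List.sum_map_mul_left]
      refine congrArg List.sum (List.map_congr_left (fun x _ => ?_))
      rw [hV, hinit, a11_sz_zero, b9b_zero, one_mul]
      ring
    constructor
    · intro h
      exact key.trans (by rw [h, mul_zero])
    · intro h
      have h1 := key.symm.trans h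
      exact (Units.isUnit c).mul_right_eq_zero.1 h1

end Pool.Agent.WPU
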