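import Pool.Agent.Lib.MP_2da099_lc.UE.Defs
import Pool.Agent.Lib.MP_2da099_lc.UE.F1
import Pool.Agent.Lib.MP_2da099_lc.UE.A1
import Pool.Agent.Lib.MP_2da099_lc.C11

/-!
# F2: machines

HINTS.  `Dec.machine`: copy `R2/B11.lean` (`Quad.machine`) with the bound `TB` (the input is reversed: `size w ≤ κ (n + 1) ≤ κ TB n`).
-/

set_option autoImplicit false

namespace Pool.Agent.WPU

open Pool.Agent.Lib.PolyTime Pool.Agent.WPM Pool.Agent.WPR

open Classical in
theorem Dec.machine {r : ℕ} {Z : List (Letter r) → Prop} (h : Dec TB Z) :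
    ∃ (M : Turing.TM2ComputableInTime (fun w : List (Letter r) => w) (fun b : Bool => [b])
      (fun w => decide (Z w))) (C : ℕ), (∀ k, Finite (M.tm.Γ k)) ∧
      ∀ n : ℕ, M.time n ≤ C * ((n + 1) ^ 4 * (Nat.log 2 (n + 1) + 1) ^ 2) := by
  obtain ⟨f, T, C, hf, hfz, hT⟩ := h
  have hfe : f = fun w => decide (Z w) := by
    funext w
    rw [Bool.eq_iff_iff, hfz, decide_eq_true_iff]
  rw [← hfe]
  obtain ⟨κ, hκ⟩ := size_list_fin (Letter r)
  have hrev : CT (fun w : List (Letter r) => f w.reverse) (fun w => size w + T w.reverse) :=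
    hf.comp CT.reverse
  obtain ⟨M, C', hfin, hM⟩ := CT.machine f _ hrev (fun n => κ * (n + 1) + C * TB n) (by
    intro w
    have e1 := hκ w
    have e2 := hT w.reverse
    rw [List.length_reverse] at e2
    exact Nat.add_le_add e1 e2)
  refine ⟨M, C' * (κ + C + 1), hfin, fun n => (hM n).trans ?_⟩
  rw [Nat.mul_assoc]
  refine Nat.mul_le_mul_left _ ?_
  have h1 : TB n = (n + 1) ^ 4 * (Nat.log 2 (n + 1) + 1) ^ 2 := rfl
  rw [← h1]
  have h2 : n + 1 ≤ TB n := by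
    rw [h1]
    have h3 : n + 1 ≤ (n + 1) ^ 4 := Nat.le_self_pow (by norm_num) _
    have h4 : 1 ≤ (Nat.log 2 (n + 1) + 1) ^ 2 := Nat.one_le_pow _ _ (Nat.succ_pos _)
    exact h3.trans (Nat.le_mul_of_pos_right _ h4)
  generalize TB n = t at h2 ⊢
  nlinarith [Nat.zero_le n, Nat.zero_le κ, Nat.zero_le (κ * n), Nat.mul_le_mul_left κ h2]

universe u

theorem dec_group {G : Type u} [Group G] (A : Subgroup G) [A.Normal]
    (hcomm : ∀ a ∈ A, ∀ b ∈ A, a * b = b * a)
    (hquot : ∀ x y : G, x * y * x⁻¹ * y⁻¹ ∈ A)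
    (htf : ∀ a ∈ A, ∀ n : ℕ, 0 < n → a ^ n = 1 → a = 1) {r : ℕ} (g : Fin r → G) :
    Dec TB (fun w : List (Letter r) => value g w = 1) := by
  obtain ⟨N, h1, h2⟩ := exists_kernel A hcomm hquot g
  exact (dec_submodule N (h2 htf)).congr (fun w => (h1 w).symm)

end Pool.Agent.WPU
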