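import Pool.Agent.Lib.MP_2da099_lc.UE.PDefs

/-!
# M2b: the number of rows after pruning

HINTS.  For a nonzero row `v` let `piv v` = (position of the first nonzero entry, its value) and `pos v` the position.  All rows have the
length `n`.  Call a list `B` good if its rows are nonzero, have pairwise different pivots and nondecreasing positions.  Claim: if `B` is
good, so is `gins B v`, and every `c ∈ gins B v` satisfies `piv c ∈ piv (B)` or `piv c = piv v` or `pos c > pos v` (for `v ≠ 0`; if `v = 0`
then `gins B v = B`).  Induction on `B = b :: B'`, four cases: `pos v < pos b`: `rpair b v = (v, b)`, and `gins B' b` has only positions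
`≥ pos b > pos v`; `pos v > pos b` or `v = 0`: `rpair b v = (b, v)`; `pos v = pos b`, different values: `(b, v)`; `piv v = piv b`:
`(b, v - b)`, and `v - b` is zero or has a larger position.  In all cases the pivot of the first new row is not a pivot of the
rest, by the claim for the rest.  So `gprune vs` is good and its length is at most the number `card U * n` of pivots.
It may be convenient to write the property of a row as: `v = replicate i 0 ++ u :: v'` with `u ≠ 0`.
-/

set_option autoImplicit false

namespace Pool.Agent.WPU

open Pool.Agent.Lib.PolyTime Pool.Agent.WPM Pool.Agent.WPR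

variable {U : Type} [AddCommGroup U]

open Classical in
/-- position and value of the first nonzero entry -/
private noncomputable def m2b_piv : List U → Option (ℕ × U)
  | [] => none
  | u :: l => if u = 0 then (m2b_piv l).map (fun p => (p.1 + 1, p.2)) else some (0, u)

private theorem m2b_piv_zero (l : List U) :
    m2b_piv ((0 : U) :: l) = (m2b_piv l).map (fun p => (p.1 + 1, p.2)) := by
  rw [m2b_piv, if_pos rfl]

private theorem m2b_piv_ne {u : U} (hu : u ≠ 0) (l : List U) : m2b_piv (u :: l) = some (0, u) := by
  rw [m2b_piv, if_neg hu]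

private theorem m2b_none (v : List U) : m2b_piv v = none ↔ gisZ v = true := by
  induction v with
  | nil => simp [m2b_piv, gisZ]
  | cons u l ih =>
    by_cases hu : u = 0
    · subst hu
      rw [m2b_piv_zero, Option.map_eq_none_iff, ih]
      simp [gisZ]
    · rw [m2b_piv_ne hu]
      simp [gisZ, hu]

private theorem m2b_pos (v : List U) : ∀ i x, m2b_piv v = some (i, x) → i < v.length := by
  induction v with
  | nil => intro i x h; simp [m2b_piv] at h
  | cons u l ih =>
    intro i x h
    by_cases hu : u = 0
    · subst hu
      rw [m2b_piv_zero, Option.map_eq_some_iff] at h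
      obtain ⟨⟨a, b⟩, h1, h2⟩ := h
      have h3 := ih a b h1
      have h4 : a + 1 = i := congrArg Prod.fst h2
      rw [List.length_cons]
      omega
    · rw [m2b_piv_ne hu] at h
      have h1 : (0, u) = (i, x) := Option.some.inj h
      have h2 : 0 = i := congrArg Prod.fst h1
      rw [List.length_cons]
      omega

private theorem m2b_rmode {m : Fin 4} (hm : m ≠ 0) (x : U × U) : rmode m x = m := by
  unfold rmode
  rw [if_neg hm]

private theorem m2b_tr1 (b : List U) : ∀ v : List U, b.length = v.length →
    (WPM.trans rstep (1 : Fin 4) (b.zip v)).map Prod.fst = b ∧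
      (WPM.trans rstep (1 : Fin 4) (b.zip v)).map Prod.snd = v := by
  induction b with
  | nil =>
    intro v h
    cases v with
    | nil => exact ⟨rfl, rfl⟩
    | cons c v => simp at h
  | cons a b ih =>
    intro v h
    cases v with
    | nil => simp at h
    | cons c v =>
      have h1 : rstep (1 : Fin 4) (a, c) = (1, (a, c)) := by
        unfold rstep
        rw [m2b_rmode (by decide)]
        rfl
      obtain ⟨h2, h3⟩ := ih v (by simpa using h)
      rw [List.zip_cons_cons, WPM.trans, h1]
      simp only [List.map_cons, h2, h3]
      exact ⟨trivial, trivial⟩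

private theorem m2b_tr2 (b : List U) : ∀ v : List U, b.length = v.length →
    (WPM.trans rstep (2 : Fin 4) (b.zip v)).map Prod.fst = v ∧
      (WPM.trans rstep (2 : Fin 4) (b.zip v)).map Prod.snd = b := by
  induction b with
  | nil =>
    intro v h
    cases v with
    | nil => exact ⟨rfl, rfl⟩
    | cons c v => simp at h
  | cons a b ih =>
    intro v h
    cases v with
    | nil => simp at h
    | cons c v =>
      have h1 : rstep (2 : Fin 4) (a, c) = (2, (c, a)) := by
        unfold rstep
        rw [m2b_rmode (by decide)]
        rfl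
      obtain ⟨h2, h3⟩ := ih v (by simpa using h)
      rw [List.zip_cons_cons, WPM.trans, h1]
      simp only [List.map_cons, h2, h3]
      exact ⟨trivial, trivial⟩

private theorem m2b_tr3 (b : List U) : ∀ v : List U, b.length = v.length →
    (WPM.trans rstep (3 : Fin 4) (b.zip v)).map Prod.fst = b := by
  induction b with
  | nil =>
    intro v h
    cases v with
    | nil => rfl
    | cons c v => simp at h
  | cons a b ih =>
    intro v h
    cases v with
    | nil => simp at h
    | cons c v =>
      have h1 : rstep (3 : Fin 4) (a, c) = (3, (a, c - a)) := by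
        unfold rstep
        rw [m2b_rmode (by decide)]
        rfl
      have h2 := ih v (by simpa using h)
      rw [List.zip_cons_cons, WPM.trans, h1]
      simp only [List.map_cons, h2]

private theorem m2b_r00 (b v : List U) : rpair ((0 : U) :: b) ((0 : U) :: v) =
    ((0 : U) :: (rpair b v).1, (0 : U) :: (rpair b v).2) := by
  have h1 : rstep (0 : Fin 4) ((0 : U), (0 : U)) = (0, (0, 0)) := by
    have h2 : rmode (0 : Fin 4) ((0 : U), (0 : U)) = 0 := by simp [rmode]
    unfold rstep
    rw [h2]
    rfl
  unfold rpair
  rw [List.zip_cons_cons, WPM.trans, h1]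
  rfl

private theorem m2b_r0n {c : U} (hc : c ≠ 0) (b v : List U) (h : b.length = v.length) :
    rpair ((0 : U) :: b) (c :: v) = (c :: v, (0 : U) :: b) := by
  have h1 : rstep (0 : Fin 4) ((0 : U), c) = (2, (c, 0)) := by
    have h2 : rmode (0 : Fin 4) ((0 : U), c) = 2 := by simp [rmode, hc]
    unfold rstep
    rw [h2]
    rfl
  obtain ⟨h2, h3⟩ := m2b_tr2 b v h
  unfold rpair
  rw [List.zip_cons_cons, WPM.trans, h1]
  simp only [List.map_cons, h2, h3]

private theorem m2b_rn1 {a c : U} (ha : a ≠ 0) (hac : a ≠ c) (b v : List U)
    (h : b.length = v.length) : rpair (a :: b) (c :: v) = (a :: b, c :: v) := by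
  have h1 : rstep (0 : Fin 4) (a, c) = (1, (a, c)) := by
    have h2 : rmode (0 : Fin 4) (a, c) = 1 := by
      by_cases hc : c = 0 <;> simp [rmode, ha, hac, hc]
    unfold rstep
    rw [h2]
    rfl
  obtain ⟨h2, h3⟩ := m2b_tr1 b v h
  unfold rpair
  rw [List.zip_cons_cons, WPM.trans, h1]
  simp only [List.map_cons, h2, h3]

private theorem m2b_rn3 {a : U} (ha : a ≠ 0) (b v : List U) (h : b.length = v.length) :
    ∃ l, rpair (a :: b) (a :: v) = (a :: b, (0 : U) :: l) := by
  have h1 : rstep (0 : Fin 4) (a, a) = (3, (a, 0)) := by
    have h2 : rmode (0 : Fin 4) (a, a) = 3 := by simp [rmode, ha]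
    unfold rstep
    rw [h2]
    show ((3 : Fin 4), (a, a - a)) = (3, (a, 0))
    rw [sub_self]
  have h2 := m2b_tr3 b v h
  refine ⟨(WPM.trans rstep (3 : Fin 4) (b.zip v)).map Prod.snd, ?_⟩
  unfold rpair
  rw [List.zip_cons_cons, WPM.trans, h1]
  simp only [List.map_cons, h2]

private theorem m2b_rpair (b : List U) : ∀ v : List U, b.length = v.length →
    ∀ (i : ℕ) (x : U), m2b_piv b = some (i, x) →
    (m2b_piv v = none ∧ m2b_piv (rpair b v).1 = some (i, x) ∧ m2b_piv (rpair b v).2 = none) ∨
    (∃ j y, m2b_piv v = some (j, y) ∧
      ((j < i ∧ m2b_piv (rpair b v).1 = some (j, y) ∧ m2b_piv (rpair b v).2 = some (i, x)) ∨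
       (i < j ∧ m2b_piv (rpair b v).1 = some (i, x) ∧ m2b_piv (rpair b v).2 = some (j, y)) ∨
       (i = j ∧ x ≠ y ∧ m2b_piv (rpair b v).1 = some (i, x) ∧
         m2b_piv (rpair b v).2 = some (j, y)) ∨
       (i = j ∧ x = y ∧ m2b_piv (rpair b v).1 = some (i, x) ∧
         (m2b_piv (rpair b v).2 = none ∨
           ∃ j' y', m2b_piv (rpair b v).2 = some (j', y') ∧ i < j')))) := by
  induction b with
  | nil => intro v _ i x h; simp [m2b_piv] at h
  | cons a b ih =>
    intro v hlen i x hb
    cases v with
    | nil => simp at hlen
    | cons c v =>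
      have hlen' : b.length = v.length := by simpa using hlen
      by_cases ha : a = 0
      · subst ha
        rw [m2b_piv_zero, Option.map_eq_some_iff] at hb
        obtain ⟨⟨i', x'⟩, hb', hix⟩ := hb
        have hi : i' + 1 = i := congrArg Prod.fst hix
        have hx : x' = x := congrArg Prod.snd hix
        subst hi
        subst hx
        by_cases hc : c = 0
        · subst hc
          rw [m2b_r00]
          simp only [m2b_piv_zero]
          rcases ih v hlen' i' x' hb' with ⟨h1, h2, h3⟩ | ⟨j, y, h1, h2⟩
          · left
            rw [h1, h2, h3]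
            exact ⟨rfl, rfl, rfl⟩
          · right
            refine ⟨j + 1, y, by rw [h1]; rfl, ?_⟩
            rcases h2 with ⟨h2, h3, h4⟩ | ⟨h2, h3, h4⟩ | ⟨h2, h3, h4, h5⟩ | ⟨h2, h3, h4, h5⟩
            · left
              rw [h3, h4]
              exact ⟨by omega, rfl, rfl⟩
            · right; left
              rw [h3, h4]
              exact ⟨by omega, rfl, rfl⟩
            · right; right; left
              rw [h4, h5]
              exact ⟨by omega, h3, rfl, rfl⟩
            · right; right; right
              refine ⟨by omega, h3, by rw [h4]; rfl, ?_⟩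
              rcases h5 with h5 | ⟨j', y', h5, h6⟩
              · left; rw [h5]; rfl
              · right; exact ⟨j' + 1, y', by rw [h5]; rfl, by omega⟩
        · rw [m2b_r0n hc b v hlen']
          right
          refine ⟨0, c, m2b_piv_ne hc v, Or.inl ⟨by omega, m2b_piv_ne hc v, ?_⟩⟩
          show m2b_piv ((0 : U) :: b) = _
          rw [m2b_piv_zero, hb']
          rfl
      · rw [m2b_piv_ne ha] at hb
        have h1 : (0, a) = (i, x) := Option.some.inj hb
        have hi : 0 = i := congrArg Prod.fst h1
        have hx : a = x := congrArg Prod.snd h1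
        subst hi
        subst hx
        by_cases hac : a = c
        · subst hac
          obtain ⟨l, hl⟩ := m2b_rn3 ha b v hlen'
          rw [hl]
          right
          refine ⟨0, a, m2b_piv_ne ha v, Or.inr (Or.inr (Or.inr ⟨rfl, rfl, m2b_piv_ne ha b, ?_⟩))⟩
          simp only [m2b_piv_zero]
          rcases h2 : m2b_piv l with - | ⟨j', y'⟩
          · left; rfl
          · right; exact ⟨j' + 1, y', rfl, by omega⟩
        · rw [m2b_rn1 ha hac b v hlen']
          by_cases hc : c = 0
          · subst hc
            simp only [m2b_piv_zero, m2b_piv_ne ha]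
            rcases h2 : m2b_piv v with - | ⟨j', y'⟩
            · left; exact ⟨rfl, trivial, rfl⟩
            · right
              exact ⟨j' + 1, y', rfl, Or.inr (Or.inl ⟨by omega, trivial, rfl⟩)⟩
          · right
            exact ⟨0, c, m2b_piv_ne hc v, Or.inr (Or.inr (Or.inl
              ⟨rfl, hac, m2b_piv_ne ha b, m2b_piv_ne hc v⟩))⟩

private theorem m2b_trans_length {α β σ : Type} (f : σ → α → σ × β) (l : List α) :
    ∀ s, (WPM.trans f s l).length = l.length := by
  induction l with
  | nil => intro s; rfl
  | cons a l ih => intro s; rw [WPM.trans, List.length_cons, List.length_cons, ih]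

private theorem m2b_length_rpair (b v : List U) (n : ℕ) (hb : b.length = n) (hv : v.length = n) :
    (rpair b v).1.length = n ∧ (rpair b v).2.length = n := by
  unfold rpair
  simp only [List.length_map, m2b_trans_length, List.length_zip, hb, hv, Nat.min_self]
  exact ⟨trivial, trivial⟩

/-- good lists of rows -/
private def m2b_good (n : ℕ) (B : List (List U)) : Prop :=
  (∀ b ∈ B, b.length = n ∧ ∃ i x, m2b_piv b = some (i, x)) ∧
    List.Pairwise (fun b c => ∀ i x j y, m2b_piv b = some (i, x) → m2b_piv c = some (j, y) →
      i ≤ j ∧ (i = j → x ≠ y)) B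

private theorem m2b_gins (n : ℕ) (B : List (List U)) : ∀ v : List U, m2b_good n B →
    v.length = n → m2b_good n (gins B v) ∧ ∀ c ∈ gins B v, ∀ j y, m2b_piv c = some (j, y) →
      (∃ b ∈ B, m2b_piv b = some (j, y)) ∨ m2b_piv v = some (j, y) ∨
        ∃ i x, m2b_piv v = some (i, x) ∧ i < j := by
  induction B with
  | nil =>
    intro v _ hv
    by_cases hz : gisZ v = true
    · have h1 : gins ([] : List (List U)) v = [] := by rw [gins, if_pos hz]
      rw [h1]
      refine ⟨⟨by simp, List.Pairwise.nil⟩, by simp⟩
    · have h1 : gins ([] : List (List U)) v = [v] := by rw [gins, if_neg hz]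
      rw [h1]
      refine ⟨⟨?_, List.pairwise_singleton _ _⟩, ?_⟩
      · intro b hb
        rw [List.mem_singleton] at hb
        subst hb
        refine ⟨hv, ?_⟩
        rcases h2 : m2b_piv b with - | ⟨i, x⟩
        · exact absurd ((m2b_none b).1 h2) hz
        · exact ⟨i, x, rfl⟩
      · intro c hc j y hcy
        rw [List.mem_singleton] at hc
        subst hc
        exact Or.inr (Or.inl hcy)
  | cons b B ih =>
    intro v hB hv
    obtain ⟨hB1, hB2⟩ := hB
    obtain ⟨hb, i, x, hbx⟩ := hB1 b (List.mem_cons_self)
    rw [List.pairwise_cons] at hB2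
    obtain ⟨hB3, hB4⟩ := hB2
    have hB' : m2b_good n B := ⟨fun c hc => hB1 c (List.mem_cons_of_mem _ hc), hB4⟩
    obtain ⟨hl1, hl2⟩ := m2b_length_rpair b v n hb hv
    obtain ⟨hg1, hg2⟩ := ih (rpair b v).2 hB' hl2
    have hr := m2b_rpair b v (hb.trans hv.symm) i x hbx
    have hgins : gins (b :: B) v = (rpair b v).1 :: gins B (rpair b v).2 := rfl
    rw [hgins]
    generalize (rpair b v).1 = b₁ at *
    generalize (rpair b v).2 = v₁ at *
    have hfrom : ∀ b' ∈ B, ∀ j y, m2b_piv b' = some (j, y) → i ≤ j ∧ (i = j → x ≠ y) :=
      fun b' hb' j y hy => hB3 b' hb' i x j y hbx hy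
    -- it is enough to know the pivot of the first row
    have key : ∀ i₁ x₁, m2b_piv b₁ = some (i₁, x₁) →
        (∀ c ∈ gins B v₁, ∀ j y, m2b_piv c = some (j, y) → i₁ ≤ j ∧ (i₁ = j → x₁ ≠ y)) →
        m2b_good n (b₁ :: gins B v₁) := by
      intro i₁ x₁ h1 h2
      refine ⟨?_, ?_⟩
      · intro c hc
        rcases List.mem_cons.1 hc with rfl | hc
        · exact ⟨hl1, i₁, x₁, h1⟩
        · exact hg1.1 c hc
      · rw [List.pairwise_cons]
        refine ⟨?_, hg1.2⟩
        intro c hc i' x' j y h3 h4
        rw [h1] at h3
        have h5 : (i₁, x₁) = (i', x') := Option.some.inj h3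
        have h6 : i₁ = i' := congrArg Prod.fst h5
        have h7 : x₁ = x' := congrArg Prod.snd h5
        subst h6
        subst h7
        exact h2 c hc j y h4
    have hsome : ∀ {i j : ℕ} {x y : U}, (some (i, x) : Option (ℕ × U)) = some (j, y) →
        i = j ∧ x = y := by
      intro i j x y h
      have h1 : (i, x) = (j, y) := Option.some.inj h
      exact ⟨congrArg Prod.fst h1, congrArg Prod.snd h1⟩
    rcases hr with ⟨h1, h2, h3⟩ | ⟨j₀, y₀, h1, h2⟩
    · -- `v` is zero
      have hc1 : ∀ c ∈ gins B v₁, ∀ j y, m2b_piv c = some (j, y) →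
          ∃ b' ∈ B, m2b_piv b' = some (j, y) := by
        intro c hc j y hcy
        rcases hg2 c hc j y hcy with h | h | ⟨i', x', h, -⟩
        · exact h
        · rw [h3] at h; simp at h
        · rw [h3] at h; simp at h
      refine ⟨key i x h2 ?_, ?_⟩
      · intro c hc j y hcy
        obtain ⟨b', hb', h5⟩ := hc1 c hc j y hcy
        exact hfrom b' hb' j y h5
      · intro c hc j y hcy
        left
        rcases List.mem_cons.1 hc with rfl | hc
        · exact ⟨b, List.mem_cons_self, by rw [hbx, ← hcy, h2]⟩
        · obtain ⟨b', hb', h5⟩ := hc1 c hc j y hcy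
          exact ⟨b', List.mem_cons_of_mem _ hb', h5⟩
    · rcases h2 with ⟨h2, h3, h4⟩ | ⟨h2, h3, h4⟩ | ⟨h2, h3, h4, h5⟩ | ⟨h2, h3, h4, h5⟩
      · -- `pos v < pos b`
        have hc1 : ∀ c ∈ gins B v₁, ∀ j y, m2b_piv c = some (j, y) → j₀ < j := by
          intro c hc j y hcy
          rcases hg2 c hc j y hcy with ⟨b', hb', h⟩ | h | ⟨i', x', h, h'⟩
          · have := (hfrom b' hb' j y h).1
            omega
          · rw [h4] at h
            have := (hsome h).1
            omega
          · rw [h4] at h
            have := (hsome h).1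
            omega
        refine ⟨key j₀ y₀ h3 ?_, ?_⟩
        · intro c hc j y hcy
          have := hc1 c hc j y hcy
          exact ⟨by omega, fun h => by omega⟩
        · intro c hc j y hcy
          right
          rcases List.mem_cons.1 hc with rfl | hc
          · left; rw [h1, ← hcy, h3]
          · right; exact ⟨j₀, y₀, h1, hc1 c hc j y hcy⟩
      · -- `pos b < pos v`
        refine ⟨key i x h3 ?_, ?_⟩
        · intro c hc j y hcy
          rcases hg2 c hc j y hcy with ⟨b', hb', h⟩ | h | ⟨i', x', h, h'⟩
          · exact hfrom b' hb' j y h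
          · rw [h4] at h
            have := (hsome h).1
            exact ⟨by omega, fun h => by omega⟩
          · rw [h4] at h
            have := (hsome h).1
            exact ⟨by omega, fun h => by omega⟩
        · intro c hc j y hcy
          rcases List.mem_cons.1 hc with rfl | hc
          · left; exact ⟨b, List.mem_cons_self, by rw [hbx, ← hcy, h3]⟩
          · rcases hg2 c hc j y hcy with ⟨b', hb', h⟩ | h | ⟨i', x', h, h'⟩
            · left; exact ⟨b', List.mem_cons_of_mem _ hb', h⟩
            · right; left; rw [h1, ← h, h4]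
            · right; right
              rw [h4] at h
              have := (hsome h).1
              exact ⟨j₀, y₀, h1, by omega⟩
      · -- same position, different values
        refine ⟨key i x h4 ?_, ?_⟩
        · intro c hc j y hcy
          rcases hg2 c hc j y hcy with ⟨b', hb', h⟩ | h | ⟨i', x', h, h'⟩
          · exact hfrom b' hb' j y h
          · rw [h5] at h
            obtain ⟨h6, h7⟩ := hsome h
            exact ⟨by omega, fun _ => by rw [← h7]; exact h3⟩
          · rw [h5] at h
            have := (hsome h).1
            exact ⟨by omega, fun h => by omega⟩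
        · intro c hc j y hcy
          rcases List.mem_cons.1 hc with rfl | hc
          · left; exact ⟨b, List.mem_cons_self, by rw [hbx, ← hcy, h4]⟩
          · rcases hg2 c hc j y hcy with ⟨b', hb', h⟩ | h | ⟨i', x', h, h'⟩
            · left; exact ⟨b', List.mem_cons_of_mem _ hb', h⟩
            · right; left; rw [h1, ← h, h5]
            · right; right
              rw [h5] at h
              have := (hsome h).1
              exact ⟨j₀, y₀, h1, by omega⟩
      · -- same pivot
        have hc1 : ∀ c ∈ gins B v₁, ∀ j y, m2b_piv c = some (j, y) →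
            (∃ b' ∈ B, m2b_piv b' = some (j, y)) ∨ i < j := by
          intro c hc j y hcy
          rcases hg2 c hc j y hcy with h | h | ⟨i', x', h, h'⟩
          · exact Or.inl h
          · right
            rcases h5 with h5 | ⟨j', y', h5, h6⟩
            · rw [h5] at h; simp at h
            · rw [h5] at h
              have := (hsome h).1
              omega
          · right
            rcases h5 with h5 | ⟨j', y', h5, h6⟩
            · rw [h5] at h; simp at h
            · rw [h5] at h
              have := (hsome h).1
              omega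
        refine ⟨key i x h4 ?_, ?_⟩
        · intro c hc j y hcy
          rcases hc1 c hc j y hcy with ⟨b', hb', h⟩ | h
          · exact hfrom b' hb' j y h
          · exact ⟨by omega, fun h => by omega⟩
        · intro c hc j y hcy
          rcases List.mem_cons.1 hc with rfl | hc
          · left; exact ⟨b, List.mem_cons_self, by rw [hbx, ← hcy, h4]⟩
          · rcases hc1 c hc j y hcy with ⟨b', hb', h⟩ | h
            · left; exact ⟨b', List.mem_cons_of_mem _ hb', h⟩
            · right; right; exact ⟨j₀, y₀, h1, by omega⟩

private theorem m2b_foldl (n : ℕ) (vs : List (List U)) : ∀ B : List (List U), m2b_good n B →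
    (∀ v ∈ vs, v.length = n) → m2b_good n (vs.foldl gins B) := by
  induction vs with
  | nil => intro B hB _; exact hB
  | cons v vs ih =>
    intro B hB hv
    rw [List.foldl_cons]
    exact ih _ (m2b_gins n B v hB (hv v (List.mem_cons_self))).1
      (fun w hw => hv w (List.mem_cons_of_mem _ hw))

theorem gprune_card {U : Type} [AddCommGroup U] [Fintype U] (n : ℕ) (vs : List (List U))
    (h : ∀ v ∈ vs, v.length = n) : (gprune vs).length ≤ Fintype.card U * n := by
  classical
  have hg : m2b_good n (gprune vs) :=
    m2b_foldl n vs [] ⟨by simp, List.Pairwise.nil⟩ h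
  generalize gprune vs = B at hg
  obtain ⟨h1, h2⟩ := hg
  have h3 : (B.map (fun b => (m2b_piv b).getD (0, 0))).Nodup := by
    unfold List.Nodup
    rw [List.pairwise_map]
    refine List.Pairwise.imp_of_mem ?_ h2
    intro b c hb hc hbc heq
    obtain ⟨-, i, x, hi⟩ := h1 b hb
    obtain ⟨-, j, y, hj⟩ := h1 c hc
    rw [hi, hj] at heq
    have h4 : (i, x) = (j, y) := heq
    have h5 : i = j := congrArg Prod.fst h4
    have h6 : x = y := congrArg Prod.snd h4
    exact (hbc i x j y hi hj).2 h5 h6
  have h4 : (B.map (fun b => (m2b_piv b).getD (0, 0))).toFinset ⊆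
      (Finset.range n) ×ˢ (Finset.univ : Finset U) := by
    intro p hp
    rw [List.mem_toFinset, List.mem_map] at hp
    obtain ⟨b, hb, rfl⟩ := hp
    obtain ⟨hl, i, x, hi⟩ := h1 b hb
    have h5 := m2b_pos b i x hi
    rw [hi, Finset.mem_product]
    exact ⟨Finset.mem_range.2 (by show i < n; omega), Finset.mem_univ _⟩
  have h5 := Finset.card_le_card h4
  rw [List.toFinset_card_of_nodup h3, List.length_map, Finset.card_product, Finset.card_range,
    Finset.card_univ] at h5
  rw [Nat.mul_comm]
  exact h5

end Pool.Agent.WPU
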