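import Pool.Agent.Lib.MP_2da099_lc.UE.PDefs
import Pool.Agent.Lib.MP_2da099_lc.S03

/-!
# M2a: pruning keeps the relations

HINTS.  `rpair b v` for rows of the same length is one of `(b, v)`, `(v, b)`, `(b, v - b)` (entrywise): as long as the mode is `0` all
items are `(0, 0)` (so all three choices agree with the output), afterwards the mode is constant: prove by induction on the
lists, for all modes `m`: `trans rstep m (b.zip v)` is the list of the items for the constant mode if `m ≠ 0`, and for `m = 0` there is a
mode `m' ∈ {1, 2, 3}` such that it is the list for `m'`.  Hence `gval V cs` of the two new rows: both zero iff `gval V cs b` and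
`gval V cs v` are zero (`gval` of the entrywise difference is the difference).  Then induction on the list for `gins`, on `vs`
for `gprune` (compare `val_ins`, `val_foldl_ins`, `val_prune` in `S03.lean`).  A row which is zero has the value zero.
-/

set_option autoImplicit false

namespace Pool.Agent.WPU

open Pool.Agent.Lib.PolyTime Pool.Agent.WPM Pool.Agent.WPR

variable {U : Type} [AddCommGroup U]

/-- The action of a constant mode. -/
private def mop (m : Fin 4) (x : U × U) : U × U :=
  if m = 2 then (x.2, x.1) else if m = 3 then (x.1, x.2 - x.1) else x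

private theorem m2a_rstep_const (m : Fin 4) (hm : m ≠ 0) (x : U × U) :
    rstep m x = (m, mop m x) := by
  unfold rstep mop
  have h : rmode m x = m := by
    unfold rmode
    rw [if_neg hm]
  rw [h]

private theorem m2a_trans_const (m : Fin 4) (hm : m ≠ 0) (l : List (U × U)) :
    trans rstep m l = l.map (mop m) := by
  induction l with
  | nil => rfl
  | cons x l ih =>
    simp only [WPM.trans, List.map_cons]
    rw [m2a_rstep_const m hm x, ih]

private theorem m2a_mop_zero (m : Fin 4) : mop m ((0 : U), (0 : U)) = (0, 0) := by
  unfold mop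
  split_ifs
  · rfl
  · simp
  · rfl

private theorem m2a_trans_zero (l : List (U × U)) :
    ∃ m : Fin 4, m ≠ 0 ∧ trans rstep 0 l = l.map (mop m) := by
  induction l with
  | nil => exact ⟨1, by decide, rfl⟩
  | cons x l ih =>
    by_cases hx : rmode 0 x = 0
    · obtain ⟨m, hm, ihm⟩ := ih
      refine ⟨m, hm, ?_⟩
      have hx0 : x = (0, 0) := by
        obtain ⟨x1, x2⟩ := x
        unfold rmode at hx
        rw [if_pos rfl] at hx
        by_cases h1 : x1 = 0
        · by_cases h2 : x2 = 0
          · rw [h1, h2]
          · rw [if_pos h1, if_neg h2] at hx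
            exact absurd hx (by decide)
        · rw [if_neg h1] at hx
          by_cases h2 : x2 = 0
          · rw [if_pos h2] at hx
            exact absurd hx (by decide)
          · rw [if_neg h2] at hx
            by_cases h3 : x1 = x2
            · rw [if_pos h3] at hx
              exact absurd hx (by decide)
            · rw [if_neg h3] at hx
              exact absurd hx (by decide)
      have hs : rstep (0 : Fin 4) x = (0, x) := by
        unfold rstep
        rw [hx, if_neg (by decide), if_neg (by decide)]
      simp only [WPM.trans, List.map_cons]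
      rw [hs, ihm, hx0, m2a_mop_zero]
    · refine ⟨rmode 0 x, hx, ?_⟩
      have hs : rstep (0 : Fin 4) x = (rmode 0 x, mop (rmode 0 x) x) := by
        unfold rstep mop
        rfl
      simp only [WPM.trans, List.map_cons]
      rw [hs, m2a_trans_const _ hx]

private theorem m2a_zip_fst (b v : List U) (h : b.length = v.length) :
    (b.zip v).map Prod.fst = b := List.map_fst_zip (le_of_eq h)

private theorem m2a_zip_snd (b v : List U) (h : b.length = v.length) :
    (b.zip v).map Prod.snd = v := List.map_snd_zip (le_of_eq h.symm)

private theorem m2a_zip_sub (b v : List U) :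
    (b.zip v).map (fun x => x.2 - x.1) = List.zipWith (fun x y => x - y) v b := by
  induction b generalizing v with
  | nil => simp
  | cons x b ih =>
    cases v with
    | nil => simp
    | cons y v => simp [ih]

private theorem m2a_rpair (b v : List U) (h : b.length = v.length) :
    rpair b v = (b, v) ∨ rpair b v = (v, b) ∨
      rpair b v = (b, List.zipWith (fun x y => x - y) v b) := by
  obtain ⟨m, hm, hl⟩ := m2a_trans_zero (b.zip v)
  unfold rpair
  rw [hl, List.map_map, List.map_map]
  by_cases h2 : m = 2
  · right; left
    have e1 : (Prod.fst ∘ mop m : U × U → U) = Prod.snd := by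
      funext x; simp [mop, h2]
    have e2 : (Prod.snd ∘ mop m : U × U → U) = Prod.fst := by
      funext x; simp [mop, h2]
    rw [e1, e2, m2a_zip_fst b v h, m2a_zip_snd b v h]
  · by_cases h3 : m = 3
    · right; right
      have e1 : (Prod.fst ∘ mop m : U × U → U) = Prod.fst := by
        funext x; simp [mop, h3]
      have e2 : (Prod.snd ∘ mop m : U × U → U) = fun x => x.2 - x.1 := by
        funext x; simp [mop, h3]
      rw [e1, e2, m2a_zip_fst b v h, m2a_zip_sub]
    · left
      have e1 : (Prod.fst ∘ mop m : U × U → U) = Prod.fst := by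
        funext x; simp [mop, h2, h3]
      have e2 : (Prod.snd ∘ mop m : U × U → U) = Prod.snd := by
        funext x; simp [mop, h2, h3]
      rw [e1, e2, m2a_zip_fst b v h, m2a_zip_snd b v h]

theorem length_rpair (b v : List U) (n : ℕ) (hb : b.length = n) (hv : v.length = n) :
    (rpair b v).1.length = n ∧ (rpair b v).2.length = n := by
  rcases m2a_rpair b v (hb.trans hv.symm) with h | h | h
  · rw [h]; exact ⟨hb, hv⟩
  · rw [h]; exact ⟨hv, hb⟩
  · rw [h]
    refine ⟨hb, ?_⟩
    simp only [List.length_zipWith]
    omega

theorem length_mem_gins (n : ℕ) (B : List (List U)) (v : List U) (hv : v.length = n)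
    (hB : ∀ b ∈ B, b.length = n) : ∀ b ∈ gins B v, b.length = n := by
  induction B generalizing v with
  | nil =>
    intro b hb
    unfold gins at hb
    split_ifs at hb
    · simp at hb
    · rw [List.mem_singleton.1 hb]
      exact hv
  | cons b0 B ih =>
    intro b hb
    have hl := length_rpair b0 v n (hB b0 List.mem_cons_self) hv
    unfold gins at hb
    rcases List.mem_cons.1 hb with h | h
    · rw [h]; exact hl.1
    · exact ih _ hl.2 (fun b' hb' => hB b' (List.mem_cons_of_mem _ hb')) b h

private theorem m2a_length_foldl (n : ℕ) (vs : List (List U)) (h : ∀ v ∈ vs, v.length = n)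
    (B : List (List U)) (hB : ∀ b ∈ B, b.length = n) :
    ∀ v ∈ vs.foldl gins B, v.length = n := by
  induction vs generalizing B with
  | nil => exact hB
  | cons v vs ih =>
    rw [List.foldl_cons]
    exact ih (fun v' hv' => h v' (List.mem_cons_of_mem _ hv')) _
      (length_mem_gins n B v (h v List.mem_cons_self) hB)

theorem length_mem_gprune (n : ℕ) (vs : List (List U)) (h : ∀ v ∈ vs, v.length = n) :
    ∀ v ∈ gprune vs, v.length = n :=
  m2a_length_foldl n vs h [] (by simp)

private theorem m2a_gval_sub {r : ℕ} {K : Type} [AddCommGroup K] (V : (Fin r → ℤ) → U →+ K)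
    (cs : List (Fin r → ℤ)) (a b : List U) (ha : a.length = cs.length)
    (hb : b.length = cs.length) :
    gval V cs (List.zipWith (fun x y => x - y) a b) = gval V cs a - gval V cs b := by
  unfold gval
  induction cs generalizing a b with
  | nil => simp
  | cons c0 cs ih =>
    cases a with
    | nil => simp at ha
    | cons x a =>
      cases b with
      | nil => simp at hb
      | cons y b =>
        simp only [List.zipWith_cons_cons, List.sum_cons]
        rw [ih a b (by simpa using ha) (by simpa using hb), map_sub]
        abel

private theorem m2a_gval_isZ {r : ℕ} {K : Type} [AddCommGroup K] (V : (Fin r → ℤ) → U →+ K)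
    (cs : List (Fin r → ℤ)) (a : List U) (h : gisZ a = true) : gval V cs a = 0 := by
  have h' : ∀ v ∈ a, v = 0 := by
    unfold gisZ at h
    intro v hv
    have := (List.all_eq_true.1 h) v hv
    simpa using this
  clear h
  unfold gval
  induction cs generalizing a with
  | nil => simp
  | cons c0 cs ih =>
    cases a with
    | nil => simp
    | cons x a =>
      simp only [List.zipWith_cons_cons, List.sum_cons]
      rw [ih a (fun v hv => h' v (List.mem_cons_of_mem _ hv)), h' x List.mem_cons_self, map_zero,
        add_zero]

private theorem m2a_gval_rpair {r : ℕ} {K : Type} [AddCommGroup K] (V : (Fin r → ℤ) → U →+ K)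
    (cs : List (Fin r → ℤ)) (b v : List U) (hb : b.length = cs.length)
    (hv : v.length = cs.length) :
    (gval V cs (rpair b v).1 = 0 ∧ gval V cs (rpair b v).2 = 0) ↔
      gval V cs b = 0 ∧ gval V cs v = 0 := by
  rcases m2a_rpair b v (hb.trans hv.symm) with h | h | h
  · rw [h]
  · rw [h]; exact and_comm
  · rw [h]
    show (gval V cs b = 0 ∧ gval V cs (List.zipWith (fun x y => x - y) v b) = 0) ↔ _
    rw [m2a_gval_sub V cs v b hv hb]
    constructor
    · rintro ⟨h1, h2⟩
      rw [h1, sub_zero] at h2
      exact ⟨h1, h2⟩
    · rintro ⟨h1, h2⟩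
      rw [h1, h2, sub_zero]
      exact ⟨rfl, rfl⟩

private theorem m2a_gval_gins {r : ℕ} {K : Type} [AddCommGroup K] (V : (Fin r → ℤ) → U →+ K)
    (cs : List (Fin r → ℤ)) (B : List (List U)) (v : List U) (hv : v.length = cs.length)
    (hB : ∀ b ∈ B, b.length = cs.length) :
    (∀ b ∈ gins B v, gval V cs b = 0) ↔ (∀ b ∈ B, gval V cs b = 0) ∧ gval V cs v = 0 := by
  induction B generalizing v with
  | nil =>
    unfold gins
    split_ifs with hz
    · simp [m2a_gval_isZ V cs v hz]
    · simp
  | cons b0 B ih =>
    have hb0 := hB b0 List.mem_cons_self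
    have hl := length_rpair b0 v cs.length hb0 hv
    have key := m2a_gval_rpair V cs b0 v hb0 hv
    show (∀ b ∈ (rpair b0 v).1 :: gins B (rpair b0 v).2, gval V cs b = 0) ↔ _
    rw [List.forall_mem_cons, List.forall_mem_cons,
      ih _ hl.2 (fun b' hb' => hB b' (List.mem_cons_of_mem _ hb'))]
    constructor
    · rintro ⟨h1, h2, h3⟩
      obtain ⟨k1, k2⟩ := key.1 ⟨h1, h3⟩
      exact ⟨⟨k1, h2⟩, k2⟩
    · rintro ⟨⟨h1, h2⟩, h3⟩
      obtain ⟨k1, k2⟩ := key.2 ⟨h1, h3⟩
      exact ⟨k1, h2, k2⟩

private theorem m2a_gval_foldl {r : ℕ} {K : Type} [AddCommGroup K] (V : (Fin r → ℤ) → U →+ K)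
    (cs : List (Fin r → ℤ)) (vs : List (List U)) (hlen : ∀ v ∈ vs, v.length = cs.length)
    (B : List (List U)) (hB : ∀ b ∈ B, b.length = cs.length) :
    (∀ v ∈ vs.foldl gins B, gval V cs v = 0) ↔
      (∀ b ∈ B, gval V cs b = 0) ∧ ∀ v ∈ vs, gval V cs v = 0 := by
  induction vs generalizing B with
  | nil => simp
  | cons v vs ih =>
    rw [List.foldl_cons, ih (fun v' hv' => hlen v' (List.mem_cons_of_mem _ hv')) _
      (length_mem_gins _ B v (hlen v List.mem_cons_self) hB),
      m2a_gval_gins V cs B v (hlen v List.mem_cons_self) hB, List.forall_mem_cons, and_assoc]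

theorem gval_gprune {r : ℕ} {K : Type} [AddCommGroup K] (V : (Fin r → ℤ) → U →+ K)
    (cs : List (Fin r → ℤ)) (vs : List (List U)) (hlen : ∀ v ∈ vs, v.length = cs.length) :
    (∀ v ∈ gprune vs, gval V cs v = 0) ↔ ∀ v ∈ vs, gval V cs v = 0 := by
  unfold gprune
  rw [m2a_gval_foldl V cs vs hlen [] (by simp)]
  simp

private theorem m2a_gins_length (B : List (List U)) (v : List U) :
    (gins B v).length ≤ B.length + 1 := by
  induction B generalizing v with
  | nil =>
    unfold gins
    split_ifs <;> simp
  | cons b B ih =>
    unfold gins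
    rw [List.length_cons, List.length_cons]
    have := ih (rpair b v).2
    omega

theorem gprune_length_le (vs : List (List U)) : (gprune vs).length ≤ vs.length := by
  have h : ∀ B : List (List U), (vs.foldl gins B).length ≤ B.length + vs.length := by
    induction vs with
    | nil => intro B; simp
    | cons v vs ih =>
      intro B
      rw [List.foldl_cons]
      refine (ih _).trans ?_
      have h1 := m2a_gins_length B v
      rw [List.length_cons]
      omega
  have := h []
  simpa [gprune] using this

end Pool.Agent.WPU
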