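import Pool.Agent.Lib.MP_2da099_lc.UE.PDefs
import Pool.Agent.Lib.MP_2da099_lc.UE.M1
import Pool.Agent.Lib.MP_2da099_lc.UE.M2a
import Pool.Agent.Lib.MP_2da099_lc.S05

/-!
# M3: one level is correct

HINTS.  Copy `S05.lean` with `gbrow_spec`, `gval_gprune`, `length_gbrow`.
-/

set_option autoImplicit false

namespace Pool.Agent.WPU

open Pool.Agent.Lib.PolyTime Pool.Agent.WPM Pool.Agent.WPR

variable {p r : ℕ} [NeZero p] {U : Type} [AddCommGroup U]

private theorem m3_mem_gnews (D : GD p r U) (an : List (Ann p r)) (rows : List (List U))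
    (v : List U) : v ∈ gnews D an rows ↔
      ∃ u ∈ rows, ∃ j : Fin D.d, v = gbrow (fun y u => D.step y.1 y.2.1 j u) (an.zip u) := by
  unfold gnews
  rw [List.mem_flatMap]
  constructor
  · rintro ⟨u, hu, hv⟩
    obtain ⟨j, _, hj⟩ := List.mem_map.mp hv
    exact ⟨u, hu, j, hj.symm⟩
  · rintro ⟨u, hu, j, hj⟩
    exact ⟨u, hu, List.mem_map.mpr ⟨j, List.mem_finRange j, hj.symm⟩⟩

theorem glevel_length_fst (D : GD p r U) (x : List (Sg r) × List (List U)) :
    (glevel D x).1.length = (x.1.length + p - 1) / p :=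
  length_nxt p r x.1

theorem gnews_rows (D : GD p r U) (x : List (Sg r) × List (List U))
    (hx : ∀ row ∈ x.2, row.length = x.1.length) :
    ∀ row ∈ gnews D (ann p r x.1) x.2, row.length = (glevel D x).1.length := by
  intro row hrow
  obtain ⟨u, hu, j, rfl⟩ := (m3_mem_gnews D _ _ _).mp hrow
  exact length_gbrow _ x.1 u (hx u hu)

theorem glevel_rows (D : GD p r U) (x : List (Sg r) × List (List U))
    (hx : ∀ row ∈ x.2, row.length = x.1.length) :
    ∀ row ∈ (glevel D x).2, row.length = (glevel D x).1.length :=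
  length_mem_gprune _ _ (gnews_rows D x hx)

theorem glevel_iff (D : GD p r U) {K : Type} [AddCommGroup K] (V : (Fin r → ℤ) → U →+ K)
    (h2 : ∀ (c : Fin r → ℤ) (δ : Sg r) (a : Fin r → Fin p) (j : Fin D.d) (u : U),
      V (c + sz δ) (D.step a (fun _ => 0) j u) = V c (D.step a δ j u))
    (h3 : ∀ l : List ((Fin r → ℤ) × U), (l.map (fun x => V x.1 x.2)).sum = 0 ↔
      ∀ j, (l.map (fun x => V (fl p x.1) (D.step (md p x.1) (fun _ => 0) j x.2))).sum = 0)
    (x : List (Sg r) × List (List U)) (hx : ∀ row ∈ x.2, row.length = x.1.length) :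
    (∀ row ∈ (glevel D x).2, gval V (posd 0 (glevel D x).1) row = 0) ↔
      ∀ row ∈ x.2, gval V (posd 0 x.1) row = 0 := by
  have h4 : (∀ row ∈ (glevel D x).2, gval V (posd 0 (glevel D x).1) row = 0) ↔
      ∀ row ∈ gnews D (ann p r x.1) x.2, gval V (posd 0 (glevel D x).1) row = 0 := by
    apply gval_gprune
    intro v hv
    rw [length_posd]
    exact gnews_rows D x hx v hv
  have h5 : ∀ u ∈ x.2, ∀ j : Fin D.d,
      gval V (posd 0 (glevel D x).1) (gbrow (fun y u => D.step y.1 y.2.1 j u) ((ann p r x.1).zip u))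
        = (((posd 0 x.1).zip u).map
          (fun x => V (fl p x.1) (D.step (md p x.1) (fun _ => 0) j x.2))).sum := by
    intro u hu j
    have h6 := gbrow_spec V (fun a δ u => D.step a δ j u) (fun c δ a u => h2 c δ a j u) x.1 u
      (hx u hu)
    rw [s05_zipWith] at h6
    exact h6
  have h7 : ∀ u : List U, gval V (posd 0 x.1) u
      = (((posd 0 x.1).zip u).map (fun x => V x.1 x.2)).sum := by
    intro u
    unfold gval
    rw [s05_zipWith]
  rw [h4]
  constructor
  · intro h u hu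
    rw [h7, h3]
    intro j
    rw [← h5 u hu j]
    exact h _ ((m3_mem_gnews D _ _ _).mpr ⟨u, hu, j, rfl⟩)
  · intro h v hv
    obtain ⟨u, hu, j, rfl⟩ := (m3_mem_gnews D _ _ _).mp hv
    rw [h5 u hu j]
    have h8 := h u hu
    rw [h7, h3] at h8
    exact h8 j

end Pool.Agent.WPU
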