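import Pool.Agent.Lib.MP_2da099_lc.UE.PDefs
import Pool.Agent.Lib.MP_2da099_lc.UE.M3
import Pool.Agent.Lib.MP_2da099_lc.S06

/-!
# M4: the decision procedure is correct

HINTS.  Copy `S06.lean` (`start_rows`, `start_length_fst`, `start_card`, `start_iff`, `iterate_iff`, `final_iff`, `decide_iff`) for `GD`.
-/

set_option autoImplicit false

namespace Pool.Agent.WPU

open Pool.Agent.Lib.PolyTime Pool.Agent.WPM Pool.Agent.WPR

variable {p r : ℕ} [Fact p.Prime] {U : Type} [AddCommGroup U]

theorem gstart_rows [NeZero p] (D : GD p r U) (w : List (Letter r)) :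
    ∀ row ∈ (gstart D w).2, row.length = (gstart D w).1.length := by
  intro row hrow
  unfold gstart at hrow ⊢
  simp only [List.mem_map] at hrow
  obtain ⟨j, _, rfl⟩ := hrow
  exact length_gbrow _ _ _ (length_incr w).symm

theorem gstart_length_fst [NeZero p] (D : GD p r U) (w : List (Letter r)) :
    (gstart D w).1.length = (w.length + D.q - 1) / D.q := by
  unfold gstart
  rw [length_nxt, length_incr]

theorem gstart_card [NeZero p] (D : GD p r U) (w : List (Letter r)) :
    (gstart D w).2.length = D.s := by
  unfold gstart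
  simp

/-- the values of the initial rows -/
private theorem m4_start_iff [NeZero p] (D : GD p r U) {K : Type} [AddCommGroup K]
    (V : (Fin r → ℤ) → U →+ K)
    (h4 : ∀ (c : Fin r → ℤ) (δ : Sg r) (a : Fin r → Fin D.q) (l : Letter r) (j : Fin D.s),
      V (c + sz δ) (D.init a (fun _ => 0) l j) = V c (D.init a δ l j))
    (w : List (Letter r)) :
    (∀ row ∈ (gstart D w).2, gval V (posd 0 (gstart D w).1) row = 0) ↔
      ∀ j, ((posl 0 w).map
        (fun x => V (fl D.q x.1) (D.init (md D.q x.1) (fun _ => 0) x.2 j))).sum = 0 := by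
  have key : ∀ j, gval V (posd 0 (gstart D w).1)
      (gbrow (fun y l => D.init y.1 y.2.1 l j) ((ann D.q r (incr w)).zip w)) =
      ((posl 0 w).map
        (fun x => V (fl D.q x.1) (D.init (md D.q x.1) (fun _ => 0) x.2 j))).sum := by
    intro j
    have h := gbrow_spec V (fun a δ l => D.init a δ l j) (fun c δ a x => h4 c δ a x j)
      (incr w) w (length_incr w).symm
    rw [posl_eq_zip]
    refine h.trans ?_
    rw [List.zip_eq_zipWith, List.map_zipWith]
  constructor
  · intro h j
    rw [← key]
    apply h
    unfold gstart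
    simp only [List.mem_map]
    exact ⟨j, List.mem_finRange j, rfl⟩
  · intro h row hrow
    have hrow' := hrow
    unfold gstart at hrow'
    simp only [List.mem_map] at hrow'
    obtain ⟨j, _, rfl⟩ := hrow'
    rw [key]
    exact h j

/-- The iteration of the levels. -/
private theorem m4_iterate_iff [NeZero p] (D : GD p r U) {K : Type} [AddCommGroup K]
    (V : (Fin r → ℤ) → U →+ K)
    (h2 : ∀ (c : Fin r → ℤ) (δ : Sg r) (a : Fin r → Fin p) (j : Fin D.d) (u : U),
      V (c + sz δ) (D.step a (fun _ => 0) j u) = V c (D.step a δ j u))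
    (h3 : ∀ l : List ((Fin r → ℤ) × U), (l.map (fun x => V x.1 x.2)).sum = 0 ↔
      ∀ j, (l.map (fun x => V (fl p x.1) (D.step (md p x.1) (fun _ => 0) j x.2))).sum = 0)
    (w : List (Letter r)) (x : List (Sg r) × List (List U))
    (hx : ∀ row ∈ x.2, row.length = x.1.length) :
    (∀ row ∈ (w.foldl (fun x _ => glevel D x) x).2,
      row.length = (w.foldl (fun x _ => glevel D x) x).1.length) ∧
    (w.foldl (fun x _ => glevel D x) x).1.length ≤ max 1 (x.1.length - w.length) ∧
    ((∀ row ∈ (w.foldl (fun x _ => glevel D x) x).2,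
      gval V (posd 0 (w.foldl (fun x _ => glevel D x) x).1) row = 0) ↔
      ∀ row ∈ x.2, gval V (posd 0 x.1) row = 0) := by
  induction w generalizing x with
  | nil =>
    refine ⟨hx, ?_, Iff.rfl⟩
    simp
  | cons a w ih =>
    rw [List.foldl_cons]
    obtain ⟨i1, i2, i3⟩ := ih (glevel D x) (glevel_rows D x hx)
    refine ⟨i1, i2.trans ?_, i3.trans (glevel_iff D V h2 h3 x hx)⟩
    rw [glevel_length_fst, List.length_cons]
    have hp : 2 ≤ p := (Fact.out : p.Prime).two_le
    have h5 : (x.1.length + p - 1) / p ≤ max 1 (x.1.length - 1) := by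
      rcases Nat.lt_or_ge x.1.length 2 with h | h
      · refine le_trans ?_ (le_max_left _ _)
        rw [← Nat.lt_succ_iff, Nat.div_lt_iff_lt_mul (by omega)]
        omega
      · refine le_trans ?_ (le_max_right _ _)
        rw [← Nat.lt_succ_iff, Nat.div_lt_iff_lt_mul (by omega)]
        obtain ⟨m, hm⟩ : ∃ m, x.1.length = m + 2 := ⟨x.1.length - 2, by omega⟩
        obtain ⟨s, hs⟩ : ∃ s, p = s + 2 := ⟨p - 2, by omega⟩
        rw [hm, hs]
        have e1 : (m + 2 - 1).succ = m + 2 := rfl
        rw [e1]
        have e2 : (m + 2) * (s + 2) = (m + 2 + (s + 2) - 1) + (m * s + m + s + 1) := by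
          have : m + 2 + (s + 2) - 1 = m + s + 3 := by omega
          rw [this]; ring
        omega
    omega

private theorem m4_isZ (row : List U) : gisZ row = true ↔ ∀ u ∈ row, u = 0 := by
  classical
  unfold gisZ
  rw [List.all_eq_true]
  refine forall_congr' fun u => forall_congr' fun _ => ?_
  exact decide_eq_true_iff

private theorem m4_final_iff {K : Type} [AddCommGroup K]
    (V : (Fin r → ℤ) → U →+ K) (h1 : ∀ c, Function.Injective (V c))
    (x : List (Sg r) × List (List U))
    (hx : ∀ row ∈ x.2, row.length = x.1.length) (hl : x.1.length ≤ 1) :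
    gfinish x = true ↔ ∀ row ∈ x.2, gval V (posd 0 x.1) row = 0 := by
  unfold gfinish
  rw [List.all_eq_true]
  refine forall_congr' fun row => forall_congr' fun hrow => ?_
  have hlen := hx row hrow
  rw [m4_isZ]
  obtain ⟨Δs, rows⟩ := x
  cases Δs with
  | nil =>
    obtain rfl : row = [] := List.length_eq_zero_iff.1 hlen
    simp [gval]
  | cons Δ Δs =>
    have h0 : Δs = [] := by
      apply List.length_eq_zero_iff.1
      simp only [List.length_cons] at hl
      omega
    subst h0
    cases row with
    | nil => simp at hlen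
    | cons u row =>
      have h0 : row = [] := by
        apply List.length_eq_zero_iff.1
        simpa using hlen
      subst h0
      simp only [posd, gval, List.zipWith_cons_cons, List.zipWith_nil_left, List.sum_cons,
        List.sum_nil, add_zero, List.mem_singleton, forall_eq]
      constructor
      · intro h; rw [h, map_zero]
      · intro h
        apply h1 _
        rw [h, map_zero]

theorem gdecide_iff [NeZero p] (D : GD p r U) (Z : List (Letter r) → Prop) (h : D.Sound Z)
    (w : List (Letter r)) : gdecide D w = true ↔ Z w := by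
  obtain ⟨K, hK, V, h1, h2, h3, h4, h5⟩ := h
  obtain ⟨i1, i2, i3⟩ := m4_iterate_iff D V h2 h3 w (gstart D w) (gstart_rows D w)
  have hl : (w.foldl (fun x _ => glevel D x) (gstart D w)).1.length ≤ 1 := by
    refine i2.trans ?_
    have hs := gstart_length_fst D w
    have hq : 0 < D.q := Nat.pos_of_ne_zero (NeZero.ne D.q)
    have h6 : (w.length + D.q - 1) / D.q ≤ w.length := by
      rw [← Nat.lt_succ_iff, Nat.div_lt_iff_lt_mul hq, Nat.succ_mul]
      have : w.length ≤ w.length * D.q := Nat.le_mul_of_pos_right _ hq
      omega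
    rw [hs]
    omega
  unfold gdecide
  rw [m4_final_iff V h1 _ i1 hl, i3, m4_start_iff D V h4 w, h5]

end Pool.Agent.WPU
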