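import Pool.Agent.Lib.MP_2da099_lc.UE.PDefs
import Pool.Agent.Lib.MP_2da099_lc.K01
import Pool.Agent.Lib.MP_2da099_lc.K02

/-!
# M5: cost of the rows of the next level

HINTS.  Copy the second halves of `K01.lean` and `K02.lean` (`ct_brow`, `ct_browzip`, `length_brow_le`, `ct_rowset`, `size_rows_le`, `ct_news`,
`news_length`, `mxl_news_le`) with a finite commutative group `U` instead of `Vec p e`.
-/

set_option autoImplicit false

namespace Pool.Agent.WPU

open Pool.Agent.Lib.PolyTime Pool.Agent.WPM Pool.Agent.WPR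

/-- one step of the block sums -/
private def m5a_step {q r : ℕ} {U X : Type} [AddCommGroup U] (h : Ann q r → X → U)
    (z : (Ann q r × X) × (U × List U)) : U × List U :=
  if z.1.1.2.2.isSome then (0, (h z.1.1 z.1.2 + z.2.1) :: z.2.2) else (h z.1.1 z.1.2 + z.2.1, z.2.2)

private theorem m5a_ct_step {q r : ℕ} {U X : Type} [AddCommGroup U] [Enc U] [Finite U]
    [Enc X] [Finite X]
    (h : Ann q r → X → U) : CT (m5a_step h) (fun _ => 0) := by
  have h1 : CT (fun z : (Ann q r × X) × (U × List U) => ((z.1, z.2.1), z.2.2))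
      (fun z => size z.1) := CT.assocL
  have h2 : CT (fun w : (Ann q r × X) × U =>
      ((w.1.1.2.2.isSome, h w.1.1 w.1.2 + w.2) : Bool × U)) (fun _ => 0) := CT.fin _
  have h3 : CT (fun z : ((Ann q r × X) × U) × List U =>
      (((z.1.1.1.2.2.isSome, h z.1.1.1 z.1.1.2 + z.1.2) : Bool × U), z.2)) (fun _ => 0) :=
    CT.first h2
  have h4 : CT (fun x : (Bool × U) × List U => (x.1.1, (x.1.2, x.2)))
    (fun x => size x.1.1) := CT.assocR
  have h5 : CT (fun x : U × List U => x.1 :: x.2) (fun _ => 0) :=
    CT.of_enc_eq (fun _ => rfl)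
  have h6 : CT (fun l : List U => ((0 : U), l)) (fun _ => 0) := CT.pushConst _
  have h7 : CT (fun x : U × List U => x) (fun _ => 0) :=
    CT.of_enc_eq (fun _ => rfl)
  have h8 := CT.bcase (h6.comp h5) h7
  obtain ⟨κ, hκ⟩ := size_fin (Ann q r × X)
  obtain ⟨κ', hκ'⟩ := size_fin Bool
  refine ((h8.comp (h4.comp (h3.comp h1))).mono (κ + κ') (fun z => ?_)).congr (fun z => ?_)
  · have a1 := hκ z.1
    have a2 := hκ' (z.1.1.2.2.isSome)
    simp only [Nat.add_zero, Nat.zero_add, ite_self, Nat.mul_one]
    omega
  · simp only [m5a_step]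

private theorem m5_brow_def {q r : ℕ} {U X : Type} [AddCommGroup U] (h : Ann q r → X → U)
    (l : List (Ann q r × X)) : gbrow h l =
      (l.foldr (fun a s => m5a_step h (a, s)) ((0 : U), ([] : List U))).2 := rfl

theorem ct_gbrow {q r : ℕ} {U X : Type} [AddCommGroup U] [Enc U] [Finite U]
    [Enc X] [Finite X]
    (h : Ann q r → X → U) :
    CT (fun l : List (Ann q r × X) => gbrow h l) (fun l => l.length) := by
  have h1 : CT (fun l : List (Ann q r × X) => (((0 : U), ([] : List U)), l))
    (fun _ => 0) := CT.pushConst _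
  have h2 : CT (fun x : (U × List U) × List (Ann q r × X) => (x.2, x.1))
    (fun x => size x.1 + size x.2) := CT.swap
  have h3 := CT.foldr (m5a_ct_step h)
  have h4 : CT (fun x : U × List U => x.2) (fun x => size x.1) := CT.snd
  obtain ⟨κ, hκ⟩ := size_list_fin (Ann q r × X)
  obtain ⟨κ', hκ'⟩ := size_fin (U)
  refine ((h4.comp (h3.comp (h2.comp h1))).mono
    (2 * κ + κ' + size ((0 : U), ([] : List U))) (fun l => ?_)).congr (fun l => ?_)
  · have a1 := hκ l
    have a2 := hκ' (l.foldr (fun a s => m5a_step h (a, s))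
      ((0 : U), ([] : List U))).1
    have a3 := foldCost_le (T := fun _ => 0) (step := m5a_step h) 0 (fun _ => le_refl _) l.reverse
      ((0 : U), ([] : List U))
    rw [Nat.zero_mul] at a3
    show 0 + (size ((0 : U), ([] : List U)) + size l) +
      (size l + foldCost (fun _ => 0) (m5a_step h) l.reverse
        ((0 : U), ([] : List U))) +
      size (l.foldr (fun a s => m5a_step h (a, s)) ((0 : U), ([] : List U))).1 ≤ _
    have a4 : (2 * κ + κ' + size ((0 : U), ([] : List U))) * (l.length + 1) =
      2 * (κ * (l.length + 1)) + κ' * (l.length + 1) +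
        size ((0 : U), ([] : List U)) * (l.length + 1) := by ring
    have a5 : κ' ≤ κ' * (l.length + 1) := Nat.le_mul_of_pos_right _ (Nat.succ_pos _)
    have a6 : size ((0 : U), ([] : List U)) ≤
      size ((0 : U), ([] : List U)) * (l.length + 1) :=
      Nat.le_mul_of_pos_right _ (Nat.succ_pos _)
    rw [a4]
    omega
  · exact (m5_brow_def h l).symm

private theorem m5_ct_gbrowzip {q r : ℕ} {U X : Type} [AddCommGroup U] [Enc U] [Finite U]
    [Enc X] [Finite X]
    (h : Ann q r → X → U) :
    CT (fun x : List (Ann q r) × List X => gbrow h (x.1.zip x.2))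
      (fun x => x.1.length + x.2.length) := by
  have h1 : CT (fun x : List (Ann q r) × List X => x.1.zip x.2)
    (fun x => size x.1 + size x.2) := CT.zip
  obtain ⟨κ, hκ⟩ := size_list_fin (Ann q r)
  obtain ⟨κ', hκ'⟩ := size_list_fin X
  refine ((ct_gbrow h).comp h1).mono (κ + κ' + 1) (fun x => ?_)
  have a1 := hκ x.1
  have a2 := hκ' x.2
  have a3 : (x.1.zip x.2).length ≤ x.1.length := by
    rw [List.length_zip]; exact Nat.min_le_left _ _
  show size x.1 + size x.2 + (x.1.zip x.2).length ≤ _
  have a4 : (κ + κ' + 1) * (x.1.length + x.2.length + 1) =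
    κ * (x.1.length + 1) + κ' * (x.2.length + 1) + (x.1.length + x.2.length + 1) +
      κ * x.2.length + κ' * x.1.length := by ring
  rw [a4]
  omega

private theorem m5a_length_le {q r : ℕ} {U X : Type} [AddCommGroup U] (h : Ann q r → X → U)
    (l : List (Ann q r × X)) : (l.foldr (fun a s => m5a_step h (a, s))
      ((0 : U), ([] : List U))).2.length ≤ l.length := by
  induction l with
  | nil => simp
  | cons a l ih =>
    rw [List.foldr_cons]
    show (m5a_step h (a, _)).2.length ≤ _
    rw [m5a_step]
    split_ifs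
    · simpa using ih
    · exact ih.trans (by simp)

theorem length_gbrow_le {q r : ℕ} {U X : Type} [AddCommGroup U] (h : Ann q r → X → U)
    (l : List (Ann q r × X)) : (gbrow h l).length ≤ l.length := by
  rw [m5_brow_def]
  exact m5a_length_le h l

theorem ct_growset {q r : ℕ} {U X : Type} [AddCommGroup U] [Enc U] [Finite U]
    [Enc X] [Finite X] (d : ℕ)
    (h : Fin d → Ann q r → X → U) :
    CT (fun x : List (Ann q r) × List X =>
      (List.finRange d).map (fun j => gbrow (h j) (x.1.zip x.2)))
      (fun x => x.1.length + x.2.length) := by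
  obtain ⟨κ, hκ⟩ := size_list_fin (Ann q r)
  obtain ⟨κ', hκ'⟩ := size_list_fin X
  refine (CT.mapConst (List.finRange d)
    (f := fun (j : Fin d) (x : List (Ann q r) × List X) => gbrow (h j) (x.1.zip x.2))
    (fun j _ => m5_ct_gbrowzip (h j))).mono (κ + κ' + 2) (fun x => ?_)
  have a1 := hκ x.1
  have a2 := hκ' x.2
  have a3 : size x = size x.1 + size x.2 + 1 := size_prod x
  have a4 : (κ + κ' + 2) * (x.1.length + x.2.length + 1) =
    κ * (x.1.length + 1) + κ' * (x.2.length + 1) + 2 * (x.1.length + x.2.length + 1) +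
      κ * x.2.length + κ' * x.1.length := by ring
  rw [a3, a4]
  omega

theorem size_grows_le (U : Type) [Enc U] [Finite U] : ∃ κ : ℕ, ∀ rows : List (List U),
    size rows ≤ κ * ((rows.length + 1) * (mxl rows + 1)) := by
  obtain ⟨κ, hκ⟩ := size_list_fin (U)
  refine ⟨κ + 1, fun rows => ?_⟩
  refine (size_list_le_of (κ * (mxl rows + 1)) rows (fun row hrow => ?_)).trans ?_
  · refine (hκ row).trans (Nat.mul_le_mul_left _ ?_)
    have := k02_le_mxl hrow
    omega
  · have a1 : (κ + 1) * ((rows.length + 1) * (mxl rows + 1)) =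
      (κ * (mxl rows + 1) + (mxl rows + 1)) * (rows.length + 1) := by ring
    rw [a1]
    refine Nat.mul_le_mul_right _ ?_
    omega

/-- the rows obtained from one row -/
private noncomputable def m5_F {p r : ℕ} [NeZero p] {U : Type} [AddCommGroup U] (D : GD p r U) (an : List (Ann p r))
    (row : List U) : List (List U) :=
  (List.finRange D.d).map (fun j => gbrow (fun y u => D.step y.1 y.2.1 j u) (an.zip row))

private theorem m5_gnews_def {p r : ℕ} [NeZero p] {U : Type} [AddCommGroup U] (D : GD p r U) (an : List (Ann p r))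
    (rows : List (List U)) : gnews D an rows = rows.flatMap (m5_F D an) := rfl

private theorem m5_len {p r : ℕ} [NeZero p] {U : Type} [AddCommGroup U] (D : GD p r U) (an : List (Ann p r))
    (row row' : List U) (h : row' ∈ m5_F D an row) : row'.length ≤ an.length := by
  rw [m5_F, List.mem_map] at h
  obtain ⟨j, _, rfl⟩ := h
  refine (length_gbrow_le _ _).trans ?_
  rw [List.length_zip]
  exact Nat.min_le_left _ _

private theorem m5_Flen {p r : ℕ} [NeZero p] {U : Type} [AddCommGroup U] (D : GD p r U) (an : List (Ann p r))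
    (row : List U) : (m5_F D an row).length = D.d := by
  rw [m5_F, List.length_map, List.length_finRange]

private theorem m5_fold {α β : Type} (F : α → List β) (l : List α) (acc : List β) :
    l.foldl (fun s a => F a ++ s) acc = l.reverse.flatMap F ++ acc := by
  induction l generalizing acc with
  | nil => rfl
  | cons a l ih =>
    rw [List.foldl_cons, ih, List.reverse_cons, List.flatMap_append, List.append_assoc]
    simp

/-- the step of the fold -/
private noncomputable def m5_step {p r : ℕ} [NeZero p] {U : Type} [AddCommGroup U] (D : GD p r U)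
    (z : (List U × List (Ann p r)) × List (List U)) :
    List (List U) := m5_F D z.1.2 z.1.1 ++ z.2

private theorem m5_ct_step {p r : ℕ} [NeZero p] {U : Type} [AddCommGroup U] [Enc U] [Finite U]
    (D : GD p r U) :
    CT (m5_step D) (fun z => z.1.2.length + z.1.1.length) := by
  have h1 : CT (fun x : List U × List (Ann p r) => (x.2, x.1))
    (fun x => size x.1 + size x.2) := CT.swap
  have h2 : CT (fun x : List (Ann p r) × List U => m5_F D x.1 x.2)
    (fun x => x.1.length + x.2.length) :=
    ct_growset D.d (fun j y u => D.step y.1 y.2.1 j u)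
  have h3 : CT (fun z : (List U × List (Ann p r)) × List (List U) =>
    (m5_F D z.1.2 z.1.1, z.2)) _ := CT.first (h2.comp h1)
  have h4 : CT (fun x : List (List U) × List (List U) => x.1 ++ x.2)
    (fun x => size x.1) := CT.append
  obtain ⟨κ, hκ⟩ := size_list_fin (Ann p r)
  obtain ⟨κ', hκ'⟩ := size_list_fin (U)
  obtain ⟨μ, hμ⟩ := size_grows_le U
  refine ((h4.comp h3).mono (κ + κ' + 1 + μ * (D.d + 1)) (fun z => ?_)).congr (fun z => ?_)
  · have a1 := hκ z.1.2
    have a2 := hκ' z.1.1
    have a3 := hμ (m5_F D z.1.2 z.1.1)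
    rw [m5_Flen] at a3
    have a4 : mxl (m5_F D z.1.2 z.1.1) ≤ z.1.2.length := k02_mxl_le (fun row h => m5_len D _ _ _ h)
    have a5 : μ * ((D.d + 1) * (mxl (m5_F D z.1.2 z.1.1) + 1)) ≤
        μ * ((D.d + 1) * (z.1.2.length + z.1.1.length + 1)) :=
      Nat.mul_le_mul_left _ (Nat.mul_le_mul_left _ (by omega))
    show size z.1.1 + size z.1.2 + (z.1.2.length + z.1.1.length) + size (m5_F D z.1.2 z.1.1) ≤ _
    have a6 : (κ + κ' + 1 + μ * (D.d + 1)) * (z.1.2.length + z.1.1.length + 1) =
      κ * (z.1.2.length + 1) + κ' * (z.1.1.length + 1) + (z.1.2.length + z.1.1.length + 1) +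
      κ * z.1.1.length + κ' * z.1.2.length +
      μ * ((D.d + 1) * (z.1.2.length + z.1.1.length + 1)) := by ring
    rw [a6]
    omega
  · rfl

theorem ct_gnews {p r : ℕ} [NeZero p] {U : Type} [AddCommGroup U] [Enc U] [Finite U]
    (D : GD p r U) :
    CT (fun x : List (Ann p r) × List (List U) => gnews D x.1 x.2)
      (fun x => (x.2.length + 1) * (x.1.length + mxl x.2 + 1)) := by
  have h1 : CT (fun x : List (Ann p r) × List (List U) => (x.2, x.1))
    (fun x => size x.1 + size x.2) := CT.swap
  have h2 : CT (fun x : List (List U) × List (Ann p r) => (x.1.reverse, x.2))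
    (fun x => size x.1) := CT.first CT.reverse
  have h3 : CT (fun an : List (Ann p r) => (([] : List (List U)), an)) (fun _ => 0) :=
    CT.pushConst _
  have h4 : CT (fun x : List (List U) × List (Ann p r) => (x.2, x.1))
    (fun x => size x.1 + size x.2) := CT.swap
  have h5 : CT (fun x : List (List U) × List (Ann p r) =>
    (x.1, (x.2, ([] : List (List U))))) _ := CT.second (h4.comp h3)
  have h6 := CT.foldlEnv (m5_ct_step D)
  obtain ⟨κ, hκ⟩ := size_list_fin (Ann p r)
  obtain ⟨μ, hμ⟩ := size_grows_le U
  refine ((h6.comp (h5.comp (h2.comp h1))).mono (3 * κ + 4 * μ + 3) (fun x => ?_)).congr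
    (fun x => ?_)
  · have a1 := hκ x.1
    have a2 := hμ x.2
    have a3 : foldCost (fun y : List U × List (List U) =>
        x.1.length + y.1.length) (fun y => m5_step D ((y.1, x.1), y.2)) x.2.reverse [] ≤
        (x.1.length + mxl x.2) * x.2.reverse.length :=
      k02_foldCost_le _ _ (fun a ha s => Nat.add_le_add_left
        (k02_le_mxl (List.mem_reverse.1 ha)) _) _
    rw [List.length_reverse] at a3
    show size x.1 + size x.2 + size x.2 + (size x.2.reverse + (0 + (size ([] : List (List U)) + size x.1))) +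
      (size x.2.reverse + (x.2.reverse.length + 1) * size x.1 +
        foldCost (fun y : List U × List (List U) =>
        x.1.length + y.1.length) (fun y => m5_step D ((y.1, x.1), y.2)) x.2.reverse []) ≤ _
    rw [size_reverse, size_nil, List.length_reverse]
    set n := x.2.length
    set L := x.1.length
    set m := mxl x.2
    have b1 : κ * (L + 1) ≤ κ * ((n + 1) * (L + m + 1)) := by
      refine Nat.mul_le_mul_left _ ?_
      nlinarith
    have b2 : μ * ((n + 1) * (m + 1)) ≤ μ * ((n + 1) * (L + m + 1)) :=
      Nat.mul_le_mul_left _ (Nat.mul_le_mul_left _ (by omega))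
    have b3 : (n + 1) * size x.1 ≤ κ * ((n + 1) * (L + m + 1)) := by
      calc (n + 1) * size x.1 ≤ (n + 1) * (κ * (L + 1)) := Nat.mul_le_mul_left _ a1
        _ = κ * ((n + 1) * (L + 1)) := by ring
        _ ≤ _ := Nat.mul_le_mul_left _ (Nat.mul_le_mul_left _ (by omega))
    have b4 : (L + m) * n ≤ (n + 1) * (L + m + 1) := by nlinarith
    have b5 : (3 * κ + 4 * μ + 3) * ((n + 1) * (L + m + 1) + 1) =
      3 * (κ * ((n + 1) * (L + m + 1))) + 4 * (μ * ((n + 1) * (L + m + 1))) +
      3 * ((n + 1) * (L + m + 1)) + (3 * κ + 4 * μ + 3) := by ring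
    rw [b5]
    omega
  · show x.2.reverse.foldl (fun s a => m5_F D x.1 a ++ s) [] = gnews D x.1 x.2
    rw [m5_fold, List.reverse_reverse, List.append_nil]
    rfl

theorem gnews_length {p r : ℕ} [NeZero p] {U : Type} [AddCommGroup U] (D : GD p r U) (an : List (Ann p r))
    (rows : List (List U)) : (gnews D an rows).length = D.d * rows.length := by
  rw [m5_gnews_def]
  induction rows with
  | nil => rfl
  | cons a l ih =>
    rw [List.flatMap_cons, List.length_append, ih, m5_Flen, List.length_cons, Nat.mul_succ]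
    omega

theorem mxl_gnews_le {p r : ℕ} [NeZero p] {U : Type} [AddCommGroup U] (D : GD p r U) (an : List (Ann p r))
    (rows : List (List U)) : mxl (gnews D an rows) ≤ an.length := by
  refine k02_mxl_le (fun row hrow => ?_)
  rw [m5_gnews_def, List.mem_flatMap] at hrow
  obtain ⟨a, _, h⟩ := hrow
  exact m5_len D _ _ _ h

end Pool.Agent.WPU
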