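import Pool.Agent.Lib.MP_2da099_lc.UE.PDefs
import Pool.Agent.Lib.MP_2da099_lc.K03
import Pool.Agent.Lib.MP_2da099_lc.C10
import Pool.Agent.Lib.MP_2da099_lc.R2.P05

/-!
# M6: cost of the insertion of a row

HINTS.  `rpair b v`: `CT.zip`, `CT.transduce` (finite alphabet `U × U`, states `Fin 4`), then the maps `Prod.fst`, `Prod.snd` (`ct_map` with
`CT.fin`, or a transducer), all in `O(b.length + v.length + 1)` (sizes by `size_list_fin`).  `gins B v` by a fold over `B` with the
state (row carried on, list of the stored rows in reversed order): one step is `(b, (v, out)) ↦ ((rpair b v).2, (rpair b v).1 :: out)`,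
its cost must not contain the size of `out`: work on the upper part of the stack with `CT.first` after `CT.assocL`
(`(b, (v, out))` to `((b, v), out)`); at the end test `gisZ` of the carried row and reverse (compare `ct_ins`/`k04` in `K04.lean` and
`ct_redAll` in `K03.lean`).  All carried rows have at most the length of `v`.
-/

set_option autoImplicit false

namespace Pool.Agent.WPU

open Pool.Agent.Lib.PolyTime Pool.Agent.WPM Pool.Agent.WPR

theorem length_rpair_le {U : Type} [AddCommGroup U] (b v : List U) :
    (rpair b v).1.length ≤ v.length ∧ (rpair b v).2.length ≤ v.length ∧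
      (rpair b v).1.length ≤ b.length := by
  unfold rpair
  simp only [List.length_map, c09_length_trans, List.length_zip]
  refine ⟨?_, ?_, ?_⟩ <;> omega

theorem ct_rpair (U : Type) [AddCommGroup U] [Enc U] [Finite U] :
    CT (fun x : List U × List U => rpair x.1 x.2) (fun x => x.1.length + x.2.length) := by
  obtain ⟨κ1, hκ1⟩ := size_list_fin U
  obtain ⟨κ2, hκ2⟩ := size_list_fin (U × U)
  have hz : CT (fun x : List U × List U => x.1.zip x.2)
    (fun x => size x.1 + size x.2) := CT.zip
  have ht : CT (fun l : List (U × U) => trans rstep (0 : Fin 4) l) (fun l => l.length) :=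
    CT.transduce rstep 0
  have f1 : CT (Prod.fst : U × U → U) (fun _ => 0) := CT.fin _
  have f2 : CT (Prod.snd : U × U → U) (fun _ => 0) := CT.fin _
  have hm1 := ct_map f1
  have hm2 := ct_map f2
  have hp : CT (fun l : List (U × U) => (l.map Prod.fst, l.map Prod.snd))
      (fun l => l.length) := by
    refine (hm1.pair hm2).mono (3 * κ2 + 1) (fun l => ?_)
    have a1 := hκ2 l
    have a2 : (l.map (fun _ : U × U => 0)).sum = 0 := by simp
    show size l + (size l + (l.map (fun _ : U × U => 0)).sum) +
      (size l + (l.map (fun _ : U × U => 0)).sum) ≤ (3 * κ2 + 1) * (l.length + 1)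
    rw [a2]
    have e : (3 * κ2 + 1) * (l.length + 1) = 3 * (κ2 * (l.length + 1)) + (l.length + 1) := by ring
    omega
  refine ((hp.comp (ht.comp hz)).mono (2 * κ1 + 2) (fun x => ?_)).congr (fun x => rfl)
  have a1 := hκ1 x.1
  have a2 := hκ1 x.2
  have a3 : (x.1.zip x.2).length ≤ x.1.length := by
    rw [List.length_zip]; exact Nat.min_le_left _ _
  show size x.1 + size x.2 + (x.1.zip x.2).length + (trans rstep (0 : Fin 4) (x.1.zip x.2)).length ≤
    (2 * κ1 + 2) * (x.1.length + x.2.length + 1)
  rw [c09_length_trans]
  have e : (2 * κ1 + 2) * (x.1.length + x.2.length + 1) =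
    κ1 * (x.1.length + 1) + κ1 * (x.2.length + 1) + κ1 * (x.1.length + x.2.length) +
      2 * (x.1.length + x.2.length + 1) := by ring
  omega

theorem ct_gisZ (U : Type) [AddCommGroup U] [Enc U] [Finite U] :
    CT (gisZ : List U → Bool) (fun l => l.length) := CT.all _

private theorem m6_mxl_cons {α : Type} (b : List α) (B : List (List α)) :
    mxl (b :: B) = max b.length (mxl B) := rfl

private theorem m6_size_rows (U : Type) [Enc U] [Finite U] : ∃ κ : ℕ, ∀ (M : ℕ)
    (rows : List (List U)), (∀ r ∈ rows, r.length ≤ M) →
      size rows ≤ κ * ((rows.length + 1) * (M + 1)) := by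
  obtain ⟨κ1, hκ1⟩ := size_list_fin U
  refine ⟨κ1 + 1, fun M rows => ?_⟩
  induction rows with
  | nil =>
    intro _
    rw [size_nil]
    simp only [List.length_nil]
    have : 0 < (κ1 + 1) * ((0 + 1) * (M + 1)) := by positivity
    omega
  | cons b B ih =>
    intro hM
    have h0 := hM b List.mem_cons_self
    have h1 := ih (fun r hr => hM r (List.mem_cons_of_mem _ hr))
    have h2 := hκ1 b
    have h3 : κ1 * (b.length + 1) ≤ κ1 * (M + 1) := Nat.mul_le_mul_left _ (by omega)
    rw [size_cons, List.length_cons]
    have e1 : (κ1 + 1) * ((B.length + 1 + 1) * (M + 1)) =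
      (κ1 + 1) * ((B.length + 1) * (M + 1)) + κ1 * (M + 1) + (M + 1) := by ring
    omega

private theorem m6_mem_mxl {α : Type} (rows : List (List α)) : ∀ r ∈ rows, r.length ≤ mxl rows := by
  induction rows with
  | nil => intro r hr; simp at hr
  | cons b B ih =>
    intro r hr
    rw [m6_mxl_cons]
    rcases List.mem_cons.1 hr with rfl | h
    · exact le_max_left _ _
    · exact (ih r h).trans (le_max_right _ _)

/-- One step of the fold. -/
private noncomputable def m6_step {U : Type} [AddCommGroup U]
    (x : List U × (List U × List (List U))) : List U × List (List U) :=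
  ((rpair x.1 x.2.1).2, (rpair x.1 x.2.1).1 :: x.2.2)

private theorem m6_fold {U : Type} [AddCommGroup U] (B : List (List U)) : ∀ (v : List U)
    (out : List (List U)),
    (if gisZ (B.foldl (fun s b => m6_step (b, s)) (v, out)).1 then
      (B.foldl (fun s b => m6_step (b, s)) (v, out)).2 else
      (B.foldl (fun s b => m6_step (b, s)) (v, out)).1 ::
        (B.foldl (fun s b => m6_step (b, s)) (v, out)).2).reverse = out.reverse ++ gins B v := by
  induction B with
  | nil =>
    intro v out
    simp only [List.foldl_nil, gins]
    by_cases h : gisZ v = true <;> simp [h]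
  | cons b B ih =>
    intro v out
    rw [List.foldl_cons]
    have h := ih (rpair b v).2 ((rpair b v).1 :: out)
    have e : m6_step (b, (v, out)) = ((rpair b v).2, (rpair b v).1 :: out) := rfl
    rw [e, h]
    simp [gins]

private theorem m6_carried {U : Type} [AddCommGroup U] (B : List (List U)) : ∀ (v : List U)
    (out : List (List U)),
    (B.foldl (fun s b => m6_step (b, s)) (v, out)).1.length ≤ v.length := by
  induction B with
  | nil => intro v out; exact le_rfl
  | cons b B ih =>
    intro v out
    rw [List.foldl_cons]
    exact (ih (rpair b v).2 ((rpair b v).1 :: out)).trans (length_rpair_le b v).2.1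

private theorem m6_gins_length {U : Type} [AddCommGroup U] (B : List (List U)) : ∀ (v : List U),
    (gins B v).length ≤ B.length + 1 := by
  induction B with
  | nil =>
    intro v
    simp only [gins]
    split_ifs <;> simp
  | cons b B ih =>
    intro v
    simp only [gins, List.length_cons]
    exact Nat.succ_le_succ (ih _)

private theorem m6_gins_mem {U : Type} [AddCommGroup U] (B : List (List U)) : ∀ (v : List U),
    ∀ r ∈ gins B v, r.length ≤ v.length := by
  induction B with
  | nil =>
    intro v r hr
    simp only [gins] at hr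
    split_ifs at hr
    · simp at hr
    · rw [List.mem_singleton.1 hr]
  | cons b B ih =>
    intro v r hr
    simp only [gins] at hr
    rcases List.mem_cons.1 hr with rfl | h
    · exact (length_rpair_le b v).1
    · exact (ih _ r h).trans (length_rpair_le b v).2.1

private theorem m6_foldCost {U : Type} [AddCommGroup U] (M : ℕ) (B : List (List U)) :
    ∀ (v : List U) (out : List (List U)), (∀ r ∈ B, r.length ≤ M) →
    foldCost (fun x : List U × (List U × List (List U)) => x.1.length + x.2.1.length)
      m6_step B (v, out) ≤ B.length * (v.length + M) := by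
  induction B with
  | nil => intro v out _; simp [foldCost]
  | cons b B ih =>
    intro v out hM
    have h0 := hM b List.mem_cons_self
    have h1 := ih (rpair b v).2 ((rpair b v).1 :: out)
      (fun r hr => hM r (List.mem_cons_of_mem _ hr))
    have h2 := (length_rpair_le b v).2.1
    have h3 : B.length * ((rpair b v).2.length + M) ≤ B.length * (v.length + M) :=
      Nat.mul_le_mul_left _ (by omega)
    have e0 : m6_step (b, (v, out)) = ((rpair b v).2, (rpair b v).1 :: out) := rfl
    simp only [foldCost, List.length_cons]
    rw [e0]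
    have e : (B.length + 1) * (v.length + M) = B.length * (v.length + M) + (v.length + M) := by
      ring
    rw [e]
    omega

private theorem m6_ct_step (U : Type) [AddCommGroup U] [Enc U] [Finite U] :
    CT (m6_step : List U × (List U × List (List U)) → List U × List (List U))
      (fun x => x.1.length + x.2.1.length) := by
  obtain ⟨κ1, hκ1⟩ := size_list_fin U
  have a1 : CT (fun x : List U × (List U × List (List U)) => ((x.1, x.2.1), x.2.2))
      (fun x => size x.1) := CT.assocL
  have s1 : CT (fun x : List U × List U => (x.2, x.1)) (fun x => size x.1 + size x.2) := CT.swap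
  have a2 := s1.comp (ct_rpair U)
  have a3 := CT.first (γ := List (List U)) a2
  have a4 : CT (fun x : (List U × List U) × List (List U) => (x.1.1, (x.1.2, x.2)))
      (fun x => size x.1.1) := CT.assocR
  have a5 : CT (fun x : List U × (List U × List (List U)) => (x.1, (x.2.1 :: x.2.2)))
      (fun _ => 0) := CT.of_enc_eq (fun _ => rfl)
  refine ((a5.comp (a4.comp (a3.comp a1))).mono (4 * κ1 + 2) (fun x => ?_)).congr (fun x => rfl)
  obtain ⟨b, v, out⟩ := x
  have l := length_rpair_le b v
  have b1 := hκ1 b
  have b2 := hκ1 (rpair b v).1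
  have b3 := hκ1 (rpair b v).2
  have m2 : κ1 * ((rpair b v).1.length + 1) ≤ κ1 * (b.length + v.length + 1) :=
    Nat.mul_le_mul_left _ (by omega)
  have m3 : κ1 * ((rpair b v).2.length + 1) ≤ κ1 * (b.length + v.length + 1) :=
    Nat.mul_le_mul_left _ (by omega)
  have m1 : κ1 * (b.length + 1) ≤ κ1 * (b.length + v.length + 1) :=
    Nat.mul_le_mul_left _ (by omega)
  show size b + (b.length + v.length + (size (rpair b v).1 + size (rpair b v).2)) +
    size (rpair b v).2 + 0 ≤ (4 * κ1 + 2) * (b.length + v.length + 1)
  have e : (4 * κ1 + 2) * (b.length + v.length + 1) =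
    4 * (κ1 * (b.length + v.length + 1)) + 2 * (b.length + v.length + 1) := by ring
  omega

theorem ct_gins (U : Type) [AddCommGroup U] [Enc U] [Finite U] :
    CT (fun x : List U × List (List U) => gins x.2 x.1)
      (fun x => (x.2.length + 1) * (x.1.length + mxl x.2 + 1)) := by
  obtain ⟨κ1, hκ1⟩ := size_list_fin U
  obtain ⟨κ2, hκ2⟩ := m6_size_rows U
  -- input `(v, B) ↦ (B, (v, []))`
  have a1 : CT (fun x : List U × List (List U) => (x.2, x.1)) (fun x => size x.1 + size x.2) :=
    CT.swap
  have a2 := CT.second (γ := List (List U)) (p05_input (α := List U) ([] : List (List U)))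
  -- the fold
  have a3 := CT.foldl (m6_ct_step U)
  -- the end
  have b1 : CT (fun v : List U => v) (fun _ => 0) := CT.of_enc_eq (fun _ => rfl)
  have b2 : CT (fun v : List U => (gisZ v, v)) (fun v => size v + v.length + 0) :=
    (ct_gisZ U).pair b1
  have b3 := CT.first (γ := List (List U)) b2
  have b4 : CT (fun x : (Bool × List U) × List (List U) =>
      (x.1.1, (x.1.2, x.2))) (fun x => size x.1.1) := CT.assocR
  have c1 : CT (fun x : List U × List (List U) => x.2) (fun x => size x.1) :=
    CT.snd
  have c2 : CT (fun x : List U × List (List U) => x.1 :: x.2) (fun _ => 0) :=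
    CT.of_enc_eq (fun _ => rfl)
  have c3 := CT.bcase c1 c2
  have c4 : CT (fun l : List (List U) => l.reverse) (fun l => size l) := CT.reverse
  have all := c4.comp (c3.comp (b4.comp (b3.comp (a3.comp (a2.comp a1)))))
  refine (all.mono (5 * κ1 + 6 * κ2 + 10) (fun x => ?_)).congr (fun x => ?_)
  · obtain ⟨v, B⟩ := x
    have k := m6_fold B v []
    have s1 := hκ1 v
    have s2 := hκ2 (mxl B) B (m6_mem_mxl B)
    have s3 := hκ2 v.length (gins B v) (m6_gins_mem B v)
    have s4 := m6_foldCost (mxl B) B v [] (m6_mem_mxl B)
    have s5 := m6_carried B v []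
    have s6 := m6_gins_length B v
    generalize hR : B.foldl (fun s b => m6_step (b, s)) (v, ([] : List (List U))) = R at *
    have s7 := hκ1 R.1
    have s8 : size (gisZ R.1) ≤ 3 := by
      cases gisZ R.1 <;> simp [size]
    show size v + size B + (size B + size v) + (size B +
        foldCost (fun x : List U × (List U × List (List U)) => x.1.length + x.2.1.length)
          m6_step B (v, ([] : List (List U)))) + (size R.1 + R.1.length + 0) +
      size (gisZ R.1) + (if gisZ R.1 then size R.1 else 0) +
      size (if gisZ R.1 then R.2 else R.1 :: R.2) ≤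
      (5 * κ1 + 6 * κ2 + 10) * ((B.length + 1) * (v.length + mxl B + 1) + 1)
    have k2 : size (if gisZ R.1 then R.2 else R.1 :: R.2) = size (gins B v) := by
      rw [← size_reverse, k, List.reverse_nil, List.nil_append]
    rw [k2]
    have l1 : v.length + 1 ≤ (B.length + 1) * (v.length + mxl B + 1) := by nlinarith
    have l2 : (B.length + 1) * (mxl B + 1) ≤ (B.length + 1) * (v.length + mxl B + 1) :=
      Nat.mul_le_mul_left _ (by omega)
    have l3 : ((gins B v).length + 1) * (v.length + 1) ≤
        2 * ((B.length + 1) * (v.length + mxl B + 1)) := by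
      have : ((gins B v).length + 1) * (v.length + 1) ≤
          (2 * (B.length + 1)) * (v.length + mxl B + 1) := Nat.mul_le_mul (by omega) (by omega)
      refine this.trans (le_of_eq ?_)
      ring
    have l4 : B.length * (v.length + mxl B) ≤ (B.length + 1) * (v.length + mxl B + 1) :=
      Nat.mul_le_mul (by omega) (by omega)
    have m1 := Nat.mul_le_mul_left κ1 l1
    have m2 := Nat.mul_le_mul_left κ2 l2
    have m3 := Nat.mul_le_mul_left κ2 l3
    have m5 : κ1 * (R.1.length + 1) ≤ κ1 * (v.length + 1) := Nat.mul_le_mul_left _ (by omega)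
    have m6 : κ2 * (2 * ((B.length + 1) * (v.length + mxl B + 1))) =
      2 * (κ2 * ((B.length + 1) * (v.length + mxl B + 1))) := by ring
    generalize (B.length + 1) * (v.length + mxl B + 1) = T at *
    have e : (5 * κ1 + 6 * κ2 + 10) * (T + 1) = 5 * (κ1 * T) + 6 * (κ2 * T) + 10 * T +
      (5 * κ1 + 6 * κ2 + 10) := by ring
    rw [e]
    split_ifs <;> omega
  · obtain ⟨v, B⟩ := x
    have k := m6_fold B v []
    rw [List.reverse_nil, List.nil_append] at k
    exact k

end Pool.Agent.WPU
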