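import Pool.Agent.Lib.MP_2da099_lc.UE.PDefs
import Pool.Agent.Lib.MP_2da099_lc.UE.M6
import Pool.Agent.Lib.MP_2da099_lc.K04

/-!
# M7: cost of the pruning

HINTS.  Copy the second half of `K04.lean` (`k04_ins_length`, `k04_foldl_length`, `k04_ins_mxl`, `k04_foldl_mxl`, `mxl_prune_le`,
`k04_foldCost`, `ct_prune`) for `gins`, `gprune`: `gins B v` has at least as many rows as `B`; rows of length `≤ M` stay so
(`length_rpair_le`).
-/

set_option autoImplicit false

namespace Pool.Agent.WPU

open Pool.Agent.Lib.PolyTime Pool.Agent.WPM Pool.Agent.WPR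

private theorem m7_rows (U : Type) [Enc U] [Finite U] : ∃ κ : ℕ, ∀ rows : List (List U),
    size rows ≤ κ * ((rows.length + 1) * (mxl rows + 1)) := by
  obtain ⟨κ, hκ⟩ := size_list_fin U
  refine ⟨κ + 1, fun rows => ?_⟩
  refine (size_list_le_of (κ * (mxl rows + 1)) rows (fun row hrow => ?_)).trans ?_
  · refine (hκ row).trans (Nat.mul_le_mul_left _ ?_)
    have := (k04_mxl_le rows _).1 le_rfl row hrow
    omega
  · have a1 : (κ + 1) * ((rows.length + 1) * (mxl rows + 1)) =
      (κ * (mxl rows + 1) + (mxl rows + 1)) * (rows.length + 1) := by ring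
    rw [a1]
    refine Nat.mul_le_mul_right _ ?_
    omega

private theorem m7_ins_length {U : Type} [AddCommGroup U] (B : List (List U)) (v : List U) :
    B.length ≤ (gins B v).length := by
  induction B generalizing v with
  | nil => simp
  | cons b B ih =>
    simp only [gins, List.length_cons]
    exact Nat.succ_le_succ (ih _)

private theorem m7_foldl_length {U : Type} [AddCommGroup U] (vs B : List (List U)) :
    B.length ≤ (vs.foldl gins B).length := by
  induction vs generalizing B with
  | nil => exact le_refl _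
  | cons v vs ih => exact (m7_ins_length B v).trans (ih _)

private theorem m7_ins_mxl {U : Type} [AddCommGroup U] (M : ℕ) (B : List (List U)) (v : List U)
    (hv : v.length ≤ M) (hB : ∀ b ∈ B, b.length ≤ M) : ∀ b ∈ gins B v, b.length ≤ M := by
  induction B generalizing v with
  | nil =>
    intro b hb
    unfold gins at hb
    split_ifs at hb
    · simp at hb
    · rw [List.mem_singleton.1 hb]
      exact hv
  | cons b B ih =>
    intro b' hb'
    simp only [gins, List.mem_cons] at hb'
    rcases hb' with rfl | h
    · exact (length_rpair_le b v).1.trans hv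
    · exact ih _ ((length_rpair_le b v).2.1.trans hv)
        (fun c hc => hB c (List.mem_cons_of_mem _ hc)) b' h

private theorem m7_foldl_mxl {U : Type} [AddCommGroup U] (M : ℕ) (vs B : List (List U))
    (hv : ∀ v ∈ vs, v.length ≤ M) (hB : ∀ b ∈ B, b.length ≤ M) :
    ∀ b ∈ vs.foldl gins B, b.length ≤ M := by
  induction vs generalizing B with
  | nil => exact hB
  | cons v vs ih =>
    exact ih _ (fun v' h => hv v' (List.mem_cons_of_mem _ h))
      (m7_ins_mxl M B v (hv v List.mem_cons_self) hB)

theorem mxl_gprune_le {U : Type} [AddCommGroup U] (vs : List (List U)) :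
    mxl (gprune vs) ≤ mxl vs := by
  rw [k04_mxl_le]
  exact m7_foldl_mxl _ vs [] ((k04_mxl_le vs _).1 le_rfl) (by simp)

private theorem m7_foldCost {U : Type} [AddCommGroup U] (M : ℕ) (vs B : List (List U))
    (hv : ∀ v ∈ vs, v.length ≤ M) (hB : ∀ b ∈ B, b.length ≤ M) :
    foldCost (fun x : List U × List (List U) =>
      (x.2.length + 1) * (x.1.length + mxl x.2 + 1)) (fun x => gins x.2 x.1) vs B ≤
      vs.length * (((vs.foldl gins B).length + 1) * (2 * M + 1)) := by
  induction vs generalizing B with
  | nil => simp [foldCost]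
  | cons v vs ih =>
    have h1 := ih (gins B v) (fun v' h => hv v' (List.mem_cons_of_mem _ h))
      (m7_ins_mxl M B v (hv v List.mem_cons_self) hB)
    have h2 : B.length ≤ ((v :: vs).foldl gins B).length := m7_foldl_length (v :: vs) B
    have h3 : mxl B ≤ M := (k04_mxl_le B M).2 hB
    have h4 := hv v List.mem_cons_self
    have h5 : (B.length + 1) * (v.length + mxl B + 1) ≤
        (((v :: vs).foldl gins B).length + 1) * (2 * M + 1) :=
      Nat.mul_le_mul (by omega) (by omega)
    rw [List.foldl_cons] at h5 ⊢
    simp only [foldCost, List.length_cons]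
    have e3 : (vs.length + 1) * (((vs.foldl gins (gins B v)).length + 1) * (2 * M + 1)) =
      vs.length * (((vs.foldl gins (gins B v)).length + 1) * (2 * M + 1)) +
      ((vs.foldl gins (gins B v)).length + 1) * (2 * M + 1) := by ring
    rw [e3]
    exact (Nat.add_le_add h5 h1).trans (le_of_eq (Nat.add_comm _ _))

theorem ct_gprune (U : Type) [AddCommGroup U] [Enc U] [Finite U] :
    CT (gprune : List (List U) → List (List U))
      (fun vs => (vs.length + 1) * (((gprune vs).length + 1) * (mxl vs + 1))) := by
  obtain ⟨κ2, hκ2⟩ := m7_rows U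
  have a1 : CT (fun vs : List (List U) => (([] : List (List U)), vs))
      (fun _ => 0) := CT.pushConst []
  have a2 : CT (fun x : List (List U) × List (List U) => (x.2, x.1)) _ := CT.swap
  have a3 := CT.foldl (ct_gins U)
  refine ((a3.comp (a2.comp a1)).mono (2 * κ2 + 4) (fun vs => ?_)).congr (fun vs => rfl)
  have s1 : size vs ≤ κ2 * ((vs.length + 1) * (mxl vs + 1)) := hκ2 vs
  have s2 := m7_foldCost (mxl vs) vs [] ((k04_mxl_le vs _).1 le_rfl) (by simp)
  show 0 + (size ([] : List (List U)) + size vs) + (size vs +
    foldCost (fun x : List U × List (List U) =>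
      (x.2.length + 1) * (x.1.length + mxl x.2 + 1)) (fun x => gins x.2 x.1) vs []) ≤
    (2 * κ2 + 4) * ((vs.length + 1) * (((gprune vs).length + 1) * (mxl vs + 1)) + 1)
  rw [size_nil]
  have e0 : vs.foldl gins [] = gprune vs := rfl
  rw [e0] at s2
  have l1 : (vs.length + 1) * (mxl vs + 1) ≤
      (vs.length + 1) * (((gprune vs).length + 1) * (mxl vs + 1)) :=
    Nat.mul_le_mul_left _ (Nat.le_mul_of_pos_left _ (by omega))
  have l2 : vs.length * (((gprune vs).length + 1) * (2 * mxl vs + 1)) ≤
      2 * ((vs.length + 1) * (((gprune vs).length + 1) * (mxl vs + 1))) := by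
    have : vs.length * (((gprune vs).length + 1) * (2 * mxl vs + 1)) ≤
      (vs.length + 1) * (((gprune vs).length + 1) * (2 * (mxl vs + 1))) :=
      Nat.mul_le_mul (by omega) (Nat.mul_le_mul_left _ (by omega))
    refine this.trans (le_of_eq ?_)
    ring
  have m1 := Nat.mul_le_mul_left κ2 l1
  generalize (vs.length + 1) * (((gprune vs).length + 1) * (mxl vs + 1)) = T at *
  have e : (2 * κ2 + 4) * (T + 1) = 2 * (κ2 * T) + 4 * T + (2 * κ2 + 4) := by ring
  omega

end Pool.Agent.WPU
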