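import Pool.Agent.Lib.MP_2da099_lc.UE.PDefs
import Pool.Agent.Lib.MP_2da099_lc.UE.M5
import Pool.Agent.Lib.MP_2da099_lc.UE.M7
import Pool.Agent.Lib.MP_2da099_lc.K05

/-!
# M8: cost of one level, of the start and of the final test

HINTS.  Copy `K05.lean` for `GD` (`ct_gnews`, `ct_gprune`, `ct_growset`, `ct_gisZ`).
-/

set_option autoImplicit false

namespace Pool.Agent.WPU

open Pool.Agent.Lib.PolyTime Pool.Agent.WPM Pool.Agent.WPR

/-- The cost of one level. -/
noncomputable def glcost {p r : ℕ} [NeZero p] {U : Type} [AddCommGroup U] (D : GD p r U)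
    (x : List (Sg r) × List (List U)) : ℕ :=
  (x.2.length + 1) * (x.1.length + mxl x.2 + 1) +
    ((gnews D (ann p r x.1) x.2).length + 1) *
      (((glevel D x).2.length + 1) * (mxl (gnews D (ann p r x.1) x.2) + 1))

theorem ct_glevel {p r : ℕ} [NeZero p] {U : Type} [AddCommGroup U] [Enc U] [Finite U]
    (D : GD p r U) : CT (glevel D) (glcost D) := by
  obtain ⟨κ1, hκ1⟩ := size_list_fin (Ann p r)
  obtain ⟨κ2, hκ2⟩ := size_list_fin (Sg r)
  have a1 : CT (fun x : List (Sg r) × List (List U) => (ann p r x.1, x.2))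
      (fun x => x.1.length) := CT.first (ct_ann p r)
  have a2 : CT (fun x : List (Ann p r) × List (List U) => ((x.1, x.1), x.2))
      (fun x => size x.1) := CT.first CT.dup
  have a3 : CT (fun x : (List (Ann p r) × List (Ann p r)) × List (List U) =>
      (x.1.1, (x.1.2, x.2))) (fun x => size x.1.1) := CT.assocR
  have a4 : CT (fun x : List (Ann p r) × (List (Ann p r) × List (List U)) =>
      (nxt x.1, x.2)) (fun x => x.1.length) := CT.first (ct_nxt p r)
  have a5 : CT (fun x : List (Sg r) × (List (Ann p r) × List (List U)) =>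
      (x.1, gprune (gnews D x.2.1 x.2.2))) _ :=
    CT.second (γ := List (Sg r)) ((ct_gprune U).comp (ct_gnews D))
  have all := a5.comp (a4.comp (a3.comp (a2.comp a1)))
  refine (all.mono (2 * κ1 + κ2 + 4) (fun x => ?_)).congr (fun x => rfl)
  obtain ⟨Δs, rows⟩ := x
  have e1 : (ann p r Δs).length = Δs.length := k05_length_ann Δs
  have s1 : size (ann p r Δs) ≤ κ1 * (Δs.length + 1) := by
    have := hκ1 (ann p r Δs)
    rwa [e1] at this
  have s2 : size (nxt (ann p r Δs)) ≤ κ2 * (Δs.length + 1) := by
    refine (hκ2 _).trans (Nat.mul_le_mul_left _ (Nat.succ_le_succ ?_))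
    rw [← e1]
    exact k05_length_nxt _
  have e3 : (glevel D (Δs, rows)).2 = gprune (gnews D (ann p r Δs) rows) := rfl
  show Δs.length + size (ann p r Δs) + size (ann p r Δs) + (ann p r Δs).length +
    (size (nxt (ann p r Δs)) +
      ((rows.length + 1) * ((ann p r Δs).length + mxl rows + 1) +
      ((gnews D (ann p r Δs) rows).length + 1) *
        (((gprune (gnews D (ann p r Δs) rows)).length + 1) *
          (mxl (gnews D (ann p r Δs) rows) + 1)))) ≤
    (2 * κ1 + κ2 + 4) * (((rows.length + 1) * (Δs.length + mxl rows + 1) +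
    ((gnews D (ann p r Δs) rows).length + 1) * (((glevel D (Δs, rows)).2.length + 1) *
      (mxl (gnews D (ann p r Δs) rows) + 1))) + 1)
  rw [e3, e1]
  have l1 : Δs.length + 1 ≤ (rows.length + 1) * (Δs.length + mxl rows + 1) := by nlinarith
  have m1 := Nat.mul_le_mul_left κ1 l1
  have m2 := Nat.mul_le_mul_left κ2 l1
  generalize (rows.length + 1) * (Δs.length + mxl rows + 1) = T1 at *
  generalize ((gnews D (ann p r Δs) rows).length + 1) *
    (((gprune (gnews D (ann p r Δs) rows)).length + 1) *
      (mxl (gnews D (ann p r Δs) rows) + 1)) = T2 at *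
  have e : (2 * κ1 + κ2 + 4) * (T1 + T2 + 1) = 2 * (κ1 * T1) + κ2 * T1 + 4 * T1 +
    (2 * κ1 + κ2) * (T2 + 1) + 4 * (T2 + 1) := by ring
  rw [e]
  omega

theorem ct_gstart {p r : ℕ} [NeZero p] {U : Type} [AddCommGroup U] [Enc U] [Finite U]
    (D : GD p r U) : CT (gstart D) (fun w => w.length) := by
  obtain ⟨κ1, hκ1⟩ := size_list_fin (Ann D.q r)
  obtain ⟨κ2, hκ2⟩ := size_list_fin (Sg r)
  obtain ⟨κ3, hκ3⟩ := size_list_fin (Letter r)
  have a0 : CT (fun w : List (Letter r) => (w, w)) (fun w => size w) := CT.dup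
  have a1 : CT (fun x : List (Letter r) × List (Letter r) => (ann D.q r (incr x.1), x.2))
      (fun x => x.1.length + (incr x.1).length) := CT.first ((ct_ann D.q r).comp (ct_incr r))
  have a2 : CT (fun x : List (Ann D.q r) × List (Letter r) => ((x.1, x.1), x.2))
      (fun x => size x.1) := CT.first CT.dup
  have a3 : CT (fun x : (List (Ann D.q r) × List (Ann D.q r)) × List (Letter r) =>
      (x.1.1, (x.1.2, x.2))) (fun x => size x.1.1) := CT.assocR
  have a4 : CT (fun x : List (Ann D.q r) × (List (Ann D.q r) × List (Letter r)) =>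
      (nxt x.1, x.2)) (fun x => x.1.length) := CT.first (ct_nxt D.q r)
  have a5 : CT (fun x : List (Sg r) × (List (Ann D.q r) × List (Letter r)) =>
      (x.1, (List.finRange D.s).map
        (fun j => gbrow (fun y l => D.init y.1 y.2.1 l j) (x.2.1.zip x.2.2)))) _ :=
    CT.second (γ := List (Sg r)) (ct_growset D.s (fun j y l => D.init y.1 y.2.1 l j))
  have all := a5.comp (a4.comp (a3.comp (a2.comp (a1.comp a0))))
  refine (all.mono (2 * κ1 + κ2 + κ3 + 5) (fun w => ?_)).congr (fun w => rfl)
  have e0 : (incr w).length = w.length := k05_length_trans _ _ _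
  have e1 : (ann D.q r (incr w)).length = w.length := by rw [k05_length_ann, e0]
  have s1 : size (ann D.q r (incr w)) ≤ κ1 * (w.length + 1) := by
    have := hκ1 (ann D.q r (incr w))
    rwa [e1] at this
  have s2 : size (nxt (ann D.q r (incr w))) ≤ κ2 * (w.length + 1) := by
    refine (hκ2 _).trans (Nat.mul_le_mul_left _ (Nat.succ_le_succ ?_))
    rw [← e1]
    exact k05_length_nxt _
  have s3 : size w ≤ κ3 * (w.length + 1) := hκ3 w
  show size w + (w.length + (incr w).length) + size (ann D.q r (incr w)) +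
    size (ann D.q r (incr w)) + (ann D.q r (incr w)).length +
    (size (nxt (ann D.q r (incr w))) + ((ann D.q r (incr w)).length + w.length)) ≤
    (2 * κ1 + κ2 + κ3 + 5) * (w.length + 1)
  rw [e0, e1]
  have e : (2 * κ1 + κ2 + κ3 + 5) * (w.length + 1) = 2 * (κ1 * (w.length + 1)) +
    κ2 * (w.length + 1) + κ3 * (w.length + 1) + 5 * (w.length + 1) := by ring
  omega

theorem ct_gfinish (r : ℕ) (U : Type) [AddCommGroup U] [Enc U] [Finite U] :
    CT (gfinish : List (Sg r) × List (List U) → Bool)
      (fun x => x.1.length + (x.2.length + 1) * (mxl x.2 + 1)) := by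
  obtain ⟨κ1, hκ1⟩ := size_list_fin (Sg r)
  obtain ⟨κ2, hκ2⟩ := size_grows_le U
  have a1 : CT (fun x : List (Sg r) × List (List U) => x.2) (fun x => size x.1) := CT.snd
  have a2 : CT (fun x : List (List U) => (true, x)) (fun _ => 0) := CT.pushConst true
  have a3 : CT (fun x : Bool × List (List U) => (x.2, x.1))
      (fun x => size x.1 + size x.2) := CT.swap
  have b1 : CT (fun x : List U × Bool => (gisZ x.1, x.2)) (fun x => x.1.length) :=
    CT.first (ct_gisZ U)
  have b2 : CT (fun x : Bool × Bool => x.1 && x.2) (fun _ => 0) := CT.fin _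
  have b3 : CT (fun x : List U × Bool => gisZ x.1 && x.2) (fun x => x.1.length + 0) :=
    b2.comp b1
  have a4 := CT.foldl b3
  have all := a4.comp (a3.comp (a2.comp a1))
  refine (all.mono (κ1 + 2 * κ2 + 5) (fun x => ?_)).congr (fun x => ?_)
  · obtain ⟨Δs, rows⟩ := x
    have s1 : size Δs ≤ κ1 * (Δs.length + 1) := hκ1 Δs
    have s2 : size rows ≤ κ2 * ((rows.length + 1) * (mxl rows + 1)) := hκ2 rows
    have s3 := k05_foldCost 0 (mxl rows) (fun x : List U × Bool => gisZ x.1 && x.2)
      rows true ((k04_mxl_le rows _).1 le_rfl)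
    have s4 : size true = 3 := by simp [size]
    show size Δs + 0 + (size true + size rows) + (size rows +
      foldCost (fun x : List U × Bool => x.1.length + 0) (fun x => gisZ x.1 && x.2)
        rows true) ≤
      (κ1 + 2 * κ2 + 5) * (Δs.length + (rows.length + 1) * (mxl rows + 1) + 1)
    have l1 : rows.length * (mxl rows + 0) ≤ (rows.length + 1) * (mxl rows + 1) :=
      Nat.mul_le_mul (by omega) (by omega)
    generalize (rows.length + 1) * (mxl rows + 1) = T at *
    have e : (κ1 + 2 * κ2 + 5) * (Δs.length + T + 1) = κ1 * (Δs.length + 1) + κ1 * T +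
      2 * κ2 * (Δs.length + 1) + 2 * (κ2 * T) + 5 * (Δs.length + T + 1) := by ring
    rw [e]
    omega
  · obtain ⟨Δs, rows⟩ := x
    show rows.foldl (fun s a => gisZ a && s) true = rows.all gisZ
    have key : ∀ (l : List (List U)) (b : Bool),
        l.foldl (fun s a => gisZ a && s) b = (l.all gisZ && b) := by
      intro l
      induction l with
      | nil => intro b; simp
      | cons a l ih =>
        intro b
        rw [List.foldl_cons, ih, List.all_cons]
        cases gisZ a <;> cases b <;> cases l.all gisZ <;> rfl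
    rw [key, Bool.and_true]

end Pool.Agent.WPU
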