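import Pool.Agent.Lib.MP_2da099_lc.UE.PDefs
import Pool.Agent.Lib.MP_2da099_lc.UE.M2b
import Pool.Agent.Lib.MP_2da099_lc.UE.M4
import Pool.Agent.Lib.MP_2da099_lc.UE.M8
import Pool.Agent.Lib.MP_2da099_lc.UE.Q0
import Pool.Agent.Lib.MP_2da099_lc.K06
import Pool.Agent.Lib.MP_2da099_lc.F02

/-!
# M9: sound data give a decision procedure in time n ^ 4

HINTS.  Choose an encoding of `U` (`encFintype`).  `ct_gdecide` as in `K06.lean`: the cost of `gdecide D` is the cost of the start, of the
levels (`foldCost` of `glcost`) and of the final test.  `NeZero p` from `Fact p.Prime`.  Bounds (much cruder than in `F02.lean`): let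
`x_k = (glevel D)^[k] (gstart D w)`; `x_k.1.length ≤ n + 1`, all rows of `x_k` have the length `x_k.1.length`
(`gstart_rows`, `glevel_rows`), `x_k.2.length ≤ D.s + card U * (n + 1)` (`gstart_card`, `gprune_card`), so
`glcost D x_k ≤ C (n + 1) ^ 3`, there are `n` levels: `f02_foldCost_iter`, total `≤ C (n + 1) ^ 4 ≤ C * TB n`.  Correctness:
`gdecide_iff`.
-/

set_option autoImplicit false

namespace Pool.Agent.WPU

open Pool.Agent.Lib.PolyTime Pool.Agent.WPM Pool.Agent.WPR

/-- The cost of the decision procedure. -/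
private noncomputable def m9_dcost {p r : ℕ} [NeZero p] {U : Type} [AddCommGroup U] (D : GD p r U)
    (w : List (Letter r)) : ℕ :=
  w.length + foldCost (fun y => glcost D y.2) (fun y => glevel D y.2) w (gstart D w) +
    ((w.foldl (fun x _ => glevel D x) (gstart D w)).1.length +
      ((w.foldl (fun x _ => glevel D x) (gstart D w)).2.length + 1) *
        (mxl (w.foldl (fun x _ => glevel D x) (gstart D w)).2 + 1))

private theorem m9_ct_gdecide {p r : ℕ} [NeZero p] {U : Type} [AddCommGroup U] [Enc U] [Finite U]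
    (D : GD p r U) : CT (gdecide D) (m9_dcost D) := by
  obtain ⟨κ, hκ⟩ := size_fin (Letter r)
  obtain ⟨κ3, hκ3⟩ := size_list_fin (Letter r)
  have a1 : CT (fun w : List (Letter r) => (w, w)) (fun w => size w) := CT.dup
  have a2 : CT (fun x : List (Letter r) × List (Letter r) => (x.1, gstart D x.2)) _ :=
    CT.second (γ := List (Letter r)) (ct_gstart D)
  have b1 : CT (fun x : Letter r × (List (Sg r) × List (List U)) => x.2)
      (fun x => size x.1) := CT.snd
  have b2 : CT (fun x : Letter r × (List (Sg r) × List (List U)) => glevel D x.2)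
      (fun x => size x.1 + glcost D x.2) := (ct_glevel D).comp b1
  have a3 := CT.foldl b2
  have a4 := ct_gfinish r U
  have all := a4.comp (a3.comp (a2.comp a1))
  refine (all.mono (3 * κ3 + κ + 3) (fun w => ?_)).congr (fun w => rfl)
  have s1 : size w ≤ κ3 * (w.length + 1) := hκ3 w
  have s2 := k06_foldCost_add (fun y : Letter r × (List (Sg r) × List (List U)) =>
    glcost D y.2) (fun a => size a) (fun y => glevel D y.2) κ hκ w (gstart D w)
  show size w + (size w + w.length) + (size w +
      foldCost (fun y : Letter r × (List (Sg r) × List (List U)) =>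
        size y.1 + glcost D y.2) (fun y => glevel D y.2) w (gstart D w)) +
    ((w.foldl (fun x _ => glevel D x) (gstart D w)).1.length +
      ((w.foldl (fun x _ => glevel D x) (gstart D w)).2.length + 1) *
        (mxl (w.foldl (fun x _ => glevel D x) (gstart D w)).2 + 1)) ≤
    (3 * κ3 + κ + 3) * (m9_dcost D w + 1)
  unfold m9_dcost
  generalize foldCost (fun y : Letter r × (List (Sg r) × List (List U)) =>
    glcost D y.2) (fun y => glevel D y.2) w (gstart D w) = F at *
  generalize ((w.foldl (fun x _ => glevel D x) (gstart D w)).1.length +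
      ((w.foldl (fun x _ => glevel D x) (gstart D w)).2.length + 1) *
        (mxl (w.foldl (fun x _ => glevel D x) (gstart D w)).2 + 1)) = G at *
  have e : (3 * κ3 + κ + 3) * (w.length + F + G + 1) = 3 * (κ3 * (w.length + 1)) +
    3 * κ3 * (F + G) + κ * w.length + κ * (F + G + 1) + 3 * (w.length + F + G + 1) := by ring
  rw [e]
  omega

private theorem m9_le_TB (n : ℕ) : (n + 1) ^ 4 ≤ TB n := by
  unfold TB
  have h1 : 1 ≤ lg n ^ 2 := Nat.one_le_pow _ _ (Nat.succ_pos _)
  calc (n + 1) ^ 4 = (n + 1) ^ 4 * 1 := (Nat.mul_one _).symm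
    _ ≤ (n + 1) ^ 4 * lg n ^ 2 := Nat.mul_le_mul_left _ h1

private theorem m9_cost {p r : ℕ} [Fact p.Prime] [NeZero p] {U : Type} [AddCommGroup U]
    [Fintype U] (D : GD p r U) : ∃ C : ℕ, ∀ w : List (Letter r),
      m9_dcost D w ≤ C * (w.length + 1) ^ 4 := by
  have hp1 : 0 < p := (Fact.out : p.Prime).pos
  obtain ⟨A, hA⟩ : ∃ A, A = D.s + Fintype.card U + 1 := ⟨_, rfl⟩
  refine ⟨1 + (2 * A + (D.d + 1) * A * A) + (1 + A), fun w => ?_⟩
  set x : ℕ → List (Sg r) × List (List U) := fun k => (glevel D)^[k] (gstart D w) with hx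
  have hx0 : x 0 = gstart D w := rfl
  have hxs : ∀ k, x (k + 1) = glevel D (x k) := fun k => Function.iterate_succ_apply' _ _ _
  have hrows : ∀ k, ∀ row ∈ (x k).2, row.length = (x k).1.length := by
    intro k
    induction k with
    | zero => exact gstart_rows D w
    | succ k ih => rw [hxs]; exact glevel_rows D (x k) ih
  have hN : ∀ k, (x k).1.length ≤ w.length := by
    intro k
    induction k with
    | zero =>
      rw [hx0, gstart_length_fst]
      have hq : 0 < D.q := Nat.pos_of_ne_zero D.hq.ne
      rw [Nat.div_le_iff_le_mul_add_pred hq]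
      have h1 : w.length ≤ D.q * w.length := Nat.le_mul_of_pos_left _ hq
      omega
    | succ k ih =>
      rw [hxs, glevel_length_fst]
      refine le_trans ?_ ih
      rw [Nat.div_le_iff_le_mul_add_pred hp1]
      have h1 : (x k).1.length ≤ p * (x k).1.length := Nat.le_mul_of_pos_left _ hp1
      omega
  have hmx : ∀ k, mxl (x k).2 ≤ w.length := fun k =>
    mxl_le _ _ (fun row hr => ((hrows k row hr).le).trans (hN k))
  have hR : ∀ k, (x k).2.length + 1 ≤ A * (w.length + 1) := by
    intro k
    have e : A * (w.length + 1) = D.s * (w.length + 1) + Fintype.card U * (w.length + 1) +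
        (w.length + 1) := by rw [hA]; ring
    cases k with
    | zero =>
      rw [hx0, gstart_card]
      have h1 : D.s * 1 ≤ D.s * (w.length + 1) := Nat.mul_le_mul_left _ (by omega)
      omega
    | succ k =>
      have h1 : (x (k + 1)).2 = gprune (gnews D (ann p r (x k).1) (x k).2) := by
        rw [hxs]; rfl
      have h2 : (gprune (gnews D (ann p r (x k).1) (x k).2)).length ≤
          Fintype.card U * (x (k + 1)).1.length := by
        refine gprune_card _ _ (fun v hv => ?_)
        rw [hxs]
        exact gnews_rows D (x k) (hrows k) v hv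
      rw [h1]
      have h3 : Fintype.card U * (x (k + 1)).1.length ≤ Fintype.card U * (w.length + 1) :=
        Nat.mul_le_mul_left _ ((hN (k + 1)).trans (Nat.le_succ _))
      omega
  have hlc : ∀ k, glcost D (x k) ≤ (2 * A + (D.d + 1) * A * A) * (w.length + 1) ^ 3 := by
    intro k
    have h1 := hR k
    have h2 : (glevel D (x k)).2.length + 1 ≤ A * (w.length + 1) := by
      have := hR (k + 1)
      rwa [hxs] at this
    have h3 : mxl (gnews D (ann p r (x k).1) (x k).2) + 1 ≤ w.length + 1 := by
      refine Nat.succ_le_succ (mxl_le _ _ (fun row hr => ?_))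
      have h4 := gnews_rows D (x k) (hrows k) row hr
      have h5 := hN (k + 1)
      rw [hxs] at h5
      exact h4.le.trans h5
    have h6 : (x k).1.length + mxl (x k).2 + 1 ≤ 2 * (w.length + 1) := by
      have := hN k
      have := hmx k
      omega
    have h7 : (gnews D (ann p r (x k).1) (x k).2).length + 1 ≤ (D.d + 1) * (A * (w.length + 1)) := by
      rw [gnews_length]
      have h8 : D.d * (x k).2.length ≤ D.d * (A * (w.length + 1)) :=
        Nat.mul_le_mul_left _ (by omega)
      have e : (D.d + 1) * (A * (w.length + 1)) = D.d * (A * (w.length + 1)) +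
        A * (w.length + 1) := by ring
      omega
    unfold glcost
    have h9 : ((x k).2.length + 1) * ((x k).1.length + mxl (x k).2 + 1) ≤
        A * (w.length + 1) * (2 * (w.length + 1)) := Nat.mul_le_mul h1 h6
    have h10 : ((gnews D (ann p r (x k).1) (x k).2).length + 1) *
        (((glevel D (x k)).2.length + 1) * (mxl (gnews D (ann p r (x k).1) (x k).2) + 1)) ≤
        (D.d + 1) * (A * (w.length + 1)) * (A * (w.length + 1) * (w.length + 1)) :=
      Nat.mul_le_mul h7 (Nat.mul_le_mul h2 h3)
    refine (Nat.add_le_add h9 h10).trans ?_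
    have h11 : (w.length + 1) ^ 2 ≤ (w.length + 1) ^ 3 :=
      Nat.pow_le_pow_right (Nat.succ_pos _) (by norm_num)
    calc A * (w.length + 1) * (2 * (w.length + 1)) +
        (D.d + 1) * (A * (w.length + 1)) * (A * (w.length + 1) * (w.length + 1))
        = 2 * A * (w.length + 1) ^ 2 + (D.d + 1) * A * A * (w.length + 1) ^ 3 := by ring
      _ ≤ 2 * A * (w.length + 1) ^ 3 + (D.d + 1) * A * A * (w.length + 1) ^ 3 :=
        Nat.add_le_add_right (Nat.mul_le_mul_left _ h11) _
      _ = _ := by ring
  have hfold : foldCost (fun y : Letter r × _ => glcost D y.2) (fun y => glevel D y.2) w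
      (gstart D w) ≤ (2 * A + (D.d + 1) * A * A) * (w.length + 1) ^ 4 := by
    rw [f02_foldCost_iter (glcost D) (glevel D)]
    refine (Finset.sum_le_sum (fun k _ => hlc k)).trans ?_
    rw [Finset.sum_const, Finset.card_range, smul_eq_mul]
    calc w.length * ((2 * A + (D.d + 1) * A * A) * (w.length + 1) ^ 3)
        ≤ (w.length + 1) * ((2 * A + (D.d + 1) * A * A) * (w.length + 1) ^ 3) :=
          Nat.mul_le_mul_right _ (Nat.le_succ _)
      _ = _ := by ring
  have hfin : w.foldl (fun x _ => glevel D x) (gstart D w) = x w.length :=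
    List.foldl_const _ _ _
  have h1 : w.length + 1 ≤ (w.length + 1) ^ 4 := Nat.le_self_pow (by norm_num) _
  have h2 : (w.length + 1) ^ 2 ≤ (w.length + 1) ^ 4 :=
    Nat.pow_le_pow_right (Nat.succ_pos _) (by norm_num)
  have h3 : ((x w.length).2.length + 1) * (mxl (x w.length).2 + 1) ≤
      A * (w.length + 1) ^ 4 := by
    refine (Nat.mul_le_mul (hR w.length) (Nat.succ_le_succ (hmx w.length))).trans ?_
    calc A * (w.length + 1) * (w.length + 1) = A * (w.length + 1) ^ 2 := by ring
      _ ≤ _ := Nat.mul_le_mul_left _ h2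
  have h4 := hN w.length
  unfold m9_dcost
  rw [hfin]
  have e : (1 + (2 * A + (D.d + 1) * A * A) + (1 + A)) * (w.length + 1) ^ 4 =
      (w.length + 1) ^ 4 + (2 * A + (D.d + 1) * A * A) * (w.length + 1) ^ 4 +
      ((w.length + 1) ^ 4 + A * (w.length + 1) ^ 4) := by ring
  rw [e]
  refine Nat.add_le_add (Nat.add_le_add (by omega) hfold) (Nat.add_le_add (by omega) h3)

theorem dec_of_sound {p r : ℕ} [Fact p.Prime] [NeZero p] {U : Type} [AddCommGroup U] [Finite U]
    (D : GD p r U) (Z : List (Letter r) → Prop) (h : D.Sound Z) : Dec TB Z := by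
  classical
  let _ : Fintype U := Fintype.ofFinite U
  let _ : Enc U := encFintype U
  obtain ⟨C, hC⟩ := m9_cost D
  exact ⟨gdecide D, m9_dcost D, C, m9_ct_gdecide D, gdecide_iff D Z h, fun w =>
    (hC w).trans (Nat.mul_le_mul_left _ (m9_le_TB _))⟩

end Pool.Agent.WPU
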