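import Pool.Agent.Lib.MP_2da099_lc.UE.PDefs
import Pool.Agent.Lib.MP_2da099_lc.UE.B1
import Pool.Agent.Lib.MP_2da099_lc.UE.B8
import Pool.Agent.Lib.MP_2da099_lc.UE.B9b
import Pool.Agent.Lib.MP_2da099_lc.UE.M9
import Pool.Agent.Lib.MP_2da099_lc.UE.F1
import Pool.Agent.Lib.MP_2da099_lc.UE.F2
import Pool.Agent.Lib.MP_2da099_lc.UE.A1

/-!
# F3: all finitely generated metabelian groups

HINTS.  `dec_comp_p`: `exists_pdata`, `exists_sound` (with `N = p ^ (k + 1)`), `dec_of_sound`, `Dec.congr`.  `dec_submodule_all`: `exists_comps_all`, in each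
component `dec_comp` (row F1) or `dec_comp_p`; `dec_forall le_TB`.
-/

set_option autoImplicit false

namespace Pool.Agent.WPU

open Pool.Agent.Lib.PolyTime Pool.Agent.WPM Pool.Agent.WPR

theorem dec_comp_p {r : ℕ} (Q : Submodule (LamZ r) (Letter r → LamZ r)) (P : Ideal (LamZ r))
    [P.IsPrime] (p : ℕ) (hp : p.Prime) (hpP : (p : LamZ r) ∈ P)
    (h1 : ∀ f, f ∉ P → ∀ x, f • x ∈ Q → x ∈ Q) (k : ℕ) (h2 : ∀ f ∈ P ^ k, ∀ x, f • x ∈ Q) :
    Dec TB (fun w : List (Letter r) => vecW w ∈ Q) := by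
  have : Fact p.Prime := ⟨hp⟩
  have : NeZero p := ⟨hp.ne_zero⟩
  obtain ⟨O, iO, t, d, s, q, hq, ξ, yu, φ, α, hp0, hinj, hφ, hgen, hw⟩ :=
    exists_pdata Q P p hpP h1 k h2
  have hN0 : ((p ^ (k + 1) : ℕ) : O) = 0 := by
    rw [Nat.cast_pow, hp0]
  obtain ⟨U, iU, fU, D, hD⟩ := exists_sound (p := p) (N := p ^ (k + 1))
    (pow_pos hp.pos _) hN0 ξ yu φ α hinj hφ hgen
  exact (dec_of_sound D _ hD).congr (fun w => (hw w).symm)

theorem dec_submodule_all {r : ℕ} (N : Submodule (LamZ r) (Letter r → LamZ r)) :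
    Dec TB (fun w : List (Letter r) => vecW w ∈ N) := by
  obtain ⟨m, Q, P, h1, h2⟩ := exists_comps_all N
  refine (dec_forall le_TB m (fun i w => vecW w ∈ Q i) (fun i => ?_)).congr
    (fun w => (h1 (vecW w)).symm)
  obtain ⟨hP, hZ, hf, k, hk⟩ := h2 i
  have := hP
  rcases hZ with hZ | ⟨p, hp, hpP⟩
  · exact dec_comp (Q i) (P i) hZ hf k hk
  · exact dec_comp_p (Q i) (P i) p hp hpP hf k hk

universe u

theorem dec_group_all {G : Type u} [Group G] (A : Subgroup G) [A.Normal]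
    (hcomm : ∀ a ∈ A, ∀ b ∈ A, a * b = b * a)
    (hquot : ∀ x y : G, x * y * x⁻¹ * y⁻¹ ∈ A) {r : ℕ} (g : Fin r → G) :
    Dec TB (fun w : List (Letter r) => value g w = 1) := by
  obtain ⟨N, h1, -⟩ := exists_kernel A hcomm hquot g
  exact (dec_submodule_all N).congr (fun w => (h1 w).symm)

end Pool.Agent.WPU
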