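import Pool.Agent.Lib.MP_2da099_lc.UE.Defs
import Mathlib.Algebra.CharP.Defs
import Mathlib.Algebra.Field.Subfield.Basic
import Mathlib.RingTheory.Nilpotent.Defs

/-!
# Word problems of metabelian groups, uniform exponent, torsion: definitions
-/

set_option autoImplicit false

namespace Pool.Agent.WPU

open Pool.Agent.Lib.PolyTime Pool.Agent.WPM Pool.Agent.WPR

/-! ### The algorithm over a finite abelian group of coefficients -/

/-- Sums over the blocks. -/
def gbrow {q r : ℕ} {U X : Type} [AddCommGroup U] (h : Ann q r → X → U) (l : List (Ann q r × X)) :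
    List U :=
  (l.foldr (fun y s => if y.1.2.2.isSome then (0, (h y.1 y.2 + s.1) :: s.2)
    else (h y.1 y.2 + s.1, s.2)) ((0 : U), ([] : List U))).2

section

variable {U : Type} [AddCommGroup U]

open Classical in
/-- Comparison of two rows `b`, `v` (one item): the modes are `0` (nothing seen yet but zeros), `1` (no
change), `2` (exchange), `3` (subtract `b` from `v`). -/
noncomputable def rmode (m : Fin 4) (x : U × U) : Fin 4 :=
  if m = 0 then (if x.1 = 0 then (if x.2 = 0 then 0 else 2) else
    (if x.2 = 0 then 1 else (if x.1 = x.2 then 3 else 1))) else m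

/-- One item of the new pair of rows. -/
noncomputable def rstep (m : Fin 4) (x : U × U) : Fin 4 × (U × U) :=
  (rmode m x, if rmode m x = 2 then (x.2, x.1) else
    if rmode m x = 3 then (x.1, x.2 - x.1) else x)

/-- The new pair of rows: the row to be stored and the row to be carried on. -/
noncomputable def rpair (b v : List U) : List U × List U :=
  (((trans rstep (0 : Fin 4) (b.zip v)).map Prod.fst), ((trans rstep (0 : Fin 4) (b.zip v)).map Prod.snd))

open Classical in
/-- Test whether a row is zero. -/
noncomputable def gisZ (v : List U) : Bool := v.all (fun u => decide (u = 0))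

/-- Insertion of a row in a list of rows. -/
noncomputable def gins : List (List U) → List U → List (List U)
  | [], v => if gisZ v then [] else [v]
  | b :: B, v => (rpair b v).1 :: gins B (rpair b v).2

/-- Removal of superfluous rows. -/
noncomputable def gprune (vs : List (List U)) : List (List U) := vs.foldl gins []

/-- The value of a row. -/
def gval {r : ℕ} {K : Type} [AddCommGroup K] (V : (Fin r → ℤ) → U →+ K) (cs : List (Fin r → ℤ))
    (row : List U) : K := (List.zipWith (fun c u => V c u) cs row).sum

end

/-- The finite data of the algorithm. -/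
structure GD (p r : ℕ) (U : Type) where
  /-- modulus of the first step -/
  q : ℕ
  hq : NeZero q
  /-- number of digits -/
  d : ℕ
  /-- number of initial rows -/
  s : ℕ
  /-- the step map -/
  step : (Fin r → Fin p) → Sg r → Fin d → U → U
  /-- the initial coefficients -/
  init : (Fin r → Fin q) → Sg r → Letter r → Fin s → U

attribute [instance] GD.hq

section

variable {p r : ℕ} [NeZero p] {U : Type} [AddCommGroup U]

/-- The rows of the next level, before pruning. -/
noncomputable def gnews (D : GD p r U) (an : List (Ann p r)) (rows : List (List U)) :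
    List (List U) :=
  rows.flatMap (fun row => (List.finRange D.d).map
    (fun j => gbrow (fun y u => D.step y.1 y.2.1 j u) (an.zip row)))

/-- One level. -/
noncomputable def glevel (D : GD p r U) (x : List (Sg r) × List (List U)) :
    List (Sg r) × List (List U) :=
  (nxt (ann p r x.1), gprune (gnews D (ann p r x.1) x.2))

/-- The initial state. -/
noncomputable def gstart (D : GD p r U) (w : List (Letter r)) : List (Sg r) × List (List U) :=
  (nxt (ann D.q r (incr w)), (List.finRange D.s).map
    (fun j => gbrow (fun y l => D.init y.1 y.2.1 l j) ((ann D.q r (incr w)).zip w)))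

/-- The final test. -/
noncomputable def gfinish (x : List (Sg r) × List (List U)) : Bool := x.2.all gisZ

/-- The decision procedure. -/
noncomputable def gdecide (D : GD p r U) (w : List (Letter r)) : Bool :=
  gfinish (w.foldl (fun x _ => glevel D x) (gstart D w))

/-- The data `D` decide the predicate `Z` on words. -/
def GD.Sound (D : GD p r U) (Z : List (Letter r) → Prop) : Prop :=
  ∃ (K : Type) (_ : AddCommGroup K) (V : (Fin r → ℤ) → U →+ K),
    (∀ c, Function.Injective (V c)) ∧
    (∀ (c : Fin r → ℤ) (δ : Sg r) (a : Fin r → Fin p) (j : Fin D.d) (u : U),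
      V (c + sz δ) (D.step a (fun _ => 0) j u) = V c (D.step a δ j u)) ∧
    (∀ l : List ((Fin r → ℤ) × U), (l.map (fun x => V x.1 x.2)).sum = 0 ↔
      ∀ j, (l.map (fun x => V (fl p x.1) (D.step (md p x.1) (fun _ => 0) j x.2))).sum = 0) ∧
    (∀ (c : Fin r → ℤ) (δ : Sg r) (a : Fin r → Fin D.q) (l : Letter r) (j : Fin D.s),
      V (c + sz δ) (D.init a (fun _ => 0) l j) = V c (D.init a δ l j)) ∧
    (∀ w, Z w ↔ ∀ j, ((posl 0 w).map
      (fun x => V (fl D.q x.1) (D.init (md D.q x.1) (fun _ => 0) x.2 j))).sum = 0)

end

/-! ### Lifts of fields of characteristic `p` -/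

/-- A flat lift modulo `p ^ e` of a field of characteristic `p`, with a separating transcendence
basis. -/
structure PLift (p e : ℕ) (K : Type) [Field K] where
  /-- the ring -/
  O : Type
  [ring : CommRing O]
  /-- the reduction -/
  π : O →+* K
  /-- number of parameters -/
  t : ℕ
  /-- the parameters -/
  y : Fin t → O
  surj : Function.Surjective π
  yne : ∀ i, π (y i) ≠ 0
  ker : ∀ x, π x = 0 ↔ ∃ z, x = (p : O) * z
  pe : (p : O) ^ e = 0
  flat : ∀ (i : ℕ) (x : O), i ≤ e → (p : O) ^ i * x = 0 → ∃ z, x = (p : O) ^ (e - i) * z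
  lift : ∀ (R : Type) [CommRing R] (K' : Type) [Field K'] (ρ : R →+* K') (f : O →+* K')
    (yy : Fin t → R), Function.Surjective ρ → (∀ x, ρ x = 0 → IsNilpotent x) →
    (p : R) ^ e = 0 → (∀ i, ρ (yy i) = f (y i)) →
    ∃ F : O →+* R, (∀ x, ρ (F x) = f x) ∧ ∀ i, F (y i) = yy i
  sep : ∀ (S : Set K), Subfield.closure S = ⊤ → ∀ M : ℕ,
    Subfield.closure (Set.range (fun i => π (y i)) ∪ (fun x => x ^ p ^ M) '' S) = ⊤

attribute [instance] PLift.ring

/-- The products of powers of units. -/
def upow {O : Type} [CommRing O] {r : ℕ} (u : Fin r → Oˣ) (v : Fin r → ℤ) : O :=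
  ((∏ i, u i ^ v i : Oˣ) : O)

end Pool.Agent.WPU
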